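import Pool.Agent.H543R3.PP.Defs
import Pool.Agent.H555R2.PF.Main

/-!
# Project PP: assembly
-/

set_option autoImplicit false

namespace Pool.Agent.H543R3.PP

open Pool.Agent.H555R2.PF Pool.Agent.H555R2.PF.Fm

/-! ### easy lemmas -/

theorem subProof_cut {F : List Rule} {K : ℕ} {L : List Fm} (h : SubProof F K L) {B : Fm}
    (hB : B ∈ L) : ∃ L', SubProof F K (B :: L') ∧ psize (B :: L') ≤ psize L := by
  induction h with
  | nil => simp at hB
  | @rule L C hL hC hv ih =>
    rcases List.mem_cons.1 hB with rfl | hB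
    · exact ⟨L, SubProof.rule hL hC hv, le_rfl⟩
    · obtain ⟨L', h1, h2⟩ := ih hB
      exact ⟨L', h1, by rw [psize_cons C]; omega⟩
  | @subst L A σ hL hA hv ih =>
    rcases List.mem_cons.1 hB with rfl | hB
    · exact ⟨L, SubProof.subst hL hA hv, le_rfl⟩
    · obtain ⟨L', h1, h2⟩ := ih hB
      exact ⟨L', h1, by rw [psize_cons (A.subst σ)]; omega⟩

theorem ssub_mono {F : List Rule} {N N' : ℕ} {L : List Fm} (h : SSub F N L) (hN : N ≤ N') :
    SSub F N' L := by
  induction h with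
  | nil => exact SSub.nil
  | rule hL hB hv ih => exact SSub.rule ih hB fun x hx => (hv x hx).trans_le hN
  | ssub hL hA hq hχ ih =>
    exact SSub.ssub ih hA (hq.trans_le hN) fun x hx => (hχ x hx).trans_le hN

theorem subProof_vars {F : List Rule} {K : ℕ} {L : List Fm} (h : SubProof F K L) :
    ∀ B ∈ L, ∀ x ∈ B.vars, x < K := by
  induction h with
  | nil => simp
  | rule hL hB hv ih =>
    intro C hC
    rcases List.mem_cons.1 hC with rfl | hC
    · exact hv
    · exact ih C hC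
  | subst hL hA hv ih =>
    intro C hC
    rcases List.mem_cons.1 hC with rfl | hC
    · exact hv
    · exact ih C hC

theorem impL_size (Ds : List Fm) (A : Fm) :
    (impL Ds A).size = psize Ds + Ds.length + A.size := by
  induction Ds with
  | nil => simp [impL, psize]
  | cons D Ds ih =>
    have : impL (D :: Ds) A = imp D (impL Ds A) := rfl
    rw [this, size, ih, psize_cons, List.length_cons]; omega

theorem psize_const {ι : Type} (f : ι → Fm) (k : ℕ) (hf : ∀ i, (f i).size = k) (l : List ι) :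
    psize (l.map f) = k * l.length := by
  induction l with
  | nil => simp [psize]
  | cons i l ih => rw [List.map_cons, psize_cons, ih, hf, List.length_cons]; ring

theorem dualRail_size (n : ℕ) (A : Fm) : (dualRail n A).size = 9 * n + A.size := by
  rw [dualRail, impL_size, psize_const _ 8 (by intro i; simp [iff, size])]
  simp only [List.length_map, List.length_range]; omega

theorem impL_vars {Ds : List Fm} {A : Fm} {x : ℕ} (h : x ∈ (impL Ds A).vars) :
    (∃ D ∈ Ds, x ∈ D.vars) ∨ x ∈ A.vars := by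
  induction Ds with
  | nil => exact Or.inr h
  | cons D Ds ih =>
    have : impL (D :: Ds) A = imp D (impL Ds A) := rfl
    rw [this, vars, Finset.mem_union] at h
    rcases h with h | h
    · exact Or.inl ⟨D, by simp, h⟩
    · rcases ih h with ⟨C, hC, h⟩ | h
      · exact Or.inl ⟨C, by simp [hC], h⟩
      · exact Or.inr h

theorem dualRail_vars {n : ℕ} {A : Fm} (hA : ∀ x ∈ A.vars, x < n) {x : ℕ}
    (h : x ∈ (dualRail n A).vars) : x < 2 * n := by
  rcases impL_vars h with ⟨D, hD, h⟩ | h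
  · obtain ⟨i, hi, rfl⟩ := List.mem_map.1 hD
    have hi' := List.mem_range.1 hi
    simp only [iff, vars, Finset.mem_union, Finset.mem_singleton] at h
    omega
  · have := hA x h; omega

theorem one_le_of_vars {n : ℕ} {A : Fm} (hA : ∀ x ∈ A.vars, x < n) : 1 ≤ n := by
  obtain ⟨x, hx⟩ := vars_nonempty A
  have := hA x hx
  omega

/-- weakening -/
theorem weak {F : List Rule} (hF : IsFrege F) : ∃ c : ℕ, ∀ (S : Set ℕ) (P : List Fm → Prop),
    Sys F S P → ∀ (Ds : List Fm) (A : Fm) (M : ℕ), 1 ≤ M → (impL Ds A).size ≤ M →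
    Ok S (impL Ds A) → ∀ Γ : Set Fm, A ∈ Γ → Gen P Γ [impL Ds A] (c * M * Ds.length) := by
  obtain ⟨c, hc⟩ := gschemaL hF [var 0] (imp (var 1) (var 0)) (by
    intro v h; simp [eval] at h ⊢; tauto)
  refine ⟨c, fun S P hP Ds A M hM => ?_⟩
  induction Ds with
  | nil =>
    intro _ _ Γ hA
    exact (Gen.hyp hA).mono subset_rfl (Nat.zero_le _)
  | cons D Ds ih =>
    intro hs hok Γ hA
    have e : impL (D :: Ds) A = imp D (impL Ds A) := rfl
    rw [e] at hs hok ⊢
    simp only [size] at hs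
    have ok1 : Ok S D := fun x hx => hok x (by simp [vars, hx])
    have ok2 : Ok S (impL Ds A) := fun x hx => hok x (by simp [vars, hx])
    have h1 := ih (by omega) ok2 Γ hA
    have h2 := hc S P hP [impL Ds A, D] M hM (by
      intro X hX; simp at hX; rcases hX with rfl | rfl
      · omega
      · omega) (by
      intro X hX; simp at hX; rcases hX with rfl | rfl
      · exact ok2
      · exact ok1) (Γ ∪ {B | B ∈ [impL Ds A]}) (by
      intro X hX; simp only [List.mem_singleton] at hX; subst hX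
      right; simp [subst, asg])
    refine ((h1.cut h2).sub (by simp [subst, asg])).mono subset_rfl ?_
    simp only [List.length_cons]; nlinarith

/-! ### from single substitutions to permutations -/

theorem asm1 {F : List Rule} (h1 : S_SIM F) (h2 : S_IN F) (h3 : S_SOA F) :
    ∃ c : ℕ, ∀ (n b : ℕ) (A : Fm) (L : List Fm) (M : ℕ), 2 ≤ M → n ≤ M → 2 ^ b ≤ M →
      psize L ≤ M → A ∈ L → (∀ x ∈ A.vars, x < n) → SSub F (n * (b + 1)) L →
      ∃ L', PermProof F (dualRail n A :: L') ∧ psize (dualRail n A :: L') ≤ M ^ c := by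
  obtain ⟨c1, h1⟩ := h1
  obtain ⟨c2, h2⟩ := h2
  obtain ⟨c3, h3⟩ := h3
  refine ⟨5 * c3 + (c2 + c1 + 1) + 1, fun n b A L M hM hn hb hL hAL hA hS => ?_⟩
  have hn1 := one_le_of_vars hA
  have hAs : A.size ≤ M := (size_le_psize hAL).trans hL
  obtain ⟨L1, a1, a2, a3⟩ := h1 n b L M hM hn1 hn hb hL hS
  obtain ⟨D2, b1, b2, b3⟩ := h2 n b A M hM hn hb hAs hA {B | B ∈ L1} (a2 A hAL) L1 a1
    (fun _ h => h)
  have h16 : (2 : ℕ) ^ 4 ≤ M ^ 4 := Nat.pow_le_pow_left hM 4
  have hM5 : M ^ 5 = M ^ 4 * M := pow_succ _ _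
  have hMM : 16 * M ≤ M ^ 5 := by rw [hM5]; exact Nat.mul_le_mul_right _ (by omega)
  obtain ⟨D3, d1, d2, d3⟩ := h3 n b (dualRail n A) (M ^ 5) (by omega) (by omega) (by omega)
    (by rw [dualRail_size]; omega) (fun x hx => dualRail_vars hA hx) {B | B ∈ D2 ++ L1}
    (b2 _ (by simp)) (D2 ++ L1) b1 (fun _ h => h)
  obtain ⟨L', e1, e2⟩ := permProof_cut d1 (d2 (dualRail n A) (by simp))
  refine ⟨L', e1, e2.trans ?_⟩
  rw [psize_append, psize_append]
  rw [← pow_mul] at d3
  exact add_pow hM d3 (add_pow hM b3 a3)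

/-! ### the three main parts -/

theorem b_le_two_pow (b : ℕ) : b + 1 ≤ 2 ^ b := by
  induction b with
  | zero => simp
  | succ b ih => rw [pow_succ]; omega

theorem part2 {F : List Rule} (h1 : S_SIM F) (h2 : S_IN F) (h3 : S_SOA F) (h4 : S_MA F) :
    ∃ c : ℕ, ∀ (n b K : ℕ) (A : Fm) (L : List Fm), (∀ x ∈ A.vars, x < n) →
      2 * K ≤ (b + 1) * n → SubProof F K (A :: L) →
      ∃ L', PermProof F (dualRail n A :: L') ∧
        psize (dualRail n A :: L') ≤ (psize (A :: L) + n + 2 ^ b) ^ c := by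
  obtain ⟨c1, h4⟩ := h4
  obtain ⟨c2, h5⟩ := asm1 h1 h2 h3
  refine ⟨(2 * c1 + 1) * c2, fun n b K A L hA hK hP => ?_⟩
  have hn1 := one_le_of_vars hA
  have hb1 : 1 ≤ 2 ^ b := Nat.one_le_two_pow
  have hb2 := b_le_two_pow b
  set M := psize (A :: L) + n + 2 ^ b with hM
  have hM2 : 2 ≤ M := by omega
  have hKM : K ≤ M ^ 2 := by
    have : (b + 1) * n ≤ M * M := Nat.mul_le_mul (by omega) (by omega)
    rw [pow_two]; omega
  have hMM : M ≤ M ^ 2 := by rw [pow_two]; nlinarith
  obtain ⟨L1, a1, a2, a3⟩ := h4 K (A :: L) (M ^ 2) (by omega) hKM (by omega) hP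
  rw [← pow_mul] at a3
  have hMc : M ≤ M ^ (2 * c1 + 1) := Nat.le_self_pow (by omega) M
  obtain ⟨L', b1, b2⟩ := h5 n b A L1 (M ^ (2 * c1 + 1)) (by omega) (by omega) (by omega)
    (a3.trans (pow_mono hM2 (by omega))) (a2 A (by simp)) hA
    (ssub_mono a1 (by rw [mul_comm n]; exact hK))
  rw [← pow_mul] at b2
  exact ⟨L', b1, b2⟩

theorem part1 {F : List Rule} (h1 : S_SIM F) (h2 : S_IN F) (h3 : S_SOA F) (h4 : S_MB1 F)
    (h6 : S_MB2 F) :
    ∃ c : ℕ, ∀ (n b k : ℕ) (A : Fm) (L : List Fm), (∀ x ∈ A.vars, x < n) →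
      k ≤ b * n → EFProof F A k (A :: L) →
      ∃ L', PermProof F (dualRail n A :: L') ∧
        psize (dualRail n A :: L') ≤ (psize (A :: L) + n + 2 ^ b) ^ c := by
  obtain ⟨c1, h4⟩ := h4
  obtain ⟨c2, h5⟩ := asm1 h1 h2 h3
  obtain ⟨c3, h6⟩ := h6
  refine ⟨(c1 + 4 * c3 + 2) * c2, fun n b k A L hA hk hP => ?_⟩
  have hn1 := one_le_of_vars hA
  have hb1 : 1 ≤ 2 ^ b := Nat.one_le_two_pow
  set M := psize (A :: L) + n + 2 ^ b with hM
  have hM2 : 2 ≤ M := by omega
  obtain ⟨Ds, L1, a1, a2, a3, a4, a5, a6⟩ := h4 A n k L M hM2 hA (by omega) hP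
  have hDl : Ds.length ≤ M := (length_le_psize Ds).trans a3
  have hAs : A.size ≤ M := by
    have := size_le_psize (L := A :: L) (B := A) (by simp); omega
  have hM4 : M ^ 4 = M ^ 3 * M := pow_succ _ _
  have h8 : (2 : ℕ) ^ 3 ≤ M ^ 3 := Nat.pow_le_pow_left hM2 3
  have hMM : 8 * M ≤ M ^ 4 := by rw [hM4]; exact Nat.mul_le_mul_right _ (by omega)
  have hsz : (imp (conjL 0 Ds) A).size ≤ M ^ 4 := by
    simp only [size, conjL_size]; omega
  obtain ⟨D, b1, b2, b3⟩ := h6 A n (n + k) Ds (M ^ 4) (by omega) hA a2 (by omega) hsz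
    {B | B ∈ L1} a5 L1 a4 (fun _ h => h)
  rw [← pow_mul] at b3
  have hps : psize (D ++ L1) ≤ M ^ (4 * c3 + c1 + 1) := by
    rw [psize_append]; exact add_pow hM2 b3 a6
  have hMc : M ≤ M ^ (c1 + 4 * c3 + 2) := Nat.le_self_pow (by omega) M
  obtain ⟨L', d1, d2⟩ := h5 n b A (D ++ L1) (M ^ (c1 + 4 * c3 + 2)) (by omega) (by omega)
    (by omega) (hps.trans (pow_mono hM2 (by omega))) (b2 A (by simp)) hA
    (ssub_mono b1 (by nlinarith))
  rw [← pow_mul] at d2
  exact ⟨L', d1, d2⟩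

/-- the variables of a list of formulas -/
def lvars : List Fm → Finset ℕ
  | [] => ∅
  | B :: L => B.vars ∪ lvars L

theorem lvars_card (L : List Fm) : (lvars L).card ≤ psize L := by
  induction L with
  | nil => simp [lvars]
  | cons B L ih =>
    rw [lvars, psize_cons]
    have h1 := Finset.card_union_le B.vars (lvars L)
    have h2 := vars_card_le B
    omega

theorem mem_lvars {L : List Fm} {B : Fm} (hB : B ∈ L) {x : ℕ} (hx : x ∈ B.vars) :
    x ∈ lvars L := by
  induction L with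
  | nil => simp at hB
  | cons C L ih =>
    rw [lvars, Finset.mem_union]
    rcases List.mem_cons.1 hB with rfl | hB
    · exact Or.inl hx
    · exact Or.inr (ih hB)

theorem mem_impL_vars {Ds : List Fm} {A D : Fm} {x : ℕ} (hD : D ∈ Ds) (h : x ∈ D.vars) :
    x ∈ (impL Ds A).vars := by
  induction Ds with
  | nil => simp at hD
  | cons C Ds ih =>
    have : impL (C :: Ds) A = imp C (impL Ds A) := rfl
    rw [this, vars, Finset.mem_union]
    rcases List.mem_cons.1 hD with rfl | hD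
    · exact Or.inl h
    · exact Or.inr (ih hD)

theorem mem_dualRail_vars {n : ℕ} {A : Fm} {x : ℕ} (hx : x < 2 * n) :
    x ∈ (dualRail n A).vars := by
  rcases lt_or_ge x n with h | h
  · exact mem_impL_vars (List.mem_map.2 ⟨x, List.mem_range.2 h, rfl⟩) (by simp [iff, vars])
  · refine mem_impL_vars (List.mem_map.2 ⟨x - n, List.mem_range.2 (by omega), rfl⟩) ?_
    have : n + (x - n) = x := by omega
    simp [iff, vars, this]

theorem part3 {F : List Rule} (h1 : S_REN F) (h2 : S_T2I F) (h3 : S_T2F F) :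
    ∃ c : ℕ, ∀ (n l : ℕ) (A : Fm) (L : List Fm), (∀ x ∈ A.vars, x < n) → 1 ≤ l →
      PermProof F (dualRail n A :: L) → psize (dualRail n A :: L) ≤ 2 ^ l →
      ∃ L', SubProof F (n * l) (A :: L') ∧ psize (A :: L') ≤ 2 ^ (l * c) := by
  obtain ⟨h1, h1'⟩ := h1
  obtain ⟨c2, h2⟩ := h2
  obtain ⟨c3, h3⟩ := h3
  refine ⟨c3 + c2 + 1, fun n l A L hA hl hP hsz => ?_⟩
  have hn1 := one_le_of_vars hA
  obtain ⟨f, hf⟩ := h1' (lvars (dualRail n A :: L)) (2 ^ l) ((lvars_card _).trans hsz)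
  have hP1 := h1 f _ hP
  have hM2 : 2 ≤ 2 ^ l := by
    calc 2 = 2 ^ 1 := rfl
      _ ≤ 2 ^ l := Nat.pow_le_pow_right (by norm_num) hl
  have hds : (dualRail n A).size ≤ 2 ^ l :=
    (size_le_psize (L := dualRail n A :: L) (by simp)).trans hsz
  rw [dualRail_size] at hds
  obtain ⟨L1, a1, a2, a3⟩ := h2 n l _ (2 ^ l) hM2 hn1 hl (by omega) le_rfl
    (by rw [psize_rename]; exact hsz) (by
      intro B hB x hx
      obtain ⟨C, hC, rfl⟩ := List.mem_map.1 hB
      rw [vars_rename, Finset.mem_image] at hx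
      obtain ⟨y, hy, rfl⟩ := hx
      exact hf y (mem_lvars hC hy)) hP1
  have a4 := a2 ((dualRail n A).rename f) (List.mem_map.2 ⟨_, by simp, rfl⟩)
  have e4 : ((dualRail n A).rename f).subst (occ n l) =
      (dualRail n A).subst (fun x => occ n l (f x)) := subst_subst _ _ _
  rw [e4] at a4
  obtain ⟨D, b1, b2, b3⟩ := h3 n l f A (2 ^ l) hM2 hl (by omega) le_rfl (by
    intro x hx
    exact hf x (mem_lvars (B := dualRail n A) (by simp) (mem_dualRail_vars hx)))
    (f.injective.injOn) (by omega) hA {B | B ∈ L1} a4 L1 a1 (fun _ h => h)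
  obtain ⟨L', d1, d2⟩ := subProof_cut b1 (b2 A (by simp))
  refine ⟨L', d1, d2.trans ?_⟩
  rw [psize_append, pow_mul]
  exact add_pow hM2 b3 a3

/-! ### the equivalence -/

/-- Frege + permutation simulates extended Frege on dual-rail formulas. -/
def SimDR (F : List Rule) : Prop := ∃ c : ℕ, ∀ (n k : ℕ) (A : Fm) (L : List Fm),
  (∀ x ∈ A.vars, x < n) → EFProof F A k (A :: L) →
  ∃ L', PermProof F (dualRail n A :: L') ∧
    psize (dualRail n A :: L') ≤ (psize (A :: L) + n) ^ c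

/-- Substitution Frege with `O(n log s)` variables simulates extended Frege. -/
def FewVars (F : List Rule) : Prop := ∃ c : ℕ, ∀ (n k l : ℕ) (A : Fm) (L : List Fm),
  (∀ x ∈ A.vars, x < n) → EFProof F A k (A :: L) → psize (A :: L) + n ≤ 2 ^ l →
  ∃ L', SubProof F (n * (l * c)) (A :: L') ∧ psize (A :: L') ≤ 2 ^ (l * c)

/-- Frege + permutation simulates extended Frege. -/
def SimEF (F : List Rule) : Prop := ∃ c : ℕ, ∀ (k : ℕ) (B : Fm) (L : List Fm),
  EFProof F B k (B :: L) →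
  ∃ L', PermProof F (B :: L') ∧ psize (B :: L') ≤ (psize (B :: L) + 1) ^ c

theorem subProof_mono {F : List Rule} {K K' : ℕ} {L : List Fm} (h : SubProof F K L)
    (hK : K ≤ K') : SubProof F K' L := by
  induction h with
  | nil => exact SubProof.nil
  | rule hL hB hv ih => exact SubProof.rule ih hB fun x hx => (hv x hx).trans_le hK
  | subst hL hA hv ih => exact SubProof.subst ih hA fun x hx => (hv x hx).trans_le hK

theorem part4 {F : List Rule}
    (h3 : ∃ c : ℕ, ∀ (n l : ℕ) (A : Fm) (L : List Fm), (∀ x ∈ A.vars, x < n) → 1 ≤ l →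
      PermProof F (dualRail n A :: L) → psize (dualRail n A :: L) ≤ 2 ^ l →
      ∃ L', SubProof F (n * l) (A :: L') ∧ psize (A :: L') ≤ 2 ^ (l * c)) :
    SimDR F → FewVars F := by
  obtain ⟨c3, h3⟩ := h3
  rintro ⟨c, hc⟩
  refine ⟨(c + 1) * (c3 + 1), fun n k l A L hA hP hsz => ?_⟩
  have hn1 := one_le_of_vars hA
  have hp1 : 1 ≤ psize (A :: L) := by rw [psize_cons]; have := size_pos A; omega
  obtain ⟨L', a1, a2⟩ := hc n k A L hA hP
  have hl : 1 ≤ l := by
    rcases Nat.eq_zero_or_pos l with h | h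
    · subst h; simp at hsz; omega
    · exact h
  have h5 : psize (dualRail n A :: L') ≤ 2 ^ (l * (c + 1)) := by
    refine a2.trans ?_
    rw [pow_mul]
    calc (psize (A :: L) + n) ^ c ≤ (2 ^ l) ^ c := Nat.pow_le_pow_left hsz c
      _ ≤ (2 ^ l) ^ (c + 1) := Nat.pow_le_pow_right (by positivity) (by omega)
  obtain ⟨L2, b1, b2⟩ := h3 n (l * (c + 1)) A L' hA (Nat.mul_pos hl (Nat.succ_pos c)) a1 h5
  refine ⟨L2, subProof_mono b1 ?_, b2.trans ?_⟩
  · apply Nat.mul_le_mul_left
    rw [← mul_assoc]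
    exact Nat.le_mul_of_pos_right _ (Nat.succ_pos _)
  · apply Nat.pow_le_pow_right (by norm_num)
    rw [← mul_assoc]
    exact Nat.mul_le_mul_left _ (by omega)

theorem part5 {F : List Rule}
    (h2 : ∃ c : ℕ, ∀ (n b K : ℕ) (A : Fm) (L : List Fm), (∀ x ∈ A.vars, x < n) →
      2 * K ≤ (b + 1) * n → SubProof F K (A :: L) →
      ∃ L', PermProof F (dualRail n A :: L') ∧
        psize (dualRail n A :: L') ≤ (psize (A :: L) + n + 2 ^ b) ^ c) :
    FewVars F → SimDR F := by
  obtain ⟨c2, h2⟩ := h2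
  rintro ⟨c, hc⟩
  refine ⟨(2 * c + 1 + 1 + 4 * c + 1) * c2, fun n k A L hA hP => ?_⟩
  have hn1 := one_le_of_vars hA
  have hp1 : 1 ≤ psize (A :: L) := by rw [psize_cons]; have := size_pos A; omega
  set m := psize (A :: L) + n with hm
  have hm2 : 2 ≤ m := by omega
  set l := Nat.clog 2 m with hl
  have hl1 : m ≤ 2 ^ l := Nat.le_pow_clog (by norm_num) m
  have hl2 : 2 ^ l ≤ m ^ 2 := by
    have h1 : 2 ^ (l - 1) < m := Nat.pow_pred_clog_lt_self (by norm_num) (by omega)
    have h0 : 0 < l := Nat.clog_pos (by norm_num) hm2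
    obtain ⟨l', hl'⟩ : ∃ l', l = l' + 1 := ⟨l - 1, by omega⟩
    rw [hl'] at h1 ⊢
    rw [pow_succ, pow_two]
    simp only [Nat.add_sub_cancel] at h1
    nlinarith
  obtain ⟨L1, a1, a2⟩ := hc n k l A L hA hP hl1
  obtain ⟨L', b1, b2⟩ := h2 n (2 * (l * c)) (n * (l * c)) A L1 hA (by nlinarith) a1
  refine ⟨L', b1, b2.trans ?_⟩
  rw [pow_mul m]
  apply Nat.pow_le_pow_left
  have e1 : psize (A :: L1) ≤ m ^ (2 * c) := by
    refine a2.trans ?_
    rw [pow_mul, pow_mul]
    exact Nat.pow_le_pow_left hl2 c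
  have e2 : 2 ^ (2 * (l * c)) ≤ m ^ (4 * c) := by
    have : 2 ^ (2 * (l * c)) = (2 ^ l) ^ (2 * c) := by rw [← pow_mul]; congr 1; ring
    rw [this, show 4 * c = 2 * (2 * c) by ring, pow_mul m]
    exact Nat.pow_le_pow_left hl2 _
  have e3 : n ≤ m ^ 1 := by rw [pow_one]; omega
  have e4 := add_pow hm2 e1 e3
  have e5 := add_pow hm2 e4 e2
  exact e5.trans (pow_mono hm2 (by omega))

/-! ### extended Frege proofs of dual-rail formulas -/

theorem efProof_rename2 {F : List Rule} {A A' : Fm} {k : ℕ} {L : List Fm}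
    (h : EFProof F A k L) {f : ℕ → ℕ} (hf : Function.Injective f)
    (hA : ∀ q, q ∉ A.vars → f q ∉ A'.vars) : EFProof F A' k (L.map (Fm.rename f)) := by
  have hmem : ∀ (q : ℕ) (C : Fm), q ∉ C.vars → f q ∉ (C.rename f).vars := by
    intro q C hq hq'
    rw [vars_rename, Finset.mem_image] at hq'
    obtain ⟨n, hn, hnq⟩ := hq'
    exact hq (hf hnq ▸ hn)
  induction h with
  | nil => exact EFProof.nil
  | @rule k L B hL hB ih =>
    obtain ⟨r, hr, σ, h1, h2⟩ := hB
    refine EFProof.rule ih ⟨r, hr, fun n => (σ n).rename f, ?_, ?_⟩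
    · rw [h1]; exact subst_subst _ _ _
    · intro p hp
      refine List.mem_map.2 ⟨_, h2 p hp, ?_⟩
      exact subst_subst _ _ _
  | @ext k L q φ hL hq1 hq2 hq3 ih =>
    refine EFProof.ext (q := f q) (φ := φ.rename f) ih (hmem q φ hq1) ?_ (hA q hq3)
    intro C hC
    obtain ⟨C', hC', rfl⟩ := List.mem_map.1 hC
    exact hmem q C' (hq2 C' hC')

theorem efProof_cut {F : List Rule} {A : Fm} {k : ℕ} {L : List Fm} (h : EFProof F A k L)
    {B : Fm} (hB : B ∈ L) :
    ∃ k' L', EFProof F A k' (B :: L') ∧ psize (B :: L') ≤ psize L := by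
  induction h with
  | nil => simp at hB
  | @rule k L C hL hC ih =>
    rcases List.mem_cons.1 hB with rfl | hB
    · exact ⟨k, L, EFProof.rule hL hC, le_rfl⟩
    · obtain ⟨k', L', h1, h2⟩ := ih hB
      exact ⟨k', L', h1, by rw [psize_cons C]; omega⟩
  | @ext k L q φ hL hq1 hq2 hq3 ih =>
    rcases List.mem_cons.1 hB with rfl | hB
    · exact ⟨k + 1, L, EFProof.ext hL hq1 hq2 hq3, le_rfl⟩
    · obtain ⟨k', L', h1, h2⟩ := ih hB
      exact ⟨k', L', h1, by rw [psize_cons (iff (var q) φ)]; omega⟩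

theorem efSys (F : List Rule) (A : Fm) :
    Sys F Set.univ (fun L => ∃ k, EFProof F A k L) :=
  ⟨trivial, ⟨0, EFProof.nil⟩, fun _ _ h1 h2 _ => by
    obtain ⟨k, h1⟩ := h1
    exact ⟨k, EFProof.rule h1 h2⟩⟩

theorem part6 {F : List Rule} (hF : IsFrege F) : SimEF F → SimDR F := by
  rintro ⟨c, hc⟩
  obtain ⟨c1, h1⟩ := weak hF
  refine ⟨(c1 + 4 + 2 + 1 + 2) * c, fun n k A L hA hP => ?_⟩
  have hn1 := one_le_of_vars hA
  have hp1 : 1 ≤ psize (A :: L) := by rw [psize_cons]; have := size_pos A; omega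
  set m := psize (A :: L) + n with hm
  have hm2 : 2 ≤ m := by omega
  classical
  let f : ℕ → ℕ := fun x => if x ∈ A.vars then x else x + 2 * n
  have hf : Function.Injective f := by
    intro x y hxy
    simp only [f] at hxy
    split_ifs at hxy with h1 h2 h2
    · exact hxy
    · have := hA x h1; omega
    · have := hA y h2; omega
    · omega
  have hAf : A.rename f = A := rename_eq_self (by intro x hx; simp [f, hx])
  have hP1 := efProof_rename2 (A' := dualRail n A) hP hf (by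
    intro q hq hq'
    have := dualRail_vars hA hq'
    simp only [f, hq, if_false] at this
    omega)
  have hAs : A.size ≤ psize (A :: L) := size_le_psize (by simp)
  have hM1 : (impL ((List.range n).map fun i => neg (iff (var i) (var (n + i)))) A).size ≤
      m ^ 5 := by
    have h16 : (2 : ℕ) ^ 4 ≤ m ^ 4 := Nat.pow_le_pow_left hm2 4
    have hM5 : m ^ 5 = m ^ 4 * m := pow_succ _ _
    have hMM : 16 * m ≤ m ^ 5 := by rw [hM5]; exact Nat.mul_le_mul_right _ (by omega)
    have := dualRail_size n A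
    rw [dualRail] at this
    rw [this]; omega
  have hg := h1 Set.univ _ (efSys F (dualRail n A)) _ A (m ^ 5) (Nat.one_le_pow _ _ (by omega))
    hM1 (ok_univ _) {B | B = A} rfl
  obtain ⟨D, d1, d2, d3⟩ := hg _ ⟨k, hP1⟩ (by
    intro B hB
    have : B = A := hB
    subst this
    exact List.mem_map.2 ⟨B, by simp, hAf⟩)
  obtain ⟨k', d1⟩ := d1
  obtain ⟨k2, L2, e1, e2⟩ := efProof_cut d1 (d2 (dualRail n A) (by simp [dualRail]))
  obtain ⟨L', g1, g2⟩ := hc k2 _ _ e1
  refine ⟨L', g1, g2.trans ?_⟩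
  rw [pow_mul m]
  apply Nat.pow_le_pow_left
  have i1 : psize D ≤ m ^ (c1 + 5 + 1) := by
    refine d3.trans ?_
    simp only [List.length_map, List.length_range]
    have i2 : c1 * m ^ 5 ≤ m ^ (c1 + 5) := mul_pow (le_pow_self hm2 c1) le_rfl
    have i3 : n ≤ m ^ 1 := by rw [pow_one]; omega
    exact mul_pow i2 i3
  have i4 : psize ((A :: L).map (Fm.rename f)) ≤ m ^ 1 := by
    rw [psize_rename, pow_one]; omega
  have i5 : psize (D ++ (A :: L).map (Fm.rename f)) ≤ m ^ (c1 + 5 + 1 + 1 + 1) := by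
    rw [psize_append]; exact (add_pow hm2 i1 i4).trans (pow_mono hm2 (by omega))
  have i6 : 1 ≤ m ^ 0 := by simp
  have i7 := add_pow hm2 (e2.trans i5) i6
  exact i7.trans (pow_mono hm2 (by omega))

end Pool.Agent.H543R3.PP
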