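import Pool.Agent.H543R3.PP.Defs

/-! Task BEV: Boolean values in a state. -/

set_option autoImplicit false

namespace Pool.Agent.H543R3.PP

open Pool.Agent.H555R2.PF Pool.Agent.H555R2.PF.Fm

namespace BEVaux

theorem bev_conjL (v : ℕ → Bool) (z : ℕ) (Ds : List Fm) :
    bev v (conjL z Ds) = true ↔ ∀ D ∈ Ds, bev v D = true := by
  induction Ds with
  | nil => simp [conjL, bev]
  | cons D Ds ih => simp [conjL, bev, ih]

theorem bev_disjL (v : ℕ → Bool) (z : ℕ) (Ds : List Fm) :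
    bev v (disjL z Ds) = true ↔ ∃ D ∈ Ds, bev v D = true := by
  induction Ds with
  | nil => simp [disjL, bev]
  | cons D Ds ih => simp [disjL, bev, ih]

theorem bev_sg (v : ℕ → Bool) (u : Bool) (A : Fm) : bev v (sg u A) = true ↔ bev v A = u := by
  cases u <;> simp [sg, bev]

theorem bev_eqf (h1 : S_GV) (h2 : S_INJ) {n b i : ℕ} {s s' : St} (hi : i < n) (hs : Vs b s)
    (hs' : Vs b s') : bev (gval n b i s) (eqf n b i s') = true ↔ s = s' := by
  rw [eqf, cubeL, bev_conjL]
  constructor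
  · intro h
    refine h2 b s s' hs hs' fun e he => ?_
    have h3 := h (sg (Dv b s' e) (var (gv n b i e)))
      (List.mem_map.2 ⟨(gv n b i e, Dv b s' e), List.mem_map.2 ⟨e, List.mem_range.2 he, rfl⟩, rfl⟩)
    rw [bev_sg] at h3
    simpa [bev, gval, h1.2 n b i e hi he] using h3
  · rintro rfl D hD
    obtain ⟨p, hp, rfl⟩ := List.mem_map.1 hD
    obtain ⟨e, he, rfl⟩ := List.mem_map.1 hp
    rw [bev_sg]
    simp [bev, gval, h1.2 n b i e hi (List.mem_range.1 he)]

end BEVaux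

open BEVaux

theorem t_BEV (h1 : S_GV) (h2 : S_INJ) : S_BEV := by
  intro n b i s hi hs
  constructor
  · rw [valf, bev_disjL]
    exact ⟨eqf n b i s, List.mem_map.2 ⟨s, mem_sts.2 hs, rfl⟩, (bev_eqf h1 h2 hi hs hs).2 rfl⟩
  · intro β hβ
    subst hβ
    rw [Bool.eq_iff_iff, decf, bev_disjL]
    constructor
    · rintro ⟨D, hD, h⟩
      obtain ⟨s', hs', rfl⟩ := List.mem_map.1 hD
      rw [List.mem_filter] at hs'
      have := (bev_eqf h1 h2 hi hs (mem_sts.1 hs'.1)).1 h
      subst this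
      simpa using hs'.2
    · intro h
      refine ⟨eqf n b (β % n) s, List.mem_map.2 ⟨s, ?_, rfl⟩, (bev_eqf h1 h2 hi hs hs).2 rfl⟩
      rw [List.mem_filter]
      exact ⟨mem_sts.2 hs, by simpa using h⟩

end Pool.Agent.H543R3.PP
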