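import Pool.Agent.H543R3.PP.Defs

set_option autoImplicit false

/-! CI: introduction of a conjunction -/

namespace Pool.Agent.H543R3.PP

open Pool.Agent.H555R2.PF Pool.Agent.H555R2.PF.Fm

theorem CI_aux {F : List Rule} (hF : IsFrege F) : ∃ c : ℕ, ∀ (S : Set ℕ) (P : List Fm → Prop),
    Sys F S P → ∀ (z : ℕ) (E : Fm) (Ds : List Fm) (M : ℕ), 1 ≤ M → E.size ≤ M →
    (conjL z Ds).size ≤ M → Ok S E → Ok S (conjL z Ds) → ∀ Γ : Set Fm,
    (∀ D ∈ Ds, imp E D ∈ Γ) → Gen P Γ [imp E (conjL z Ds)] (c * M * (Ds.length + 1)) := by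
  obtain ⟨c₁, h₁⟩ := gschemaL hF [] (imp (var 0) (imp (var 1) (var 1))) (by
    intro v _; simp [eval])
  obtain ⟨c₂, h₂⟩ := gschemaL hF [imp (var 0) (var 1), imp (var 0) (var 2)]
    (imp (var 0) (and (var 1) (var 2))) (by
    intro v h; simp [eval] at h ⊢; tauto)
  refine ⟨c₁ + c₂, fun S P hP z E Ds M hM hE => ?_⟩
  induction Ds with
  | nil =>
    intro hs hSE hS Γ _
    refine (h₁ S P hP [E, var z] M hM ?_ ?_ Γ (by simp)).mono subset_rfl ?_
    · intro X hX; simp at hX
      rcases hX with rfl | rfl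
      exacts [hE, by simpa [size] using hM]
    · intro X hX; simp at hX
      rcases hX with rfl | rfl
      · exact hSE
      · intro n hn
        apply hS n
        simp only [conjL, vars, Finset.mem_union]
        left; exact hn
    · simp only [List.length_nil, zero_add, mul_one]
      exact Nat.mul_le_mul_right _ (by omega)
  | cons D Ds ih =>
    intro hs hSE hS Γ hΓ
    have hs' : D.size ≤ M ∧ (conjL z Ds).size ≤ M := by
      simp only [conjL, size] at hs; omega
    have hSD : Ok S D := fun n hn => hS n (by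
      simp only [conjL, vars, Finset.mem_union]; left; exact hn)
    have hSDs : Ok S (conjL z Ds) := fun n hn => hS n (by
      simp only [conjL, vars, Finset.mem_union]; right; exact hn)
    have h3 := ih hs'.2 hSE hSDs Γ (fun D' hD' => hΓ D' (by simp [hD']))
    have h5 := h₂ S P hP [E, D, conjL z Ds] M hM (by
      intro X hX; simp at hX; rcases hX with rfl | rfl | rfl
      exacts [hE, hs'.1, hs'.2]) (by
      intro X hX; simp at hX; rcases hX with rfl | rfl | rfl
      exacts [hSE, hSD, hSDs]) (Γ ∪ {B | B ∈ [imp E (conjL z Ds)]}) (by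
        intro A hA
        simp only [List.mem_cons, List.not_mem_nil, or_false] at hA
        rcases hA with rfl | rfl
        · left; exact hΓ D (by simp)
        · right; simp [subst, asg])
    refine (h3.cut h5).mono subset_rfl ?_
    simp only [List.length_cons]; nlinarith

theorem t_CI {F : List Rule} (hF : IsFrege F) : S_CI F := by
  obtain ⟨c, hc⟩ := CI_aux hF
  refine ⟨c + 1 + 1, ?_⟩
  intro S P hP z E Ds M hM hE hs hSE hS Γ hΓ
  refine (hc S P hP z E Ds M (by omega) hE hs hSE hS Γ hΓ).le ?_
  have h1 : Ds.length + 1 ≤ M := by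
    rw [conjL_size] at hs; omega
  rw [pow_succ, pow_succ]
  exact Nat.mul_le_mul (Nat.mul_le_mul (le_pow_self hM c) le_rfl) h1

end Pool.Agent.H543R3.PP
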