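import Pool.Agent.H543R3.PP.Defs

set_option autoImplicit false

namespace Pool.Agent.H543R3.PP

open Pool.Agent.H555R2.PF Pool.Agent.H555R2.PF.Fm

theorem cm_ok_cons {S : Set ℕ} {z : ℕ} {D : Fm} {Ds : List Fm} (h : Ok S (conjL z (D :: Ds))) :
    Ok S D ∧ Ok S (conjL z Ds) := by
  constructor
  · intro n hn
    exact h n (by simp only [conjL, vars, Finset.mem_union]; exact Or.inl hn)
  · intro n hn
    exact h n (by simp only [conjL, vars, Finset.mem_union]; exact Or.inr hn)

theorem cm_ok_mem {S : Set ℕ} {z : ℕ} {Ds : List Fm} (h : Ok S (conjL z Ds)) :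
    ∀ D ∈ Ds, Ok S D := by
  induction Ds with
  | nil => intro D hD; simp at hD
  | cons C Ds ih =>
    intro D hD
    rcases List.mem_cons.1 hD with rfl | hD
    · exact (cm_ok_cons h).1
    · exact ih (cm_ok_cons h).2 D hD

theorem cm_aux {F : List Rule} (hF : IsFrege F) : ∃ c : ℕ, ∀ (S : Set ℕ) (P : List Fm → Prop),
    Sys F S P → ∀ (z : ℕ) (Ds : List Fm) (M : ℕ), 1 ≤ M → (conjL z Ds).size ≤ M →
    Ok S (conjL z Ds) → ∀ D ∈ Ds, ∀ Γ : Set Fm,
      Gen P Γ [imp (conjL z Ds) D] (c * M * Ds.length) := by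
  obtain ⟨c₁, h₁⟩ := gschemaL hF [] (imp (and (var 0) (var 1)) (var 0)) (by
    intro v _; simp [eval]; tauto)
  obtain ⟨c₂, h₂⟩ := gschemaL hF [imp (var 1) (var 2)] (imp (and (var 0) (var 1)) (var 2)) (by
    intro v h; simp [eval] at h ⊢; tauto)
  refine ⟨c₁ + c₂, fun S P hP z Ds M hM => ?_⟩
  induction Ds with
  | nil => intro _ _ D hD; simp at hD
  | cons D Ds ih =>
    intro hs hok C hC Γ
    have hs' : D.size ≤ M ∧ (conjL z Ds).size ≤ M := by
      simp only [conjL, size] at hs; omega
    have hok' := cm_ok_cons hok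
    rcases List.mem_cons.1 hC with rfl | hC
    · refine (h₁ S P hP [C, conjL z Ds] M hM ?_ ?_ Γ (by simp)).mono subset_rfl ?_
      · intro X hX; simp at hX; rcases hX with rfl | rfl; exacts [hs'.1, hs'.2]
      · intro X hX; simp at hX; rcases hX with rfl | rfl; exacts [hok'.1, hok'.2]
      · simp only [List.length_cons]
        calc c₁ * M ≤ (c₁ + c₂) * M := Nat.mul_le_mul_right _ (by omega)
          _ ≤ (c₁ + c₂) * M * (Ds.length + 1) := Nat.le_mul_of_pos_right _ (Nat.succ_pos _)
    · have h3 := ih hs'.2 hok'.2 C hC Γ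
      have hCs : C.size ≤ M := by
        have := size_le_psize hC
        have h4 := hs'.2
        rw [conjL_size] at h4; omega
      have hCok : Ok S C := cm_ok_mem hok'.2 C hC
      have h5 := h₂ S P hP [D, conjL z Ds, C] M hM (by
        intro X hX; simp at hX; rcases hX with rfl | rfl | rfl
        exacts [hs'.1, hs'.2, hCs]) (by
        intro X hX; simp at hX; rcases hX with rfl | rfl | rfl
        exacts [hok'.1, hok'.2, hCok]) (Γ ∪ {B | B ∈ [imp (conjL z Ds) C]}) (by
          intro A hA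
          simp only [List.mem_singleton] at hA
          subst hA
          right; simp [Fm.subst, asg])
      refine (h3.cut h5).mono subset_rfl ?_
      simp only [List.length_cons]; nlinarith

theorem t_CM {F : List Rule} (hF : IsFrege F) : S_CM F := by
  obtain ⟨c, hc⟩ := cm_aux hF
  refine ⟨c + 2, fun S P hP z Ds M hM hs hok D hD Γ => ?_⟩
  refine (hc S P hP z Ds M (by omega) hs hok D hD Γ).mono subset_rfl ?_
  have h1 : Ds.length ≤ M := by
    rw [conjL_size] at hs; omega
  have h2 : c ≤ M ^ c := (Nat.lt_pow_self (by omega : 1 < M)).le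
  calc c * M * Ds.length ≤ M ^ c * M * M := Nat.mul_le_mul (Nat.mul_le_mul_right _ h2) h1
    _ = M ^ (c + 2) := by ring

end Pool.Agent.H543R3.PP
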