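import Pool.Agent.H543R3.PP.Defs

/-! Task CNT of helper543's project PP: a state `(t, x, h)` has exactly `t + 1` ones. -/

set_option autoImplicit false

namespace Pool.Agent.H543R3.PP

open Pool.Agent.H555R2.PF Pool.Agent.H555R2.PF.Fm

private theorem cnt_lt (m t : ℕ) (ht : t ≤ m) :
    ∑ e ∈ Finset.range m, (if decide (e < t) = true then 1 else 0) = t := by
  rw [← Finset.card_filter]
  have : (Finset.range m).filter (fun e => decide (e < t) = true) = Finset.range t := by
    ext e
    simp only [Finset.mem_filter, Finset.mem_range, decide_eq_true_eq]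
    omega
  rw [this, Finset.card_range]

private theorem cnt_or (m t k : ℕ) (ht : t ≤ k) (hk : k < m) :
    ∑ e ∈ Finset.range m, (if (decide (e < t) || decide (e = k)) = true then 1 else 0) = t + 1 := by
  rw [← Finset.card_filter]
  have : (Finset.range m).filter (fun e => (decide (e < t) || decide (e = k)) = true) =
      insert k (Finset.range t) := by
    ext e
    simp only [Finset.mem_filter, Finset.mem_range, Bool.or_eq_true, decide_eq_true_eq,
      Finset.mem_insert]
    omega
  rw [this, Finset.card_insert_of_notMem (by simp; omega), Finset.card_range]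

private theorem cnt_and (m t k : ℕ) (ht : k < t) (hk : t ≤ m) :
    ∑ e ∈ Finset.range m, (if (decide (e < t) && !decide (e = k)) = true then 1 else 0) + 1 =
      t := by
  rw [← Finset.card_filter]
  have : (Finset.range m).filter (fun e => (decide (e < t) && !decide (e = k)) = true) =
      (Finset.range t).erase k := by
    ext e
    simp only [Finset.mem_filter, Finset.mem_range, Bool.and_eq_true, Bool.not_eq_true',
      decide_eq_true_eq, decide_eq_false_iff_not, Finset.mem_erase]
    omega
  rw [this, Finset.card_erase_add_one (by simpa using ht), Finset.card_range]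

theorem t_CNT : S_CNT := by
  rintro b ⟨t, x, h⟩ ⟨ht, hh⟩
  simp only at ht hh
  have hH : HH b = 2 * 2 ^ b := by rw [HH, pow_succ]; ring
  have hx : x.toNat ≤ 1 := by cases x <;> simp
  rw [Finset.card_filter, GG, Finset.sum_range_succ', Finset.sum_range_succ']
  by_cases h0 : h = 0
  · have e1 : ∀ e : ℕ, Dv b (t, x, h) (e + 1 + 1) = decide (e < t) := by
      intro e
      simp [Dv, h0]
    have e2 : Dv b (t, x, h) (0 + 1) = !x := by simp [Dv, h0]
    have e3 : Dv b (t, x, h) 0 = x := by simp [Dv, h0]
    simp only [e1, e2, e3]
    rw [cnt_lt _ _ ht]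
    cases x <;> simp
  · by_cases h1 : t ≤ HH b
    · have e1 : ∀ e : ℕ, Dv b (t, x, h) (e + 1 + 1) =
          (decide (e < t) || decide (e = HH b + 2 * (h - 1) + x.toNat)) := by
        intro e
        simp [Dv, h0, h1]
      have e2 : Dv b (t, x, h) (0 + 1) = false := by simp [Dv, h0, h1]
      have e3 : Dv b (t, x, h) 0 = false := by simp [Dv, h0, h1]
      simp only [e1, e2, e3]
      rw [cnt_or _ _ _ (by omega) (by omega)]
      simp
    · have e1 : ∀ e : ℕ, Dv b (t, x, h) (e + 1 + 1) =
          (decide (e < t) && !decide (e = 2 * (h - 1) + x.toNat)) := by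
        intro e
        simp [Dv, h0, h1]
      have e2 : Dv b (t, x, h) (0 + 1) = true := by simp [Dv, h0, h1]
      have e3 : Dv b (t, x, h) 0 = true := by simp [Dv, h0, h1]
      simp only [e1, e2, e3]
      have := cnt_and (2 * HH b) t (2 * (h - 1) + x.toNat) (by omega) ht
      simp only [if_true]
      omega

end Pool.Agent.H543R3.PP
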