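import Pool.Agent.H543R3.PP.Defs

set_option autoImplicit false

namespace Pool.Agent.H543R3.PP

open Pool.Agent.H555R2.PF Pool.Agent.H555R2.PF.Fm

theorem CUR_size (z : ℕ) (A : Fm) (Ds : List Fm) :
    (impL Ds A).size ≤ (imp (conjL z Ds) A).size := by
  induction Ds with
  | nil => simp only [impL, List.foldr_nil, size, conjL]; omega
  | cons D Ds ih =>
    simp only [impL, List.foldr_cons, size, conjL] at ih ⊢
    omega

theorem CUR_ok {S : Set ℕ} (z : ℕ) (A : Fm) (Ds : List Fm) (h : Ok S (imp (conjL z Ds) A)) :
    Ok S (impL Ds A) := by
  induction Ds with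
  | nil =>
    intro n hn
    exact h n (by simp only [vars, Finset.mem_union]; exact Or.inr (by simpa [impL] using hn))
  | cons D Ds ih =>
    have h1 : Ok S (imp (conjL z Ds) A) := by
      intro n hn
      apply h n
      simp only [vars, Finset.mem_union, conjL] at hn ⊢
      tauto
    intro n hn
    simp only [impL, List.foldr_cons, vars, Finset.mem_union] at hn
    rcases hn with hn | hn
    · apply h n
      simp only [vars, Finset.mem_union, conjL]
      tauto
    · exact ih h1 n hn

theorem t_CUR {F : List Rule} (hF : IsFrege F) : S_CUR F := by
  -- E = var 0, D = var 1, C = var 2, A = var 3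
  obtain ⟨c1, hc1⟩ := gschemaL hF [imp (var 0) (imp (and (var 1) (var 2)) (var 3))]
    (imp (and (var 0) (var 1)) (imp (var 2) (var 3))) (by
    intro v h
    have h1 := h _ (List.mem_singleton.2 rfl)
    simp [eval] at h1 ⊢
    tauto)
  obtain ⟨c2, hc2⟩ := gschemaL hF [imp (and (var 0) (var 1)) (var 2)]
    (imp (var 0) (imp (var 1) (var 2))) (by
    intro v h
    have h1 := h _ (List.mem_singleton.2 rfl)
    simp [eval] at h1 ⊢
    tauto)
  obtain ⟨c3, hc3⟩ := gschemaL hF [imp (var 0) (imp (imp (var 1) (var 1)) (var 2))]
    (imp (var 0) (var 2)) (by
    intro v h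
    have h1 := h _ (List.mem_singleton.2 rfl)
    simp [eval] at h1 ⊢
    tauto)
  obtain ⟨c4, hc4⟩ := gschemaL hF [var 1] (imp (imp (var 0) (var 0)) (var 1)) (by
    intro v h
    have h1 := h _ (List.mem_singleton.2 rfl)
    simp [eval] at h1 ⊢
    tauto)
  obtain ⟨c5, hc5⟩ := gschemaL hF [imp (imp (var 0) (var 0)) (var 1)] (var 1) (by
    intro v h
    have h1 := h _ (List.mem_singleton.2 rfl)
    simp [eval] at h1 ⊢
    tauto)
  refine ⟨(c1 + c2 + c3 + c4 + c5) + 20, ?_⟩
  intro S P hP z Ds A M hM hsz hok Γ hΓ
  set c := c1 + c2 + c3 + c4 + c5 with hcdef
  -- main induction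
  have key : ∀ (Ds : List Fm) (E : Fm) (Γ : Set Fm) (N : ℕ), 1 ≤ N →
      E.size + (imp (conjL z Ds) A).size ≤ N → Ok S E → Ok S (imp (conjL z Ds) A) →
      imp E (imp (conjL z Ds) A) ∈ Γ → Gen P Γ [imp E (impL Ds A)] ((Ds.length + 1) * (2 * c * N)) := by
    intro Ds
    induction Ds with
    | nil =>
      intro E Γ N hN hsz hE hok h
      have hz : Ok S (var z) := by
        intro n hn
        apply hok n
        simp only [vars, conjL, Finset.mem_union] at hn ⊢
        tauto
      have hA : Ok S A := by
        intro n hn
        apply hok n
        simp only [vars, Finset.mem_union]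
        tauto
      simp only [size, conjL] at hsz
      have h1 := hc3 S P hP [E, var z, A] N hN
        (by
          intro X hX
          simp only [List.mem_cons, List.not_mem_nil, or_false] at hX
          rcases hX with rfl | rfl | rfl
          · omega
          · simp only [size]; omega
          · omega)
        (by
          intro X hX
          simp only [List.mem_cons, List.not_mem_nil, or_false] at hX
          rcases hX with rfl | rfl | rfl
          · exact hE
          · exact hz
          · exact hA) Γ
        (by
          intro B hB
          rw [List.mem_singleton] at hB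
          subst hB
          simpa [subst, asg, conjL] using h)
      have h2 : Gen P Γ [imp E (impL [] A)] (c3 * N) := by simpa [subst, asg, impL] using h1
      refine h2.le ?_
      simp only [List.length_nil]
      have : c3 ≤ c := by omega
      nlinarith [Nat.mul_le_mul_right N this]
    | cons D Ds ih =>
      intro E Γ N hN hsz hE hok h
      have hD : Ok S D := by
        intro n hn
        apply hok n
        simp only [vars, conjL, Finset.mem_union] at hn ⊢
        tauto
      have hC : Ok S (conjL z Ds) := by
        intro n hn
        apply hok n
        simp only [vars, conjL, Finset.mem_union] at hn ⊢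
        tauto
      have hA : Ok S A := by
        intro n hn
        apply hok n
        simp only [vars, Finset.mem_union]
        tauto
      simp only [size, conjL] at hsz
      have h1 := hc1 S P hP [E, D, conjL z Ds, A] N hN
        (by
          intro X hX
          simp only [List.mem_cons, List.not_mem_nil, or_false] at hX
          rcases hX with rfl | rfl | rfl | rfl <;> omega)
        (by
          intro X hX
          simp only [List.mem_cons, List.not_mem_nil, or_false] at hX
          rcases hX with rfl | rfl | rfl | rfl
          · exact hE
          · exact hD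
          · exact hC
          · exact hA) Γ
        (by
          intro B hB
          rw [List.mem_singleton] at hB
          subst hB
          simpa [subst, asg, conjL] using h)
      have h2 : Gen P Γ [imp (and E D) (imp (conjL z Ds) A)] (c1 * N) := by
        simpa [subst, asg] using h1
      have hED : Ok S (and E D) := by
        intro n hn
        simp only [vars, Finset.mem_union] at hn
        rcases hn with hn | hn
        exacts [hE n hn, hD n hn]
      have hCA : Ok S (imp (conjL z Ds) A) := by
        intro n hn
        simp only [vars, Finset.mem_union] at hn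
        rcases hn with hn | hn
        exacts [hC n hn, hA n hn]
      have h3 := ih (and E D) (Γ ∪ {B | B ∈ [imp (and E D) (imp (conjL z Ds) A)]}) N hN
        (by simp only [size]; omega) hED hCA (Or.inr (by simp))
      have h4 := h2.cut h3
      have hIA := CUR_ok z A Ds hCA
      have hIs := CUR_size z A Ds
      simp only [size] at hIs
      have h5 := hc2 S P hP [E, D, impL Ds A] N hN
        (by
          intro X hX
          simp only [List.mem_cons, List.not_mem_nil, or_false] at hX
          rcases hX with rfl | rfl | rfl <;> omega)
        (by
          intro X hX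
          simp only [List.mem_cons, List.not_mem_nil, or_false] at hX
          rcases hX with rfl | rfl | rfl
          · exact hE
          · exact hD
          · exact hIA) (Γ ∪ {B | B ∈ [imp (and E D) (impL Ds A)]})
        (by
          intro B hB
          rw [List.mem_singleton] at hB
          subst hB
          right
          simp [subst, asg])
      have h6 : Gen P (Γ ∪ {B | B ∈ [imp (and E D) (impL Ds A)]}) [imp E (impL (D :: Ds) A)]
          (c2 * N) := by
        simpa [subst, asg, impL] using h5
      refine (h4.cut h6).le ?_
      simp only [List.length_cons]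
      have e1 : c1 * N + c2 * N ≤ 2 * c * N := by
        have : c1 + c2 ≤ 2 * c := by omega
        calc c1 * N + c2 * N = (c1 + c2) * N := by ring
          _ ≤ 2 * c * N := Nat.mul_le_mul_right N this
      nlinarith
  -- the start
  have hz0 : Ok S (var 0) := by
    intro n hn
    simp only [vars, Finset.mem_singleton] at hn
    subst hn
    exact hP.zero
  have h1 := hc4 S P hP [var 0, imp (conjL z Ds) A] M (by omega)
    (by
      intro X hX
      simp only [List.mem_cons, List.not_mem_nil, or_false] at hX
      rcases hX with rfl | rfl
      · simp only [size]; omega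
      · exact hsz)
    (by
      intro X hX
      simp only [List.mem_cons, List.not_mem_nil, or_false] at hX
      rcases hX with rfl | rfl
      · exact hz0
      · exact hok) Γ
    (by
      intro B hB
      rw [List.mem_singleton] at hB
      subst hB
      simpa [subst, asg] using hΓ)
  have h2 : Gen P Γ [imp (imp (var 0) (var 0)) (imp (conjL z Ds) A)] (c4 * M) := by
    simpa [subst, asg] using h1
  have hzz : Ok S (imp (var 0) (var 0)) := by
    intro n hn
    simp only [vars, Finset.mem_union, or_self] at hn
    exact hz0 n (by simpa [vars] using hn)
  have h3 := key Ds (imp (var 0) (var 0))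
    (Γ ∪ {B | B ∈ [imp (imp (var 0) (var 0)) (imp (conjL z Ds) A)]}) (4 * M) (by omega)
    (by simp only [size] at hsz ⊢; omega) hzz hok (Or.inr (by simp))
  have hIA := CUR_ok z A Ds hok
  have hIs := CUR_size z A Ds
  have h5 := hc5 S P hP [var 0, impL Ds A] M (by omega)
    (by
      intro X hX
      simp only [List.mem_cons, List.not_mem_nil, or_false] at hX
      rcases hX with rfl | rfl
      · simp only [size]; omega
      · omega)
    (by
      intro X hX
      simp only [List.mem_cons, List.not_mem_nil, or_false] at hX
      rcases hX with rfl | rfl
      · exact hz0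
      · exact hIA) (Γ ∪ {B | B ∈ [imp (imp (var 0) (var 0)) (impL Ds A)]})
    (by
      intro B hB
      rw [List.mem_singleton] at hB
      subst hB
      right
      simp [subst, asg])
  have h6 : Gen P (Γ ∪ {B | B ∈ [imp (imp (var 0) (var 0)) (impL Ds A)]}) [impL Ds A]
      (c5 * M) := by
    simpa [subst, asg] using h5
  refine ((h2.cut h3).cut h6).le ?_
  have hlen : Ds.length + 1 ≤ M := by
    have : ∀ Ds : List Fm, Ds.length + 1 ≤ (imp (conjL z Ds) A).size := by
      intro Ds
      rw [size, conjL_size]
      have := Fm.size_pos A
      omega
    exact (this Ds).trans hsz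
  have b1 : c ≤ M ^ c := le_pow_self hM c
  have b2 : c4 * M + c5 * M ≤ M * (2 * c * (4 * M)) := by
    have h7 : c4 + c5 ≤ c := by omega
    calc c4 * M + c5 * M = (c4 + c5) * M := by ring
      _ ≤ c * M := Nat.mul_le_mul_right M h7
      _ ≤ M * (2 * c * (4 * M)) := by nlinarith [Nat.zero_le (c * M), Nat.mul_le_mul_left (c * M) (by omega : 1 ≤ M)]
  have b3 : (Ds.length + 1) * (2 * c * (4 * M)) ≤ M * (2 * c * (4 * M)) :=
    Nat.mul_le_mul_right _ hlen
  have b4 : c4 * M + (Ds.length + 1) * (2 * c * (4 * M)) + c5 * M ≤ 16 * (c * (M * M)) := by
    nlinarith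
  have b5 : 16 ≤ M ^ 4 := by
    have : 2 ^ 4 ≤ M ^ 4 := Nat.pow_le_pow_left hM 4
    omega
  have b6 : 16 * (c * (M * M)) ≤ M ^ (4 + (c + 2)) := by
    apply mul_pow b5
    apply mul_pow b1
    rw [pow_two]
  exact (b4.trans b6).trans (pow_mono hM (by omega))

end Pool.Agent.H543R3.PP
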