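import Pool.Agent.H543R3.PP.Defs

/-! Task DE: elimination of a disjunction. -/

set_option autoImplicit false

namespace Pool.Agent.H543R3.PP

open Pool.Agent.H555R2.PF Pool.Agent.H555R2.PF.Fm

namespace DEaux

theorem main {F : List Rule} (hF : IsFrege F) : ∃ c : ℕ, ∀ (S : Set ℕ) (P : List Fm → Prop),
    Sys F S P → ∀ (z : ℕ) (W G : Fm) (lits : List Fm) (M : ℕ),
    1 ≤ M → W.size ≤ M → G.size ≤ M → (disjL z lits).size ≤ M → Ok S W → Ok S G →
    Ok S (disjL z lits) → ∀ Γ : Set Fm,
      (∀ l ∈ lits, imp W (imp l G) ∈ Γ) →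
      Gen P Γ [imp W (imp (disjL z lits) G)] (c * M * (lits.length + 1)) := by
  obtain ⟨c₁, h₁⟩ := gschemaL hF [] (imp (var 0) (imp (neg (imp (var 1) (var 1))) (var 2))) (by
    intro v _; simp [eval])
  obtain ⟨c₂, h₂⟩ := gschemaL hF [imp (var 0) (imp (var 1) (var 3)),
    imp (var 0) (imp (var 2) (var 3))] (imp (var 0) (imp (or (var 1) (var 2)) (var 3))) (by
    intro v h; simp [eval] at h ⊢; tauto)
  refine ⟨c₁ + c₂, fun S P hP z W G lits M hM hW hG => ?_⟩
  induction lits with
  | nil =>
    intro _ oW oG oz Γ _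
    refine (h₁ S P hP [W, var z, G] M hM ?_ ?_ Γ (by simp)).mono subset_rfl ?_
    · intro X hX; simp at hX
      rcases hX with rfl | rfl | rfl
      exacts [hW, by simpa [size] using hM, hG]
    · intro X hX; simp at hX
      rcases hX with rfl | rfl | rfl
      · exact oW
      · intro n hn
        exact oz n (by simpa [disjL, vars] using hn)
      · exact oG
    · simp only [List.length_nil, zero_add, mul_one]
      exact Nat.mul_le_mul_right _ (by omega)
  | cons l ls ih =>
    intro hs oW oG oz Γ hΓ
    have hs' : l.size ≤ M ∧ (disjL z ls).size ≤ M := by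
      simp only [disjL, size] at hs; omega
    have ol : Ok S l := fun n hn => oz n (by simp [disjL, vars, hn])
    have ols : Ok S (disjL z ls) := fun n hn => oz n (by simp [disjL, vars, hn])
    have h3 := ih hs'.2 oW oG ols Γ (fun l' hl' => hΓ l' (by simp [hl']))
    have h5 := h₂ S P hP [W, l, disjL z ls, G] M hM (by
      intro X hX; simp at hX; rcases hX with rfl | rfl | rfl | rfl
      exacts [hW, hs'.1, hs'.2, hG]) (by
      intro X hX; simp at hX; rcases hX with rfl | rfl | rfl | rfl
      exacts [oW, ol, ols, oG]) (Γ ∪ {B | B ∈ [imp W (imp (disjL z ls) G)]}) (by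
        intro A hA
        simp only [List.mem_cons, List.not_mem_nil, or_false] at hA
        rcases hA with rfl | rfl
        · left; exact hΓ l (by simp)
        · right; simp [subst, asg])
    refine (h3.cut h5).mono subset_rfl ?_
    simp only [List.length_cons]; nlinarith

end DEaux

open DEaux

theorem t_DE {F : List Rule} (hF : IsFrege F) : S_DE F := by
  obtain ⟨c, hc⟩ := main hF
  refine ⟨c + 1 + 1, fun S P hP z E G Ds M hM hE hG hs oE oG oD Γ hΓ => ?_⟩
  refine (hc S P hP z E G Ds M (by omega) hE hG hs oE oG oD Γ hΓ).le ?_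
  have h1 : Ds.length + 1 ≤ M := by
    rw [disjL_size] at hs; omega
  refine mul_pow (mul_pow (le_pow_self hM c) (by rw [pow_one])) ?_
  rw [pow_one]
  exact h1

end Pool.Agent.H543R3.PP
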