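import Pool.Agent.H543R3.PP.Defs

/-!
# Project PP, task DI (helper131): introduction of a disjunction
-/

set_option autoImplicit false

namespace Pool.Agent.H543R3.PP

open Pool.Agent.H555R2.PF Pool.Agent.H555R2.PF.Fm

theorem di_aux {F : List Rule} (hF : IsFrege F) : ∃ c : ℕ, ∀ (S : Set ℕ) (P : List Fm → Prop),
    Sys F S P → ∀ (z : ℕ) (Ds : List Fm) (M : ℕ), 1 ≤ M → (disjL z Ds).size ≤ M →
    Ok S (disjL z Ds) → ∀ D ∈ Ds, ∀ Γ : Set Fm,
    Gen P Γ [imp D (disjL z Ds)] (c * M * Ds.length) := by
  obtain ⟨c₁, h₁⟩ := gschemaL hF [] (imp (var 0) (or (var 0) (var 1))) (by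
    intro v _; simp [eval]; tauto)
  obtain ⟨c₂, h₂⟩ := gschemaL hF [imp (var 2) (var 1)]
    (imp (var 2) (or (var 0) (var 1))) (by
    intro v h; simp [eval] at h ⊢; tauto)
  refine ⟨c₁ + c₂, fun S P hP z Ds M hM => ?_⟩
  induction Ds with
  | nil => intro _ _ D hD; simp at hD
  | cons l ls ih =>
    intro hs hok C hC Γ
    have hs' : l.size ≤ M ∧ (disjL z ls).size ≤ M := by
      simp only [disjL, size] at hs; omega
    have hok1 : Ok S l := fun n hn => hok n (by simp [disjL, vars, hn])
    have hok2 : Ok S (disjL z ls) := fun n hn => hok n (by simp [disjL, vars, hn])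
    rcases List.mem_cons.1 hC with rfl | hC
    · refine (h₁ S P hP [C, disjL z ls] M hM ?_ ?_ Γ (by simp)).mono subset_rfl ?_
      · intro X hX; simp at hX; rcases hX with rfl | rfl; exacts [hs'.1, hs'.2]
      · intro X hX; simp at hX; rcases hX with rfl | rfl; exacts [hok1, hok2]
      · simp only [List.length_cons]
        calc c₁ * M ≤ (c₁ + c₂) * M := Nat.mul_le_mul_right _ (by omega)
          _ ≤ (c₁ + c₂) * M * (ls.length + 1) := Nat.le_mul_of_pos_right _ (Nat.succ_pos _)
    · have h3 := ih hs'.2 hok2 C hC Γ
      have hCs : C.size ≤ M := by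
        have := size_le_psize hC
        have h4 := hs'.2
        rw [disjL_size] at h4; omega
      have hokC : Ok S C := by
        clear h3 ih hs hs' hCs hok hok1
        induction ls with
        | nil => simp at hC
        | cons a as iha =>
          rcases List.mem_cons.1 hC with rfl | hC'
          · exact fun n hn => hok2 n (by simp [disjL, vars, hn])
          · exact iha (List.mem_cons_of_mem _ hC') (fun n hn => hok2 n (by simp [disjL, vars, hn]))
              hC'
      have h5 := h₂ S P hP [l, disjL z ls, C] M hM (by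
        intro X hX; simp at hX; rcases hX with rfl | rfl | rfl
        exacts [hs'.1, hs'.2, hCs]) (by
        intro X hX; simp at hX; rcases hX with rfl | rfl | rfl
        exacts [hok1, hok2, hokC]) (Γ ∪ {B | B ∈ [imp C (disjL z ls)]}) (by
          intro A hA
          simp only [List.mem_singleton] at hA
          subst hA
          right
          simp [subst, asg])
      refine (h3.cut h5).mono subset_rfl ?_
      simp only [List.length_cons]
      calc (c₁ + c₂) * M * ls.length + c₂ * M ≤
          (c₁ + c₂) * M * ls.length + (c₁ + c₂) * M := by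
            gcongr; omega
        _ = _ := by ring

theorem t_DI {F : List Rule} (hF : IsFrege F) : S_DI F := by
  obtain ⟨c, hc⟩ := di_aux hF
  refine ⟨c + 1 + 1, fun S P hP z Ds M hM hs hok D hD Γ => ?_⟩
  refine (hc S P hP z Ds M (by omega) hs hok D hD Γ).le ?_
  have h1 : Ds.length ≤ M ^ 1 := by
    rw [disjL_size] at hs; rw [pow_one]; omega
  have h2 : c * M ≤ M ^ (c + 1) := mul_pow (le_pow_self hM c) (by rw [pow_one])
  exact mul_pow h2 h1

end Pool.Agent.H543R3.PP
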