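import Pool.Agent.H543R3.PP.Defs

set_option autoImplicit false

namespace Pool.Agent.H543R3.PP

open Pool.Agent.H555R2.PF Pool.Agent.H555R2.PF.Fm

theorem t_DIS {F : List Rule} (hF : IsFrege F) : S_DIS F := by
  obtain ⟨c, hc⟩ := gschemaL hF [var 0, imp (var 0) (var 1)] (var 1) (by
    intro v h
    have h1 := h (var 0) (by simp)
    have h2 := h (imp (var 0) (var 1)) (by simp)
    simp [eval] at h1 h2 ⊢
    exact h2 h1)
  refine ⟨c + 3, ?_⟩
  intro S P hP Ds A M hM hsz hok Γ hΓ hD
  have key : ∀ (Ds : List Fm) (Γ : Set Fm), (impL Ds A).size ≤ M → Ok S (impL Ds A) →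
      impL Ds A ∈ Γ → (∀ D ∈ Ds, D ∈ Γ) → Gen P Γ [A] (Ds.length * (c * M)) := by
    intro Ds
    induction Ds with
    | nil =>
      intro Γ _ _ h _
      simpa using (Gen.hyp h : Gen P Γ [A] 0)
    | cons D Ds ih =>
      intro Γ hsz hok h hD
      have hsz' : D.size ≤ M ∧ (impL Ds A).size ≤ M := by
        simp only [impL, List.foldr_cons, size] at hsz
        constructor
        · omega
        · simp only [impL]; omega
      have hokD : Ok S D := by
        intro n hn
        apply hok n
        simp only [impL, List.foldr_cons, vars, Finset.mem_union]
        exact Or.inl hn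
      have hokI : Ok S (impL Ds A) := by
        intro n hn
        apply hok n
        simp only [impL, List.foldr_cons, vars, Finset.mem_union]
        exact Or.inr hn
      have h1 := hc S P hP [D, impL Ds A] M (by omega)
        (by
          intro X hX
          simp only [List.mem_cons, List.not_mem_nil, or_false] at hX
          rcases hX with rfl | rfl
          · exact hsz'.1
          · exact hsz'.2)
        (by
          intro X hX
          simp only [List.mem_cons, List.not_mem_nil, or_false] at hX
          rcases hX with rfl | rfl
          · exact hokD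
          · exact hokI) Γ
        (by
          intro B hB
          simp only [List.mem_cons, List.not_mem_nil, or_false] at hB
          rcases hB with rfl | rfl
          · simpa [subst, asg] using hD D (by simp)
          · simpa [subst, asg, impL] using h)
      have h2 : Gen P Γ [impL Ds A] (c * M) := by simpa [subst, asg] using h1
      have h3 := ih (Γ ∪ {B | B ∈ [impL Ds A]}) hsz'.2 hokI (Or.inr (by simp))
        (fun B hB => Or.inl (hD B (by simp [hB])))
      refine (h2.cut h3).le ?_
      simp only [List.length_cons]
      nlinarith
  refine (key Ds Γ hsz hok hΓ hD).le ?_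
  have hlen : Ds.length ≤ M := by
    have : ∀ Ds : List Fm, Ds.length ≤ (impL Ds A).size := by
      intro Ds
      induction Ds with
      | nil => simp
      | cons D Ds ih =>
        simp only [impL, List.foldr_cons, size, List.length_cons] at ih ⊢
        omega
    exact (this Ds).trans hsz
  have h1 : c ≤ M ^ c := le_pow_self hM c
  have h2 : Ds.length ≤ M ^ 1 := by simpa using hlen
  have h3 : c * M ≤ M ^ (c + 1) := mul_pow h1 (by simp)
  exact (mul_pow h2 h3).trans (pow_mono hM (by omega))

end Pool.Agent.H543R3.PP
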