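import Pool.Agent.H543R3.PP.G0

/-!
# Project PP: dual-rail formulas, substitution Frege with few variables, gadgets; task statements
-/

set_option autoImplicit false

namespace Pool.Agent.H543R3.PP

open Pool.Agent.H555R2.PF Pool.Agent.H555R2.PF.Fm

/-! ## the notions of the final theorem -/

/-- `D₀ → (D₁ → ⋯ → A)` -/
def impL (Ds : List Fm) (A : Fm) : Fm := Ds.foldr Fm.imp A

/-- The dual-rail form of `A`: `(p₀ ≢ p_n) → (p₁ ≢ p_{n+1}) → ⋯ → (p_{n-1} ≢ p_{2n-1}) → A`. -/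
def dualRail (n : ℕ) (A : Fm) : Fm :=
  impL ((List.range n).map fun i => neg (iff (var i) (var (n + i)))) A

/-- Proofs in substitution Frege all lines of which are formulas in the variables
`p₀, …, p_{K-1}`. -/
inductive SubProof (F : List Rule) (K : ℕ) : List Fm → Prop
  | nil : SubProof F K []
  | rule {L : List Fm} {B : Fm} : SubProof F K L → FregeStep F L B → (∀ x ∈ B.vars, x < K) →
      SubProof F K (B :: L)
  | subst {L : List Fm} {A : Fm} {σ : ℕ → Fm} : SubProof F K L → A ∈ L →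
      (∀ x ∈ (A.subst σ).vars, x < K) → SubProof F K (A.subst σ :: L)

/-! ## auxiliary notions -/

/-- Proofs with single substitutions `p_q := χ`, variables below `N`. -/
inductive SSub (F : List Rule) (N : ℕ) : List Fm → Prop
  | nil : SSub F N []
  | rule {L : List Fm} {B : Fm} : SSub F N L → FregeStep F L B → (∀ x ∈ B.vars, x < N) →
      SSub F N (B :: L)
  | ssub {L : List Fm} {A χ : Fm} {q : ℕ} : SSub F N L → A ∈ L → q < N →
      (∀ x ∈ χ.vars, x < N) → SSub F N (A.subst (Function.update var q χ) :: L)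

/-- Boolean evaluation -/
def bev (v : ℕ → Bool) : Fm → Bool
  | .var n => v n
  | .neg A => !(bev v A)
  | .and A B => bev v A && bev v B
  | .or A B => bev v A || bev v B
  | .imp A B => !(bev v A) || bev v B

/-- conjunction of literals; `z` is a dummy variable -/
def cubeL (z : ℕ) (l : List (ℕ × Bool)) : Fm := conjL z (l.map fun p => sg p.2 (var p.1))

/-! ### gadgets: `n` gadgets with `2 H + 2` variables each, `H = 2 ^ (b + 1)` -/

def HH (b : ℕ) : ℕ := 2 ^ (b + 1)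

def GG (b : ℕ) : ℕ := 2 * HH b + 2

/-- the `e`-th variable of the gadget `i` -/
def gv (n b i e : ℕ) : ℕ :=
  if e = 0 then i else if e = 1 then n + i else 2 * n + i * (2 * HH b) + (e - 2)

/-- left inverse of `gv n b i` -/
def gix (n b i x : ℕ) : ℕ :=
  if x = i then 0 else if x = n + i then 1 else x - (2 * n + i * (2 * HH b)) + 2

/-- states `(t, x, h)` -/
abbrev St := ℕ × Bool × ℕ

/-- valid states -/
def Vs (b : ℕ) (s : St) : Prop := s.1 ≤ 2 * HH b ∧ s.2.2 < 2 ^ b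

/-- the list of the valid states -/
def sts (b : ℕ) : List St := List.range (2 * HH b + 1) ×ˢ ([false, true] ×ˢ List.range (2 ^ b))

/-- the value of the `e`-th variable of a gadget in the state `s`; a state `(t, x, h)` has
exactly `t + 1` ones -/
def Dv (b : ℕ) (s : St) (e : ℕ) : Bool :=
  if s.2.2 = 0 then
    if e = 0 then s.2.1 else if e = 1 then !s.2.1 else decide (e - 2 < s.1)
  else if s.1 ≤ HH b then
    if e ≤ 1 then false
    else decide (e - 2 < s.1) || decide (e - 2 = HH b + 2 * (s.2.2 - 1) + s.2.1.toNat)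
  else
    if e ≤ 1 then true
    else decide (e - 2 < s.1) && !decide (e - 2 = 2 * (s.2.2 - 1) + s.2.1.toNat)

/-- the `l`-th bit of the content of a state, `l ≤ b` -/
def cbit (s : St) (l : ℕ) : Bool := if l = 0 then s.2.1 else s.2.2.testBit (l - 1)

/-- flipping the `l`-th bit of the content -/
def flipS (s : St) (l : ℕ) : St :=
  if l = 0 then (s.1, !s.2.1, s.2.2) else (s.1, s.2.1, s.2.2 ^^^ 2 ^ (l - 1))

/-- gadget `i` is in the state `s` -/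
def eqf (n b i : ℕ) (s : St) : Fm :=
  cubeL i ((List.range (GG b)).map fun e => (gv n b i e, Dv b s e))

/-- gadget `i` is in a valid state -/
def valf (n b i : ℕ) : Fm := disjL i ((sts b).map (eqf n b i))

/-- the host variable `β < n (b + 1)`: bit `β / n` of the content of the gadget `β % n` -/
def decf (n b β : ℕ) : Fm :=
  disjL (β % n) (((sts b).filter fun s => cbit s (β / n)).map (eqf n b (β % n)))

/-- all gadgets are in valid states -/
def EE (n b : ℕ) : Fm := conjL 0 ((List.range n).map (valf n b))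

/-- the translation of the host formula `W` -/
def TR (n b : ℕ) (W : Fm) : Fm := imp (EE n b) (W.subst (decf n b))

/-- the assignment of the variables of the gadget `i` in the state `s` -/
def gval (n b i : ℕ) (s : St) (x : ℕ) : Bool := Dv b s (gix n b i x)

/-- `r₀, …, r_{m-1}` is sorted (`1 … 1 0 … 0`) -/
def srt (r : ℕ → ℕ) (m : ℕ) : Fm :=
  disjL (r 0) ((List.range (m + 1)).map fun t =>
    cubeL (r 0) ((List.range m).map fun e => (r e, decide (e < t))))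

/-- the last `2 H` variables of the gadget `i` -/
def rr (n b i : ℕ) : ℕ → ℕ := fun e => gv n b i (e + 2)

/-! ### positions (second half of the theorem) -/

/-- position `i` (coded by the variables `i l, …, i l + l - 1`) is `v` -/
def ceq (l i v : ℕ) : Fm :=
  cubeL (i * l) ((List.range l).map fun j => (i * l + j, v.testBit j))

/-- one of the `n` positions is `v` -/
def occ (n l v : ℕ) : Fm := disjL 0 ((List.range n).map fun i => ceq l i v)

/-- extension axioms `p_{n+j} ↔ φ_j` (the last one first), `φ_j` in the variables below `n + j` -/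
def WFn (n : ℕ) : List Fm → Prop
  | [] => True
  | D :: Ds => (∃ φ : Fm, D = iff (var (n + Ds.length)) φ ∧ ∀ x ∈ φ.vars, x < n + Ds.length) ∧
      WFn n Ds

/-! ### first lemmas -/

theorem permSys (F : List Rule) : Sys F Set.univ (PermProof F) :=
  ⟨trivial, PermProof.nil, fun _ _ h1 h2 _ => PermProof.rule h1 h2⟩

theorem subSys (F : List Rule) {K : ℕ} (h : 0 < K) : Sys F {m | m < K} (SubProof F K) :=
  ⟨h, SubProof.nil, fun _ _ h1 h2 h3 => SubProof.rule h1 h2 h3⟩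

theorem ssubSys (F : List Rule) {N : ℕ} (h : 0 < N) : Sys F {m | m < N} (SSub F N) :=
  ⟨h, SSub.nil, fun _ _ h1 h2 h3 => SSub.rule h1 h2 h3⟩

theorem ok_univ (A : Fm) : Ok Set.univ A := fun _ _ => trivial

theorem Gen.perm {F : List Rule} {Γ : Set Fm} {A : Fm} (hA : A ∈ Γ) (π : Equiv.Perm ℕ)
    (hπ : ∀ x, x ∉ A.vars → π x = x) : Gen (PermProof F) Γ [A.rename π] A.size := by
  intro L hL hΓ
  refine ⟨[A.rename π], PermProof.perm hL ⟨A, hΓ A hA, π, hπ, rfl⟩, by simp, ?_⟩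
  simp [psize, size_rename]

theorem Gen.subst {F : List Rule} {K : ℕ} {Γ : Set Fm} {A : Fm} (hA : A ∈ Γ) (σ : ℕ → Fm)
    (h : ∀ x ∈ (A.subst σ).vars, x < K) :
    Gen (SubProof F K) Γ [A.subst σ] (A.subst σ).size := by
  intro L hL hΓ
  exact ⟨[A.subst σ], SubProof.subst hL (hΓ A hA) h, by simp, by simp [psize]⟩

theorem Gen.ssub {F : List Rule} {N : ℕ} {Γ : Set Fm} {A : Fm} (hA : A ∈ Γ) (q : ℕ) (χ : Fm)
    (hq : q < N) (h : ∀ x ∈ χ.vars, x < N) :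
    Gen (SSub F N) Γ [A.subst (Function.update var q χ)]
      (A.subst (Function.update var q χ)).size := by
  intro L hL hΓ
  exact ⟨[_], SSub.ssub hL (hΓ A hA) hq h, by simp, by simp [psize]⟩

theorem mem_sts {b : ℕ} {s : St} : s ∈ sts b ↔ Vs b s := by
  obtain ⟨t, x, h⟩ := s
  have hx : x ∈ [false, true] := by cases x <;> simp
  rw [sts, List.mem_product, List.mem_product, List.mem_range, List.mem_range]
  simp only [Vs, hx, true_and]
  omega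

/-! ## task statements -/

/-! ### generic (any system closed under Frege steps) -/

/-- a conjunction implies its members -/
def S_CM (F : List Rule) : Prop := ∃ c : ℕ, ∀ (S : Set ℕ) (P : List Fm → Prop), Sys F S P →
  ∀ (z : ℕ) (Ds : List Fm) (M : ℕ), 2 ≤ M → (conjL z Ds).size ≤ M → Ok S (conjL z Ds) →
  ∀ D ∈ Ds, ∀ Γ : Set Fm, Gen P Γ [imp (conjL z Ds) D] (M ^ c)

/-- introduction of a conjunction -/
def S_CI (F : List Rule) : Prop := ∃ c : ℕ, ∀ (S : Set ℕ) (P : List Fm → Prop), Sys F S P →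
  ∀ (z : ℕ) (E : Fm) (Ds : List Fm) (M : ℕ), 2 ≤ M → E.size ≤ M → (conjL z Ds).size ≤ M →
  Ok S E → Ok S (conjL z Ds) → ∀ Γ : Set Fm, (∀ D ∈ Ds, imp E D ∈ Γ) →
  Gen P Γ [imp E (conjL z Ds)] (M ^ c)

/-- introduction of a disjunction -/
def S_DI (F : List Rule) : Prop := ∃ c : ℕ, ∀ (S : Set ℕ) (P : List Fm → Prop), Sys F S P →
  ∀ (z : ℕ) (Ds : List Fm) (M : ℕ), 2 ≤ M → (disjL z Ds).size ≤ M → Ok S (disjL z Ds) →
  ∀ D ∈ Ds, ∀ Γ : Set Fm, Gen P Γ [imp D (disjL z Ds)] (M ^ c)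

/-- elimination of a disjunction -/
def S_DE (F : List Rule) : Prop := ∃ c : ℕ, ∀ (S : Set ℕ) (P : List Fm → Prop), Sys F S P →
  ∀ (z : ℕ) (E G : Fm) (Ds : List Fm) (M : ℕ), 2 ≤ M → E.size ≤ M → G.size ≤ M →
  (disjL z Ds).size ≤ M → Ok S E → Ok S G → Ok S (disjL z Ds) →
  ∀ Γ : Set Fm, (∀ D ∈ Ds, imp E (imp D G) ∈ Γ) → Gen P Γ [imp E (imp (disjL z Ds) G)] (M ^ c)

/-- evaluation of a formula -/
def S_EV (F : List Rule) : Prop := ∃ c : ℕ, ∀ (S : Set ℕ) (P : List Fm → Prop), Sys F S P →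
  ∀ (E : Fm) (v : ℕ → Bool) (φ : Fm) (M : ℕ), 2 ≤ M → E.size ≤ M → φ.size ≤ M → Ok S E →
  Ok S φ → ∀ Γ : Set Fm, (∀ x ∈ φ.vars, imp E (sg (v x) (var x)) ∈ Γ) →
  Gen P Γ [imp E (sg (bev v φ) φ)] (M ^ c)

/-- evaluation of a formula under a cube -/
def S_EVC (F : List Rule) : Prop := ∃ c : ℕ, ∀ (S : Set ℕ) (P : List Fm → Prop), Sys F S P →
  ∀ (z : ℕ) (l : List (ℕ × Bool)) (v : ℕ → Bool) (φ : Fm) (M : ℕ), 2 ≤ M →
  (cubeL z l).size ≤ M → φ.size ≤ M → Ok S (cubeL z l) → Ok S φ →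
  (∀ x ∈ φ.vars, (x, v x) ∈ l) → ∀ Γ : Set Fm,
  Gen P Γ [imp (cubeL z l) (sg (bev v φ) φ)] (M ^ c)

/-- replacement of equivalents -/
def S_REPL (F : List Rule) : Prop := ∃ c : ℕ, ∀ (S : Set ℕ) (P : List Fm → Prop), Sys F S P →
  ∀ (U W : Fm) (σ τ : ℕ → Fm) (M : ℕ), 2 ≤ M → U.size ≤ M → (W.subst σ).size ≤ M →
  (W.subst τ).size ≤ M → Ok S U → (∀ x ∈ W.vars, Ok S (σ x)) → (∀ x ∈ W.vars, Ok S (τ x)) →
  ∀ Γ : Set Fm, (∀ x ∈ W.vars, imp U (iff (σ x) (τ x)) ∈ Γ) →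
  Gen P Γ [imp U (iff (W.subst σ) (W.subst τ))] (M ^ c)

/-- truth tables: tautologies in few variables have short proofs -/
def S_TT (F : List Rule) : Prop := ∃ c : ℕ, ∀ (S : Set ℕ) (P : List Fm → Prop), Sys F S P →
  ∀ (xs : List ℕ) (φ : Fm) (M : ℕ), 2 ≤ M → 2 ^ xs.length ≤ M → φ.size ≤ M →
  (∀ x ∈ φ.vars, x ∈ xs) → (∀ x ∈ xs, x ∈ S) → (∀ v : ℕ → Bool, bev v φ = true) →
  ∀ Γ : Set Fm, Gen P Γ [φ] (M ^ c)

/-- substitution from a flip -/
def S_SUB1 (F : List Rule) : Prop := ∃ c : ℕ, ∀ (S : Set ℕ) (P : List Fm → Prop), Sys F S P →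
  ∀ (E W X : Fm) (σ : ℕ → Fm) (β : ℕ) (M : ℕ), 2 ≤ M → E.size ≤ M → X.size ≤ M →
  (σ β).size ≤ M → (W.subst σ).size ≤ M →
  (W.subst (Function.update σ β X)).size ≤ M → Ok S E → Ok S X → Ok S (σ β) →
  (∀ x ∈ W.vars, Ok S (σ x)) →
  ∀ Γ : Set Fm, imp E (W.subst σ) ∈ Γ →
  imp E (W.subst (Function.update σ β (neg (σ β)))) ∈ Γ →
  Gen P Γ [imp E (W.subst (Function.update σ β X))] (M ^ c)

/-- currying -/
def S_CUR (F : List Rule) : Prop := ∃ c : ℕ, ∀ (S : Set ℕ) (P : List Fm → Prop), Sys F S P →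
  ∀ (z : ℕ) (Ds : List Fm) (A : Fm) (M : ℕ), 2 ≤ M → (imp (conjL z Ds) A).size ≤ M →
  Ok S (imp (conjL z Ds) A) → ∀ Γ : Set Fm, imp (conjL z Ds) A ∈ Γ →
  Gen P Γ [impL Ds A] (M ^ c)

/-- discharging proved hypotheses -/
def S_DIS (F : List Rule) : Prop := ∃ c : ℕ, ∀ (S : Set ℕ) (P : List Fm → Prop), Sys F S P →
  ∀ (Ds : List Fm) (A : Fm) (M : ℕ), 2 ≤ M → (impL Ds A).size ≤ M → Ok S (impL Ds A) →
  ∀ Γ : Set Fm, impL Ds A ∈ Γ → (∀ D ∈ Ds, D ∈ Γ) → Gen P Γ [A] (M ^ c)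

/-! ### combinatorics of the gadgets -/

/-- the variables of the gadgets -/
def S_GV : Prop := (∀ n b i j e e' : ℕ, i < n → j < n → e < GG b → e' < GG b →
    gv n b i e = gv n b j e' → i = j ∧ e = e') ∧
  (∀ n b i e : ℕ, i < n → e < GG b → gix n b i (gv n b i e) = e)

/-- a state `(t, x, h)` has exactly `t + 1` ones -/
def S_CNT : Prop := ∀ (b : ℕ) (s : St), Vs b s →
  ((Finset.range (GG b)).filter fun e => Dv b s e = true).card = s.1 + 1

/-- different states differ -/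
def S_INJ : Prop := ∀ (b : ℕ) (s s' : St), Vs b s → Vs b s' →
  (∀ e < GG b, Dv b s e = Dv b s' e) → s = s'

/-- permutations of the variables of a gadget -/
def S_PRM : Prop := ∀ (n b i : ℕ) (s s' : St), i < n → Vs b s → Vs b s' → s.1 = s'.1 →
  ∃ π : Equiv.Perm ℕ, (∀ x, (∀ e < GG b, x ≠ gv n b i e) → π x = x) ∧
    ∀ e < GG b, ∃ e' < GG b, π (gv n b i e) = gv n b i e' ∧ Dv b s e' = Dv b s' e

/-- Boolean values in a state -/
def S_BEV : Prop := ∀ (n b i : ℕ) (s : St), i < n → Vs b s →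
  (bev (gval n b i s) (valf n b i) = true) ∧
    ∀ β, β % n = i → bev (gval n b i s) (decf n b β) = cbit s (β / n)

/-- flipping a bit of the content -/
def S_FLS : Prop := ∀ (b : ℕ) (s : St) (l : ℕ), Vs b s → l ≤ b →
  Vs b (flipS s l) ∧ (flipS s l).1 = s.1 ∧
    ∀ l' ≤ b, cbit (flipS s l) l' = if l' = l then !(cbit s l') else cbit s l'

/-- variables of the formulas -/
def S_VAR : Prop := ∀ (n b : ℕ), 1 ≤ n →
  (∀ i s x, x ∈ (eqf n b i s).vars ↔ ∃ e < GG b, x = gv n b i e) ∧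
  (∀ i x, x ∈ (valf n b i).vars ↔ ∃ e < GG b, x = gv n b i e) ∧
  (∀ β x, x ∈ (decf n b β).vars → ∃ e < GG b, x = gv n b (β % n) e) ∧
  (∀ x, x ∈ (EE n b).vars ↔ ∃ i < n, ∃ e < GG b, x = gv n b i e)

/-- sizes of the formulas -/
def S_SIZ : Prop := ∃ c : ℕ, ∀ n b M : ℕ, 2 ≤ M → n ≤ M → 2 ^ b ≤ M →
  (EE n b).size ≤ M ^ c ∧ (sts b).length ≤ M ^ c ∧ GG b ≤ M ^ c ∧
  (∀ i, (valf n b i).size ≤ M ^ c) ∧ (∀ i s, (eqf n b i s).size ≤ M ^ c) ∧
  (∀ β, (decf n b β).size ≤ M ^ c) ∧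
  (∀ r : ℕ → ℕ, ∀ m, m ≤ 2 * HH b → (srt r m).size ≤ M ^ c)

/-! ### first half: permutation Frege simulates `SSub F (n (b + 1))` on dual-rail formulas -/

/-- flipping a host variable, one state -/
def S_FL1 (F : List Rule) : Prop := ∃ c : ℕ, ∀ (n b β : ℕ) (W : Fm) (s : St) (M : ℕ), 2 ≤ M →
  1 ≤ n → n ≤ M → 2 ^ b ≤ M → W.size ≤ M → β < n * (b + 1) →
  (∀ x ∈ W.vars, x < n * (b + 1)) → Vs b s → ∀ Γ : Set Fm, TR n b W ∈ Γ →
  Gen (PermProof F) Γ [imp (EE n b) (imp (eqf n b (β % n) s)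
    (W.subst (Function.update (decf n b) β (neg (decf n b β)))))] (M ^ c)

/-- flipping a host variable -/
def S_FL (F : List Rule) : Prop := ∃ c : ℕ, ∀ (n b β : ℕ) (W : Fm) (M : ℕ), 2 ≤ M →
  1 ≤ n → n ≤ M → 2 ^ b ≤ M → W.size ≤ M → β < n * (b + 1) →
  (∀ x ∈ W.vars, x < n * (b + 1)) → ∀ Γ : Set Fm, TR n b W ∈ Γ →
  Gen (PermProof F) Γ [imp (EE n b)
    (W.subst (Function.update (decf n b) β (neg (decf n b β))))] (M ^ c)

/-- the simulation -/
def S_SIM (F : List Rule) : Prop := ∃ c : ℕ, ∀ (n b : ℕ) (L : List Fm) (M : ℕ), 2 ≤ M →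
  1 ≤ n → n ≤ M → 2 ^ b ≤ M → psize L ≤ M → SSub F (n * (b + 1)) L →
  ∃ L' : List Fm, PermProof F L' ∧ (∀ W ∈ L, TR n b W ∈ L') ∧ psize L' ≤ M ^ c

/-- one gadget at the end -/
def S_IN1 (F : List Rule) : Prop := ∃ c : ℕ, ∀ (n b i M : ℕ), 2 ≤ M → i < n → n ≤ M →
  2 ^ b ≤ M → ∀ Γ : Set Fm, Gen (PermProof F) Γ
    [imp (and (neg (iff (var i) (var (n + i)))) (srt (rr n b i) (2 * HH b)))
      (and (valf n b i) (iff (decf n b i) (var i)))] (M ^ c)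

/-- from the translation of `A` to `A` -/
def S_IN (F : List Rule) : Prop := ∃ c : ℕ, ∀ (n b : ℕ) (A : Fm) (M : ℕ), 2 ≤ M → n ≤ M →
  2 ^ b ≤ M → A.size ≤ M → (∀ x ∈ A.vars, x < n) → ∀ Γ : Set Fm, TR n b A ∈ Γ →
  Gen (PermProof F) Γ
    [impL ((List.range n).map fun i => srt (rr n b i) (2 * HH b)) (dualRail n A)] (M ^ c)

/-- insertion: one step of the sorting -/
def S_SO1 (F : List Rule) : Prop := ∃ c : ℕ, ∀ (r : ℕ → ℕ) (j : ℕ) (B : Fm) (M : ℕ), 2 ≤ M →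
  j ≤ M → B.size ≤ M → Set.InjOn r (Set.Iic j) → (∀ e ≤ j, r e ∉ B.vars) →
  ∀ Γ : Set Fm, imp (srt r (j + 1)) B ∈ Γ → Gen (PermProof F) Γ [imp (srt r j) B] (M ^ c)

/-- sorting -/
def S_SO (F : List Rule) : Prop := ∃ c : ℕ, ∀ (r : ℕ → ℕ) (m : ℕ) (B : Fm) (M : ℕ), 2 ≤ M →
  m ≤ M → B.size ≤ M → Set.InjOn r (Set.Iio m) → (∀ e < m, r e ∉ B.vars) →
  ∀ Γ : Set Fm, imp (srt r m) B ∈ Γ → Gen (PermProof F) Γ [B] (M ^ c)

/-- sorting in all gadgets -/
def S_SOA (F : List Rule) : Prop := ∃ c : ℕ, ∀ (n b : ℕ) (B : Fm) (M : ℕ), 2 ≤ M → n ≤ M →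
  2 ^ b ≤ M → B.size ≤ M → (∀ x ∈ B.vars, x < 2 * n) → ∀ Γ : Set Fm,
  impL ((List.range n).map fun i => srt (rr n b i) (2 * HH b)) B ∈ Γ →
  Gen (PermProof F) Γ [B] (M ^ c)

/-! ### substitution Frege and extended Frege in `SSub` -/

/-- simultaneous substitutions by single ones -/
def S_MA (F : List Rule) : Prop := ∃ c : ℕ, ∀ (K : ℕ) (L : List Fm) (M : ℕ), 2 ≤ M → K ≤ M →
  psize L ≤ M → SubProof F K L →
  ∃ L' : List Fm, SSub F (2 * K) L' ∧ (∀ W ∈ L, W ∈ L') ∧ psize L' ≤ M ^ c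

/-- extended Frege: deduction theorem and renaming -/
def S_MB1 (F : List Rule) : Prop := ∃ c : ℕ, ∀ (A : Fm) (n k : ℕ) (L : List Fm) (M : ℕ), 2 ≤ M →
  (∀ x ∈ A.vars, x < n) → psize (A :: L) ≤ M → EFProof F A k (A :: L) →
  ∃ Ds L' : List Fm, Ds.length = k ∧ WFn n Ds ∧ psize Ds ≤ M ∧ SSub F (n + k) L' ∧
    imp (conjL 0 Ds) A ∈ L' ∧ psize L' ≤ M ^ c

/-- extended Frege: elimination of the extension axioms -/
def S_MB2 (F : List Rule) : Prop := ∃ c : ℕ, ∀ (A : Fm) (n N : ℕ) (Ds : List Fm) (M : ℕ), 2 ≤ M →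
  (∀ x ∈ A.vars, x < n) → WFn n Ds → n + Ds.length ≤ N → (imp (conjL 0 Ds) A).size ≤ M →
  ∀ Γ : Set Fm, imp (conjL 0 Ds) A ∈ Γ → Gen (SSub F N) Γ [A] (M ^ c)

/-! ### second half: substitution Frege with `n l` variables simulates permutation Frege -/

/-- renaming the variables of a proof with permutations -/
def S_REN (F : List Rule) : Prop :=
  (∀ (f : Equiv.Perm ℕ) (L : List Fm), PermProof F L → PermProof F (L.map (Fm.rename f))) ∧
  ∀ (V : Finset ℕ) (N : ℕ), V.card ≤ N → ∃ f : Equiv.Perm ℕ, ∀ x ∈ V, f x < N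

/-- the substitution for a permutation `π` of the numbers below `2 ^ l` -/
def S_OCC (F : List Rule) : Prop := ∃ c : ℕ, ∀ (n l : ℕ) (π : Equiv.Perm ℕ) (M : ℕ), 2 ≤ M →
  1 ≤ n → 1 ≤ l → n ≤ M → 2 ^ l ≤ M → (∀ x, 2 ^ l ≤ x → π x = x) →
  ∃ ρ : ℕ → Fm, (∀ x, (ρ x).size ≤ M ^ c) ∧ (∀ x < n * l, ∀ y ∈ (ρ x).vars, y < n * l) ∧
    ∀ x < 2 ^ l, ∀ Γ : Set Fm, Gen (SubProof F (n * l)) Γ
      [iff ((occ n l x).subst ρ) (occ n l (π x))] (M ^ c)

/-- the simulation -/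
def S_T2I (F : List Rule) : Prop := ∃ c : ℕ, ∀ (n l : ℕ) (L : List Fm) (M : ℕ), 2 ≤ M →
  1 ≤ n → 1 ≤ l → n ≤ M → 2 ^ l ≤ M → psize L ≤ M → (∀ B ∈ L, ∀ x ∈ B.vars, x < 2 ^ l) →
  PermProof F L →
  ∃ L' : List Fm, SubProof F (n * l) L' ∧ (∀ W ∈ L, W.subst (occ n l) ∈ L') ∧ psize L' ≤ M ^ c

/-- the last substitution -/
def S_T2F (F : List Rule) : Prop := ∃ c : ℕ, ∀ (n l : ℕ) (f : ℕ → ℕ) (A : Fm) (M : ℕ), 2 ≤ M →
  1 ≤ l → n ≤ M → 2 ^ l ≤ M → (∀ x < 2 * n, f x < 2 ^ l) → Set.InjOn f (Set.Iio (2 * n)) →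
  A.size ≤ M → (∀ x ∈ A.vars, x < n) → ∀ Γ : Set Fm,
  (dualRail n A).subst (fun x => occ n l (f x)) ∈ Γ → Gen (SubProof F (n * l)) Γ [A] (M ^ c)

end Pool.Agent.H543R3.PP
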