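import Pool.Agent.H543R3.PP.Defs

/-!
# Project PP, task EV: evaluation of a formula under an assignment
-/

set_option autoImplicit false

namespace Pool.Agent.H543R3.PP

open Pool.Agent.H555R2.PF Pool.Agent.H555R2.PF.Fm

theorem EV_lin {F : List Rule} (hF : IsFrege F) : ∃ c : ℕ, ∀ (S : Set ℕ) (P : List Fm → Prop),
    Sys F S P → ∀ (v : ℕ → Bool) (U : Fm) (M : ℕ), 1 ≤ M → U.size ≤ M → Ok S U →
    ∀ (C : Fm), C.size ≤ M → Ok S C → ∀ Γ : Set Fm, (∀ n ∈ C.vars, imp U (sg (v n) (var n)) ∈ Γ) →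
      Gen P Γ [imp U (sg (bev v C) C)] (c * M * C.size) := by
  have h1 : ∀ b : Bool, ∃ c : ℕ, ∀ (S : Set ℕ) (P : List Fm → Prop), Sys F S P →
      ∀ (l : List Fm) (M : ℕ), 1 ≤ M → (∀ X ∈ l, X.size ≤ M) → (∀ X ∈ l, Ok S X) →
      ∀ Γ : Set Fm, (∀ A ∈ [imp (var 0) (sg b (var 1))], A.subst (asg l) ∈ Γ) →
        Gen P Γ [(imp (var 0) (sg (!b) (neg (var 1)))).subst (asg l)] (c * M) := fun b =>
    gschemaL hF _ _ (by intro v h; cases b <;> simp [sg, eval] at h ⊢ <;> tauto)
  have h2 : ∀ b b' : Bool, ∃ c : ℕ, ∀ (S : Set ℕ) (P : List Fm → Prop), Sys F S P →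
      ∀ (l : List Fm) (M : ℕ), 1 ≤ M → (∀ X ∈ l, X.size ≤ M) → (∀ X ∈ l, Ok S X) →
      ∀ Γ : Set Fm, (∀ A ∈ [imp (var 0) (sg b (var 1)), imp (var 0) (sg b' (var 2))],
        A.subst (asg l) ∈ Γ) →
        Gen P Γ [(imp (var 0) (sg (b && b') (and (var 1) (var 2)))).subst (asg l)] (c * M) :=
    fun b b' => gschemaL hF _ _ (by
      intro v h; cases b <;> cases b' <;> simp [sg, eval] at h ⊢ <;> tauto)
  have h3 : ∀ b b' : Bool, ∃ c : ℕ, ∀ (S : Set ℕ) (P : List Fm → Prop), Sys F S P →
      ∀ (l : List Fm) (M : ℕ), 1 ≤ M → (∀ X ∈ l, X.size ≤ M) → (∀ X ∈ l, Ok S X) →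
      ∀ Γ : Set Fm, (∀ A ∈ [imp (var 0) (sg b (var 1)), imp (var 0) (sg b' (var 2))],
        A.subst (asg l) ∈ Γ) →
        Gen P Γ [(imp (var 0) (sg (b || b') (or (var 1) (var 2)))).subst (asg l)] (c * M) :=
    fun b b' => gschemaL hF _ _ (by
      intro v h; cases b <;> cases b' <;> simp [sg, eval] at h ⊢ <;> tauto)
  have h4 : ∀ b b' : Bool, ∃ c : ℕ, ∀ (S : Set ℕ) (P : List Fm → Prop), Sys F S P →
      ∀ (l : List Fm) (M : ℕ), 1 ≤ M → (∀ X ∈ l, X.size ≤ M) → (∀ X ∈ l, Ok S X) →
      ∀ Γ : Set Fm, (∀ A ∈ [imp (var 0) (sg b (var 1)), imp (var 0) (sg b' (var 2))],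
        A.subst (asg l) ∈ Γ) →
        Gen P Γ [(imp (var 0) (sg (!b || b') (imp (var 1) (var 2)))).subst (asg l)] (c * M) :=
    fun b b' => gschemaL hF _ _ (by
      intro v h; cases b <;> cases b' <;> simp [sg, eval] at h ⊢ <;> tauto)
  choose c₁ h₁ using h1
  choose c₂ h₂ using h2
  choose c₃ h₃ using h3
  choose c₄ h₄ using h4
  have hsum : ∃ c : ℕ, (∀ b, c₁ b ≤ c) ∧ (∀ b b', c₂ b b' ≤ c) ∧ (∀ b b', c₃ b b' ≤ c) ∧
      (∀ b b', c₄ b b' ≤ c) := by
    refine ⟨∑ b, c₁ b + ∑ b, ∑ b', c₂ b b' + ∑ b, ∑ b', c₃ b b' + ∑ b, ∑ b', c₄ b b',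
      ?_, ?_, ?_, ?_⟩ <;> simp only [Fintype.sum_bool]
    · intro b; cases b <;> omega
    · intro b b'; cases b <;> cases b' <;> omega
    · intro b b'; cases b <;> cases b' <;> omega
    · intro b b'; cases b <;> cases b' <;> omega
  obtain ⟨c, hc1, hc2, hc3, hc4⟩ := hsum
  refine ⟨c, fun S P hP v U M hM hU hSU C => ?_⟩
  induction C with
  | var n =>
    intro _ _ Γ hΓ
    exact (Gen.hyp (hΓ n (by simp [vars]))).mono subset_rfl (Nat.zero_le _)
  | neg C ih =>
    intro hs hok Γ hΓ
    simp only [size] at hs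
    have hok' : Ok S C := hok
    have r := ih (by omega) hok' Γ hΓ
    have s := h₁ (bev v C) S P hP [U, C] M hM (by
      intro X hX; simp at hX; rcases hX with rfl | rfl
      exacts [hU, by omega]) (by
      intro X hX; simp at hX; rcases hX with rfl | rfl
      exacts [hSU, hok']) (Γ ∪ {Y | Y ∈ [imp U (sg (bev v C) C)]}) (by
      intro Y hY; simp only [List.mem_singleton] at hY; subst hY
      right; simp [subst, asg, sg_subst])
    refine ((r.cut s).sub (by simp [subst, asg, sg_subst, bev])).mono subset_rfl ?_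
    simp only [size]
    have := Nat.mul_le_mul_right M (hc1 (bev v C))
    nlinarith
  | and A B iA iB =>
    intro hs hok Γ hΓ
    simp only [size] at hs
    have okA : Ok S A := fun n hn => hok n (by simp [vars, hn])
    have okB : Ok S B := fun n hn => hok n (by simp [vars, hn])
    have rA := iA (by omega) okA Γ (fun n hn => hΓ n (by simp [vars, hn]))
    have rB := iB (by omega) okB Γ (fun n hn => hΓ n (by simp [vars, hn]))
    have s := h₂ (bev v A) (bev v B) S P hP [U, A, B] M hM (by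
      intro X hX; simp at hX; rcases hX with rfl | rfl | rfl
      exacts [hU, by omega, by omega]) (by
      intro X hX; simp at hX; rcases hX with rfl | rfl | rfl
      exacts [hSU, okA, okB])
      (Γ ∪ {Y | Y ∈ [imp U (sg (bev v A) A)] ++ [imp U (sg (bev v B) B)]}) (by
      intro Y hY; simp only [List.mem_cons, List.not_mem_nil, or_false] at hY
      rcases hY with rfl | rfl <;> right <;> simp [subst, asg, sg_subst])
    refine (((rA.append rB).cut s).sub (by simp [subst, asg, sg_subst, bev])).mono subset_rfl ?_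
    simp only [size]
    have := Nat.mul_le_mul_right M (hc2 (bev v A) (bev v B))
    nlinarith
  | or A B iA iB =>
    intro hs hok Γ hΓ
    simp only [size] at hs
    have okA : Ok S A := fun n hn => hok n (by simp [vars, hn])
    have okB : Ok S B := fun n hn => hok n (by simp [vars, hn])
    have rA := iA (by omega) okA Γ (fun n hn => hΓ n (by simp [vars, hn]))
    have rB := iB (by omega) okB Γ (fun n hn => hΓ n (by simp [vars, hn]))
    have s := h₃ (bev v A) (bev v B) S P hP [U, A, B] M hM (by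
      intro X hX; simp at hX; rcases hX with rfl | rfl | rfl
      exacts [hU, by omega, by omega]) (by
      intro X hX; simp at hX; rcases hX with rfl | rfl | rfl
      exacts [hSU, okA, okB])
      (Γ ∪ {Y | Y ∈ [imp U (sg (bev v A) A)] ++ [imp U (sg (bev v B) B)]}) (by
      intro Y hY; simp only [List.mem_cons, List.not_mem_nil, or_false] at hY
      rcases hY with rfl | rfl <;> right <;> simp [subst, asg, sg_subst])
    refine (((rA.append rB).cut s).sub (by simp [subst, asg, sg_subst, bev])).mono subset_rfl ?_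
    simp only [size]
    have := Nat.mul_le_mul_right M (hc3 (bev v A) (bev v B))
    nlinarith
  | imp A B iA iB =>
    intro hs hok Γ hΓ
    simp only [size] at hs
    have okA : Ok S A := fun n hn => hok n (by simp [vars, hn])
    have okB : Ok S B := fun n hn => hok n (by simp [vars, hn])
    have rA := iA (by omega) okA Γ (fun n hn => hΓ n (by simp [vars, hn]))
    have rB := iB (by omega) okB Γ (fun n hn => hΓ n (by simp [vars, hn]))
    have s := h₄ (bev v A) (bev v B) S P hP [U, A, B] M hM (by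
      intro X hX; simp at hX; rcases hX with rfl | rfl | rfl
      exacts [hU, by omega, by omega]) (by
      intro X hX; simp at hX; rcases hX with rfl | rfl | rfl
      exacts [hSU, okA, okB])
      (Γ ∪ {Y | Y ∈ [imp U (sg (bev v A) A)] ++ [imp U (sg (bev v B) B)]}) (by
      intro Y hY; simp only [List.mem_cons, List.not_mem_nil, or_false] at hY
      rcases hY with rfl | rfl <;> right <;> simp [subst, asg, sg_subst])
    refine (((rA.append rB).cut s).sub (by simp [subst, asg, sg_subst, bev])).mono subset_rfl ?_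
    simp only [size]
    have := Nat.mul_le_mul_right M (hc4 (bev v A) (bev v B))
    nlinarith

theorem t_EV {F : List Rule} (hF : IsFrege F) : S_EV F := by
  obtain ⟨c, hc⟩ := EV_lin hF
  refine ⟨c + 2, fun S P hP E v φ M hM hE hφ hSE hSφ Γ hΓ => ?_⟩
  refine (hc S P hP v E M (by omega) hE hSE φ hφ hSφ Γ hΓ).le ?_
  have h1 : c ≤ M ^ c := le_pow_self hM c
  calc c * M * φ.size ≤ M ^ c * M * M := Nat.mul_le_mul (Nat.mul_le_mul_right _ h1) hφ
    _ = M ^ (c + 2) := by ring

end Pool.Agent.H543R3.PP
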