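import Pool.Agent.H543R3.PP.Defs

set_option autoImplicit false

namespace Pool.Agent.H543R3.PP

open Pool.Agent.H555R2.PF Pool.Agent.H555R2.PF.Fm

theorem t_EVC {F : List Rule} (_hF : IsFrege F) (h1 : S_CM F) (h2 : S_EV F) : S_EVC F := by
  obtain ⟨c1, hc1⟩ := h1
  obtain ⟨c2, hc2⟩ := h2
  refine ⟨1 + c1 + c2 + 1, ?_⟩
  intro S P hP z l v φ M hM hE hφ hoE hoφ hl Γ
  have hA : ∀ x ∈ φ.vars.toList, Gen P Γ [imp (cubeL z l) (sg (v x) (var x))] (M ^ c1) := by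
    intro x hx
    have hx' : (x, v x) ∈ l := hl x (Finset.mem_toList.1 hx)
    exact hc1 S P hP z (l.map fun p : ℕ × Bool => sg p.2 (var p.1)) M hM hE hoE (sg (v x) (var x))
      (List.mem_map.2 ⟨(x, v x), hx', rfl⟩) Γ
  have hB := Gen.many (P := P) (Γ := Γ) (fun x => imp (cubeL z l) (sg (v x) (var x))) (M ^ c1)
    φ.vars.toList hA
  have hC := hc2 S P hP (cubeL z l) v φ M hM hE hφ hoE hoφ
    (Γ ∪ {B | B ∈ φ.vars.toList.map (fun x => imp (cubeL z l) (sg (v x) (var x)))})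
    (fun x hx => Or.inr (List.mem_map.2 ⟨x, Finset.mem_toList.2 hx, rfl⟩))
  refine (hB.cut hC).le ?_
  have hlen : φ.vars.toList.length ≤ M ^ 1 := by
    rw [Finset.length_toList, pow_one]
    exact (vars_card_le φ).trans hφ
  exact add_pow hM (mul_pow hlen le_rfl) le_rfl

end Pool.Agent.H543R3.PP
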