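import Pool.Agent.H543R3.PP.Defs

/-! Task FL: flipping a host variable. -/

set_option autoImplicit false

namespace Pool.Agent.H543R3.PP

open Pool.Agent.H555R2.PF Pool.Agent.H555R2.PF.Fm

theorem t_FL {F : List Rule} (hF : IsFrege F) (h1 : S_CM F) (h2 : S_DE F) (h3 : S_FL1 F)
    (g6 : S_SIZ) : S_FL F := by
  obtain ⟨c1, h1⟩ := h1
  obtain ⟨c2, h2⟩ := h2
  obtain ⟨c3, h3⟩ := h3
  obtain ⟨c6, h6⟩ := g6
  obtain ⟨c0, h0⟩ := gschemaL hF [imp (var 0) (imp (var 1) (var 2)), imp (var 0) (var 1)]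
    (imp (var 0) (var 2)) (by
      intro v h
      simp [eval] at h ⊢
      tauto)
  -- exponent for the formulas
  refine ⟨(c6 + c3) + ((c6 + 2) * c2 + ((c6 + 2) * c1 + (c0 + (c6 + 2)) + 1) + 1) + 1,
    fun n b β W M hM hn hnM hbM hW hβ hWv Γ hΓ => ?_⟩
  obtain ⟨s1, s2, -, s4, s5, s6, -⟩ := h6 n b M hM hnM hbM
  set i := β % n with hi
  have hin : i < n := Nat.mod_lt _ (by omega)
  set E := EE n b with hE
  set V := valf n b i with hV
  set G := W.subst (Function.update (decf n b) β (neg (decf n b β))) with hG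
  have hM1 : 1 ≤ M ^ (c6 + 1) := Nat.one_le_pow _ _ (by omega)
  have hM2 : 2 ≤ M ^ (c6 + 2) := by
    calc 2 ≤ M := hM
      _ = M ^ 1 := (pow_one M).symm
      _ ≤ M ^ (c6 + 2) := pow_mono hM (by omega)
  have hc62 : M ^ c6 ≤ M ^ (c6 + 2) := pow_mono hM (by omega)
  have hEs : E.size ≤ M ^ (c6 + 2) := s1.trans hc62
  have hVs : V.size ≤ M ^ (c6 + 2) := (s4 i).trans hc62
  have hGs : G.size ≤ M ^ (c6 + 2) := by
    have h7 : G.size ≤ W.size * M ^ (c6 + 1) := by
      refine size_subst_le hM1 ?_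
      intro x _
      rcases eq_or_ne x β with rfl | hx
      · rw [Function.update_self]
        simp only [size]
        have h8 := s6 x
        have h9 : 1 ≤ M ^ c6 := Nat.one_le_pow _ _ (by omega)
        rw [pow_succ]
        nlinarith
      · rw [Function.update_of_ne hx]
        exact (s6 x).trans (pow_mono hM (by omega))
    calc G.size ≤ W.size * M ^ (c6 + 1) := h7
      _ ≤ M * M ^ (c6 + 1) := Nat.mul_le_mul_right _ hW
      _ = M ^ (c6 + 2) := by rw [← pow_succ']
  have hP := permSys F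
  -- all states
  have a1 : Gen (PermProof F) Γ ((sts b).map fun s => imp E (imp (eqf n b i s) G))
      (M ^ (c6 + c3)) := by
    refine (Gen.many (fun s => imp E (imp (eqf n b i s) G)) (M ^ c3) (sts b) ?_).le
      (mul_pow s2 le_rfl)
    intro s hs
    exact h3 n b β W s M hM hn hnM hbM hW hβ hWv (mem_sts.1 hs) Γ hΓ
  -- the disjunction
  have a2 := h2 Set.univ (PermProof F) hP i E G ((sts b).map (eqf n b i)) (M ^ (c6 + 2)) hM2
    hEs hGs hVs (ok_univ _) (ok_univ _) (ok_univ _)
    (Γ ∪ {B | B ∈ (sts b).map fun s => imp E (imp (eqf n b i s) G)}) (by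
      intro D hD
      obtain ⟨s, hs, rfl⟩ := List.mem_map.1 hD
      right
      exact List.mem_map.2 ⟨s, hs, rfl⟩)
  rw [← pow_mul] at a2
  -- the member
  have a3 : Gen (PermProof F) Γ [imp E V] (M ^ ((c6 + 2) * c1)) := by
    rw [pow_mul]
    exact h1 Set.univ (PermProof F) hP 0 ((List.range n).map (valf n b)) (M ^ (c6 + 2)) hM2
      hEs (ok_univ _) V (List.mem_map.2 ⟨i, List.mem_range.2 hin, rfl⟩) Γ
  have a4 : Gen (PermProof F) (({imp E V, imp E (imp V G)} : Set Fm)) [imp E G]
      (M ^ (c0 + (c6 + 2))) := by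
    refine (h0 Set.univ (PermProof F) hP [E, V, G] (M ^ (c6 + 2)) (by omega) ?_
      (fun X _ => ok_univ X) _ ?_).le (mul_pow (le_pow_self hM c0) le_rfl)
    · intro X hX
      simp only [List.mem_cons, List.not_mem_nil, or_false] at hX
      rcases hX with rfl | rfl | rfl
      exacts [hEs, hVs, hGs]
    · intro A hA
      simp only [List.mem_cons, List.not_mem_nil, or_false] at hA
      rcases hA with rfl | rfl
      · right; simp [subst, asg]
      · left; simp [subst, asg]
  have a5 : Gen (PermProof F) (Γ ∪ {B | B ∈ (sts b).map fun s => imp E (imp (eqf n b i s) G)})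
      [imp E G] (M ^ ((c6 + 2) * c2 + ((c6 + 2) * c1 + (c0 + (c6 + 2)) + 1) + 1)) := by
    have b1 : Gen (PermProof F) (Γ ∪ {B | B ∈ [imp E (imp V G)]}) [imp E G]
        (M ^ ((c6 + 2) * c1 + (c0 + (c6 + 2)) + 1)) := by
      refine ((a3.mono (Set.subset_union_left) le_rfl).cut (a4.mono ?_ le_rfl)).le
        (add_pow hM le_rfl le_rfl)
      rintro A (rfl | rfl)
      · right; simp
      · left; right; simp
    refine (a2.cut (b1.mono ?_ le_rfl)).le (add_pow hM le_rfl le_rfl)
    rintro A (hA | hA)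
    · left; left; exact hA
    · right; exact hA
  exact (a1.cut a5).le (add_pow hM le_rfl le_rfl)

end Pool.Agent.H543R3.PP
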