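import Pool.Agent.H543R3.PP.Defs

/-!
# Project PP: flip of a host variable in one state
-/

set_option autoImplicit false

namespace Pool.Agent.H543R3.PP

open Pool.Agent.H555R2.PF Pool.Agent.H555R2.PF.Fm

theorem FL1_conjL_rename (f : ℕ → ℕ) (z : ℕ) (Ds : List Fm) :
    (conjL z Ds).rename f = conjL (f z) (Ds.map (fun D => D.rename f)) := by
  induction Ds with
  | nil => rfl
  | cons D Ds ih =>
    simp only [List.map_cons, conjL]
    rw [← ih]
    rfl

theorem FL1_bev_rename (v : ℕ → Bool) (f : ℕ → ℕ) (A : Fm) :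
    bev v (A.rename f) = bev (fun x => v (f x)) A := by
  unfold rename
  induction A with
  | var n => rfl
  | neg A ih => simp only [Fm.subst, bev, ih]
  | and A B iA iB => simp only [Fm.subst, bev, iA, iB]
  | or A B iA iB => simp only [Fm.subst, bev, iA, iB]
  | imp A B iA iB => simp only [Fm.subst, bev, iA, iB]

theorem FL1_bev_congr {v w : ℕ → Bool} : ∀ {A : Fm}, (∀ n ∈ A.vars, v n = w n) →
    bev v A = bev w A := by
  intro A
  induction A with
  | var n => intro h; exact h n (by simp [vars])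
  | neg A ih => intro h; simp only [bev]; rw [ih h]
  | and A B iA iB =>
    intro h; simp only [bev]
    rw [iA fun n hn => h n (by simp [vars, hn]), iB fun n hn => h n (by simp [vars, hn])]
  | or A B iA iB =>
    intro h; simp only [bev]
    rw [iA fun n hn => h n (by simp [vars, hn]), iB fun n hn => h n (by simp [vars, hn])]
  | imp A B iA iB =>
    intro h; simp only [bev]
    rw [iA fun n hn => h n (by simp [vars, hn]), iB fun n hn => h n (by simp [vars, hn])]

/-- derived rules for `PermProof`, bound `K ^ c` -/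
theorem FL1_sch {F : List Rule} (hF : IsFrege F) (Γ₀ : List Fm) (B₀ : Fm)
    (h : Entails Γ₀ B₀) : ∃ c : ℕ, ∀ (l : List Fm) (K : ℕ), 2 ≤ K → (∀ X ∈ l, X.size ≤ K) →
      ∀ Γ : Set Fm, (∀ A ∈ Γ₀, A.subst (asg l) ∈ Γ) →
      Gen (PermProof F) Γ [B₀.subst (asg l)] (K ^ c) := by
  obtain ⟨c, hc⟩ := gschemaL hF Γ₀ B₀ h
  refine ⟨c + 1, fun l K hK hl Γ hΓ => (hc Set.univ _ (permSys F) l K (by omega) hl
    (fun X _ => ok_univ X) Γ hΓ).le ?_⟩
  rw [pow_succ]
  exact Nat.mul_le_mul_right _ (le_pow_self hK c)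

theorem FL1_wl {F : List Rule} (hF : IsFrege F) : ∃ c : ℕ, ∀ (A B C : Fm) (K : ℕ), 2 ≤ K →
    A.size ≤ K → B.size ≤ K → C.size ≤ K → ∀ Γ : Set Fm, imp A B ∈ Γ →
    Gen (PermProof F) Γ [imp (and A C) B] (K ^ c) := by
  obtain ⟨c, hc⟩ := FL1_sch hF [imp (var 0) (var 1)] (imp (and (var 0) (var 2)) (var 1)) (by
    intro v h; simp [eval] at h ⊢; tauto)
  refine ⟨c, fun A B C K hK hA hB hC Γ hΓ => ?_⟩
  have := hc [A, B, C] K hK (by
    intro X hX; simp at hX; rcases hX with rfl | rfl | rfl <;> assumption) Γ (by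
    intro X hX; simp only [List.mem_singleton] at hX; subst hX; simpa [subst, asg] using hΓ)
  simpa [subst, asg] using this

theorem FL1_wr {F : List Rule} (hF : IsFrege F) : ∃ c : ℕ, ∀ (A B C : Fm) (K : ℕ), 2 ≤ K →
    A.size ≤ K → B.size ≤ K → C.size ≤ K → ∀ Γ : Set Fm, imp A B ∈ Γ →
    Gen (PermProof F) Γ [imp (and C A) B] (K ^ c) := by
  obtain ⟨c, hc⟩ := FL1_sch hF [imp (var 0) (var 1)] (imp (and (var 2) (var 0)) (var 1)) (by
    intro v h; simp [eval] at h ⊢; tauto)
  refine ⟨c, fun A B C K hK hA hB hC Γ hΓ => ?_⟩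
  have := hc [A, B, C] K hK (by
    intro X hX; simp at hX; rcases hX with rfl | rfl | rfl <;> assumption) Γ (by
    intro X hX; simp only [List.mem_singleton] at hX; subst hX; simpa [subst, asg] using hΓ)
  simpa [subst, asg] using this

theorem FL1_eq {F : List Rule} (hF : IsFrege F) (t : Bool) : ∃ c : ℕ, ∀ (A B C E : Fm) (K : ℕ),
    2 ≤ K → A.size ≤ K → B.size ≤ K → C.size ≤ K → E.size ≤ K → ∀ Γ : Set Fm,
    imp A (sg t B) ∈ Γ → imp A (sg t C) ∈ Γ →
    Gen (PermProof F) Γ [imp (and E A) (iff B C)] (K ^ c) := by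
  obtain ⟨c, hc⟩ := FL1_sch hF [imp (var 0) (sg t (var 1)), imp (var 0) (sg t (var 2))]
    (imp (and (var 3) (var 0)) (iff (var 1) (var 2))) (by
    intro v h; cases t <;> simp [sg, iff, eval] at h ⊢ <;> tauto)
  refine ⟨c, fun A B C E K hK hA hB hC hE Γ h1 h2 => ?_⟩
  have := hc [A, B, C, E] K hK (by
    intro X hX; simp at hX; rcases hX with rfl | rfl | rfl | rfl <;> assumption) Γ (by
    intro X hX; simp only [List.mem_cons, List.not_mem_nil, or_false] at hX
    rcases hX with rfl | rfl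
    · simpa [subst, asg, sg_subst] using h1
    · simpa [subst, asg, sg_subst] using h2)
  simpa [subst, asg, iff] using this

theorem FL1_ne {F : List Rule} (hF : IsFrege F) (t : Bool) : ∃ c : ℕ, ∀ (A B C E : Fm) (K : ℕ),
    2 ≤ K → A.size ≤ K → B.size ≤ K → C.size ≤ K → E.size ≤ K → ∀ Γ : Set Fm,
    imp A (sg (!t) B) ∈ Γ → imp A (sg t C) ∈ Γ →
    Gen (PermProof F) Γ [imp (and E A) (iff B (neg C))] (K ^ c) := by
  obtain ⟨c, hc⟩ := FL1_sch hF [imp (var 0) (sg (!t) (var 1)), imp (var 0) (sg t (var 2))]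
    (imp (and (var 3) (var 0)) (iff (var 1) (neg (var 2)))) (by
    intro v h; cases t <;> simp [sg, iff, eval] at h ⊢ <;> tauto)
  refine ⟨c, fun A B C E K hK hA hB hC hE Γ h1 h2 => ?_⟩
  have := hc [A, B, C, E] K hK (by
    intro X hX; simp at hX; rcases hX with rfl | rfl | rfl | rfl <;> assumption) Γ (by
    intro X hX; simp only [List.mem_cons, List.not_mem_nil, or_false] at hX
    rcases hX with rfl | rfl
    · simpa [subst, asg, sg_subst] using h1
    · simpa [subst, asg, sg_subst] using h2)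
  simpa [subst, asg, iff] using this

theorem FL1_rf {F : List Rule} (hF : IsFrege F) : ∃ c : ℕ, ∀ (A B : Fm) (K : ℕ), 2 ≤ K →
    A.size ≤ K → B.size ≤ K → ∀ Γ : Set Fm,
    Gen (PermProof F) Γ [imp A (iff B B)] (K ^ c) := by
  obtain ⟨c, hc⟩ := FL1_sch hF [] (imp (var 0) (iff (var 1) (var 1))) (by
    intro v h; simp [iff, eval])
  refine ⟨c, fun A B K hK hA hB Γ => ?_⟩
  have := hc [A, B] K hK (by
    intro X hX; simp at hX; rcases hX with rfl | rfl <;> assumption) Γ (by simp)
  simpa [subst, asg, iff] using this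

theorem FL1_fin {F : List Rule} (hF : IsFrege F) : ∃ c : ℕ, ∀ (E' V E e V' : Fm) (K : ℕ),
    2 ≤ K → E'.size ≤ K → V.size ≤ K → E.size ≤ K → e.size ≤ K → V'.size ≤ K → ∀ Γ : Set Fm,
    imp E' V ∈ Γ → imp (and E e) E' ∈ Γ → imp (and E e) (iff V V') ∈ Γ →
    Gen (PermProof F) Γ [imp E (imp e V')] (K ^ c) := by
  obtain ⟨c, hc⟩ := FL1_sch hF [imp (var 0) (var 1), imp (and (var 2) (var 3)) (var 0),
    imp (and (var 2) (var 3)) (iff (var 1) (var 4))] (imp (var 2) (imp (var 3) (var 4))) (by
    intro v h; simp [iff, eval] at h ⊢; tauto)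
  refine ⟨c, fun E' V E e V' K hK hE' hV hE he hV' Γ h1 h2 h3 => ?_⟩
  have := hc [E', V, E, e, V'] K hK (by
    intro X hX; simp at hX; rcases hX with rfl | rfl | rfl | rfl | rfl <;> assumption) Γ (by
    intro X hX; simp only [List.mem_cons, List.not_mem_nil, or_false] at hX
    rcases hX with rfl | rfl | rfl
    · simpa [subst, asg] using h1
    · simpa [subst, asg] using h2
    · simpa [subst, asg, iff] using h3)
  simpa [subst, asg] using this

/-- value of a renamed formula of the gadget `i` in the state `s` -/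
theorem FL1_eval {F : List Rule} {c3 : ℕ} (h3 : ∀ (S : Set ℕ) (P : List Fm → Prop), Sys F S P →
      ∀ (z : ℕ) (l : List (ℕ × Bool)) (v : ℕ → Bool) (φ : Fm) (M : ℕ), 2 ≤ M →
      (cubeL z l).size ≤ M → φ.size ≤ M → Ok S (cubeL z l) → Ok S φ →
      (∀ x ∈ φ.vars, (x, v x) ∈ l) → ∀ Γ : Set Fm,
      Gen P Γ [imp (cubeL z l) (sg (bev v φ) φ)] (M ^ c3))
    (g1 : S_GV) (n b i : ℕ) (s s2 : St) (hi : i < n) (f : ℕ → ℕ)
    (hf : ∀ e < GG b, ∃ e' < GG b, f (gv n b i e) = gv n b i e' ∧ Dv b s e' = Dv b s2 e)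
    (φ : Fm) (hφ : ∀ x ∈ φ.vars, ∃ e < GG b, x = gv n b i e) (K : ℕ) (hK : 2 ≤ K)
    (h1 : (eqf n b i s).size ≤ K) (h2 : φ.size ≤ K) (Γ : Set Fm) :
    Gen (PermProof F) Γ [imp (eqf n b i s) (sg (bev (gval n b i s2) φ) (φ.rename f))]
      (K ^ c3) := by
  have h := h3 Set.univ (PermProof F) (permSys F) i
    ((List.range (GG b)).map fun e => (gv n b i e, Dv b s e)) (gval n b i s) (φ.rename f) K hK
    h1 (by rw [size_rename]; exact h2) (ok_univ _) (ok_univ _) (by
      intro x hx
      rw [vars_rename, Finset.mem_image] at hx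
      obtain ⟨y, hy, rfl⟩ := hx
      obtain ⟨e, he, rfl⟩ := hφ y hy
      obtain ⟨e', he', h4, h5⟩ := hf e he
      rw [h4]
      refine List.mem_map.2 ⟨e', List.mem_range.2 he', ?_⟩
      simp only [gval]
      rw [g1.2 n b i e' hi he']) Γ
  have hb : bev (gval n b i s) (φ.rename f) = bev (gval n b i s2) φ := by
    rw [FL1_bev_rename]
    apply FL1_bev_congr
    intro x hx
    obtain ⟨e, he, rfl⟩ := hφ x hx
    obtain ⟨e', he', h4, h5⟩ := hf e he
    simp only [gval]
    rw [h4, g1.2 n b i e' hi he', g1.2 n b i e hi he, h5]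
  rw [hb] at h
  exact h

theorem FL1_sz {M X K : ℕ} (hM : 2 ≤ M) (hX : 1 ≤ X) (hK : K = X * M * M * M) :
    X + 1 ≤ K ∧ M ≤ K ∧ X + X + 1 ≤ K ∧ M * (X + 1) ≤ K ∧ X + M * X + 1 ≤ K ∧ 2 ≤ K := by
  have h1 : 2 * X ≤ X * M := by nlinarith
  have h2 : M ≤ X * M := by nlinarith
  have h3 : 2 * (X * M) ≤ X * M * M := by nlinarith
  have h4 : 2 * (X * M * M) ≤ X * M * M * M := by nlinarith
  have h5 : M * X = X * M := mul_comm _ _
  have h6 : M * (X + 1) = X * M + M := by ring
  subst hK
  refine ⟨?_, ?_, ?_, ?_, ?_, ?_⟩ <;> omega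

theorem t_FL1 {F : List Rule} (hF : IsFrege F) (h1 : S_CM F) (h2 : S_CI F) (h3 : S_EVC F)
    (h4 : S_REPL F) (g1 : S_GV) (g2 : S_PRM) (g3 : S_BEV) (g4 : S_FLS) (g5 : S_VAR)
    (g6 : S_SIZ) : S_FL1 F := by
  obtain ⟨c1, h1⟩ := h1
  obtain ⟨c2, h2⟩ := h2
  obtain ⟨c3, h3⟩ := h3
  obtain ⟨c4, h4⟩ := h4
  obtain ⟨c6, g6⟩ := g6
  obtain ⟨d1, k1⟩ := FL1_wl hF
  obtain ⟨d2, k2⟩ := FL1_wr hF
  obtain ⟨d3, k3⟩ := FL1_eq hF true
  obtain ⟨d4, k4⟩ := FL1_eq hF false
  obtain ⟨d5, k5⟩ := FL1_ne hF true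
  obtain ⟨d6, k6⟩ := FL1_ne hF false
  obtain ⟨d7, k7⟩ := FL1_rf hF
  obtain ⟨d8, k8⟩ := FL1_fin hF
  refine ⟨(c6 + 3) * ((c1 + c2 + c3 + c4 + d1 + d2 + d3 + d4 + d5 + d6 + d7 + d8 + 1) + 5), ?_⟩
  intro n b β W s M hM hn hnM hbM hWM hβ hW hs Γ hΓ
  obtain ⟨gE, -, -, gval, geqf, gdecf, -⟩ := g6 n b M hM hnM hbM
  obtain ⟨z1, z2, z3, z4, z5, hK⟩ := FL1_sz (M := M) (X := M ^ c6) (K := M ^ (c6 + 3)) hM
    (Nat.one_le_pow _ _ (by omega)) (by ring)
  obtain ⟨v1, v2, v3, v4⟩ := g5 n b hn
  have hi : β % n < n := Nat.mod_lt _ (by omega)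
  have hl : β / n ≤ b := by
    have := Nat.div_lt_of_lt_mul hβ
    omega
  obtain ⟨hs2, hst, hcb⟩ := g4 b s (β / n) hs hl
  obtain ⟨π, hπ1, hπ2⟩ := g2 n b (β % n) s (flipS s (β / n)) hi hs hs2 hst.symm
  rw [pow_mul]
  generalize hKK : M ^ (c6 + 3) = K at z1 z2 z3 z4 z5 hK ⊢
  generalize haa : c1 + c2 + c3 + c4 + d1 + d2 + d3 + d4 + d5 + d6 + d7 + d8 + 1 = a
  set i := β % n with hidef
  set l := β / n with hldef
  set s2 := flipS s l with hs2def
  set U := and (EE n b) (eqf n b i s) with hU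
  set τ := Function.update (decf n b) β (neg (decf n b β)) with hτ
  -- sizes
  have zE : (EE n b).size ≤ K := by omega
  have zval : ∀ j, (valf n b j).size ≤ K := fun j => by have := gval j; omega
  have zeqf : (eqf n b i s).size ≤ K := by have := geqf i s; omega
  have zdec : ∀ x, (decf n b x).size + 1 ≤ K := fun x => by have := gdecf x; omega
  have zU : U.size ≤ K := by
    have := geqf i s
    simp only [hU, size]
    omega
  have zτ : ∀ x, (τ x).size ≤ M ^ c6 + 1 := by
    intro x
    rw [hτ, Function.update_apply]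
    split_ifs
    · simp only [size]; have := gdecf β; omega
    · have := gdecf x; omega
  have zWτ : (W.subst τ).size ≤ K := by
    have := size_subst_le (σ := τ) (M := M ^ c6 + 1) (by omega) (A := W) fun x _ => zτ x
    have h5 := Nat.mul_le_mul_right (M ^ c6 + 1) hWM
    omega
  have zWd : (W.subst (decf n b)).size ≤ M * M ^ c6 := by
    have := size_subst_le (σ := decf n b) (M := M ^ c6) (Nat.one_le_pow _ _ (by omega)) (A := W)
      fun x _ => gdecf x
    have h5 := Nat.mul_le_mul_right (M ^ c6) hWM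
    omega
  have hVe : (W.subst (decf n b)).rename π = W.subst (fun x => (decf n b x).rename π) := by
    unfold rename
    rw [subst_subst]
  have zWσ : (W.subst (fun x => (decf n b x).rename π)).size ≤ K := by
    rw [← hVe, size_rename]; omega
  have zTR : (TR n b W).size ≤ K := by
    simp only [TR, size]; omega
  -- the bounds
  have hpw : ∀ {c : ℕ}, c ≤ a → K ^ c ≤ K ^ a := fun h => pow_mono hK h
  generalize hY : K ^ a = Y at hpw
  have hKY : K ≤ Y := by
    have := hpw (c := 1) (by omega)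
    simpa using this
  -- renaming
  have hren : ∀ φ : Fm, (∀ x ∈ φ.vars, ∀ e < GG b, x ≠ gv n b i e) → φ.rename π = φ :=
    fun φ h => rename_eq_self fun x hx => hπ1 x (h x hx)
  have hval_ne : ∀ j < n, j ≠ i → (valf n b j).rename π = valf n b j := by
    intro j hj hji
    apply hren
    intro x hx e he heq
    obtain ⟨e', he', rfl⟩ := (v2 j x).1 hx
    exact hji (g1.1 n b j i e' e hj hi he' he heq).1
  have hdec_ne : ∀ x, x % n ≠ i → (decf n b x).rename π = decf n b x := by
    intro x hxi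
    apply hren
    intro y hy e he heq
    obtain ⟨e', he', rfl⟩ := v3 x y hy
    exact hxi (g1.1 n b (x % n) i e' e (Nat.mod_lt _ (by omega)) hi he' he heq).1
  -- Step A
  have A1 : Gen (PermProof F) Γ [imp ((EE n b).rename π)
      (W.subst (fun x => (decf n b x).rename π))] Y := by
    have h := Gen.perm (F := F) hΓ π (by
      intro x hx
      apply hπ1
      intro e he heq
      apply hx
      simp only [TR, vars, Finset.mem_union]
      exact Or.inl ((v4 x).2 ⟨i, hi, e, he, heq⟩))
    have e1 : (TR n b W).rename π = imp ((EE n b).rename π)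
        (W.subst (fun x => (decf n b x).rename π)) := by
      rw [← hVe]; rfl
    rw [e1] at h
    exact h.le (by omega)
  -- Step B
  have B1 : ∀ j ∈ List.range n, Gen (PermProof F) Γ [imp U ((valf n b j).rename π)]
      (2 * Y) := by
    intro j hj
    rw [List.mem_range] at hj
    by_cases hji : j = i
    · subst hji
      have e1 := FL1_eval h3 g1 n b i s s2 hi π hπ2 (valf n b i) (fun x hx => (v2 i x).1 hx) K hK
        zeqf (zval i) Γ
      rw [(g3 n b i s2 hi hs2).1] at e1
      simp only [sg, if_true] at e1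
      have e2 := k2 (eqf n b i s) ((valf n b i).rename π) (EE n b) K hK zeqf
        (by rw [size_rename]; exact zval i) zE
        (Γ ∪ {X | X ∈ [imp (eqf n b i s) ((valf n b i).rename π)]}) (Or.inr (by simp))
      refine (e1.cut e2).le ?_
      have := hpw (c := c3) (by omega)
      have := hpw (c := d2) (by omega)
      omega
    · rw [hval_ne j hj hji]
      have e1 := h1 Set.univ _ (permSys F) 0 ((List.range n).map (valf n b)) K hK zE (ok_univ _)
        (valf n b j) (List.mem_map.2 ⟨j, List.mem_range.2 hj, rfl⟩) Γ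
      have e2 := k1 (EE n b) (valf n b j) (eqf n b i s) K hK zE (zval j) zeqf
        (Γ ∪ {X | X ∈ [imp (EE n b) (valf n b j)]}) (Or.inr (by simp))
      refine (Gen.cut e1 e2).le ?_
      have := hpw (c := c1) (by omega)
      have := hpw (c := d1) (by omega)
      omega
  have B2 := Gen.many (fun j => imp U ((valf n b j).rename π)) (2 * Y) (List.range n) B1
  have hEr : (EE n b).rename π = conjL (π 0) ((List.range n).map
      (fun j => (valf n b j).rename π)) := by
    rw [EE, FL1_conjL_rename, List.map_map]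
    rfl
  have B3 : Gen (PermProof F) Γ [imp U ((EE n b).rename π)] (n * (2 * Y) + Y) := by
    rw [hEr]
    have e1 := h2 Set.univ _ (permSys F) (π 0) U ((List.range n).map
      (fun j => (valf n b j).rename π)) K hK zU (by rw [← hEr, size_rename]; exact zE)
      (ok_univ _) (ok_univ _)
      (Γ ∪ {X | X ∈ (List.range n).map (fun j => imp U ((valf n b j).rename π))}) (by
        intro D hD
        obtain ⟨j, hj, rfl⟩ := List.mem_map.1 hD
        exact Or.inr (List.mem_map.2 ⟨j, hj, rfl⟩))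
    refine (B2.cut e1).le ?_
    rw [List.length_range]
    have := hpw (c := c2) (by omega)
    omega
  -- Step C
  have C1 : ∀ x ∈ W.vars.toList, Gen (PermProof F) Γ
      [imp U (iff ((decf n b x).rename π) (τ x))] (3 * Y) := by
    intro x hx
    have hxW : x < n * (b + 1) := hW x (Finset.mem_toList.1 hx)
    have zr : ((decf n b x).rename π).size ≤ K := by
      rw [size_rename]; have := zdec x; omega
    have zd : (decf n b x).size ≤ K := by have := zdec x; omega
    have zτx : (τ x).size ≤ K := by have := zτ x; omega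
    by_cases hxi : x % n = i
    · have hxb : x / n ≤ b := by
        have := Nat.div_lt_of_lt_mul hxW
        omega
      have hvx : ∀ y ∈ (decf n b x).vars, ∃ e < GG b, y = gv n b i e := by
        intro y hy
        rw [← hxi]
        exact v3 x y hy
      have e1 := FL1_eval h3 g1 n b i s s2 hi π hπ2 (decf n b x) hvx K hK zeqf zd Γ
      have e2 := FL1_eval h3 g1 n b i s s hi id (fun e he => ⟨e, he, rfl, rfl⟩) (decf n b x) hvx
        K hK zeqf zd Γ
      rw [(g3 n b i s2 hi hs2).2 x hxi, hcb _ hxb] at e1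
      rw [(g3 n b i s hi hs).2 x hxi, rename_eq_self (f := id) (fun _ _ => rfl)] at e2
      have e12 := e1.append e2
      have w3 := hpw (c := c3) (by omega)
      have w4 := hpw (c := d3) (by omega)
      have w5 := hpw (c := d4) (by omega)
      have w6 := hpw (c := d5) (by omega)
      have w7 := hpw (c := d6) (by omega)
      by_cases hxβ : x = β
      · have hτx : τ x = neg (decf n b x) := by
          rw [hτ, hxβ, Function.update_self]
        have hxl : x / n = l := by rw [hxβ]
        rw [hτx]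
        rw [if_pos hxl] at e12
        rcases hc : cbit s (x / n) with _ | _
        · rw [hc] at e12
          exact (e12.cut (k6 (eqf n b i s) ((decf n b x).rename π) (decf n b x) (EE n b) K hK zeqf
            zr zd zE _ (Or.inr (by simp)) (Or.inr (by simp)))).le (by omega)
        · rw [hc] at e12
          exact (e12.cut (k5 (eqf n b i s) ((decf n b x).rename π) (decf n b x) (EE n b) K hK zeqf
            zr zd zE _ (Or.inr (by simp)) (Or.inr (by simp)))).le (by omega)
      · have hτx : τ x = decf n b x := by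
          rw [hτ, Function.update_of_ne hxβ]
        have hxl : x / n ≠ l := by
          intro h
          apply hxβ
          rw [← Nat.div_add_mod x n, ← Nat.div_add_mod β n, h, hxi]
        rw [hτx]
        rw [if_neg hxl] at e12
        rcases hc : cbit s (x / n) with _ | _
        · rw [hc] at e12
          exact (e12.cut (k4 (eqf n b i s) ((decf n b x).rename π) (decf n b x) (EE n b) K hK zeqf
            zr zd zE _ (Or.inr (by simp)) (Or.inr (by simp)))).le (by omega)
        · rw [hc] at e12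
          exact (e12.cut (k3 (eqf n b i s) ((decf n b x).rename π) (decf n b x) (EE n b) K hK zeqf
            zr zd zE _ (Or.inr (by simp)) (Or.inr (by simp)))).le (by omega)
    · have hxβ : x ≠ β := by
        rintro rfl
        exact hxi rfl
      have hτx : τ x = decf n b x := by
        rw [hτ, Function.update_of_ne hxβ]
      rw [hτx, hdec_ne x hxi]
      refine (k7 U (decf n b x) K hK zU zd Γ).le ?_
      have := hpw (c := d7) (by omega)
      omega
  have C2 := Gen.many (fun x => imp U (iff ((decf n b x).rename π) (τ x))) (3 * Y)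
    W.vars.toList C1
  have C3 : Gen (PermProof F) Γ [imp U (iff (W.subst (fun x => (decf n b x).rename π))
      (W.subst τ))] (M * (3 * Y) + Y) := by
    have e1 := h4 Set.univ _ (permSys F) U W (fun x => (decf n b x).rename π) τ K hK zU zWσ zWτ
      (ok_univ _) (fun _ _ => ok_univ _) (fun _ _ => ok_univ _)
      (Γ ∪ {X | X ∈ W.vars.toList.map (fun x => imp U (iff ((decf n b x).rename π) (τ x)))}) (by
        intro x hx
        exact Or.inr (List.mem_map.2 ⟨x, Finset.mem_toList.2 hx, rfl⟩))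
    refine (C2.cut e1).le ?_
    rw [Finset.length_toList]
    have w1 := hpw (c := c4) (by omega)
    have w2 := (vars_card_le W).trans hWM
    have w3 := Nat.mul_le_mul_right (3 * Y) w2
    omega
  -- the end
  have D1 := A1.append (B3.append C3)
  refine (D1.cut (k8 ((EE n b).rename π) (W.subst (fun x => (decf n b x).rename π)) (EE n b)
    (eqf n b i s) (W.subst τ) K hK (by rw [size_rename]; exact zE) zWσ zE zeqf zWτ _
    (Or.inr (by simp)) (Or.inr (by simp [hU])) (Or.inr (by simp [hU])))).le ?_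
  have w1 := hpw (c := d8) (by omega)
  have w2 : K ^ (a + 5) = Y * K ^ 5 := by rw [pow_add, hY]
  have w3 : n * (2 * Y) ≤ K * (2 * Y) := Nat.mul_le_mul_right _ (by omega)
  have w4 : M * (3 * Y) ≤ K * (3 * Y) := Nat.mul_le_mul_right _ z2
  have w5 : 16 * K ≤ K ^ 5 := by
    have : 2 ^ 4 ≤ K ^ 4 := Nat.pow_le_pow_left hK 4
    rw [pow_succ]
    nlinarith
  have w6 : Y * (16 * K) ≤ Y * K ^ 5 := Nat.mul_le_mul_left _ w5
  have w7 : 4 * Y ≤ 2 * (Y * K) := by nlinarith
  rw [w2]
  nlinarith

end Pool.Agent.H543R3.PP
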