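import Pool.Agent.H543R3.PP.Defs

set_option autoImplicit false

namespace Pool.Agent.H543R3.PP

open Pool.Agent.H555R2.PF Pool.Agent.H555R2.PF.Fm

theorem t_FLS : S_FLS := by
  rintro b ⟨t, x, h⟩ l ⟨h1, h2⟩ hl
  simp only at h1 h2
  by_cases hl0 : l = 0
  · subst hl0
    refine ⟨⟨h1, h2⟩, rfl, ?_⟩
    intro l' _
    by_cases h0 : l' = 0
    · simp [cbit, flipS, h0]
    · simp [cbit, flipS, h0]
  · refine ⟨⟨?_, ?_⟩, ?_, ?_⟩
    · simpa [flipS, hl0] using h1
    · simp only [flipS, if_neg hl0]
      apply Nat.xor_lt_two_pow h2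
      exact Nat.pow_lt_pow_right (by norm_num) (by omega)
    · simp [flipS, hl0]
    · intro l' hl'
      by_cases h0 : l' = 0
      · have : ¬ (0 = l) := fun h => hl0 h.symm
        simp [cbit, flipS, h0, hl0, this]
      · simp only [cbit, flipS, if_neg hl0, if_neg h0, Nat.testBit_xor, Nat.testBit_two_pow]
        by_cases hll : l' = l
        · subst hll
          simp
        · have : ¬ (l - 1 = l' - 1) := by omega
          simp [hll, this]

end Pool.Agent.H543R3.PP
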