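import Pool.Agent.H543R3.PP.Defs

set_option autoImplicit false

namespace Pool.Agent.H543R3.PP

open Pool.Agent.H555R2.PF Pool.Agent.H555R2.PF.Fm

theorem simb_vars {F : List Rule} {N : ℕ} {L : List Fm} (h : SSub F N L) :
    ∀ B ∈ L, ∀ x ∈ B.vars, x < N := by
  induction h with
  | nil => simp
  | rule hL hB hv ih =>
    intro C hC
    rcases List.mem_cons.1 hC with rfl | hC
    · exact hv
    · exact ih C hC
  | @ssub L A χ q hL hA hq hχ ih =>
    intro C hC
    rcases List.mem_cons.1 hC with rfl | hC
    · intro x hx
      have key : ∀ W : Fm, (∀ y ∈ W.vars, y < N) →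
          ∀ x ∈ (W.subst (Function.update var q χ)).vars, x < N := by
        intro W
        induction W with
        | var m =>
          intro hW x hx
          by_cases hm : m = q
          · subst hm
            simp only [subst, Function.update_self] at hx
            exact hχ x hx
          · simp only [subst, Function.update_of_ne hm, vars, Finset.mem_singleton] at hx
            subst hx
            exact hW x (by simp [vars])
        | neg A ih => exact ih
        | and A B iA iB =>
          intro hW x hx
          simp only [subst, vars, Finset.mem_union] at hx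
          rcases hx with hx | hx
          · exact iA (fun y hy => hW y (by simp [vars, hy])) x hx
          · exact iB (fun y hy => hW y (by simp [vars, hy])) x hx
        | or A B iA iB =>
          intro hW x hx
          simp only [subst, vars, Finset.mem_union] at hx
          rcases hx with hx | hx
          · exact iA (fun y hy => hW y (by simp [vars, hy])) x hx
          · exact iB (fun y hy => hW y (by simp [vars, hy])) x hx
        | imp A B iA iB =>
          intro hW x hx
          simp only [subst, vars, Finset.mem_union] at hx
          rcases hx with hx | hx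
          · exact iA (fun y hy => hW y (by simp [vars, hy])) x hx
          · exact iB (fun y hy => hW y (by simp [vars, hy])) x hx
      exact key A (ih A hA) x hx
    · exact ih C hC

theorem t_SIMb {F : List Rule} (hF : IsFrege F) (h1 : S_FL F) (h2 : S_SUB1 F) (g6 : S_SIZ) :
    S_SIM F := by
  obtain ⟨c1, h1⟩ := h1
  obtain ⟨c2, h2⟩ := h2
  obtain ⟨c3, h3⟩ := g6
  obtain ⟨c4, h4⟩ := grules_ded hF
  set K := c1 + (c3 + 1) * c2 + 1 + (c4 + (c3 + 1)) + 1 with hK
  refine ⟨K + 1, fun n b L M hM hn1 hn hb hL hS => ?_⟩
  obtain ⟨z1, -, -, -, -, z6, -⟩ := h3 n b M hM hn hb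
  have hM3 : M ^ (c3 + 1) = M * M ^ c3 := by rw [pow_succ]; ring
  have hM31 : 1 ≤ M ^ c3 := Nat.one_le_pow _ _ (by omega)
  have hEE : (EE n b).size ≤ M ^ (c3 + 1) := z1.trans (pow_mono hM (by omega))
  have hsub : ∀ W : Fm, W.size ≤ M → (W.subst (decf n b)).size ≤ M ^ (c3 + 1) := by
    intro W hW
    rw [hM3]
    exact (size_subst_le hM31 fun x _ => z6 x).trans (Nat.mul_le_mul_right _ hW)
  have hM32 : 2 ≤ M ^ (c3 + 1) := by rw [hM3]; nlinarith
  have claim : ∀ L : List Fm, SSub F (n * (b + 1)) L → psize L ≤ M →
      ∃ L' : List Fm, PermProof F L' ∧ (∀ W ∈ L, TR n b W ∈ L') ∧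
        psize L' ≤ L.length * M ^ K := by
    intro L hS
    induction hS with
    | nil => intro _; exact ⟨[], PermProof.nil, by simp, by simp [psize]⟩
    | @rule L B hL hB hv ih =>
      intro hps
      rw [psize_cons] at hps
      obtain ⟨L', a1, a2, a3⟩ := ih (by omega)
      obtain ⟨r, hr, σ, e1, e2⟩ := hB
      have hg := h4 r hr Set.univ (PermProof F) (permSys F) (EE n b)
        (fun x => (σ x).subst (decf n b)) (M ^ (c3 + 1)) (by omega) hEE (ok_univ _) (by
          intro x hx
          simp only [Rule.rv, Finset.mem_union, Finset.mem_biUnion, List.mem_toFinset] at hx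
          rcases hx with hx | ⟨p, hp, hx⟩
          · apply hsub
            have := size_le_subst (σ := σ) hx
            rw [← e1] at this
            omega
          · apply hsub
            have h5 := size_le_subst (σ := σ) hx
            have h6 := size_le_psize (e2 p hp)
            omega) (fun _ _ => ok_univ _) {C | C ∈ L'} (by
          intro p hp
          have := a2 _ (e2 p hp)
          rw [TR, subst_subst] at this
          exact this)
      obtain ⟨D, d1, d2, d3⟩ := hg L' a1 (fun _ h => h)
      refine ⟨D ++ L', d1, ?_, ?_⟩
      · intro W hW
        rcases List.mem_cons.1 hW with rfl | hW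
        · rw [TR, e1, subst_subst]
          exact d2 _ (by simp)
        · exact List.mem_append_right _ (a2 W hW)
      · rw [psize_append, List.length_cons]
        have h7 : psize D ≤ M ^ K := by
          refine (d3.trans (mul_pow (le_pow_self hM c4) le_rfl)).trans ?_
          exact pow_mono hM (by omega)
        nlinarith
    | @ssub L A χ q hL hA hq hχ ih =>
      intro hps
      rw [psize_cons] at hps
      obtain ⟨L', a1, a2, a3⟩ := ih (by omega)
      have hAs : A.size ≤ M := (size_le_psize hA).trans (by omega)
      have eB : (A.subst (Function.update var q χ)).subst (decf n b) =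
          A.subst (Function.update (decf n b) q (χ.subst (decf n b))) := by
        rw [subst_subst]
        apply subst_congr
        intro x _
        by_cases hx : x = q
        · subst hx; simp
        · simp [Function.update_of_ne hx, subst]
      by_cases hqA : q ∈ A.vars
      · have hχs : χ.size ≤ M := by
          have := size_le_subst (σ := Function.update var q χ) hqA
          rw [Function.update_self] at this
          omega
        have g1 := h1 n b q A M hM hn1 hn hb hAs hq (simb_vars hL A hA) {C | C ∈ L'}
          (a2 A hA)
        have g2 := h2 Set.univ (PermProof F) (permSys F) (EE n b) A (χ.subst (decf n b))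
          (decf n b) q (M ^ (c3 + 1)) hM32 hEE (hsub χ hχs)
          ((z6 q).trans (pow_mono hM (by omega))) (hsub A hAs) (by
            rw [← eB]; apply hsub; omega) (ok_univ _) (ok_univ _) (ok_univ _)
          (fun _ _ => ok_univ _)
          ({C | C ∈ L'} ∪ {C | C ∈ [imp (EE n b)
            (A.subst (Function.update (decf n b) q (neg (decf n b q))))]})
          (Or.inl (a2 A hA)) (Or.inr (by simp))
        obtain ⟨D, d1, d2, d3⟩ := (g1.cut g2) L' a1 (fun _ h => h)
        refine ⟨D ++ L', d1, ?_, ?_⟩
        · intro W hW
          rcases List.mem_cons.1 hW with rfl | hW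
          · rw [TR, eB]
            exact d2 _ (by simp)
          · exact List.mem_append_right _ (a2 W hW)
        · rw [psize_append, List.length_cons]
          have h7 : psize D ≤ M ^ K := by
            rw [← pow_mul] at d3
            refine (d3.trans (add_pow hM le_rfl le_rfl)).trans ?_
            exact pow_mono hM (by omega)
          nlinarith
      · have eA : A.subst (Function.update var q χ) = A := by
          conv_rhs => rw [← subst_var A]
          apply subst_congr
          intro x hx
          rw [Function.update_of_ne (fun h : x = q => hqA (h ▸ hx))]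
        refine ⟨L', a1, ?_, ?_⟩
        · intro W hW
          rcases List.mem_cons.1 hW with rfl | hW
          · rw [eA]; exact a2 A hA
          · exact a2 W hW
        · rw [List.length_cons]; nlinarith [Nat.zero_le (M ^ K)]
  obtain ⟨L', a1, a2, a3⟩ := claim L hS hL
  refine ⟨L', a1, a2, a3.trans ?_⟩
  rw [pow_succ, mul_comm]
  exact Nat.mul_le_mul_left _ ((length_le_psize L).trans hL)

end Pool.Agent.H543R3.PP
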