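import Pool.Agent.H543R3.PP.LinkA
import Pool.Agent.H543R3.PP.BEV
import Pool.Agent.H543R3.PP.SIMb

set_option autoImplicit false

namespace Pool.Agent.H543R3.PP

open Pool.Agent.H555R2.PF Pool.Agent.H555R2.PF.Fm

theorem final {F : List Rule} (hF : IsFrege F) :
    (∃ c : ℕ, ∀ (n b k : ℕ) (A : Fm) (L : List Fm), (∀ x ∈ A.vars, x < n) →
      k ≤ b * n → EFProof F A k (A :: L) →
      ∃ L', PermProof F (dualRail n A :: L') ∧
        psize (dualRail n A :: L') ≤ (psize (A :: L) + n + 2 ^ b) ^ c) ∧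
    (∃ c : ℕ, ∀ (n b K : ℕ) (A : Fm) (L : List Fm), (∀ x ∈ A.vars, x < n) →
      2 * K ≤ (b + 1) * n → SubProof F K (A :: L) →
      ∃ L', PermProof F (dualRail n A :: L') ∧
        psize (dualRail n A :: L') ≤ (psize (A :: L) + n + 2 ^ b) ^ c) ∧
    (∃ c : ℕ, ∀ (n l : ℕ) (A : Fm) (L : List Fm), (∀ x ∈ A.vars, x < n) → 1 ≤ l →
      PermProof F (dualRail n A :: L) → psize (dualRail n A :: L) ≤ 2 ^ l →
      ∃ L', SubProof F (n * l) (A :: L') ∧ psize (A :: L') ≤ 2 ^ (l * c)) ∧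
    (SimDR F ↔ FewVars F) ∧ (SimEF F → FewVars F) :=
  link t_BEV (fun _ h h1 h2 h3 => t_SIMb h h1 h2 h3) hF

end Pool.Agent.H543R3.PP
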