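import Pool.Agent.H555R2.PF.Fin

/-!
# Project PP, generic part: classes of proofs closed under the Frege rules
-/

set_option autoImplicit false

namespace Pool.Agent.H543R3.PP

open Pool.Agent.H555R2.PF Pool.Agent.H555R2.PF.Fm

/-- all variables of `B` are in `S` -/
def Ok (S : Set ℕ) (B : Fm) : Prop := ∀ n ∈ B.vars, n ∈ S

/-- `P` is a class of proofs closed under Frege steps whose conclusion has its variables
in `S`. -/
structure Sys (F : List Rule) (S : Set ℕ) (P : List Fm → Prop) : Prop where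
  zero : 0 ∈ S
  nil : P []
  rule : ∀ (L : List Fm) (B : Fm), P L → FregeStep F L B → Ok S B → P (B :: L)

/-- From every proof in the class `P` containing the formulas of `Γ` one can go on to a proof in
the class `P` containing the formulas of `G`, adding at most `m` symbols. -/
def Gen (P : List Fm → Prop) (Γ : Set Fm) (G : List Fm) (m : ℕ) : Prop :=
  ∀ L, P L → (∀ A ∈ Γ, A ∈ L) →
    ∃ D, P (D ++ L) ∧ (∀ B ∈ G, B ∈ D ++ L) ∧ psize D ≤ m

namespace Gen

variable {P : List Fm → Prop} {Γ Γ' : Set Fm} {G G' : List Fm} {m m' : ℕ}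

theorem mono (h : Gen P Γ G m) (hΓ : Γ ⊆ Γ') (hm : m ≤ m') : Gen P Γ' G m' := by
  intro L hL hΓL
  obtain ⟨D, h1, h2, h3⟩ := h L hL fun A hA => hΓL A (hΓ hA)
  exact ⟨D, h1, h2, h3.trans hm⟩

theorem le (h : Gen P Γ G m) (hm : m ≤ m') : Gen P Γ G m' := h.mono subset_rfl hm

theorem sub (h : Gen P Γ G m) (hG : ∀ B ∈ G', B ∈ G) : Gen P Γ G' m := by
  intro L hL hΓL
  obtain ⟨D, h1, h2, h3⟩ := h L hL hΓL
  exact ⟨D, h1, fun B hB => h2 B (hG B hB), h3⟩

theorem nil : Gen P Γ [] 0 := fun L hL _ => ⟨[], hL, by simp, by simp [psize]⟩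

theorem hyp {B : Fm} (h : B ∈ Γ) : Gen P Γ [B] 0 := fun L hL hΓ =>
  ⟨[], hL, by simpa using hΓ B h, by simp [psize]⟩

/-- cut -/
theorem cut (h : Gen P Γ G m) (h' : Gen P (Γ ∪ {B | B ∈ G}) G' m') : Gen P Γ G' (m + m') := by
  intro L hL hΓL
  obtain ⟨D, h1, h2, h3⟩ := h L hL hΓL
  obtain ⟨D', h1', h2', h3'⟩ := h' (D ++ L) h1 (by
    rintro A (hA | hA)
    · exact List.mem_append_right _ (hΓL A hA)
    · exact h2 A hA)
  refine ⟨D' ++ D, by rwa [List.append_assoc], ?_, ?_⟩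
  · intro B hB
    rw [List.append_assoc]
    exact h2' B hB
  · rw [psize_append]; omega

theorem append (h : Gen P Γ G m) (h' : Gen P Γ G' m') : Gen P Γ (G ++ G') (m + m') := by
  intro L hL hΓL
  obtain ⟨D, h1, h2, h3⟩ := h L hL hΓL
  obtain ⟨D', h1', h2', h3'⟩ := h' (D ++ L) h1 fun A hA => List.mem_append_right _ (hΓL A hA)
  refine ⟨D' ++ D, by rwa [List.append_assoc], ?_, ?_⟩
  · intro B hB
    rw [List.append_assoc]
    rcases List.mem_append.1 hB with hB | hB
    · exact List.mem_append_right _ (h2 B hB)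
    · exact h2' B hB
  · rw [psize_append]; omega

/-- a family of goals -/
theorem many {ι : Type} (f : ι → Fm) (k : ℕ) : ∀ (l : List ι), (∀ i ∈ l, Gen P Γ [f i] k) →
    Gen P Γ (l.map f) (l.length * k) := by
  intro l
  induction l with
  | nil => intro _; simpa using (nil : Gen P Γ [] 0)
  | cons i l ih =>
    intro h
    have h1 := h i (by simp)
    have h2 := ih fun j hj => h j (by simp [hj])
    refine ((h1.append h2).sub (by simp)).mono subset_rfl ?_
    simp only [List.length_cons]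
    nlinarith

end Gen

/-- instances of a derivation -/
theorem derivation_gen {F : List Rule} {S : Set ℕ} {P : List Fm → Prop} (hP : Sys F S P)
    {Γ₀ : List Fm} {Lf : List Fm}
    (hd : Derivation F Γ₀ Lf) {σ : ℕ → Fm} {M : ℕ} (hM : 1 ≤ M) (hσ : ∀ n, (σ n).size ≤ M)
    (hS : ∀ n, Ok S (σ n))
    {Γ : Set Fm} (hΓ : ∀ A ∈ Γ₀, A.subst σ ∈ Γ) :
    Gen P Γ (Lf.map (Fm.subst σ)) (psize Lf * M) := by
  have hok : ∀ B : Fm, Ok S (B.subst σ) := by
    intro B
    induction B with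
    | var n => exact hS n
    | neg A ih => exact ih
    | and A B iA iB =>
      intro n hn
      simp only [subst, vars, Finset.mem_union] at hn
      rcases hn with hn | hn
      exacts [iA n hn, iB n hn]
    | or A B iA iB =>
      intro n hn
      simp only [subst, vars, Finset.mem_union] at hn
      rcases hn with hn | hn
      exacts [iA n hn, iB n hn]
    | imp A B iA iB =>
      intro n hn
      simp only [subst, vars, Finset.mem_union] at hn
      rcases hn with hn | hn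
      exacts [iA n hn, iB n hn]
  induction hd with
  | nil => simpa using (Gen.nil : Gen P Γ [] 0).mono subset_rfl (Nat.zero_le _)
  | @hyp L B hd hB ih =>
    have h1 : Gen P Γ [B.subst σ] 0 := Gen.hyp (hΓ B hB)
    refine ((h1.append ih).sub (by simp)).mono subset_rfl ?_
    rw [psize_cons]
    nlinarith [Nat.zero_le (B.size * M)]
  | @rule L B hd hB ih =>
    obtain ⟨r, hr, τ, h1, h2⟩ := hB
    intro L' hL' hΓL'
    obtain ⟨D, h3, h4, h5⟩ := ih L' hL' hΓL'
    have h6 : FregeStep F (D ++ L') (B.subst σ) := by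
      refine ⟨r, hr, fun n => (τ n).subst σ, by rw [h1, Fm.subst_subst], ?_⟩
      intro p hp
      rw [← Fm.subst_subst]
      exact h4 _ (List.mem_map.2 ⟨_, h2 p hp, rfl⟩)
    refine ⟨B.subst σ :: D, hP.rule _ _ h3 h6 (hok B), ?_, ?_⟩
    · intro C hC
      simp only [List.map_cons, List.mem_cons] at hC
      rcases hC with rfl | hC
      · simp
      · exact List.mem_cons_of_mem _ (h4 C hC)
    · rw [psize_cons, psize_cons]
      have := Fm.size_subst_le (σ := σ) hM (A := B) (fun n _ => hσ n)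
      nlinarith

/-- derived schematic rules (instances given by a function) -/
theorem gschema {F : List Rule} (hF : IsFrege F) (Γ₀ : List Fm) (B₀ : Fm) (h : Entails Γ₀ B₀) :
    ∃ c : ℕ, ∀ (S : Set ℕ) (P : List Fm → Prop), Sys F S P →
      ∀ (σ : ℕ → Fm) (M : ℕ), 1 ≤ M → (∀ n, (σ n).size ≤ M) → (∀ n, Ok S (σ n)) → ∀ Γ : Set Fm,
      (∀ A ∈ Γ₀, A.subst σ ∈ Γ) → Gen P Γ [B₀.subst σ] (c * M) := by
  obtain ⟨L, hL⟩ := hF.2 Γ₀ B₀ h
  refine ⟨psize (B₀ :: L), fun S P hP σ M hM hσ hS Γ hΓ => ?_⟩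
  exact (derivation_gen hP hL hM hσ hS hΓ).sub (by simp)

theorem ok_asg {S : Set ℕ} (h0 : 0 ∈ S) {l : List Fm} (h : ∀ X ∈ l, Ok S X) (n : ℕ) :
    Ok S (asg l n) := by
  unfold asg
  rcases lt_or_ge n l.length with hn | hn
  · rw [List.getD_eq_getElem _ _ hn]
    exact h _ (List.getElem_mem _)
  · rw [List.getD_eq_default _ _ hn]
    intro m hm
    simp only [vars, Finset.mem_singleton] at hm
    subst hm
    exact h0

/-- derived schematic rules (instances given by a list) -/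
theorem gschemaL {F : List Rule} (hF : IsFrege F) (Γ₀ : List Fm) (B₀ : Fm)
    (h : Entails Γ₀ B₀) :
    ∃ c : ℕ, ∀ (S : Set ℕ) (P : List Fm → Prop), Sys F S P →
      ∀ (l : List Fm) (M : ℕ), 1 ≤ M → (∀ X ∈ l, X.size ≤ M) → (∀ X ∈ l, Ok S X) →
      ∀ Γ : Set Fm, (∀ A ∈ Γ₀, A.subst (asg l) ∈ Γ) → Gen P Γ [B₀.subst (asg l)] (c * M) := by
  obtain ⟨c, hc⟩ := gschema hF Γ₀ B₀ h
  exact ⟨c, fun S P hP l M hM hl hS Γ hΓ =>
    hc S P hP (asg l) M hM (asg_size hM hl) (ok_asg hP.zero hS) Γ hΓ⟩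

/-- one rule of the system under a hypothesis `E` -/
theorem grule_ded {F : List Rule} (hF : IsFrege F) (r : Rule) (hr : r ∈ F) :
    ∃ c : ℕ, ∀ (S : Set ℕ) (P : List Fm → Prop), Sys F S P → ∀ (E : Fm) (σ : ℕ → Fm)
    (M : ℕ), 1 ≤ M → E.size ≤ M → Ok S E → (∀ n ∈ r.rv, (σ n).size ≤ M) →
      (∀ n ∈ r.rv, Ok S (σ n)) → ∀ Γ : Set Fm,
      (∀ p ∈ r.prem, imp E (p.subst σ) ∈ Γ) → Gen P Γ [imp E (r.concl.subst σ)] (c * M) := by
  obtain ⟨R, hR⟩ := Infinite.exists_notMem_finset r.rv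
  obtain ⟨c, hc⟩ := gschema hF (r.prem.map (imp (var R))) (imp (var R) r.concl) (by
    intro v h
    simp only [eval]
    intro hv
    apply hF.1 r hr v
    intro p hp
    have := h (imp (var R) p) (List.mem_map.2 ⟨p, hp, rfl⟩)
    exact this hv)
  refine ⟨c, fun S P hP E σ M hM hE hSE hσ hSσ Γ hΓ => ?_⟩
  let σ' : ℕ → Fm := fun n => if n = R then E else if n ∈ r.rv then σ n else var 0
  have hσ' : ∀ n, (σ' n).size ≤ M := by
    intro n
    simp only [σ']
    split_ifs with h1 h2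
    · exact hE
    · exact hσ n h2
    · simpa [size] using hM
  have hSσ' : ∀ n, Ok S (σ' n) := by
    intro n
    simp only [σ']
    split_ifs with h1 h2
    · exact hSE
    · exact hSσ n h2
    · intro m hm
      simp only [vars, Finset.mem_singleton] at hm
      subst hm
      exact hP.zero
  have hsub : ∀ A : Fm, A.vars ⊆ r.rv → A.subst σ' = A.subst σ := by
    intro A hA
    apply subst_congr
    intro n hn
    have h1 : n ∈ r.rv := hA hn
    have h2 : n ≠ R := fun h => hR (h ▸ h1)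
    simp [σ', h1, h2]
  have hRR : (var R).subst σ' = E := by simp [subst, σ']
  have h1 := hc S P hP σ' M hM hσ' hSσ' Γ (by
    intro A hA
    obtain ⟨p, hp, rfl⟩ := List.mem_map.1 hA
    simp only [subst]
    rw [show σ' R = E from hRR, hsub p (by
      intro n hn
      simp only [Rule.rv, Finset.mem_union, Finset.mem_biUnion, List.mem_toFinset]
      exact Or.inr ⟨p, hp, hn⟩)]
    exact hΓ p hp)
  simp only [subst] at h1
  rw [show σ' R = E from hRR, hsub r.concl (by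
    intro n hn; simp only [Rule.rv, Finset.mem_union]; exact Or.inl hn)] at h1
  exact h1

/-- a uniform constant for the rules of the system -/
theorem grules_ded {F : List Rule} (hF : IsFrege F) :
    ∃ c : ℕ, ∀ r ∈ F, ∀ (S : Set ℕ) (P : List Fm → Prop), Sys F S P → ∀ (E : Fm) (σ : ℕ → Fm)
    (M : ℕ), 1 ≤ M → E.size ≤ M → Ok S E → (∀ n ∈ r.rv, (σ n).size ≤ M) →
      (∀ n ∈ r.rv, Ok S (σ n)) → ∀ Γ : Set Fm,
      (∀ p ∈ r.prem, imp E (p.subst σ) ∈ Γ) →
      Gen P Γ [imp E (r.concl.subst σ)] (c * M) := by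
  obtain ⟨c, hc⟩ := uniform (fun (r : Rule) c => r ∈ F → ∀ (S : Set ℕ) (P : List Fm → Prop),
    Sys F S P → ∀ (E : Fm) (σ : ℕ → Fm)
    (M : ℕ), 1 ≤ M → E.size ≤ M → Ok S E → (∀ n ∈ r.rv, (σ n).size ≤ M) →
      (∀ n ∈ r.rv, Ok S (σ n)) → ∀ Γ : Set Fm,
      (∀ p ∈ r.prem, imp E (p.subst σ) ∈ Γ) →
      Gen P Γ [imp E (r.concl.subst σ)] (c * M))
    (by
      intro r c c' hcc h hr S P hP E σ M h1 h2 h3 h4 h5 Γ h6
      exact (h hr S P hP E σ M h1 h2 h3 h4 h5 Γ h6).mono subset_rfl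
        (Nat.mul_le_mul_right _ hcc)) F (by
      intro r hr
      obtain ⟨c, hc⟩ := grule_ded hF r hr
      exact ⟨c, fun _ => hc⟩)
  exact ⟨c, fun r hr => hc r hr hr⟩

/-! ### arithmetic of bounds `M ^ c` -/

theorem pow_mono {M a b : ℕ} (hM : 2 ≤ M) (h : a ≤ b) : M ^ a ≤ M ^ b :=
  Nat.pow_le_pow_right (by omega) h

theorem le_pow_self {M : ℕ} (hM : 2 ≤ M) (a : ℕ) : a ≤ M ^ a :=
  (Nat.lt_pow_self hM).le

theorem add_pow {M a b x y : ℕ} (hM : 2 ≤ M) (hx : x ≤ M ^ a) (hy : y ≤ M ^ b) :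
    x + y ≤ M ^ (a + b + 1) := by
  have h1 : M ^ a ≤ M ^ (a + b) := pow_mono hM (by omega)
  have h2 : M ^ b ≤ M ^ (a + b) := pow_mono hM (by omega)
  have h3 : M ^ (a + b + 1) = M ^ (a + b) * M := pow_succ _ _
  nlinarith

theorem mul_pow {M a b x y : ℕ} (hx : x ≤ M ^ a) (hy : y ≤ M ^ b) :
    x * y ≤ M ^ (a + b) := by
  rw [pow_add]; exact Nat.mul_le_mul hx hy

end Pool.Agent.H543R3.PP
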