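import Pool.Agent.H543R3.PP.Defs

set_option autoImplicit false

namespace Pool.Agent.H543R3.PP

open Pool.Agent.H555R2.PF Pool.Agent.H555R2.PF.Fm

theorem GV_div {D i a : ℕ} (ha : a < D) : (i * D + a) / D = i := by
  rw [mul_comm, Nat.mul_add_div (by omega), Nat.div_eq_of_lt ha, add_zero]

theorem t_GV : S_GV := by
  constructor
  · intro n b i j e e' hi hj he he' h
    unfold GG at he he'
    unfold gv at h
    split_ifs at h with h1 h2 h3 h4 h5 h6 h7 h8
    · exact ⟨h, by omega⟩
    · omega
    · omega
    · omega
    · exact ⟨by omega, by omega⟩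
    · omega
    · omega
    · omega
    · have h9 : i * (2 * HH b) + (e - 2) = j * (2 * HH b) + (e' - 2) := by omega
      have h10 := GV_div (D := 2 * HH b) (i := i) (a := e - 2) (by omega)
      have h11 := GV_div (D := 2 * HH b) (i := j) (a := e' - 2) (by omega)
      have h12 : i = j := by rw [← h10, ← h11, h9]
      subst h12
      exact ⟨rfl, by omega⟩
  · intro n b i e hi he
    unfold gix gv
    by_cases h0 : e = 0
    · simp [h0]
    · by_cases h1 : e = 1
      · simp only [h1, one_ne_zero, if_false, if_true]
        rw [if_neg (by omega)]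
      · rw [if_neg h0, if_neg h1]
        have h2 : 0 ≤ i * (2 * HH b) := Nat.zero_le _
        rw [if_neg (by omega), if_neg (by omega)]
        omega

end Pool.Agent.H543R3.PP
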