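import Pool.Agent.H543R3.PP.Defs

/-!
# Project PP: from the translation of `A` to `A`
-/

set_option autoImplicit false

namespace Pool.Agent.H543R3.PP

open Pool.Agent.H555R2.PF Pool.Agent.H555R2.PF.Fm

namespace INx

theorem impL_append (Ds Es : List Fm) (A : Fm) : impL (Ds ++ Es) A = impL Ds (impL Es A) := by
  simp [impL, List.foldr_append]

theorem tot (c1 c5 cA cB c2 c3 cC c4 : ℕ) : ∃ K : ℕ, ∀ N n : ℕ, 2 ≤ N → n ≤ N →
    (n * N ^ c1 + (n * N ^ c1 + n * N ^ c5)) + ((n * (cA * N) + n * (cB * N)) +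
      ((N ^ c2 + N ^ c3) + (cC * N + N ^ c4))) ≤ N ^ K := by
  exact ⟨_, fun N n hN hn =>
    have h1 : n ≤ N ^ 1 := by simpa using hn
    have h2 : N ≤ N ^ 1 := by simp
    add_pow hN (add_pow hN (mul_pow h1 le_rfl) (add_pow hN (mul_pow h1 le_rfl)
      (mul_pow h1 le_rfl)))
    (add_pow hN (add_pow hN (mul_pow h1 (mul_pow (le_pow_self hN cA) h2))
      (mul_pow h1 (mul_pow (le_pow_self hN cB) h2)))
      (add_pow hN (add_pow hN le_rfl le_rfl)
        (add_pow hN (mul_pow (le_pow_self hN cC) h2) le_rfl)))⟩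

theorem bd1 (cs : ℕ) : ∃ e : ℕ, ∀ M n : ℕ, 2 ≤ M → n ≤ M →
    n * M ^ cs + (n * 8 + ((n + n) + (3 * M ^ cs + (M * M ^ cs + (M + 20))))) ≤ M ^ e := by
  exact ⟨_, fun M n hM hn =>
    have h1 : n ≤ M ^ 1 := by simpa using hn
    have h2 : M ≤ M ^ 1 := by simp
    have h8 : 8 ≤ M ^ 8 := le_pow_self hM 8
    have h3 : 3 ≤ M ^ 3 := le_pow_self hM 3
    have h20 : 20 ≤ M ^ 20 := le_pow_self hM 20
    add_pow hM (mul_pow h1 le_rfl) (add_pow hM (mul_pow h1 h8) (add_pow hM (add_pow hM h1 h1)
    (add_pow hM (mul_pow h3 le_rfl) (add_pow hM (mul_pow h2 le_rfl) (add_pow hM h2 h20)))))⟩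

theorem psize_map_le {ι : Type} (f : ι → Fm) (B : ℕ) (l : List ι) (h : ∀ i ∈ l, (f i).size ≤ B) :
    psize (l.map f) ≤ l.length * B := by
  induction l with
  | nil => simp [psize]
  | cons i l ih =>
    rw [List.map_cons, psize_cons, List.length_cons]
    have h1 := h i (by simp)
    have h2 := ih fun j hj => h j (by simp [hj])
    nlinarith

end INx

open INx in
theorem t_IN {F : List Rule} (hF : IsFrege F) (h1 : S_CM F) (h2 : S_CI F) (h3 : S_REPL F)
    (h4 : S_CUR F) (h5 : S_IN1 F) (g6 : S_SIZ) : S_IN F := by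
  obtain ⟨c1, H1⟩ := h1
  obtain ⟨c2, H2⟩ := h2
  obtain ⟨c3, H3⟩ := h3
  obtain ⟨c4, H4⟩ := h4
  obtain ⟨c5, H5⟩ := h5
  obtain ⟨cs, Hs⟩ := g6
  obtain ⟨cA, HA⟩ := gschemaL hF [imp (var 0) (var 1), imp (var 0) (var 2),
    imp (and (var 1) (var 2)) (and (var 3) (var 4))] (imp (var 0) (var 3)) (by
      intro v h; simp [eval] at h ⊢; tauto)
  obtain ⟨cB, HB⟩ := gschemaL hF [imp (var 0) (var 1), imp (var 0) (var 2),
    imp (and (var 1) (var 2)) (and (var 3) (var 4))] (imp (var 0) (var 4)) (by
      intro v h; simp [eval] at h ⊢; tauto)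
  obtain ⟨cC, HC⟩ := gschemaL hF [imp (var 0) (var 1), imp (var 1) (var 2),
    imp (var 0) (iff (var 2) (var 3))] (imp (var 0) (var 3)) (by
      intro v h; simp [eval, Fm.iff] at h ⊢; tauto)
  obtain ⟨e, he⟩ := bd1 cs
  obtain ⟨K, hK⟩ := tot c1 c5 cA cB c2 c3 cC c4
  refine ⟨e * K, fun n b A M hM hn hb hA hAv Γ hΓ => ?_⟩
  obtain ⟨s1, -, -, s2, -, s3, s4⟩ := Hs n b M hM hn hb
  have hN := he M n hM hn
  rw [pow_mul]
  set N := M ^ e with hNdef
  have hsys := permSys F
  set sr : ℕ → Fm := fun i => srt (rr n b i) (2 * HH b) with hsr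
  set dr : ℕ → Fm := fun i => neg (iff (var i) (var (n + i))) with hdr
  have hsrs : ∀ i, (sr i).size ≤ M ^ cs := fun i => s4 _ _ le_rfl
  have hdrs : ∀ i, (dr i).size = 8 := fun i => rfl
  set Ds : List Fm := (List.range n).map sr ++ (List.range n).map dr with hDs
  set U : Fm := conjL 0 Ds with hU
  have hUs : U.size ≤ n * M ^ cs + (n * 8 + ((n + n) + 3)) := by
    rw [hU, conjL_size, hDs, psize_append]
    have p1 := psize_map_le sr (M ^ cs) (List.range n) (fun i _ => hsrs i)
    have p2 := psize_map_le dr 8 (List.range n) (fun i _ => (hdrs i).le)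
    rw [List.length_range] at p1 p2
    simp only [List.length_append, List.length_map, List.length_range]
    omega
  have hMcs : 1 ≤ M ^ cs := Nat.one_le_pow _ _ (by omega)
  have hMM : 0 ≤ M * M ^ cs := Nat.zero_le _
  have hN2 : 2 ≤ N := by omega
  have hMN : M ≤ N := by omega
  have hUN : U.size ≤ N := by omega
  have hsN : M ^ cs ≤ N := by omega
  have hvN : ∀ i, (valf n b i).size ≤ N := fun i => (s2 i).trans hsN
  have hiN : ∀ i, (iff (decf n b i) (var i)).size ≤ N := by
    intro i
    have := s3 i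
    simp only [Fm.iff, size]
    omega
  have hdN : ∀ i, (dr i).size ≤ N := fun i => by rw [hdrs i]; omega
  have hsrN : ∀ i, (sr i).size ≤ N := fun i => (hsrs i).trans hsN
  have hAdN : (A.subst (decf n b)).size ≤ N := by
    have h6 := size_subst_le (σ := decf n b) (M := M ^ cs) hMcs (A := A) (fun x _ => s3 x)
    have h7 : A.size * M ^ cs ≤ M * M ^ cs := Nat.mul_le_mul_right _ hA
    omega
  have hAN : A.size ≤ N := hA.trans hMN
  -- step 1
  have g1 : Gen (PermProof F) Γ ((List.range n).map fun i => imp U (sr i)) (n * N ^ c1) := by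
    have := Gen.many (P := PermProof F) (Γ := Γ) (fun i => imp U (sr i)) (N ^ c1) (List.range n)
      (fun i hi => H1 Set.univ (PermProof F) hsys 0 Ds N hN2 hUN (ok_univ _) (sr i)
        (List.mem_append_left _ (List.mem_map.2 ⟨i, hi, rfl⟩)) Γ)
    rwa [List.length_range] at this
  have g2 : Gen (PermProof F) Γ ((List.range n).map fun i => imp U (dr i)) (n * N ^ c1) := by
    have := Gen.many (P := PermProof F) (Γ := Γ) (fun i => imp U (dr i)) (N ^ c1) (List.range n)
      (fun i hi => H1 Set.univ (PermProof F) hsys 0 Ds N hN2 hUN (ok_univ _) (dr i)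
        (List.mem_append_right _ (List.mem_map.2 ⟨i, hi, rfl⟩)) Γ)
    rwa [List.length_range] at this
  have g3 : Gen (PermProof F) Γ ((List.range n).map fun i => imp (and (dr i) (sr i))
      (and (valf n b i) (iff (decf n b i) (var i)))) (n * N ^ c5) := by
    have := Gen.many (P := PermProof F) (Γ := Γ) (fun i => imp (and (dr i) (sr i))
      (and (valf n b i) (iff (decf n b i) (var i)))) (N ^ c5) (List.range n)
      (fun i hi => (H5 n b i M hM (List.mem_range.1 hi) hn hb Γ).le
        (Nat.pow_le_pow_left hMN c5))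
    rwa [List.length_range] at this
  have g123 := g1.append (g2.append g3)
  -- step 2
  set G1 : List Fm := (List.range n).map (fun i => imp U (sr i)) ++
    ((List.range n).map (fun i => imp U (dr i)) ++ (List.range n).map fun i =>
      imp (and (dr i) (sr i)) (and (valf n b i) (iff (decf n b i) (var i)))) with hG1
  set Γ1 : Set Fm := Γ ∪ {B | B ∈ G1} with hΓ1
  have m1 : ∀ i ∈ List.range n, imp U (sr i) ∈ Γ1 := fun i hi =>
    Or.inr (List.mem_append_left _ (List.mem_map.2 ⟨i, hi, rfl⟩))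
  have m2 : ∀ i ∈ List.range n, imp U (dr i) ∈ Γ1 := fun i hi =>
    Or.inr (List.mem_append_right _ (List.mem_append_left _ (List.mem_map.2 ⟨i, hi, rfl⟩)))
  have m3 : ∀ i ∈ List.range n, imp (and (dr i) (sr i))
      (and (valf n b i) (iff (decf n b i) (var i))) ∈ Γ1 := fun i hi =>
    Or.inr (List.mem_append_right _ (List.mem_append_right _ (List.mem_map.2 ⟨i, hi, rfl⟩)))
  have hlist : ∀ i, ∀ X ∈ [U, dr i, sr i, valf n b i, iff (decf n b i) (var i)], X.size ≤ N := by
    intro i X hX
    simp only [List.mem_cons, List.not_mem_nil, or_false] at hX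
    rcases hX with rfl | rfl | rfl | rfl | rfl
    exacts [hUN, hdN i, hsrN i, hvN i, hiN i]
  have hprem : ∀ i ∈ List.range n, ∀ B ∈ [imp (var 0) (var 1), imp (var 0) (var 2),
      imp (and (var 1) (var 2)) (and (var 3) (var 4))],
      B.subst (asg [U, dr i, sr i, valf n b i, iff (decf n b i) (var i)]) ∈ Γ1 := by
    intro i hi B hB
    simp only [List.mem_cons, List.not_mem_nil, or_false] at hB
    rcases hB with rfl | rfl | rfl
    exacts [m2 i hi, m1 i hi, m3 i hi]
  have g4 : Gen (PermProof F) Γ1 ((List.range n).map fun i => imp U (valf n b i))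
      (n * (cA * N)) := by
    have := Gen.many (P := PermProof F) (Γ := Γ1) (fun i => imp U (valf n b i)) (cA * N)
      (List.range n) (fun i hi => HA Set.univ (PermProof F) hsys
        [U, dr i, sr i, valf n b i, iff (decf n b i) (var i)] N (by omega) (hlist i)
        (fun X _ => ok_univ X) Γ1 (hprem i hi))
    rwa [List.length_range] at this
  have g5 : Gen (PermProof F) Γ1 ((List.range n).map fun i => imp U (iff (decf n b i) (var i)))
      (n * (cB * N)) := by
    have := Gen.many (P := PermProof F) (Γ := Γ1) (fun i => imp U (iff (decf n b i) (var i)))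
      (cB * N) (List.range n) (fun i hi => HB Set.univ (PermProof F) hsys
        [U, dr i, sr i, valf n b i, iff (decf n b i) (var i)] N (by omega) (hlist i)
        (fun X _ => ok_univ X) Γ1 (hprem i hi))
    rwa [List.length_range] at this
  have g45 := g4.append g5
  set G2 : List Fm := (List.range n).map (fun i => imp U (valf n b i)) ++
    (List.range n).map (fun i => imp U (iff (decf n b i) (var i))) with hG2
  set Γ2 : Set Fm := Γ1 ∪ {B | B ∈ G2} with hΓ2
  -- step 3
  have g6 : Gen (PermProof F) Γ2 [imp U (EE n b)] (N ^ c2) := by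
    refine H2 Set.univ (PermProof F) hsys 0 U ((List.range n).map (valf n b)) N hN2 hUN
      (s1.trans hsN) (ok_univ _) (ok_univ _) Γ2 ?_
    intro D hD
    obtain ⟨i, hi, rfl⟩ := List.mem_map.1 hD
    exact Or.inr (List.mem_append_left _ (List.mem_map.2 ⟨i, hi, rfl⟩))
  have g7 : Gen (PermProof F) Γ2 [imp U (iff (A.subst (decf n b)) A)] (N ^ c3) := by
    have := H3 Set.univ (PermProof F) hsys U A (decf n b) var N hN2 hUN hAdN
      (by rw [subst_var]; exact hAN) (ok_univ _) (fun x _ => ok_univ _) (fun x _ => ok_univ _) Γ2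
      (fun x hx => Or.inr (List.mem_append_right _ (List.mem_map.2
        ⟨x, List.mem_range.2 (hAv x hx), rfl⟩)))
    rwa [subst_var] at this
  have g67 := g6.append g7
  set Γ3 : Set Fm := Γ2 ∪ {B | B ∈ [imp U (EE n b)] ++ [imp U (iff (A.subst (decf n b)) A)]}
    with hΓ3
  have g8 : Gen (PermProof F) Γ3 [imp U A] (cC * N) := by
    refine HC Set.univ (PermProof F) hsys [U, EE n b, A.subst (decf n b), A] N (by omega) ?_
      (fun X _ => ok_univ X) Γ3 ?_
    · intro X hX
      simp only [List.mem_cons, List.not_mem_nil, or_false] at hX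
      rcases hX with rfl | rfl | rfl | rfl
      exacts [hUN, s1.trans hsN, hAdN, hAN]
    · intro B hB
      simp only [List.mem_cons, List.not_mem_nil, or_false] at hB
      rcases hB with rfl | rfl | rfl
      · exact Or.inr (by simp [subst, asg])
      · exact Or.inl (Or.inl (Or.inl hΓ))
      · exact Or.inr (by simp [subst, asg, Fm.iff])
  have g9 : Gen (PermProof F) (Γ3 ∪ {B | B ∈ [imp U A]}) [impL Ds A] (N ^ c4) := by
    refine H4 Set.univ (PermProof F) hsys 0 Ds A N hN2 ?_ (ok_univ _) _ (Or.inr (by simp [hU]))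
    simp only [size]
    rw [← hU]
    omega
  have hfin := g123.cut (g45.cut (g67.cut (g8.cut g9)))
  have hgoal : impL ((List.range n).map fun i => srt (rr n b i) (2 * HH b)) (dualRail n A) =
      impL Ds A := by
    rw [hDs, impL_append]
    rfl
  rw [hgoal]
  refine hfin.le ?_
  have hnN : n ≤ N := hn.trans hMN
  exact hK N n hN2 hnN

end Pool.Agent.H543R3.PP
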