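import Pool.Agent.H543R3.PP.Defs

/-! IN1. One gadget at the end. -/

set_option autoImplicit false

namespace Pool.Agent.H543R3.PP

open Pool.Agent.H555R2.PF Pool.Agent.H555R2.PF.Fm

namespace IN1aux

/-- schematic rules depending on a Boolean, in permutation Frege -/
theorem psch {F : List Rule} (hF : IsFrege F) (Γ₀ : Bool → List Fm) (B₀ : Bool → Fm)
    (h : ∀ u, Entails (Γ₀ u) (B₀ u)) :
    ∃ c : ℕ, ∀ (u : Bool) (l : List Fm) (N : ℕ), 2 ≤ N → (∀ X ∈ l, X.size ≤ N) →
      ∀ Γ : Set Fm, (∀ A ∈ Γ₀ u, A.subst (asg l) ∈ Γ) →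
      Gen (PermProof F) Γ [(B₀ u).subst (asg l)] (N ^ c) := by
  choose c hc using fun u => gschemaL hF (Γ₀ u) (B₀ u) (h u)
  refine ⟨c true + c false + 1, fun u l N hN hl Γ hΓ => ?_⟩
  refine (hc u Set.univ (PermProof F) (permSys F) l N (by omega) hl (fun X _ => ok_univ X) Γ
    hΓ).le ?_
  have h1 : c u ≤ N ^ (c true + c false) := by
    refine (le_pow_self hN (c u)).trans (pow_mono hN ?_)
    cases u <;> omega
  calc c u * N ≤ N ^ (c true + c false) * N := Nat.mul_le_mul_right _ h1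
    _ = _ := (pow_succ _ _).symm

def E1 (n i : ℕ) : Fm := neg (iff (var i) (var (n + i)))

def Cu (n b i t : ℕ) : Fm :=
  cubeL (rr n b i 0) ((List.range (2 * HH b)).map fun e => (rr n b i e, decide (e < t)))

def E2 (n b i t : ℕ) (u : Bool) : Fm := and (E1 n i) (and (Cu n b i t) (sg u (var i)))

def Gf (n b i : ℕ) : Fm := and (valf n b i) (iff (decf n b i) (var i))

theorem srt_eq (n b i : ℕ) : srt (rr n b i) (2 * HH b) =
    disjL (rr n b i 0) ((List.range (2 * HH b + 1)).map (Cu n b i)) := rfl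

/-- bounds for the sizes -/
structure Sz (n b i N : ℕ) : Prop where
  two : 2 ≤ N
  hi : i < n
  gg : GG b ≤ N
  val : (valf n b i).size ≤ N
  eq : ∀ s, (eqf n b i s).size ≤ N
  dec : (decf n b i).size ≤ N
  srt : (srt (rr n b i) (2 * HH b)).size ≤ N
  cu : ∀ t ≤ 2 * HH b, (Cu n b i t).size ≤ N
  e1 : (E1 n i).size ≤ N
  e2 : ∀ t ≤ 2 * HH b, ∀ u, (E2 n b i t u).size ≤ N
  g : (Gf n b i).size ≤ N

theorem exists_Sz (g6 : S_SIZ) : ∃ K : ℕ, 1 ≤ K ∧ ∀ n b i M : ℕ, 2 ≤ M → i < n → n ≤ M →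
    2 ^ b ≤ M → Sz n b i (M ^ K) := by
  obtain ⟨c, hc⟩ := g6
  refine ⟨c + 5, by omega, fun n b i M hM hi hn hb => ?_⟩
  obtain ⟨-, -, h3, h4, h5, h6, h7⟩ := hc n b M hM hn hb
  have h1 : 1 ≤ M ^ c := Nat.one_le_pow _ _ (by omega)
  have h32 : 32 ≤ M ^ 5 := by
    calc 32 = 2 ^ 5 := by norm_num
      _ ≤ M ^ 5 := Nat.pow_le_pow_left hM 5
  have hK : 32 * M ^ c ≤ M ^ (c + 5) := by
    rw [pow_add, mul_comm]
    exact Nat.mul_le_mul_left _ h32
  have hsrt := h7 (rr n b i) (2 * HH b) le_rfl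
  have hcu : ∀ t ≤ 2 * HH b, (Cu n b i t).size ≤ M ^ c := by
    intro t ht
    refine le_trans ?_ hsrt
    rw [srt_eq, disjL_size]
    have := size_le_psize (List.mem_map.2 ⟨t, List.mem_range.2 (by omega), rfl⟩ :
      Cu n b i t ∈ (List.range (2 * HH b + 1)).map (Cu n b i))
    omega
  have hval := h4 i
  have hdec := h6 i
  have he1 : (E1 n i).size = 8 := by simp [E1, iff, size]
  refine ⟨by omega, hi, by omega, by omega, fun s => by have := h5 i s; omega, by omega, by omega,
    fun t ht => by have := hcu t ht; omega, by omega, fun t ht u => ?_, ?_⟩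
  · have h8 := hcu t ht
    have h9 := sg_size u (var i)
    simp only [E2, size, he1] at h9 ⊢
    omega
  · simp only [Gf, iff, size]
    omega

/-- the literals of the state -/
theorem stA {F : List Rule} (hF : IsFrege F) (h1 : S_CM F) : ∃ c : ℕ, ∀ (n b i N t : ℕ)
    (u : Bool), Sz n b i N → t ≤ 2 * HH b → ∀ e < GG b, ∀ Γ : Set Fm,
    Gen (PermProof F) Γ [imp (E2 n b i t u) (sg (Dv b (t, u, 0) e) (var (gv n b i e)))]
      (N ^ c) := by
  obtain ⟨c1, hc1⟩ := h1
  obtain ⟨c2, hc2⟩ := psch hF (fun _ => [])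
    (fun u => imp (and (var 0) (and (var 1) (sg u (var 2)))) (sg u (var 2))) (by
    intro u v _; cases u <;> simp [eval, sg])
  obtain ⟨c3, hc3⟩ := psch hF (fun _ => [])
    (fun u => imp (and (neg (iff (var 3) (var 4))) (and (var 1) (sg u (var 3))))
      (sg (!u) (var 4))) (by
    intro u v _; cases u <;> simp [eval, sg, iff] <;> tauto)
  obtain ⟨c4, hc4⟩ := psch hF (fun _ => [imp (var 1) (var 3)])
    (fun u => imp (and (var 0) (and (var 1) (sg u (var 2)))) (var 3)) (by
    intro u v h; simp only [List.mem_singleton, forall_eq, eval] at h; simp only [eval]; tauto)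
  refine ⟨c1 + c2 + c3 + c4 + 1, fun n b i N t u hS ht e he Γ => ?_⟩
  have hN := hS.two
  have hv : ∀ j : ℕ, (var j).size ≤ N := fun j => by simp only [size]; omega
  match e, he with
  | 0, _ =>
    have e0 : sg (Dv b (t, u, 0) 0) (var (gv n b i 0)) = sg u (var i) := by
      simp [Dv, gv]
    rw [e0]
    have h2 := hc2 u [E1 n i, Cu n b i t, var i] N hN (by
      intro X hX
      simp only [List.mem_cons, List.not_mem_nil, or_false] at hX
      rcases hX with rfl | rfl | rfl
      exacts [hS.e1, hS.cu t ht, hv i]) Γ (by simp)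
    refine (h2.sub ?_).le (pow_mono hN (by omega))
    intro B hB
    simp only [List.mem_singleton] at hB ⊢
    rw [hB]
    simp [E2, subst, sg_subst, asg]
  | 1, _ =>
    have e0 : sg (Dv b (t, u, 0) 1) (var (gv n b i 1)) = sg (!u) (var (n + i)) := by
      simp [Dv, gv]
    rw [e0]
    have h2 := hc3 u [var 0, Cu n b i t, var 0, var i, var (n + i)] N hN (by
      intro X hX
      simp only [List.mem_cons, List.not_mem_nil, or_false] at hX
      rcases hX with rfl | rfl | rfl | rfl | rfl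
      exacts [hv _, hS.cu t ht, hv _, hv _, hv _]) Γ (by simp)
    refine (h2.sub ?_).le (pow_mono hN (by omega))
    intro B hB
    simp only [List.mem_singleton] at hB ⊢
    rw [hB]
    simp [E2, E1, subst, sg_subst, asg, iff]
  | e + 2, he =>
    have he' : e < 2 * HH b := by
      simp only [GG] at he
      omega
    have e0 : sg (Dv b (t, u, 0) (e + 2)) (var (gv n b i (e + 2))) =
        sg (decide (e < t)) (var (rr n b i e)) := by
      simp [Dv, rr]
    rw [e0]
    have h2 := hc1 Set.univ (PermProof F) (permSys F) (rr n b i 0)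
      (((List.range (2 * HH b)).map fun e => (rr n b i e, decide (e < t))).map
        fun p : ℕ × Bool => sg p.2 (var p.1)) N hN (hS.cu t ht) (ok_univ _)
      (sg (decide (e < t)) (var (rr n b i e))) (by
        rw [List.map_map]
        exact List.mem_map.2 ⟨e, List.mem_range.2 he', rfl⟩) Γ
    have hsz : (sg (decide (e < t)) (var (rr n b i e))).size ≤ N := by
      refine (sg_size _ _).trans ?_
      simp only [size]
      omega
    have h3 := hc4 u [E1 n i, Cu n b i t, var i, sg (decide (e < t)) (var (rr n b i e))] N hN (by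
      intro X hX
      simp only [List.mem_cons, List.not_mem_nil, or_false] at hX
      rcases hX with rfl | rfl | rfl | rfl
      exacts [hS.e1, hS.cu t ht, hv i, hsz])
      (Γ ∪ {B | B ∈ [imp (Cu n b i t) (sg (decide (e < t)) (var (rr n b i e)))]}) (by
        intro A hA
        simp only [List.mem_singleton] at hA
        subst hA
        right
        simp [subst, asg])
    refine ((Gen.cut h2 h3).sub ?_).le ((add_pow hN le_rfl le_rfl).trans (pow_mono hN (by omega)))
    intro B hB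
    simp only [List.mem_singleton] at hB ⊢
    rw [hB]
    simp [E2, subst, sg_subst, asg]

/-- the gadget is in the state `(t, u, 0)` -/
theorem stB {F : List Rule} (hF : IsFrege F) (h1 : S_CM F) (h2 : S_CI F) : ∃ c : ℕ,
    ∀ (n b i N t : ℕ) (u : Bool), Sz n b i N → t ≤ 2 * HH b → ∀ Γ : Set Fm,
    Gen (PermProof F) Γ [imp (E2 n b i t u) (eqf n b i (t, u, 0))] (N ^ c) := by
  obtain ⟨c1, hc1⟩ := stA hF h1
  obtain ⟨c2, hc2⟩ := h2
  refine ⟨1 + c1 + c2 + 1, fun n b i N t u hS ht Γ => ?_⟩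
  have hN := hS.two
  have h3 := Gen.many (P := PermProof F) (Γ := Γ)
    (fun e => imp (E2 n b i t u) (sg (Dv b (t, u, 0) e) (var (gv n b i e)))) (N ^ c1)
    (List.range (GG b)) (fun e he => hc1 n b i N t u hS ht e (List.mem_range.1 he) Γ)
  have h4 := hc2 Set.univ (PermProof F) (permSys F) i (E2 n b i t u)
    (((List.range (GG b)).map fun e => (gv n b i e, Dv b (t, u, 0) e)).map
      fun p : ℕ × Bool => sg p.2 (var p.1)) N hN (hS.e2 t ht u) (hS.eq (t, u, 0)) (ok_univ _) (ok_univ _)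
    (Γ ∪ {B | B ∈ (List.range (GG b)).map
      (fun e => imp (E2 n b i t u) (sg (Dv b (t, u, 0) e) (var (gv n b i e))))}) (by
      intro D hD
      rw [List.map_map] at hD
      obtain ⟨e, he, rfl⟩ := List.mem_map.1 hD
      right
      exact List.mem_map.2 ⟨e, he, rfl⟩)
  refine (Gen.cut h3 h4).le ?_
  rw [List.length_range]
  refine add_pow hN (mul_pow ?_ le_rfl) le_rfl
  rw [pow_one]
  exact hS.gg

/-- one state -/
theorem stC {F : List Rule} (hF : IsFrege F) (h1 : S_CM F) (h2 : S_CI F) (h3 : S_DI F)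
    (h5 : S_EVC F) (g1 : S_GV) (g3 : S_BEV) (g5 : S_VAR) : ∃ c : ℕ,
    ∀ (n b i N t : ℕ) (u : Bool), Sz n b i N → t ≤ 2 * HH b → ∀ Γ : Set Fm,
    Gen (PermProof F) Γ [imp (E2 n b i t u) (Gf n b i)] (N ^ c) := by
  obtain ⟨c1, hc1⟩ := stB hF h1 h2
  obtain ⟨c3, hc3⟩ := h3
  obtain ⟨c5, hc5⟩ := h5
  obtain ⟨c6, hc6⟩ := psch hF (fun u => [imp (and (var 0) (and (var 1) (sg u (var 2)))) (var 3),
      imp (var 3) (var 4), imp (var 3) (sg u (var 5))])
    (fun u => imp (and (var 0) (and (var 1) (sg u (var 2)))) (and (var 4) (iff (var 5) (var 2))))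
    (by
      intro u v h
      cases u <;> simp [eval, sg, iff] at h ⊢ <;> tauto)
  refine ⟨c1 + (c3 + c5 + 1) + 1 + c6 + 1, fun n b i N t u hS ht Γ => ?_⟩
  have hN := hS.two
  have hv : ∀ j : ℕ, (var j).size ≤ N := fun j => by simp only [size]; omega
  have hVs : Vs b (t, u, 0) := ⟨ht, by positivity⟩
  have hin : i % n = i := Nat.mod_eq_of_lt hS.hi
  have hdiv : i / n = 0 := Nat.div_eq_of_lt hS.hi
  have a1 := hc1 n b i N t u hS ht Γ
  have a3 := hc3 Set.univ (PermProof F) (permSys F) i ((sts b).map (eqf n b i)) N hN hS.val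
    (ok_univ _) (eqf n b i (t, u, 0)) (List.mem_map.2 ⟨_, mem_sts.2 hVs, rfl⟩) Γ
  have a5 := hc5 Set.univ (PermProof F) (permSys F) i
    ((List.range (GG b)).map fun e => (gv n b i e, Dv b (t, u, 0) e)) (gval n b i (t, u, 0))
    (decf n b i) N hN (hS.eq (t, u, 0)) hS.dec (ok_univ _) (ok_univ _) (by
      intro x hx
      obtain ⟨e, he, rfl⟩ := (g5 n b (by have := hS.hi; omega)).2.2.1 i x hx
      rw [hin]
      refine List.mem_map.2 ⟨e, List.mem_range.2 he, ?_⟩
      simp only [gval, g1.2 n b i e hS.hi he]) Γ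
  rw [(g3 n b i (t, u, 0) hS.hi hVs).2 i hin, hdiv] at a5
  have e5 : cbit (t, u, 0) 0 = u := by simp [cbit]
  rw [e5] at a5
  have a35 := Gen.append a3 a5
  have a135 := Gen.append a1 a35
  have a6 := hc6 u [E1 n i, Cu n b i t, var i, eqf n b i (t, u, 0), valf n b i, decf n b i] N hN
    (by
      intro X hX
      simp only [List.mem_cons, List.not_mem_nil, or_false] at hX
      rcases hX with rfl | rfl | rfl | rfl | rfl | rfl
      exacts [hS.e1, hS.cu t ht, hv i, hS.eq _, hS.val, hS.dec])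
    (Γ ∪ {B | B ∈ [imp (E2 n b i t u) (eqf n b i (t, u, 0))] ++
      ([imp (eqf n b i (t, u, 0)) (disjL i ((sts b).map (eqf n b i)))] ++
        [imp (cubeL i ((List.range (GG b)).map fun e => (gv n b i e, Dv b (t, u, 0) e)))
          (sg u (decf n b i))])}) (by
      intro A hA
      right
      simp only [List.mem_cons, List.not_mem_nil, or_false] at hA
      rcases hA with rfl | rfl | rfl
      · simp [subst, asg, sg_subst, E2]
      · simp [subst, asg, valf]
      · simp [subst, asg, sg_subst, eqf])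
  refine ((Gen.cut a135 a6).sub ?_).le ?_
  · intro B hB
    simp only [List.mem_singleton] at hB ⊢
    rw [hB]
    simp [E2, Gf, subst, sg_subst, asg, iff]
  · exact add_pow hN (add_pow hN le_rfl (add_pow hN le_rfl le_rfl)) le_rfl

/-- one cube -/
theorem stD {F : List Rule} (hF : IsFrege F) (h1 : S_CM F) (h2 : S_CI F) (h3 : S_DI F)
    (h5 : S_EVC F) (g1 : S_GV) (g3 : S_BEV) (g5 : S_VAR) : ∃ c : ℕ,
    ∀ (n b i N t : ℕ), Sz n b i N → t ≤ 2 * HH b → ∀ Γ : Set Fm,
    Gen (PermProof F) Γ [imp (E1 n i) (imp (Cu n b i t) (Gf n b i))] (N ^ c) := by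
  obtain ⟨c1, hc1⟩ := stC hF h1 h2 h3 h5 g1 g3 g5
  obtain ⟨c6, hc6⟩ := psch hF
    (fun _ => [imp (and (var 0) (and (var 1) (sg true (var 2)))) (var 3),
      imp (and (var 0) (and (var 1) (sg false (var 2)))) (var 3)])
    (fun _ => imp (var 0) (imp (var 1) (var 3)))
    (by
      intro _ v h
      simp [eval, sg] at h ⊢
      tauto)
  refine ⟨c1 + c1 + 1 + c6 + 1, fun n b i N t hS ht Γ => ?_⟩
  have hN := hS.two
  have hv : ∀ j : ℕ, (var j).size ≤ N := fun j => by simp only [size]; omega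
  have a1 := Gen.append (hc1 n b i N t true hS ht Γ) (hc1 n b i N t false hS ht Γ)
  have a6 := hc6 true [E1 n i, Cu n b i t, var i, Gf n b i] N hN
    (by
      intro X hX
      simp only [List.mem_cons, List.not_mem_nil, or_false] at hX
      rcases hX with rfl | rfl | rfl | rfl
      exacts [hS.e1, hS.cu t ht, hv i, hS.g])
    (Γ ∪ {B | B ∈ [imp (E2 n b i t true) (Gf n b i)] ++ [imp (E2 n b i t false) (Gf n b i)]}) (by
      intro A hA
      right
      simp only [List.mem_cons, List.not_mem_nil, or_false] at hA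
      rcases hA with rfl | rfl
      · simp [subst, asg, sg_subst, E2]
      · simp [subst, asg, sg_subst, E2])
  refine ((Gen.cut a1 a6).sub ?_).le ?_
  · intro B hB
    simp only [List.mem_singleton] at hB ⊢
    rw [hB]
    simp [subst, asg]
  · exact add_pow hN (add_pow hN le_rfl le_rfl) le_rfl

end IN1aux

open IN1aux

theorem t_IN1 {F : List Rule} (hF : IsFrege F) (h1 : S_CM F) (h2 : S_CI F) (h3 : S_DI F)
    (h4 : S_DE F) (h5 : S_EVC F) (g1 : S_GV) (g3 : S_BEV) (g5 : S_VAR) (g6 : S_SIZ) :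
    S_IN1 F := by
  obtain ⟨K, hK1, hK⟩ := exists_Sz g6
  obtain ⟨c1, hc1⟩ := stD hF h1 h2 h3 h5 g1 g3 g5
  obtain ⟨c4, hc4⟩ := h4
  obtain ⟨c6, hc6⟩ := psch hF
    (fun _ => [imp (var 0) (imp (var 1) (var 2))])
    (fun _ => imp (and (var 0) (var 1)) (var 2))
    (by
      intro _ v h
      simp [eval] at h ⊢
      tauto)
  refine ⟨K * (1 + c1 + c4 + 1 + c6 + 1), fun n b i M hM hi hn hb Γ => ?_⟩
  have hS := hK n b i M hM hi hn hb
  rw [pow_mul]
  set N := M ^ K with hNdef
  have hN := hS.two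
  have hv : ∀ j : ℕ, (var j).size ≤ N := fun j => by simp only [size]; omega
  have a1 := Gen.many (P := PermProof F) (Γ := Γ)
    (fun t => imp (E1 n i) (imp (Cu n b i t) (Gf n b i))) (N ^ c1)
    (List.range (2 * HH b + 1)) (fun t ht => hc1 n b i N t hS (by
      have := List.mem_range.1 ht
      omega) Γ)
  have a4 := hc4 Set.univ (PermProof F) (permSys F) (rr n b i 0) (E1 n i) (Gf n b i)
    ((List.range (2 * HH b + 1)).map (Cu n b i)) N hN hS.e1 hS.g hS.srt (ok_univ _) (ok_univ _)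
    (ok_univ _) (Γ ∪ {B | B ∈ (List.range (2 * HH b + 1)).map
      (fun t => imp (E1 n i) (imp (Cu n b i t) (Gf n b i)))}) (by
      intro D hD
      obtain ⟨t, ht, rfl⟩ := List.mem_map.1 hD
      right
      exact List.mem_map.2 ⟨t, ht, rfl⟩)
  have a14 := Gen.cut a1 a4
  have a6 := hc6 true [E1 n i, srt (rr n b i) (2 * HH b), Gf n b i] N hN
    (by
      intro X hX
      simp only [List.mem_cons, List.not_mem_nil, or_false] at hX
      rcases hX with rfl | rfl | rfl
      exacts [hS.e1, hS.srt, hS.g])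
    (Γ ∪ {B | B ∈ [imp (E1 n i) (imp (disjL (rr n b i 0)
      ((List.range (2 * HH b + 1)).map (Cu n b i))) (Gf n b i))]}) (by
      intro A hA
      right
      simp only [List.mem_singleton] at hA
      subst hA
      simp [subst, asg, srt_eq])
  refine ((Gen.cut a14 a6).sub ?_).le ?_
  · intro B hB
    simp only [List.mem_singleton] at hB ⊢
    rw [hB]
    simp [subst, asg, E1, Gf]
  · refine add_pow hN (add_pow hN (mul_pow ?_ le_rfl) le_rfl) le_rfl
    rw [List.length_range, pow_one]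
    have := hS.gg
    simp only [GG] at this
    omega

end Pool.Agent.H543R3.PP
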