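import Pool.Agent.H543R3.PP.Defs

set_option autoImplicit false

namespace Pool.Agent.H543R3.PP

open Pool.Agent.H555R2.PF Pool.Agent.H555R2.PF.Fm

theorem INJ_toNat {x x' : Bool} {h h' : ℕ} (hh : h ≠ 0) (hh' : h' ≠ 0)
    (e : 2 * (h - 1) + x.toNat = 2 * (h' - 1) + x'.toNat) : x = x' ∧ h = h' := by
  cases x <;> cases x' <;> simp at e ⊢ <;> omega

theorem t_INJ (hC : S_CNT) : S_INJ := by
  rintro b ⟨t, x, h⟩ ⟨t', x', h'⟩ hs hs' heq
  have hc1 := hC b _ hs
  have hc2 := hC b _ hs'
  have hfil : ((Finset.range (GG b)).filter fun e => Dv b (t, x, h) e = true) =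
      ((Finset.range (GG b)).filter fun e => Dv b (t', x', h') e = true) := by
    apply Finset.filter_congr
    intro e he
    rw [heq e (Finset.mem_range.1 he)]
  rw [hfil, hc2] at hc1
  simp only at hc1
  have ht : t' = t := by omega
  subst ht
  obtain ⟨ht, hh⟩ := hs
  obtain ⟨-, hh'⟩ := hs'
  simp only at ht hh hh'
  have hG : 2 ≤ GG b := by unfold GG; omega
  have hx := fun (x : Bool) => Bool.toNat_le x
  have hHb : HH b = 2 * 2 ^ b := by unfold HH; rw [pow_succ]; ring
  have h0 := heq 0 (by omega)
  have h1 := heq 1 (by omega)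
  by_cases e1 : h = 0
  · by_cases e2 : h' = 0
    · subst e1 e2
      simp [Dv] at h0
      rw [h0]
    · exfalso
      simp only [Dv, e1, e2, if_true, if_false, one_ne_zero, le_refl, Nat.zero_le] at h0 h1
      split_ifs at h0 h1 <;> simp_all
  · by_cases e2 : h' = 0
    · exfalso
      simp only [Dv, e1, e2, if_true, if_false, one_ne_zero, le_refl, Nat.zero_le] at h0 h1
      split_ifs at h0 h1 <;> simp_all
    · by_cases e3 : t' ≤ HH b
      · have h4 := heq (2 + (HH b + 2 * (h - 1) + x.toNat)) (by
          unfold GG
          have := hx x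
          omega)
        simp only [Dv, e1, e2, if_false, if_pos e3] at h4
        rw [if_neg (by omega), if_neg (by omega), Nat.add_sub_cancel_left] at h4
        have h5 : ¬ (HH b + 2 * (h - 1) + x.toNat < t') := by omega
        simp only [h5, decide_false, Bool.false_or, decide_true] at h4
        have h6 : HH b + 2 * (h - 1) + x.toNat = HH b + 2 * (h' - 1) + x'.toNat := by
          simpa using h4
        obtain ⟨h7, h8⟩ := INJ_toNat e1 e2 (by omega : 2 * (h - 1) + x.toNat = 2 * (h' - 1) + x'.toNat)
        rw [h7, h8]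
      · have h4 := heq (2 + (2 * (h - 1) + x.toNat)) (by
          unfold GG
          have := hx x
          omega)
        simp only [Dv, e1, e2, if_false, if_neg e3] at h4
        rw [if_neg (by omega), if_neg (by omega), Nat.add_sub_cancel_left] at h4
        have h5 : 2 * (h - 1) + x.toNat < t' := by
          have := hx x
          omega
        simp only [h5, decide_true, Bool.not_true, Bool.and_false, Bool.true_and] at h4
        have h6 : 2 * (h - 1) + x.toNat = 2 * (h' - 1) + x'.toNat := by
          simpa using h4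
        obtain ⟨h7, h8⟩ := INJ_toNat e1 e2 h6
        rw [h7, h8]

end Pool.Agent.H543R3.PP
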