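import Pool.Agent.H543R3.PP.Defs

/-!
# Project PP: simultaneous substitutions by single ones
-/

set_option autoImplicit false

namespace Pool.Agent.H543R3.PP

open Pool.Agent.H555R2.PF Pool.Agent.H555R2.PF.Fm

theorem MA_vars_subst {σ : ℕ → Fm} {x : ℕ} : ∀ {A : Fm} {y : ℕ}, y ∈ A.vars → x ∈ (σ y).vars →
    x ∈ (A.subst σ).vars := by
  intro A
  induction A with
  | var n =>
    intro y hy hx
    simp only [vars, Finset.mem_singleton] at hy
    subst hy
    exact hx
  | neg A ih => intro y hy hx; exact ih hy hx
  | and A B iA iB =>
    intro y hy hx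
    simp only [vars, Finset.mem_union] at hy
    simp only [subst, vars, Finset.mem_union]
    rcases hy with hy | hy
    · exact Or.inl (iA hy hx)
    · exact Or.inr (iB hy hx)
  | or A B iA iB =>
    intro y hy hx
    simp only [vars, Finset.mem_union] at hy
    simp only [subst, vars, Finset.mem_union]
    rcases hy with hy | hy
    · exact Or.inl (iA hy hx)
    · exact Or.inr (iB hy hx)
  | imp A B iA iB =>
    intro y hy hx
    simp only [vars, Finset.mem_union] at hy
    simp only [subst, vars, Finset.mem_union]
    rcases hy with hy | hy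
    · exact Or.inl (iA hy hx)
    · exact Or.inr (iB hy hx)

theorem MA_size_mono {σ τ : ℕ → Fm} : ∀ {A : Fm}, (∀ x ∈ A.vars, (σ x).size ≤ (τ x).size) →
    (A.subst σ).size ≤ (A.subst τ).size := by
  intro A
  induction A with
  | var n => intro h; exact h n (by simp [vars])
  | neg A ih => intro h; simp only [subst, size]; have := ih h; omega
  | and A B iA iB =>
    intro h; simp only [subst, size]
    have h1 := iA fun n hn => h n (by simp [vars, hn])
    have h2 := iB fun n hn => h n (by simp [vars, hn])
    omega
  | or A B iA iB =>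
    intro h; simp only [subst, size]
    have h1 := iA fun n hn => h n (by simp [vars, hn])
    have h2 := iB fun n hn => h n (by simp [vars, hn])
    omega
  | imp A B iA iB =>
    intro h; simp only [subst, size]
    have h1 := iA fun n hn => h n (by simp [vars, hn])
    have h2 := iB fun n hn => h n (by simp [vars, hn])
    omega

theorem MA_lt {F : List Rule} {K : ℕ} {L : List Fm} (h : SubProof F K L) :
    ∀ W ∈ L, ∀ x ∈ W.vars, x < K := by
  induction h with
  | nil => intro W hW; simp at hW
  | rule h1 h2 h3 ih =>
    intro W hW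
    rcases List.mem_cons.1 hW with rfl | hW
    · exact h3
    · exact ih W hW
  | subst h1 h2 h3 ih =>
    intro W hW
    rcases List.mem_cons.1 hW with rfl | hW
    · exact h3
    · exact ih W hW

/-- a chain of single substitutions -/
theorem MA_chain {F : List Rule} {N : ℕ} (A : Fm) (s : ℕ) (τ : ℕ → ℕ → Fm) (q : ℕ → ℕ)
    (χ : ℕ → Fm) (T : ℕ) (hq : ∀ t < T, q t < N) (hχ : ∀ t < T, ∀ x ∈ (χ t).vars, x < N)
    (hτ : ∀ t < T, ∀ x ∈ A.vars,
      (τ t x).subst (Function.update var (q t) (χ t)) = τ (t + 1) x)
    (hs : ∀ t ≤ T, (A.subst (τ t)).size ≤ s) :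
    ∀ L : List Fm, SSub F N L → A.subst (τ 0) ∈ L →
      ∃ D, SSub F N (D ++ L) ∧ A.subst (τ T) ∈ D ++ L ∧ psize D ≤ T * s := by
  intro L hL h0
  induction T with
  | zero => exact ⟨[], hL, h0, by simp [psize]⟩
  | succ T ih =>
    obtain ⟨D, h1, h2, h3⟩ := ih (fun t ht => hq t (by omega)) (fun t ht => hχ t (by omega))
      (fun t ht => hτ t (by omega)) (fun t ht => hs t (by omega))
    have h4 := SSub.ssub h1 h2 (hq T (by omega)) (hχ T (by omega))
    have h5 : (A.subst (τ T)).subst (Function.update var (q T) (χ T)) = A.subst (τ (T + 1)) := by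
      rw [subst_subst]
      exact subst_congr fun x hx => hτ T (by omega) x hx
    rw [h5] at h4
    refine ⟨A.subst (τ (T + 1)) :: D, h4, by simp, ?_⟩
    rw [psize_cons]
    have := hs (T + 1) le_rfl
    nlinarith

theorem MA_subst_id {A : Fm} {q : ℕ} {χ : Fm} (h : q ∉ A.vars) :
    A.subst (Function.update var q χ) = A := by
  rw [subst_congr (τ := var) (fun n hn => by
    rw [Function.update_of_ne (fun h' : n = q => h (h' ▸ hn))]), subst_var]

/-- one simultaneous substitution -/
theorem MA_step {F : List Rule} {K : ℕ} (A : Fm) (σ : ℕ → Fm) (hA : ∀ x ∈ A.vars, x < K)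
    (hσ : ∀ x ∈ (A.subst σ).vars, x < K) :
    ∀ L : List Fm, SSub F (2 * K) L → A ∈ L →
      ∃ D, SSub F (2 * K) (D ++ L) ∧ A.subst σ ∈ D ++ L ∧
        psize D ≤ 2 * K * (A.subst σ).size := by
  intro L hL hAL
  have hσ' : ∀ y ∈ A.vars, ∀ x ∈ (σ y).vars, x < K := fun y hy x hx =>
    hσ x (MA_vars_subst hy hx)
  have e0 : A.subst (fun x => if x < 0 then var (K + x) else var x) = A := by
    rw [subst_congr (τ := var) (fun n _ => by simp), subst_var]
  obtain ⟨D, h1, h2, h3⟩ := MA_chain (F := F) (N := 2 * K) A (A.subst σ).size
    (fun t x => if x < t then var (K + x) else var x) (fun t => t) (fun t => var (K + t)) K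
    (fun t ht => by omega) (fun t ht x hx => by
      simp only [vars, Finset.mem_singleton] at hx
      omega)
    (fun t ht x hx => by
      have hxK := hA x hx
      rcases lt_trichotomy x t with h | h | h
      · simp only [if_pos h, if_pos (show x < t + 1 by omega), subst]
        rw [Function.update_of_ne (by omega)]
      · subst h
        simp only [if_neg (show ¬ x < x by omega), if_pos (show x < x + 1 by omega), subst]
        rw [Function.update_self]
      · simp only [if_neg (show ¬ x < t by omega), if_neg (show ¬ x < t + 1 by omega), subst]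
        rw [Function.update_of_ne (by omega)])
    (fun t ht => MA_size_mono fun x hx => by
      have := size_pos (σ x)
      split_ifs <;> simpa [size] using this) L hL (by
        show A.subst (fun x => if x < 0 then var (K + x) else var x) ∈ L
        rw [e0]
        exact hAL)
  have e1 : A.subst (fun x => if x < K then var (K + x) else var x) =
      A.subst (fun x => if x < 0 then σ x else var (K + x)) :=
    subst_congr fun n hn => by
      rw [if_pos (hA n hn), if_neg (by omega)]
  obtain ⟨D', h4, h5, h6⟩ := MA_chain (F := F) (N := 2 * K) A (A.subst σ).size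
    (fun t x => if x < t then σ x else var (K + x)) (fun t => K + t)
    (fun t => if t ∈ A.vars then σ t else var 0) K
    (fun t ht => by omega) (fun t ht x hx => by
      split_ifs at hx with h
      · have := hσ' t h x hx
        omega
      · simp only [vars, Finset.mem_singleton] at hx
        omega)
    (fun t ht x hx => by
      have hxK := hA x hx
      rcases lt_trichotomy x t with h | h | h
      · simp only [if_pos h, if_pos (show x < t + 1 by omega)]
        exact MA_subst_id fun h' => by
          have := hσ' x hx _ h'
          omega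
      · subst h
        simp only [if_neg (show ¬ x < x by omega), if_pos (show x < x + 1 by omega), subst]
        rw [Function.update_self, if_pos hx]
      · simp only [if_neg (show ¬ x < t by omega), if_neg (show ¬ x < t + 1 by omega), subst]
        rw [Function.update_of_ne (by omega)])
    (fun t ht => MA_size_mono fun x hx => by
      have := size_pos (σ x)
      split_ifs
      · exact le_rfl
      · simpa [size] using this) (D ++ L) h1 (by
        show A.subst (fun x => if x < 0 then σ x else var (K + x)) ∈ D ++ L
        rw [← e1]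
        exact h2)
  have e2 : A.subst (fun x => if x < K then σ x else var (K + x)) = A.subst σ :=
    subst_congr fun n hn => by rw [if_pos (hA n hn)]
  refine ⟨D' ++ D, by rwa [List.append_assoc], ?_, ?_⟩
  · rw [List.append_assoc, ← e2]
    exact h5
  · rw [psize_append]
    nlinarith

theorem MA_main {F : List Rule} {K : ℕ} {L : List Fm} (h : SubProof F K L) :
    ∃ L' : List Fm, SSub F (2 * K) L' ∧ (∀ W ∈ L, W ∈ L') ∧
      psize L' ≤ (2 * K + 1) * psize L := by
  induction h with
  | nil => exact ⟨[], SSub.nil, by simp, by simp [psize]⟩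
  | @rule L B h1 h2 h3 ih =>
    obtain ⟨L', g1, g2, g3⟩ := ih
    refine ⟨B :: L', SSub.rule g1 (h2.mono g2) (fun x hx => by have := h3 x hx; omega), ?_, ?_⟩
    · intro W hW
      rcases List.mem_cons.1 hW with rfl | hW
      · simp
      · exact List.mem_cons_of_mem _ (g2 W hW)
    · rw [psize_cons, psize_cons]
      nlinarith [Nat.zero_le (K * B.size)]
  | @subst L A σ h1 h2 h3 ih =>
    obtain ⟨L', g1, g2, g3⟩ := ih
    obtain ⟨D, g4, g5, g6⟩ := MA_step (F := F) A σ (MA_lt h1 A h2) h3 L' g1 (g2 A h2)
    refine ⟨D ++ L', g4, ?_, ?_⟩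
    · intro W hW
      rcases List.mem_cons.1 hW with rfl | hW
      · exact g5
      · exact List.mem_append_right _ (g2 W hW)
    · rw [psize_append, psize_cons]
      nlinarith [Nat.zero_le (A.subst σ).size]

theorem t_MA {F : List Rule} : S_MA F := by
  refine ⟨4, fun K L M hM hK hL h => ?_⟩
  obtain ⟨L', g1, g2, g3⟩ := MA_main h
  refine ⟨L', g1, g2, g3.trans ?_⟩
  calc (2 * K + 1) * psize L ≤ (2 * M + 1) * M := Nat.mul_le_mul (by omega) hL
    _ ≤ M ^ 3 * M := Nat.mul_le_mul_right _ (by
        have : M ^ 3 = M * M * M := by ring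
        rw [this]
        nlinarith [mul_le_mul hM hM (by norm_num) (by omega : 0 ≤ M)])
    _ = M ^ 4 := by ring

end Pool.Agent.H543R3.PP
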