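import Pool.Agent.H543R3.PP.Defs

/-!
# Task MB1: extended Frege, deduction theorem and renaming
-/

set_option autoImplicit false

namespace Pool.Agent.H543R3.PP

open Pool.Agent.H555R2.PF Pool.Agent.H555R2.PF.Fm

namespace MB1aux

theorem wfn_vars {n : ℕ} : ∀ {Ds : List Fm}, WFn n Ds → ∀ D ∈ Ds, ∀ x ∈ D.vars,
    x < n + Ds.length := by
  intro Ds
  induction Ds with
  | nil => intro _ D hD; simp at hD
  | cons C Ds ih =>
    rintro ⟨⟨φ, rfl, h1⟩, h2⟩ D hD x hx
    rw [List.length_cons]
    rcases List.mem_cons.1 hD with rfl | hD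
    · simp only [Fm.iff, vars, Finset.mem_union, Finset.mem_singleton] at hx
      have h3 : x = n + Ds.length ∨ x < n + Ds.length := by
        rcases hx with (hx | hx) | (hx | hx)
        · exact Or.inl hx
        · exact Or.inr (h1 x hx)
        · exact Or.inr (h1 x hx)
        · exact Or.inl hx
      omega
    · have := ih h2 D hD x hx
      omega

theorem rename_congr {f g : ℕ → ℕ} {B : Fm} (h : ∀ x ∈ B.vars, f x = g x) :
    B.rename f = B.rename g := by
  unfold rename
  exact subst_congr fun x hx => by rw [h x hx]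

theorem rename_iff (f : ℕ → ℕ) (B C : Fm) : (iff B C).rename f = iff (B.rename f) (C.rename f) :=
  rfl

theorem main {F : List Rule} (hF : IsFrege F) : ∃ c : ℕ, ∀ (A : Fm) (n : ℕ),
    (∀ x ∈ A.vars, x < n) → ∀ (k : ℕ) (L : List Fm), EFProof F A k L →
    ∃ (ρ : ℕ → ℕ) (Ds : List Fm), Ds.length = k ∧ WFn n Ds ∧ psize Ds ≤ psize L ∧
      (∀ x, ρ x < n + k) ∧ (∀ x ∈ A.vars, ρ x = x) ∧
      ∀ N : ℕ, n + k ≤ N → ∀ (E : Fm) (M : ℕ), 1 ≤ M → E.size ≤ M → Ok {m | m < N} E →
        (∀ B ∈ L, B.size ≤ M) → ∀ Γ : Set Fm, (∀ D ∈ Ds, imp E D ∈ Γ) →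
        Gen (SSub F N) Γ (L.map fun B => imp E (B.rename ρ)) (c * M * L.length) := by
  obtain ⟨c, hc⟩ := grules_ded hF
  refine ⟨c, fun A n hA k L hL => ?_⟩
  have hn : 0 < n := by
    obtain ⟨x, hx⟩ := vars_nonempty A
    exact lt_of_le_of_lt (Nat.zero_le _) (hA x hx)
  induction hL with
  | nil =>
    classical
    refine ⟨fun x => if x ∈ A.vars then x else 0, [], rfl, trivial, le_rfl, ?_, ?_, ?_⟩
    · intro x
      simp only
      split_ifs with h
      · exact lt_of_lt_of_le (hA x h) (by omega)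
      · omega
    · intro x hx
      simp [hx]
    · intro N _ E M _ _ _ _ Γ _
      simpa using (Gen.nil : Gen (SSub F N) Γ [] 0)
  | @rule k L B hL hB ih =>
    obtain ⟨ρ, Ds, h1, h2, h3, h4, h5, h6⟩ := ih
    refine ⟨ρ, Ds, h1, h2, by rw [psize_cons]; omega, h4, h5, ?_⟩
    intro N hN E M hM hE hS hsz Γ hΓ
    have g1 := h6 N hN E M hM hE hS (fun B hB => hsz B (List.mem_cons_of_mem _ hB)) Γ hΓ
    obtain ⟨r, hr, σ, hB1, hB2⟩ := hB
    have g2 := hc r hr {m | m < N} (SSub F N) (ssubSys F (by omega)) E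
      (fun m => (σ m).rename ρ) M hM hE hS (by
        intro m hm
        rw [size_rename]
        simp only [Rule.rv, Finset.mem_union, Finset.mem_biUnion, List.mem_toFinset] at hm
        rcases hm with hm | ⟨p, hp, hm⟩
        · refine (size_le_subst hm).trans ?_
          rw [← hB1]; exact hsz B (by simp)
        · refine (size_le_subst hm).trans ?_
          exact hsz _ (List.mem_cons_of_mem _ (hB2 p hp))) (by
        intro m _ x hx
        rw [vars_rename, Finset.mem_image] at hx
        obtain ⟨y, _, rfl⟩ := hx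
        exact lt_of_lt_of_le (h4 y) hN)
      (Γ ∪ {B | B ∈ L.map fun B => imp E (B.rename ρ)}) (by
        intro p hp
        right
        refine List.mem_map.2 ⟨_, hB2 p hp, ?_⟩
        simp only [rename, subst_subst])
    have e1 : r.concl.subst (fun m => (σ m).rename ρ) = B.rename ρ := by
      rw [hB1]; simp only [rename, subst_subst]
    rw [e1] at g2
    intro L' hL' hΓL'
    obtain ⟨D, a1, a2, a3⟩ := g1 L' hL' hΓL'
    obtain ⟨D', b1, b2, b3⟩ := g2 (D ++ L') a1 (by
      rintro C (hC | hC)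
      · exact List.mem_append_right _ (hΓL' C hC)
      · exact a2 C hC)
    refine ⟨D' ++ D, by rwa [List.append_assoc], ?_, ?_⟩
    · intro C hC
      rw [List.append_assoc]
      simp only [List.map_cons, List.mem_cons] at hC
      rcases hC with rfl | hC
      · exact b2 _ (by simp)
      · exact List.mem_append_right _ (a2 C hC)
    · rw [psize_append, List.length_cons]; nlinarith
  | @ext k L q φ hL hq1 hq2 hq3 ih =>
    obtain ⟨ρ, Ds, h1, h2, h3, h4, h5, h6⟩ := ih
    have e0 : ∀ B : Fm, q ∉ B.vars → B.rename (Function.update ρ q (n + k)) = B.rename ρ := by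
      intro B hB
      apply rename_congr
      intro x hx
      rw [Function.update_of_ne]
      rintro rfl
      exact hB hx
    have e1 : (iff (var q) φ).rename (Function.update ρ q (n + k)) =
        iff (var (n + k)) (φ.rename ρ) := by
      rw [rename_iff, e0 φ hq1]
      simp [rename, subst]
    refine ⟨Function.update ρ q (n + k), iff (var (n + k)) (φ.rename ρ) :: Ds, by simp [h1],
      ⟨⟨φ.rename ρ, by rw [h1], ?_⟩, h2⟩, ?_, ?_, ?_, ?_⟩
    · intro x hx
      rw [vars_rename, Finset.mem_image] at hx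
      obtain ⟨y, _, rfl⟩ := hx
      rw [h1]; exact h4 y
    · rw [psize_cons, psize_cons, ← e1, size_rename]; omega
    · intro x
      by_cases hx : x = q
      · subst hx; rw [Function.update_self]; omega
      · rw [Function.update_of_ne hx]; have := h4 x; omega
    · intro x hx
      rw [Function.update_of_ne (fun h : x = q => hq3 (h ▸ hx))]
      exact h5 x hx
    · intro N hN E M hM hE hS hsz Γ hΓ
      have g1 := h6 N (by omega) E M hM hE hS (fun B hB => hsz B (List.mem_cons_of_mem _ hB)) Γ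
        (fun D hD => hΓ D (List.mem_cons_of_mem _ hD))
      have g2 : Gen (SSub F N) Γ [imp E (iff (var (n + k)) (φ.rename ρ))] 0 :=
        Gen.hyp (hΓ _ (by simp))
      have e2 : ((iff (var q) φ :: L).map fun B =>
          imp E (B.rename (Function.update ρ q (n + k)))) =
          [imp E (iff (var (n + k)) (φ.rename ρ))] ++ L.map fun B => imp E (B.rename ρ) := by
        rw [List.map_cons, e1, List.singleton_append]
        congr 1
        apply List.map_congr_left
        intro B hB
        rw [e0 B (hq2 B hB)]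
      rw [e2]
      refine (g2.append g1).le ?_
      rw [List.length_cons]; nlinarith

end MB1aux

open MB1aux in
theorem t_MB1 {F : List Rule} (hF : IsFrege F) (h1 : S_CM F) : S_MB1 F := by
  obtain ⟨c, hc⟩ := main hF
  obtain ⟨c₁, hc₁⟩ := h1
  refine ⟨1 + 3 * c₁ + (c + 4) + 1, fun A n k L M hM hA hs hL => ?_⟩
  obtain ⟨ρ, Ds, g1, g2, g3, g4, g5, g6⟩ := hc A n hA k (A :: L) hL
  have hn : 0 < n := by
    obtain ⟨x, hx⟩ := vars_nonempty A
    exact lt_of_le_of_lt (Nat.zero_le _) (hA x hx)
  have hDs : psize Ds ≤ M := g3.trans hs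
  have hlen : Ds.length ≤ M := (length_le_psize Ds).trans hDs
  have hlenL : (A :: L).length ≤ M := (length_le_psize _).trans hs
  have hM3 : 2 * M + 3 ≤ M ^ 3 := by
    have : M ^ 3 = M * M * M := by ring
    rw [this]; nlinarith [Nat.mul_le_mul hM hM]
  have hM2 : 2 ≤ M ^ 3 := by omega
  have hE : (conjL 0 Ds).size ≤ M ^ 3 := by rw [conjL_size]; omega
  have hS : Ok {m | m < n + k} (conjL 0 Ds) := by
    intro x hx
    rcases conjL_vars hx with rfl | ⟨D, hD, hx⟩
    · show 0 < n + k
      omega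
    · have := wfn_vars g2 D hD x hx
      rw [g1] at this
      exact this
  have hsys := ssubSys F (show 0 < n + k by omega)
  have s1 : Gen (SSub F (n + k)) (∅ : Set Fm) (Ds.map fun D => imp (conjL 0 Ds) D)
      (Ds.length * (M ^ 3) ^ c₁) :=
    Gen.many _ _ Ds fun D hD => hc₁ _ _ hsys 0 Ds (M ^ 3) hM2 hE hS D hD ∅
  have s2 := g6 (n + k) le_rfl (conjL 0 Ds) (M ^ 3) (by omega) hE hS (by
    intro B hB
    have := (size_le_psize hB).trans hs
    omega) ((∅ : Set Fm) ∪ {B | B ∈ Ds.map fun D => imp (conjL 0 Ds) D}) (by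
    intro D hD
    right
    exact List.mem_map.2 ⟨D, hD, rfl⟩)
  obtain ⟨L', a1, a2, a3⟩ := (s1.cut s2) [] SSub.nil (by simp)
  rw [List.append_nil] at a1 a2
  refine ⟨Ds, L', g1, g2, hDs, a1, ?_, a3.trans ?_⟩
  · have := a2 (imp (conjL 0 Ds) (A.rename ρ)) (by simp)
    rwa [rename_eq_self g5] at this
  · refine add_pow hM ?_ ?_
    · have e : M ^ (1 + 3 * c₁) = M * (M ^ 3) ^ c₁ := by
        rw [_root_.pow_add, pow_one, pow_mul]
      rw [e]
      exact Nat.mul_le_mul_right _ hlen
    · have e : M ^ (c + 4) = M ^ c * M ^ 3 * M := by ring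
      rw [e]
      exact Nat.mul_le_mul (Nat.mul_le_mul_right _ (le_pow_self hM c)) hlenL

end Pool.Agent.H543R3.PP
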