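import Pool.Agent.H543R3.PP.Defs

/-! MB2: elimination of the extension axioms (helper473). -/

set_option autoImplicit false

namespace Pool.Agent.H543R3.PP

open Pool.Agent.H555R2.PF Pool.Agent.H555R2.PF.Fm

namespace MB2x

theorem wfn_vars {n : ℕ} : ∀ {Ds : List Fm}, WFn n Ds → ∀ D ∈ Ds, ∀ x ∈ D.vars,
    x < n + Ds.length := by
  intro Ds
  induction Ds with
  | nil => intro _ D hD; simp at hD
  | cons D Ds ih =>
    rintro ⟨⟨φ, rfl, hφ⟩, hW⟩ C hC x hx
    simp only [List.length_cons]
    rcases List.mem_cons.1 hC with rfl | hC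
    · simp only [iff, vars, Finset.mem_union, Finset.mem_singleton] at hx
      rcases hx with (hx | hx) | (hx | hx)
      · omega
      · have := hφ x hx; omega
      · have := hφ x hx; omega
      · omega
    · have := ih hW C hC x hx; omega

theorem subst_upd {q : ℕ} {φ B : Fm} (h : ∀ x ∈ B.vars, x < q) :
    B.subst (Function.update var q φ) = B := by
  rw [subst_congr (τ := var) (fun x hx => by
    rw [Function.update_of_ne (by have := h x hx; omega)]), subst_var]

end MB2x

open MB2x in
theorem t_MB2 {F : List Rule} (hF : IsFrege F) : S_MB2 F := by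
  obtain ⟨c₁, h₁⟩ := gschemaL hF
    [imp (and (and (imp (var 0) (var 0)) (imp (var 0) (var 0))) (var 1)) (var 2)]
    (imp (var 1) (var 2)) (by intro v h; simp [eval] at h ⊢; tauto)
  obtain ⟨c₂, h₂⟩ := gschemaL hF [imp (imp (var 0) (var 0)) (var 1)] (var 1)
    (by intro v h; simp [eval] at h ⊢; tauto)
  have key : ∀ (A : Fm) (n N : ℕ) (Ds : List Fm) (M : ℕ), 2 ≤ M →
      (∀ x ∈ A.vars, x < n) → WFn n Ds → n + Ds.length ≤ N → (imp (conjL 0 Ds) A).size ≤ M →
      ∀ Γ : Set Fm, imp (conjL 0 Ds) A ∈ Γ →
      Gen (SSub F N) Γ [A] ((c₁ + c₂ + 2) * M * (Ds.length + 1)) := by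
    intro A n N Ds
    induction Ds with
    | nil =>
      intro M hM hA _ hN hs Γ hΓ
      obtain ⟨a, ha⟩ := vars_nonempty A
      have hn := hA a ha
      simp only [List.length_nil, Nat.add_zero] at hN
      have hAs : A.size ≤ M := by simp only [size] at hs; omega
      have hM1 : 1 ≤ M := by omega
      refine (h₂ {m | m < N} (SSub F N) (ssubSys F (by omega)) [var 0, A] M hM1 ?_ ?_ Γ ?_).le ?_
      · intro X hX; simp only [List.mem_cons, List.not_mem_nil, or_false] at hX
        rcases hX with rfl | rfl
        · simpa [size] using hM1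
        · exact hAs
      · intro X hX; simp only [List.mem_cons, List.not_mem_nil, or_false] at hX
        rcases hX with rfl | rfl
        · intro m hm; simp only [vars, Finset.mem_singleton] at hm
          simp only [Set.mem_setOf_eq]; omega
        · intro m hm; simp only [Set.mem_setOf_eq]; have := hA m hm; omega
      · intro B hB; simp only [List.mem_singleton] at hB; subst hB
        simpa [subst, asg, conjL] using hΓ
      · simp only [List.length_nil, Nat.zero_add, Nat.mul_one]
        exact Nat.mul_le_mul_right _ (by omega)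
    | cons D Ds ih =>
      intro M hM hA hW hN hs Γ hΓ
      obtain ⟨⟨φ, hD, hφ⟩, hW'⟩ := hW
      obtain ⟨a, ha⟩ := vars_nonempty A
      have hn := hA a ha
      simp only [List.length_cons] at hN
      have hM1 : 1 ≤ M := by omega
      set q : ℕ := n + Ds.length with hq
      have hcv : ∀ x ∈ (conjL 0 Ds).vars, x < q := by
        intro x hx
        rcases conjL_vars hx with rfl | ⟨C, hC, hx⟩
        · omega
        · exact wfn_vars hW' C hC x hx
      have hAq : ∀ x ∈ A.vars, x < q := fun x hx => by have := hA x hx; omega
      have hDsz : D.size = 2 * φ.size + 5 := by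
        rw [hD]; simp only [iff, size]; omega
      have hsz : D.size + (conjL 0 Ds).size + A.size + 2 ≤ M := by
        simp only [conjL, size] at hs; omega
      -- the substitution
      have hsub : (imp (conjL 0 (D :: Ds)) A).subst (Function.update var q φ) =
          imp (and (and (imp φ φ) (imp φ φ)) (conjL 0 Ds)) A := by
        simp only [conjL, subst, hD, iff]
        rw [subst_upd hφ, subst_upd hcv, subst_upd hAq, Function.update_self]
      have g1 := Gen.ssub (F := F) (N := N) hΓ q φ (by omega)
        (fun x hx => by have := hφ x hx; omega)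
      rw [hsub] at g1
      have g2 := h₁ {m | m < N} (SSub F N) (ssubSys F (by omega)) [φ, conjL 0 Ds, A] M hM1
        (by
          intro X hX; simp only [List.mem_cons, List.not_mem_nil, or_false] at hX
          rcases hX with rfl | rfl | rfl <;> omega)
        (by
          intro X hX; simp only [List.mem_cons, List.not_mem_nil, or_false] at hX
          rcases hX with rfl | rfl | rfl
          · intro m hm; simp only [Set.mem_setOf_eq]; have := hφ m hm; omega
          · intro m hm; simp only [Set.mem_setOf_eq]; have := hcv m hm; omega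
          · intro m hm; simp only [Set.mem_setOf_eq]; have := hAq m hm; omega)
        (Γ ∪ {B | B ∈ [imp (and (and (imp φ φ) (imp φ φ)) (conjL 0 Ds)) A]}) (by
          intro B hB; simp only [List.mem_singleton] at hB; subst hB
          right; simp [subst, asg])
      have g3 := g1.cut g2
      have g4 := ih M hM hA hW' (by omega) (by simp only [size]; omega)
        (Γ ∪ {B | B ∈ [(imp (var 1) (var 2)).subst (asg [φ, conjL 0 Ds, A])]}) (by
          right; simp [subst, asg])
      refine (g3.cut g4).le ?_
      simp only [List.length_cons, size]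
      have h5 : φ.size + φ.size + 1 + (φ.size + φ.size + 1) + 1 + (conjL 0 Ds).size + 1 +
          A.size + 1 ≤ 2 * M := by omega
      nlinarith [Nat.zero_le (c₂ * M)]
  refine ⟨c₁ + c₂ + 4, fun A n N Ds M hM hA hW hN hs Γ hΓ => ?_⟩
  refine (key A n N Ds M hM hA hW hN hs Γ hΓ).le ?_
  have h6 : Ds.length + 1 ≤ M := by
    simp only [size] at hs; rw [conjL_size] at hs; omega
  calc (c₁ + c₂ + 2) * M * (Ds.length + 1) ≤ M ^ (c₁ + c₂ + 2) * M * M :=
        Nat.mul_le_mul (Nat.mul_le_mul_right _ (le_pow_self hM _)) h6
    _ = M ^ (c₁ + c₂ + 4) := by ring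

end Pool.Agent.H543R3.PP
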