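import Pool.Agent.H543R3.PP.Defs

/-!
# Project PP, task OCC: the substitution for a permutation of the codes
-/

set_option autoImplicit false
set_option linter.unusedVariables false

namespace Pool.Agent.H543R3.PP

open Pool.Agent.H555R2.PF Pool.Agent.H555R2.PF.Fm

namespace OCCaux

theorem bev_subst (v : ℕ → Bool) (σ : ℕ → Fm) (A : Fm) :
    bev v (A.subst σ) = bev (fun n => bev v (σ n)) A := by
  induction A with
  | var n => rfl
  | neg A ih => simp only [subst, bev, ih]
  | and A B iA iB => simp only [subst, bev, iA, iB]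
  | or A B iA iB => simp only [subst, bev, iA, iB]
  | imp A B iA iB => simp only [subst, bev, iA, iB]

theorem bev_conjL (v : ℕ → Bool) (z : ℕ) (Ds : List Fm) :
    bev v (conjL z Ds) = true ↔ ∀ D ∈ Ds, bev v D = true := by
  induction Ds with
  | nil => simp [conjL, bev]
  | cons D Ds ih => simp [conjL, bev, ih]

theorem bev_disjL (v : ℕ → Bool) (z : ℕ) (Ds : List Fm) :
    bev v (disjL z Ds) = true ↔ ∃ D ∈ Ds, bev v D = true := by
  induction Ds with
  | nil => simp [disjL, bev]
  | cons D Ds ih => simp [disjL, bev, ih]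

theorem bev_sg (v : ℕ → Bool) (b : Bool) (A : Fm) : bev v (sg b A) = true ↔ bev v A = b := by
  cases b <;> simp [sg, bev]

theorem bev_cubeL (v : ℕ → Bool) (z : ℕ) (l : List (ℕ × Bool)) :
    bev v (cubeL z l) = true ↔ ∀ p ∈ l, v p.1 = p.2 := by
  unfold cubeL
  rw [bev_conjL]
  constructor
  · intro h p hp
    have := h _ (List.mem_map.2 ⟨p, hp, rfl⟩)
    rw [bev_sg] at this
    exact this
  · intro h D hD
    obtain ⟨p, hp, rfl⟩ := List.mem_map.1 hD
    rw [bev_sg]
    exact h p hp

theorem bev_ceq (v : ℕ → Bool) (l i u : ℕ) :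
    bev v (ceq l i u) = true ↔ ∀ j < l, v (i * l + j) = u.testBit j := by
  unfold ceq
  rw [bev_cubeL]
  constructor
  · intro h j hj
    exact h _ (List.mem_map.2 ⟨j, List.mem_range.2 hj, rfl⟩)
  · intro h p hp
    obtain ⟨j, hj, rfl⟩ := List.mem_map.1 hp
    exact h j (List.mem_range.1 hj)

theorem bev_iff (v : ℕ → Bool) (A B : Fm) :
    bev v (Fm.iff A B) = true ↔ (bev v A = true ↔ bev v B = true) := by
  simp only [Fm.iff, bev]
  cases bev v A <;> cases bev v B <;> simp

theorem psize_le {L : List Fm} {k : ℕ} (h : ∀ D ∈ L, D.size ≤ k) : psize L ≤ L.length * k := by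
  induction L with
  | nil => simp [psize]
  | cons D L ih =>
    rw [psize_cons, List.length_cons]
    have h1 := h D (by simp)
    have h2 := ih fun E hE => h E (by simp [hE])
    nlinarith

theorem size_ceq (l i u : ℕ) : (ceq l i u).size ≤ 3 * l + 3 := by
  unfold ceq cubeL
  rw [conjL_size]
  have h := psize_le (L := ((List.range l).map fun j => (i * l + j, u.testBit j)).map
    fun p : ℕ × Bool => sg p.2 (var p.1)) (k := 2) (by
      intro D hD
      obtain ⟨p, _, rfl⟩ := List.mem_map.1 hD
      exact sg_size _ _)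
  simp only [List.length_map, List.length_range] at h ⊢
  omega

theorem vars_ceq {l i u y : ℕ} (hl : 1 ≤ l) (h : y ∈ (ceq l i u).vars) : ∃ j < l, y = i * l + j := by
  unfold ceq cubeL at h
  rcases conjL_vars h with h | ⟨D, hD, h⟩
  · exact ⟨0, by omega, by omega⟩
  · obtain ⟨p, hp, rfl⟩ := List.mem_map.1 hD
    obtain ⟨j, hj, rfl⟩ := List.mem_map.1 hp
    refine ⟨j, List.mem_range.1 hj, ?_⟩
    have : y ∈ (var (i * l + j)).vars := by
      revert h
      cases u.testBit j <;> simp [sg, vars]
    simpa [vars] using this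

/-- the substitution -/
def rho (l : ℕ) (π : Equiv.Perm ℕ) (y : ℕ) : Fm :=
  disjL (y / l * l)
    (((List.range (2 ^ l)).filter fun u => (π.symm u).testBit (y % l)).map (ceq l (y / l)))

theorem size_rho {l M : ℕ} (π : Equiv.Perm ℕ) (hM : 2 ≤ M) (hlM : 2 ^ l ≤ M) (y : ℕ) :
    (rho l π y).size ≤ M ^ 5 := by
  unfold rho
  rw [disjL_size]
  have hl : l < 2 ^ l := Nat.lt_two_pow_self
  have h := psize_le (L := ((List.range (2 ^ l)).filter
    fun u => (π.symm u).testBit (y % l)).map (ceq l (y / l))) (k := 3 * M) (by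
      intro D hD
      obtain ⟨u, _, rfl⟩ := List.mem_map.1 hD
      have := size_ceq l (y / l) u
      omega)
  have h2 : (((List.range (2 ^ l)).filter
    fun u => (π.symm u).testBit (y % l)).map (ceq l (y / l))).length ≤ M := by
    rw [List.length_map]
    refine (List.length_filter_le _ _).trans ?_
    rw [List.length_range]
    exact hlM
  set L := ((List.range (2 ^ l)).filter
    fun u => (π.symm u).testBit (y % l)).map (ceq l (y / l))
  have h3 : psize L ≤ M * (3 * M) := h.trans (Nat.mul_le_mul_right _ h2)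
  have h4 : M ^ 5 = M * M * (M * M * M) := by ring
  have h5 : 8 ≤ M * M * M := by nlinarith [Nat.mul_le_mul hM hM]
  have h6 : M * M * 8 ≤ M ^ 5 := by rw [h4]; exact Nat.mul_le_mul_left _ h5
  nlinarith

theorem div_mod_aux {l i j : ℕ} (hj : j < l) : (i * l + j) / l = i ∧ (i * l + j) % l = j := by
  have hl : 0 < l := by omega
  constructor
  · rw [mul_comm, Nat.mul_add_div hl, Nat.div_eq_of_lt hj, add_zero]
  · rw [mul_comm, Nat.mul_add_mod, Nat.mod_eq_of_lt hj]

theorem vars_rho {l i j y : ℕ} (π : Equiv.Perm ℕ) (hj : j < l)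
    (h : y ∈ (rho l π (i * l + j)).vars) : ∃ j' < l, y = i * l + j' := by
  unfold rho at h
  rw [(div_mod_aux hj).1, (div_mod_aux hj).2] at h
  rcases disjL_vars h with h | ⟨D, hD, h⟩
  · exact ⟨0, by omega, by omega⟩
  · obtain ⟨u, _, rfl⟩ := List.mem_map.1 hD
    exact vars_ceq (by omega) h

theorem vars_subst {σ : ℕ → Fm} {y : ℕ} : ∀ {A : Fm}, y ∈ (A.subst σ).vars →
    ∃ x ∈ A.vars, y ∈ (σ x).vars := by
  intro A
  induction A with
  | var n => intro h; exact ⟨n, by simp [vars], h⟩
  | neg A ih => exact ih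
  | and A B iA iB =>
    intro h; simp only [subst, vars, Finset.mem_union] at h
    rcases h with h | h
    · obtain ⟨x, hx, hy⟩ := iA h; exact ⟨x, by simp [vars, hx], hy⟩
    · obtain ⟨x, hx, hy⟩ := iB h; exact ⟨x, by simp [vars, hx], hy⟩
  | or A B iA iB =>
    intro h; simp only [subst, vars, Finset.mem_union] at h
    rcases h with h | h
    · obtain ⟨x, hx, hy⟩ := iA h; exact ⟨x, by simp [vars, hx], hy⟩
    · obtain ⟨x, hx, hy⟩ := iB h; exact ⟨x, by simp [vars, hx], hy⟩
  | imp A B iA iB =>
    intro h; simp only [subst, vars, Finset.mem_union] at h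
    rcases h with h | h
    · obtain ⟨x, hx, hy⟩ := iA h; exact ⟨x, by simp [vars, hx], hy⟩
    · obtain ⟨x, hx, hy⟩ := iB h; exact ⟨x, by simp [vars, hx], hy⟩

theorem eq_of_bits {l u u' : ℕ} (hu : u < 2 ^ l) (hu' : u' < 2 ^ l)
    (h : ∀ j < l, u.testBit j = u'.testBit j) : u = u' := by
  apply Nat.eq_of_testBit_eq
  intro j
  rcases Nat.lt_or_ge j l with hj | hj
  · exact h j hj
  · have h2 : 2 ^ l ≤ 2 ^ j := Nat.pow_le_pow_right (by norm_num) hj
    rw [Nat.testBit_lt_two_pow (hu.trans_le h2), Nat.testBit_lt_two_pow (hu'.trans_le h2)]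

theorem perm_lt {l : ℕ} {π : Equiv.Perm ℕ} (hπ : ∀ x, 2 ^ l ≤ x → π x = x) {x : ℕ}
    (hx : x < 2 ^ l) : π x < 2 ^ l := by
  by_contra h
  have h1 := hπ _ (not_lt.1 h)
  have h2 := π.injective h1
  omega

theorem symm_lt {l : ℕ} {π : Equiv.Perm ℕ} (hπ : ∀ x, 2 ^ l ≤ x → π x = x) {x : ℕ}
    (hx : x < 2 ^ l) : π.symm x < 2 ^ l := by
  by_contra h
  have h1 := hπ _ (not_lt.1 h)
  rw [Equiv.apply_symm_apply] at h1
  omega

/-- the tautology -/
theorem taut {l : ℕ} {π : Equiv.Perm ℕ} (hπ : ∀ x, 2 ^ l ≤ x → π x = x) (i x : ℕ)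
    (hx : x < 2 ^ l) (v : ℕ → Bool) :
    bev v (Fm.iff ((ceq l i x).subst (rho l π)) (ceq l i (π x))) = true := by
  rw [bev_iff, bev_subst, bev_ceq, bev_ceq]
  set u : ℕ := Nat.ofBits (fun j : Fin l => v (i * l + j)) with hu
  have hu1 : u < 2 ^ l := Nat.ofBits_lt_two_pow _
  have hu2 : ∀ j < l, u.testBit j = v (i * l + j) := fun j hj => by
    rw [hu, Nat.testBit_ofBits_lt _ j hj]
  have key : ∀ j < l, bev v (rho l π (i * l + j)) = (π.symm u).testBit j := by
    intro j hj
    have h1 : bev v (rho l π (i * l + j)) = true ↔ (π.symm u).testBit j = true := by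
      unfold rho
      rw [(div_mod_aux hj).1, (div_mod_aux hj).2, bev_disjL]
      constructor
      · rintro ⟨D, hD, hv⟩
        obtain ⟨u', hu', rfl⟩ := List.mem_map.1 hD
        rw [List.mem_filter, List.mem_range] at hu'
        rw [bev_ceq] at hv
        have : u = u' := eq_of_bits hu1 hu'.1 fun j' hj' => by rw [hu2 j' hj', hv j' hj']
        rw [this]
        exact hu'.2
      · intro h
        refine ⟨_, List.mem_map.2 ⟨u, ?_, rfl⟩, ?_⟩
        · rw [List.mem_filter, List.mem_range]; exact ⟨hu1, h⟩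
        · rw [bev_ceq]
          intro j' hj'
          exact (hu2 j' hj').symm
    rcases Bool.eq_false_or_eq_true (bev v (rho l π (i * l + j))) with h | h
    · rw [h, h1.1 h]
    · rcases Bool.eq_false_or_eq_true ((π.symm u).testBit j) with h' | h'
      · rw [h1.2 h', h']
      · rw [h, h']
  constructor
  · intro h j hj
    have h1 : π.symm u = x := eq_of_bits (symm_lt hπ hu1) hx fun j' hj' => by
      rw [← key j' hj', h j' hj']
    have h2 : u = π x := by rw [← h1, Equiv.apply_symm_apply]
    rw [← hu2 j hj, h2]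
  · intro h j hj
    have h1 : u = π x := eq_of_bits hu1 (perm_lt hπ hx) fun j' hj' => by
      rw [hu2 j' hj', h j' hj']
    show bev v (rho l π (i * l + j)) = x.testBit j
    rw [key j hj, h1, Equiv.symm_apply_apply]

theorem ok_and {S : Set ℕ} {A B : Fm} (hA : Ok S A) (hB : Ok S B) :
    Ok S (Fm.or A B) ∧ Ok S (Fm.imp A B) ∧ Ok S (Fm.and A B) := by
  refine ⟨?_, ?_, ?_⟩ <;>
  · intro n hn
    simp only [vars, Finset.mem_union] at hn
    rcases hn with hn | hn
    exacts [hA n hn, hB n hn]

/-- equivalence of disjunctions -/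
theorem disj_iff {F : List Rule} (hF : IsFrege F) : ∃ c : ℕ, ∀ (S : Set ℕ) (P : List Fm → Prop),
    Sys F S P → ∀ (z : ℕ) (ρ : ℕ → Fm) (f g : ℕ → Fm) (N : ℕ), 1 ≤ N → z ∈ S → Ok S (ρ z) →
    ∀ Γ : Set Fm, ∀ I : List ℕ,
    ((disjL z (I.map f)).subst ρ).size ≤ N → (disjL z (I.map g)).size ≤ N →
    (∀ i ∈ I, Ok S ((f i).subst ρ)) → (∀ i ∈ I, Ok S (g i)) →
    (∀ i ∈ I, Fm.iff ((f i).subst ρ) (g i) ∈ Γ) →
    Gen P Γ [Fm.iff ((disjL z (I.map f)).subst ρ) (disjL z (I.map g))] (c * N * (I.length + 1)) := by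
  obtain ⟨c₁, h₁⟩ := gschemaL hF [] (Fm.iff (neg (imp (var 0) (var 0))) (neg (imp (var 1) (var 1))))
    (by intro v _; simp [Fm.iff, eval])
  obtain ⟨c₂, h₂⟩ := gschemaL hF [Fm.iff (var 0) (var 1), Fm.iff (var 2) (var 3)]
    (Fm.iff (or (var 0) (var 2)) (or (var 1) (var 3))) (by
    intro v h; simp [Fm.iff, eval] at h ⊢; tauto)
  refine ⟨c₁ + c₂, fun S P hP z ρ f g N hN hz hρ Γ I => ?_⟩
  induction I with
  | nil =>
    intro hs1 hs2 _ _ _
    simp only [List.map_nil, disjL, subst, size] at hs1 hs2
    refine ((h₁ S P hP [ρ z, var z] N hN (by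
      intro X hX; simp at hX
      rcases hX with rfl | rfl
      · omega
      · simp [size]; omega) (by
      intro X hX; simp at hX
      rcases hX with rfl | rfl
      · exact hρ
      · intro m hm
        simp only [vars, Finset.mem_singleton] at hm
        subst hm; exact hz) Γ (by simp)).sub (by simp [subst, asg, Fm.iff, disjL])).mono
        subset_rfl ?_
    simp only [List.length_nil, zero_add, mul_one]
    exact Nat.mul_le_mul_right _ (by omega)
  | cons i I ih =>
    intro hs1 hs2 hok1 hok2 hΓ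
    simp only [List.map_cons, disjL, subst, size] at hs1 hs2
    have h3 := ih (by omega) (by omega) (fun j hj => hok1 j (by simp [hj]))
      (fun j hj => hok2 j (by simp [hj])) (fun j hj => hΓ j (by simp [hj]))
    have okd1 : Ok S ((disjL z (I.map f)).subst ρ) := by
      intro y hy
      obtain ⟨x, hx, hy2⟩ := vars_subst hy
      rcases disjL_vars hx with h | ⟨D, hD, h⟩
      · subst h; exact hρ y hy2
      · obtain ⟨j, hj, rfl⟩ := List.mem_map.1 hD
        apply hok1 j (by simp [hj]) y
        clear h3 ih hs1 hs2 hok1 hok2 hΓ hy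
        have gen : ∀ A : Fm, x ∈ A.vars → y ∈ (A.subst ρ).vars := by
          intro A
          induction A with
          | var n => intro h; simp only [vars, Finset.mem_singleton] at h; subst h; exact hy2
          | neg A ih => exact ih
          | and A B iA iB =>
            intro h; simp only [subst, vars, Finset.mem_union] at h ⊢
            exact h.imp iA iB
          | or A B iA iB =>
            intro h; simp only [subst, vars, Finset.mem_union] at h ⊢
            exact h.imp iA iB
          | imp A B iA iB =>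
            intro h; simp only [subst, vars, Finset.mem_union] at h ⊢
            exact h.imp iA iB
        exact gen _ h
    have okd2 : Ok S (disjL z (I.map g)) := by
      intro y hy
      rcases disjL_vars hy with h | ⟨D, hD, h⟩
      · subst h; exact hz
      · obtain ⟨j, hj, rfl⟩ := List.mem_map.1 hD
        exact hok2 j (by simp [hj]) y h
    have h5 := h₂ S P hP [(f i).subst ρ, g i, (disjL z (I.map f)).subst ρ, disjL z (I.map g)] N hN
      (by
        intro X hX; simp at hX
        rcases hX with rfl | rfl | rfl | rfl <;> omega) (by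
        intro X hX; simp at hX
        rcases hX with rfl | rfl | rfl | rfl
        exacts [hok1 i (by simp), hok2 i (by simp), okd1, okd2])
      (Γ ∪ {B | B ∈ [Fm.iff ((disjL z (I.map f)).subst ρ) (disjL z (I.map g))]}) (by
        intro A hA
        simp only [List.mem_cons, List.not_mem_nil, or_false] at hA
        rcases hA with rfl | rfl
        · left; exact hΓ i (by simp)
        · right; simp [subst, asg, Fm.iff])
    refine ((h3.cut h5).sub (by simp [subst, asg, Fm.iff, disjL])).mono subset_rfl ?_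
    simp only [List.length_cons]; nlinarith

end OCCaux

open OCCaux in
/-- OCC -/
theorem t_OCC {F : List Rule} (hF : IsFrege F) (h1 : S_TT F) (h2 : S_REPL F) : S_OCC F := by
  obtain ⟨c₁, hT⟩ := h1
  obtain ⟨c₂, hD⟩ := disj_iff hF
  refine ⟨(11 * c₁ + 1) + (c₂ + 13) + 1, fun n l π M hM hn hl hnM hlM hπ => ?_⟩
  have hnl : 0 < n * l := Nat.mul_pos hn hl
  have hSys := subSys F hnl
  have hll : l < 2 ^ l := Nat.lt_two_pow_self
  have hidx : ∀ i < n, ∀ j < l, i * l + j < n * l := by
    intro i hi j hj
    have h1 : (i + 1) * l ≤ n * l := Nat.mul_le_mul_right _ hi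
    nlinarith
  -- sizes
  have sρ : ∀ x, (rho l π x).size ≤ M ^ 5 := size_rho π hM hlM
  have sc : ∀ i u, (ceq l i u).size ≤ M ^ 3 := by
    intro i u
    have h1 := size_ceq l i u
    have h2 : M ^ 3 = M * (M * M) := by ring
    have h3 : 4 ≤ M * M := Nat.mul_le_mul hM hM
    have h4 : M * 4 ≤ M ^ 3 := by rw [h2]; exact Nat.mul_le_mul_left _ h3
    omega
  have hM5 : 1 ≤ M ^ 5 := Nat.one_le_pow _ _ (by omega)
  have scs : ∀ i u, ((ceq l i u).subst (rho l π)).size ≤ M ^ 8 := by
    intro i u
    refine (size_subst_le hM5 fun y _ => sρ y).trans ?_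
    rw [show (8 : ℕ) = 3 + 5 by norm_num, pow_add]
    exact Nat.mul_le_mul_right _ (sc i u)
  have so : ∀ u, (occ n l u).size ≤ M ^ 5 := by
    intro u
    unfold occ
    rw [disjL_size]
    have h := psize_le (L := (List.range n).map fun i => ceq l i u) (k := 3 * M) (by
      intro D hD
      obtain ⟨i, _, rfl⟩ := List.mem_map.1 hD
      have := size_ceq l i u
      omega)
    simp only [List.length_map, List.length_range] at h ⊢
    have h3 : n * (3 * M) ≤ M * (3 * M) := Nat.mul_le_mul_right _ hnM
    have h4 : M ^ 5 = M * M * (M * M * M) := by ring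
    have h5 : 8 ≤ M * M * M := by nlinarith [Nat.mul_le_mul hM hM]
    have h6 : M * M * 8 ≤ M ^ 5 := by rw [h4]; exact Nat.mul_le_mul_left _ h5
    nlinarith
  have sos : ∀ u, ((occ n l u).subst (rho l π)).size ≤ M ^ 10 := by
    intro u
    refine (size_subst_le hM5 fun y _ => sρ y).trans ?_
    rw [show (10 : ℕ) = 5 + 5 by norm_num, pow_add]
    exact Nat.mul_le_mul_right _ (so u)
  have p1 : M ^ 10 ≤ M ^ 11 := pow_mono hM (by norm_num)
  have p2 : M ^ 5 ≤ M ^ 11 := pow_mono hM (by norm_num)
  refine ⟨rho l π, fun x => (sρ x).trans (pow_mono hM (by omega)), ?_, ?_⟩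
  · intro x hx y hy
    have hxl : x = x / l * l + x % l := by rw [mul_comm]; exact (Nat.div_add_mod x l).symm
    have hmod : x % l < l := Nat.mod_lt _ hl
    have hdiv : x / l < n := Nat.div_lt_of_lt_mul (by rwa [mul_comm] at hx)
    rw [hxl] at hy
    obtain ⟨j', hj', rfl⟩ := vars_rho π hmod hy
    exact hidx _ hdiv _ hj'
  · intro x hx Γ
    -- the single equivalences
    have okc : ∀ i < n, ∀ u, Ok {m | m < n * l} (ceq l i u) := by
      intro i hi u y hy
      obtain ⟨j, hj, rfl⟩ := vars_ceq hl hy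
      exact hidx i hi j hj
    have okcs : ∀ i < n, ∀ u, Ok {m | m < n * l} ((ceq l i u).subst (rho l π)) := by
      intro i hi u y hy
      obtain ⟨x', hx', hy'⟩ := vars_subst hy
      obtain ⟨j, hj, rfl⟩ := vars_ceq hl hx'
      obtain ⟨j', hj', rfl⟩ := vars_rho π hj hy'
      exact hidx i hi j' hj'
    have one : ∀ i ∈ List.range n, Gen (SubProof F (n * l)) Γ
        [Fm.iff ((ceq l i x).subst (rho l π)) (ceq l i (π x))] (M ^ (11 * c₁)) := by
      intro i hi
      rw [List.mem_range] at hi
      have h := hT _ _ hSys ((List.range l).map fun j => i * l + j)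
        (Fm.iff ((ceq l i x).subst (rho l π)) (ceq l i (π x))) (M ^ 11)
        (hM.trans (by nlinarith [pow_mono hM (show 1 ≤ 11 by norm_num)]))
        (by
          rw [List.length_map, List.length_range]
          refine hlM.trans ?_
          calc M = M ^ 1 := (pow_one M).symm
            _ ≤ M ^ 11 := pow_mono hM (by norm_num))
        (by
          have e1 := scs i x
          have e2 := sc i (π x)
          simp only [Fm.iff, size]
          have e3 : M ^ 11 = M ^ 8 * (M * M * M) := by ring
          have e4 : 8 ≤ M * M * M := by nlinarith [Nat.mul_le_mul hM hM]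
          have e5 : M ^ 8 * 8 ≤ M ^ 11 := by rw [e3]; exact Nat.mul_le_mul_left _ e4
          have e6 : M ^ 3 ≤ M ^ 8 := pow_mono hM (by norm_num)
          have e7 : 1 ≤ M ^ 8 := Nat.one_le_pow _ _ (by omega)
          omega)
        (by
          intro y hy
          have hy' : y ∈ ((ceq l i x).subst (rho l π)).vars ∨ y ∈ (ceq l i (π x)).vars := by
            simp only [Fm.iff, vars, Finset.mem_union] at hy
            tauto
          rw [List.mem_map]
          rcases hy' with h | h
          · obtain ⟨x', hx', hy'⟩ := vars_subst h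
            obtain ⟨j, hj, rfl⟩ := vars_ceq hl hx'
            obtain ⟨j', hj', rfl⟩ := vars_rho π hj hy'
            exact ⟨j', List.mem_range.2 hj', rfl⟩
          · obtain ⟨j, hj, rfl⟩ := vars_ceq hl h
            exact ⟨j, List.mem_range.2 hj, rfl⟩)
        (by
          intro y hy
          obtain ⟨j, hj, rfl⟩ := List.mem_map.1 hy
          exact hidx i hi j (List.mem_range.1 hj))
        (taut hπ i x hx) Γ
      rw [← pow_mul] at h
      exact h
    have all := Gen.many (fun i => Fm.iff ((ceq l i x).subst (rho l π)) (ceq l i (π x)))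
      (M ^ (11 * c₁)) (List.range n) one
    rw [List.length_range] at all
    have fin := hD _ _ hSys 0 (rho l π) (fun i => ceq l i x) (fun i => ceq l i (π x)) (M ^ 11)
      (Nat.one_le_pow _ _ (by omega)) hnl (by
        intro y hy
        have h0 : rho l π 0 = rho l π (0 * l + 0) := by simp
        rw [h0] at hy
        obtain ⟨j', hj', rfl⟩ := vars_rho π (by omega) hy
        exact hidx 0 (by omega) j' hj')
      (Γ ∪ {B | B ∈ (List.range n).map fun i =>
        Fm.iff ((ceq l i x).subst (rho l π)) (ceq l i (π x))}) (List.range n)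
      ((sos x).trans p1) ((so (π x)).trans p2)
      (fun i hi => okcs i (List.mem_range.1 hi) x)
      (fun i hi => okc i (List.mem_range.1 hi) (π x))
      (fun i hi => Or.inr (List.mem_map.2 ⟨i, hi, rfl⟩))
    rw [List.length_range] at fin
    refine (all.cut fin).mono subset_rfl ?_
    refine add_pow hM ?_ ?_
    · have h3 : n ≤ M ^ 1 := by rw [pow_one]; exact hnM
      have := mul_pow h3 (le_refl (M ^ (11 * c₁)))
      rwa [add_comm 1] at this
    · have h3 : c₂ ≤ M ^ c₂ := le_pow_self hM c₂
      have h4 : n + 1 ≤ M ^ 2 := by nlinarith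
      have h5 := mul_pow (mul_pow h3 (le_refl (M ^ 11))) h4
      rwa [show c₂ + 11 + 2 = c₂ + 13 by ring] at h5

end Pool.Agent.H543R3.PP
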