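import Pool.Agent.H543R3.PP.Defs

set_option autoImplicit false

namespace Pool.Agent.H543R3.PP

open Pool.Agent.H555R2.PF Pool.Agent.H555R2.PF.Fm

theorem prm_card (b : ℕ) (s : St) (h : S_CNT) (hs : Vs b s) :
    Fintype.card {e : Fin (GG b) // Dv b s e = true} = s.1 + 1 := by
  rw [← h b s hs, Fintype.card_subtype]
  refine Finset.card_bij (fun e _ => (e : ℕ)) ?_ ?_ ?_
  · intro e he
    rw [Finset.mem_filter] at he ⊢
    exact ⟨Finset.mem_range.2 e.2, he.2⟩
  · intro e _ e' _ h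
    exact Fin.ext h
  · intro e he
    rw [Finset.mem_filter, Finset.mem_range] at he
    exact ⟨⟨e, he.1⟩, Finset.mem_filter.2 ⟨Finset.mem_univ _, he.2⟩, rfl⟩

theorem t_PRM (h1 : S_GV) (h2 : S_CNT) : S_PRM := by
  intro n b i s s' hi hs hs' hss
  have hinj : Function.Injective fun e : Fin (GG b) => gv n b i e := by
    intro e e' h
    exact Fin.ext (h1.1 n b i i e e' hi hi e.2 e'.2 h).2
  have hc : Fintype.card {e : Fin (GG b) // Dv b s' e = true} =
      Fintype.card {e : Fin (GG b) // Dv b s e = true} := by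
    rw [prm_card b s h2 hs, prm_card b s' h2 hs', hss]
  let E := Fintype.equivOfCardEq hc
  let τ : Equiv.Perm (Fin (GG b)) := E.extendSubtype
  have hτ : ∀ e : Fin (GG b), Dv b s (τ e) = Dv b s' e := by
    intro e
    by_cases h : Dv b s' e = true
    · rw [h]
      exact E.extendSubtype_mem e h
    · have h3 : ¬ Dv b s (τ e) = true := E.extendSubtype_not_mem e h
      rw [Bool.not_eq_true] at h h3
      rw [h, h3]
  let f : Fin (GG b) ↪ ℕ := ⟨fun e : Fin (GG b) => gv n b i e, hinj⟩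
  refine ⟨τ.viaEmbedding f, fun x hx => ?_, fun e he => ?_⟩
  · refine Equiv.Perm.viaEmbedding_apply_of_notMem τ f x ?_
    rintro ⟨e, rfl⟩
    exact hx e e.2 rfl
  · refine ⟨τ ⟨e, he⟩, (τ ⟨e, he⟩).2, ?_, hτ ⟨e, he⟩⟩
    exact Equiv.Perm.viaEmbedding_apply τ f ⟨e, he⟩

end Pool.Agent.H543R3.PP
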