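import Pool.Agent.H543R3.PP.Defs

set_option autoImplicit false

namespace Pool.Agent.H543R3.PP

open Pool.Agent.H555R2.PF Pool.Agent.H555R2.PF.Fm

namespace REPLh

theorem size_le (σ : ℕ → Fm) (W : Fm) : W.size ≤ (W.subst σ).size := by
  induction W with
  | var n => simpa [size, subst] using size_pos (σ n)
  | neg A ih => simp only [size, subst]; omega
  | and A B iA iB => simp only [size, subst]; omega
  | or A B iA iB => simp only [size, subst]; omega
  | imp A B iA iB => simp only [size, subst]; omega

theorem ok_subst {S : Set ℕ} {σ : ℕ → Fm} {W : Fm} (h : ∀ x ∈ W.vars, Ok S (σ x)) :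
    Ok S (W.subst σ) := by
  induction W with
  | var n => exact h n (by simp [vars])
  | neg A ih => exact ih h
  | and A B iA iB =>
    intro n hn
    simp only [subst, vars, Finset.mem_union] at hn
    rcases hn with hn | hn
    · exact iA (fun x hx => h x (by simp [vars, hx])) n hn
    · exact iB (fun x hx => h x (by simp [vars, hx])) n hn
  | or A B iA iB =>
    intro n hn
    simp only [subst, vars, Finset.mem_union] at hn
    rcases hn with hn | hn
    · exact iA (fun x hx => h x (by simp [vars, hx])) n hn
    · exact iB (fun x hx => h x (by simp [vars, hx])) n hn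
  | imp A B iA iB =>
    intro n hn
    simp only [subst, vars, Finset.mem_union] at hn
    rcases hn with hn | hn
    · exact iA (fun x hx => h x (by simp [vars, hx])) n hn
    · exact iB (fun x hx => h x (by simp [vars, hx])) n hn

end REPLh

open REPLh in
theorem t_REPL {F : List Rule} (hF : IsFrege F) : S_REPL F := by
  obtain ⟨c1, hc1⟩ := gschemaL hF [imp (var 0) (iff (var 1) (var 2))]
    (imp (var 0) (iff (neg (var 1)) (neg (var 2)))) (by
      intro v h
      simp [eval, iff] at h ⊢
      tauto)
  obtain ⟨c2, hc2⟩ := gschemaL hF [imp (var 0) (iff (var 1) (var 2)),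
    imp (var 0) (iff (var 3) (var 4))]
    (imp (var 0) (iff (and (var 1) (var 3)) (and (var 2) (var 4)))) (by
      intro v h
      simp [eval, iff] at h ⊢
      tauto)
  obtain ⟨c3, hc3⟩ := gschemaL hF [imp (var 0) (iff (var 1) (var 2)),
    imp (var 0) (iff (var 3) (var 4))]
    (imp (var 0) (iff (or (var 1) (var 3)) (or (var 2) (var 4)))) (by
      intro v h
      simp [eval, iff] at h ⊢
      tauto)
  obtain ⟨c4, hc4⟩ := gschemaL hF [imp (var 0) (iff (var 1) (var 2)),
    imp (var 0) (iff (var 3) (var 4))]
    (imp (var 0) (iff (imp (var 1) (var 3)) (imp (var 2) (var 4)))) (by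
      intro v h
      simp [eval, iff] at h ⊢
      tauto)
  obtain ⟨c, hc⟩ : ∃ c, c = c1 + c2 + c3 + c4 := ⟨_, rfl⟩
  refine ⟨c + 2, ?_⟩
  intro S P hP U W σ τ M hM hU hWσ hWτ hSU hSσ hSτ Γ hΓ
  have key : ∀ V : Fm, (V.subst σ).size ≤ M → (V.subst τ).size ≤ M →
      (∀ x ∈ V.vars, Ok S (σ x)) → (∀ x ∈ V.vars, Ok S (τ x)) →
      (∀ x ∈ V.vars, imp U (iff (σ x) (τ x)) ∈ Γ) →
      Gen P Γ [imp U (iff (V.subst σ) (V.subst τ))] (c * M * V.size) := by
    intro V
    induction V with
    | var n =>
      intro _ _ _ _ h5
      exact (Gen.hyp (h5 n (by simp [vars]))).le (Nat.zero_le _)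
    | neg A ih =>
      intro h1 h2 h3 h4 h5
      simp only [subst, size] at h1 h2 ⊢
      have i1 := ih (by omega) (by omega) h3 h4 h5
      have i2 := hc1 S P hP [U, A.subst σ, A.subst τ] M (by omega) (by
        intro X hX
        simp only [List.mem_cons, List.not_mem_nil, or_false] at hX
        rcases hX with rfl | rfl | rfl
        · exact hU
        · omega
        · omega) (by
        intro X hX
        simp only [List.mem_cons, List.not_mem_nil, or_false] at hX
        rcases hX with rfl | rfl | rfl
        · exact hSU
        · exact ok_subst h3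
        · exact ok_subst h4) (Γ ∪ {B | B ∈ [imp U (iff (A.subst σ) (A.subst τ))]}) (by
        intro X hX
        simp only [List.mem_cons, List.not_mem_nil, or_false] at hX
        subst hX
        right
        simp [subst, iff, asg])
      refine (i1.cut i2).le ?_
      have : c1 * M ≤ c * M := Nat.mul_le_mul_right _ (by omega)
      nlinarith
    | and A B iA iB =>
      intro h1 h2 h3 h4 h5
      simp only [subst, size] at h1 h2 ⊢
      have h3A : ∀ x ∈ A.vars, Ok S (σ x) := fun x hx => h3 x (by simp [vars, hx])
      have h3B : ∀ x ∈ B.vars, Ok S (σ x) := fun x hx => h3 x (by simp [vars, hx])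
      have h4A : ∀ x ∈ A.vars, Ok S (τ x) := fun x hx => h4 x (by simp [vars, hx])
      have h4B : ∀ x ∈ B.vars, Ok S (τ x) := fun x hx => h4 x (by simp [vars, hx])
      have i1 := iA (by omega) (by omega) h3A h4A (fun x hx => h5 x (by simp [vars, hx]))
      have i1' := iB (by omega) (by omega) h3B h4B (fun x hx => h5 x (by simp [vars, hx]))
      have i2 := hc2 S P hP [U, A.subst σ, A.subst τ, B.subst σ, B.subst τ] M (by omega) (by
        intro X hX
        simp only [List.mem_cons, List.not_mem_nil, or_false] at hX
        rcases hX with rfl | rfl | rfl | rfl | rfl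
        · exact hU
        all_goals omega) (by
        intro X hX
        simp only [List.mem_cons, List.not_mem_nil, or_false] at hX
        rcases hX with rfl | rfl | rfl | rfl | rfl
        · exact hSU
        · exact ok_subst h3A
        · exact ok_subst h4A
        · exact ok_subst h3B
        · exact ok_subst h4B) (Γ ∪ {X | X ∈ [imp U (iff (A.subst σ) (A.subst τ))] ++
          [imp U (iff (B.subst σ) (B.subst τ))]}) (by
        intro X hX
        simp only [List.mem_cons, List.not_mem_nil, or_false] at hX
        rcases hX with rfl | rfl
        · right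
          simp [subst, iff, asg]
        · right
          simp [subst, iff, asg])
      refine ((i1.append i1').cut i2).le ?_
      have : c2 * M ≤ c * M := Nat.mul_le_mul_right _ (by omega)
      nlinarith
    | or A B iA iB =>
      intro h1 h2 h3 h4 h5
      simp only [subst, size] at h1 h2 ⊢
      have h3A : ∀ x ∈ A.vars, Ok S (σ x) := fun x hx => h3 x (by simp [vars, hx])
      have h3B : ∀ x ∈ B.vars, Ok S (σ x) := fun x hx => h3 x (by simp [vars, hx])
      have h4A : ∀ x ∈ A.vars, Ok S (τ x) := fun x hx => h4 x (by simp [vars, hx])
      have h4B : ∀ x ∈ B.vars, Ok S (τ x) := fun x hx => h4 x (by simp [vars, hx])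
      have i1 := iA (by omega) (by omega) h3A h4A (fun x hx => h5 x (by simp [vars, hx]))
      have i1' := iB (by omega) (by omega) h3B h4B (fun x hx => h5 x (by simp [vars, hx]))
      have i2 := hc3 S P hP [U, A.subst σ, A.subst τ, B.subst σ, B.subst τ] M (by omega) (by
        intro X hX
        simp only [List.mem_cons, List.not_mem_nil, or_false] at hX
        rcases hX with rfl | rfl | rfl | rfl | rfl
        · exact hU
        all_goals omega) (by
        intro X hX
        simp only [List.mem_cons, List.not_mem_nil, or_false] at hX
        rcases hX with rfl | rfl | rfl | rfl | rfl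
        · exact hSU
        · exact ok_subst h3A
        · exact ok_subst h4A
        · exact ok_subst h3B
        · exact ok_subst h4B) (Γ ∪ {X | X ∈ [imp U (iff (A.subst σ) (A.subst τ))] ++
          [imp U (iff (B.subst σ) (B.subst τ))]}) (by
        intro X hX
        simp only [List.mem_cons, List.not_mem_nil, or_false] at hX
        rcases hX with rfl | rfl
        · right
          simp [subst, iff, asg]
        · right
          simp [subst, iff, asg])
      refine ((i1.append i1').cut i2).le ?_
      have : c3 * M ≤ c * M := Nat.mul_le_mul_right _ (by omega)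
      nlinarith
    | imp A B iA iB =>
      intro h1 h2 h3 h4 h5
      simp only [subst, size] at h1 h2 ⊢
      have h3A : ∀ x ∈ A.vars, Ok S (σ x) := fun x hx => h3 x (by simp [vars, hx])
      have h3B : ∀ x ∈ B.vars, Ok S (σ x) := fun x hx => h3 x (by simp [vars, hx])
      have h4A : ∀ x ∈ A.vars, Ok S (τ x) := fun x hx => h4 x (by simp [vars, hx])
      have h4B : ∀ x ∈ B.vars, Ok S (τ x) := fun x hx => h4 x (by simp [vars, hx])
      have i1 := iA (by omega) (by omega) h3A h4A (fun x hx => h5 x (by simp [vars, hx]))
      have i1' := iB (by omega) (by omega) h3B h4B (fun x hx => h5 x (by simp [vars, hx]))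
      have i2 := hc4 S P hP [U, A.subst σ, A.subst τ, B.subst σ, B.subst τ] M (by omega) (by
        intro X hX
        simp only [List.mem_cons, List.not_mem_nil, or_false] at hX
        rcases hX with rfl | rfl | rfl | rfl | rfl
        · exact hU
        all_goals omega) (by
        intro X hX
        simp only [List.mem_cons, List.not_mem_nil, or_false] at hX
        rcases hX with rfl | rfl | rfl | rfl | rfl
        · exact hSU
        · exact ok_subst h3A
        · exact ok_subst h4A
        · exact ok_subst h3B
        · exact ok_subst h4B) (Γ ∪ {X | X ∈ [imp U (iff (A.subst σ) (A.subst τ))] ++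
          [imp U (iff (B.subst σ) (B.subst τ))]}) (by
        intro X hX
        simp only [List.mem_cons, List.not_mem_nil, or_false] at hX
        rcases hX with rfl | rfl
        · right
          simp [subst, iff, asg]
        · right
          simp [subst, iff, asg])
      refine ((i1.append i1').cut i2).le ?_
      have : c4 * M ≤ c * M := Nat.mul_le_mul_right _ (by omega)
      nlinarith
  refine (key W hWσ hWτ hSσ hSτ hΓ).le ?_
  have h1 : W.size ≤ M := (size_le σ W).trans hWσ
  calc c * M * W.size ≤ M ^ c * M * M := by
        apply Nat.mul_le_mul _ h1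
        exact Nat.mul_le_mul_right _ (le_pow_self hM c)
    _ = M ^ (c + 2) := by ring

end Pool.Agent.H543R3.PP
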