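import Pool.Agent.H543R3.PP.Defs

set_option autoImplicit false

namespace Pool.Agent.H543R3.PP

open Pool.Agent.H555R2.PF Pool.Agent.H555R2.PF.Fm

theorem SIZ_psize {l : List Fm} {k : ℕ} (h : ∀ B ∈ l, B.size ≤ k) : psize l ≤ l.length * k := by
  induction l with
  | nil => simp [psize]
  | cons B l ih =>
    rw [psize_cons, List.length_cons]
    have h1 := h B (by simp)
    have h2 := ih fun C hC => h C (by simp [hC])
    nlinarith

/-- disjunctions and conjunctions of at most `M ^ a` formulas of size at most `M ^ b` -/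
theorem SIZ_disj {M a b : ℕ} (hM : 2 ≤ M) (z : ℕ) {l : List Fm} (hl : l.length ≤ M ^ a)
    (h : ∀ B ∈ l, B.size ≤ M ^ b) : (disjL z l).size ≤ M ^ (2 * a + b + 4) ∧
    (conjL z l).size ≤ M ^ (2 * a + b + 4) := by
  have h1 : psize l ≤ M ^ (a + b) := (SIZ_psize h).trans (mul_pow hl le_rfl)
  have h2 : psize l + l.length ≤ M ^ (a + b + a + 1) := add_pow hM h1 hl
  have h3 : psize l + l.length ≤ M ^ (2 * a + b + 1) := by
    convert h2 using 2; ring
  have h4 : 4 ≤ M ^ 2 := by nlinarith
  have h5 : psize l + l.length + 4 ≤ M ^ (2 * a + b + 1 + 2 + 1) :=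
    add_pow (a := 2 * a + b + 1) (b := 2) hM h3 h4
  have h6 : 2 * a + b + 1 + 2 + 1 = 2 * a + b + 4 := by ring
  rw [h6] at h5
  rw [disjL_size, conjL_size]
  constructor <;> omega

theorem t_SIZ : S_SIZ := by
  refine ⟨100, ?_⟩
  intro n b M hM hn hb
  have hH : HH b ≤ M ^ 2 := by
    unfold HH
    rw [pow_succ]
    nlinarith
  have h2 : 2 ≤ M ^ 1 := by simpa using hM
  have h4 : 4 ≤ M ^ 2 := by nlinarith
  have hn' : n ≤ M ^ 1 := by simpa using hn
  have hHH : 2 * HH b ≤ M ^ 3 := (mul_pow h2 hH).trans (pow_mono hM (by norm_num))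
  have hG : GG b ≤ M ^ 5 := by
    unfold GG
    exact (add_pow hM hHH h2).trans (pow_mono hM (by norm_num))
  have hst : (sts b).length ≤ M ^ 8 := by
    unfold sts
    rw [List.length_product, List.length_product, List.length_range, List.length_range]
    have h5 : 2 * HH b + 1 ≤ M ^ 4 := by
      have : 1 ≤ M ^ 0 := by simp
      exact (add_pow hM hHH this).trans (pow_mono hM (by norm_num))
    have h6 : [false, true].length * 2 ^ b ≤ M ^ 2 := by
      simp only [List.length_cons, List.length_nil]
      nlinarith
    exact (mul_pow h5 h6).trans (pow_mono hM (by norm_num))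
  have hlit : ∀ (p : ℕ × Bool), (sg p.2 (var p.1)).size ≤ M ^ 1 := by
    intro p
    have h := sg_size p.2 (var p.1)
    simp only [size] at h
    rw [pow_one]
    omega
  have hcube : ∀ (z a : ℕ) (l : List (ℕ × Bool)), l.length ≤ M ^ a →
      (cubeL z l).size ≤ M ^ (2 * a + 5) := by
    intro z a l hl
    unfold cubeL
    have := (SIZ_disj hM z (a := a) (b := 1) (l := l.map fun p => sg p.2 (var p.1))
      (by simpa using hl) (by
        intro B hB
        obtain ⟨p, _, rfl⟩ := List.mem_map.1 hB
        exact hlit p)).2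
    exact this
  have heq : ∀ i s, (eqf n b i s).size ≤ M ^ 15 := by
    intro i s
    unfold eqf
    have := hcube i 5 ((List.range (GG b)).map fun e => (gv n b i e, Dv b s e)) (by simpa using hG)
    exact this
  have hval : ∀ i, (valf n b i).size ≤ M ^ 35 := by
    intro i
    unfold valf
    exact (SIZ_disj hM i (a := 8) (b := 15) (l := (sts b).map (eqf n b i)) (by simpa using hst) (by
      intro B hB
      obtain ⟨s, _, rfl⟩ := List.mem_map.1 hB
      exact heq i s)).1
  refine ⟨?_, hst.trans (pow_mono hM (by norm_num)), hG.trans (pow_mono hM (by norm_num)),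
    fun i => (hval i).trans (pow_mono hM (by norm_num)),
    fun i s => (heq i s).trans (pow_mono hM (by norm_num)), ?_, ?_⟩
  · unfold EE
    refine ((SIZ_disj hM 0 (a := 1) (b := 35) (l := (List.range n).map (valf n b))
      (by simpa using hn) (by
        intro B hB
        obtain ⟨i, _, rfl⟩ := List.mem_map.1 hB
        exact hval i)).2).trans (pow_mono hM (by norm_num))
  · intro β
    unfold decf
    refine ((SIZ_disj hM (β % n) (a := 8) (b := 15)
      (l := ((sts b).filter fun s => cbit s (β / n)).map (eqf n b (β % n))) ?_ (by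
        intro B hB
        obtain ⟨s, _, rfl⟩ := List.mem_map.1 hB
        exact heq (β % n) s)).1).trans (pow_mono hM (by norm_num))
    rw [List.length_map]
    exact (List.length_filter_le _ _).trans hst
  · intro r m hm
    unfold srt
    have hm3 : m ≤ M ^ 3 := hm.trans hHH
    refine ((SIZ_disj hM (r 0) (a := 4) (b := 11) (l := (List.range (m + 1)).map fun t =>
      cubeL (r 0) ((List.range m).map fun e => (r e, decide (e < t)))) ?_ (by
        intro B hB
        obtain ⟨t, _, rfl⟩ := List.mem_map.1 hB
        exact hcube (r 0) 3 _ (by simpa using hm3))).1).trans (pow_mono hM (by norm_num))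
    rw [List.length_map, List.length_range]
    have : 1 ≤ M ^ 0 := by simp
    exact (add_pow hM hm3 this).trans (pow_mono hM (by norm_num))

end Pool.Agent.H543R3.PP
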