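import Pool.Agent.H543R3.PP.Defs

/-! # Project PP: sorting -/

set_option autoImplicit false

namespace Pool.Agent.H543R3.PP

open Pool.Agent.H555R2.PF Pool.Agent.H555R2.PF.Fm

theorem t_SO {F : List Rule} (hF : IsFrege F) (h1 : S_SO1 F) : S_SO F := by
  obtain ⟨c1, hc1⟩ := h1
  obtain ⟨c2, hc2⟩ := gschemaL hF
    [imp (or (imp (var 0) (var 0)) (neg (imp (var 0) (var 0)))) (var 1)] (var 1) (by
      intro v h
      have := h _ (List.mem_singleton.2 rfl)
      simp only [eval] at this ⊢
      exact this (Or.inl fun h => h))
  refine ⟨(c1 + 1) + (c2 + 1) + 1, ?_⟩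
  intro r m B M hM hm hB hinj hr Γ hΓ
  have step : ∀ k, k ≤ m → Gen (PermProof F) Γ [imp (srt r (m - k)) B] (k * M ^ c1) := by
    intro k
    induction k with
    | zero =>
      intro _
      refine (Gen.hyp ?_).le (Nat.zero_le _)
      simpa using hΓ
    | succ k ih =>
      intro hk
      have h2 := ih (by omega)
      have e : m - k = (m - (k + 1)) + 1 := by omega
      rw [e] at h2
      have h3 := hc1 r (m - (k + 1)) B M hM (by omega) hB
        (hinj.mono (by
          intro x hx
          have hx' : x ≤ m - (k + 1) := hx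
          show x < m
          omega))
        (fun e he => hr e (by omega))
        (Γ ∪ {A | A ∈ [imp (srt r ((m - (k + 1)) + 1)) B]}) (Or.inr (by simp))
      refine (h2.cut h3).le ?_
      rw [Nat.succ_mul]
  have h4 := step m le_rfl
  rw [Nat.sub_self] at h4
  have h5 := hc2 Set.univ (PermProof F) (permSys F) [var (r 0), B] M (by omega)
    (by
      intro X hX
      simp only [List.mem_cons, List.not_mem_nil, or_false] at hX
      rcases hX with rfl | rfl
      · simp only [size]; omega
      · exact hB)
    (fun X _ => ok_univ X) (Γ ∪ {A | A ∈ [imp (srt r 0) B]}) (by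
      intro A hA
      rw [List.mem_singleton] at hA
      subst hA
      refine Or.inr ?_
      show _ ∈ [imp (srt r 0) B]
      rw [List.mem_singleton]
      rfl)
  refine (h4.cut h5).le ?_
  refine add_pow hM ?_ ?_
  · rw [pow_succ, mul_comm]
    exact Nat.mul_le_mul_left _ hm
  · rw [pow_succ]
    exact Nat.mul_le_mul_right _ (le_pow_self hM c2)

end Pool.Agent.H543R3.PP
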