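import Pool.Agent.H543R3.PP.Defs

/-!
# Project PP, task SO1: the insertion step of the sorting
-/

set_option autoImplicit false

namespace Pool.Agent.H543R3.PP

open Pool.Agent.H555R2.PF Pool.Agent.H555R2.PF.Fm

theorem so1_mem_conjL {z n : ℕ} {D : Fm} (hn : n ∈ D.vars) : ∀ {Ds : List Fm}, D ∈ Ds →
    n ∈ (conjL z Ds).vars := by
  intro Ds
  induction Ds with
  | nil => intro h; simp at h
  | cons C Ds ih =>
    intro h
    simp only [conjL, vars, Finset.mem_union]
    rcases List.mem_cons.1 h with rfl | h
    · exact Or.inl hn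
    · exact Or.inr (ih h)

theorem so1_mem_disjL {z n : ℕ} {D : Fm} (hn : n ∈ D.vars) : ∀ {Ds : List Fm}, D ∈ Ds →
    n ∈ (disjL z Ds).vars := by
  intro Ds
  induction Ds with
  | nil => intro h; simp at h
  | cons C Ds ih =>
    intro h
    simp only [disjL, vars, Finset.mem_union]
    rcases List.mem_cons.1 h with rfl | h
    · exact Or.inl hn
    · exact Or.inr (ih h)

theorem so1_bev_disjL {w : ℕ → Bool} {z : ℕ} {D : Fm} (hD : bev w D = true) :
    ∀ {Ds : List Fm}, D ∈ Ds → bev w (disjL z Ds) = true := by
  intro Ds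
  induction Ds with
  | nil => intro h; simp at h
  | cons C Ds ih =>
    intro h
    simp only [disjL, bev, Bool.or_eq_true]
    rcases List.mem_cons.1 h with rfl | h
    · exact Or.inl hD
    · exact Or.inr (ih h)

theorem so1_bev_cubeL {w : ℕ → Bool} {z : ℕ} : ∀ {l : List (ℕ × Bool)},
    (∀ p ∈ l, w p.1 = p.2) → bev w (cubeL z l) = true := by
  intro l
  induction l with
  | nil => intro _; simp [cubeL, conjL, bev]
  | cons p l ih =>
    intro h
    have h1 := h p (by simp)
    have h2 := ih fun q hq => h q (by simp [hq])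
    simp only [cubeL, List.map_cons, conjL, bev, Bool.and_eq_true] at h2 ⊢
    refine ⟨?_, h2⟩
    obtain ⟨x, b⟩ := p
    cases b <;> simp_all [sg, bev]

theorem so1_bev_rename (v : ℕ → Bool) (f : ℕ → ℕ) (A : Fm) :
    bev v (A.rename f) = bev (fun x => v (f x)) A := by
  unfold rename
  induction A with
  | var n => rfl
  | neg A ih => simp only [subst, bev, ih]
  | and A B iA iB => simp only [subst, bev, iA, iB]
  | or A B iA iB => simp only [subst, bev, iA, iB]
  | imp A B iA iB => simp only [subst, bev, iA, iB]

theorem so1_bev_srt {w : ℕ → Bool} {r : ℕ → ℕ} {m t : ℕ} (ht : t ≤ m)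
    (h : ∀ e < m, w (r e) = decide (e < t)) : bev w (srt r m) = true := by
  refine so1_bev_disjL (D := cubeL (r 0) ((List.range m).map fun e => (r e, decide (e < t))))
    (so1_bev_cubeL ?_) (List.mem_map.2 ⟨t, List.mem_range.2 (by omega), rfl⟩)
  intro p hp
  obtain ⟨e, he, rfl⟩ := List.mem_map.1 hp
  exact h e (List.mem_range.1 he)

theorem so1_vars {r : ℕ → ℕ} {j x : ℕ} : x ∈ (srt r (j + 1)).vars ↔ ∃ e ≤ j, x = r e := by
  constructor
  · intro h
    rcases disjL_vars h with h | ⟨D, hD, h⟩
    · exact ⟨0, Nat.zero_le _, h⟩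
    · obtain ⟨t, ht, rfl⟩ := List.mem_map.1 hD
      rcases conjL_vars h with h | ⟨C, hC, h⟩
      · exact ⟨0, Nat.zero_le _, h⟩
      · obtain ⟨p, hp, rfl⟩ := List.mem_map.1 hC
        obtain ⟨e, he, rfl⟩ := List.mem_map.1 hp
        refine ⟨e, by have := List.mem_range.1 he; omega, ?_⟩
        by_cases het : e < t
        · simpa [sg, het, vars] using h
        · simpa [sg, het, vars] using h
  · rintro ⟨e, he, rfl⟩
    apply so1_mem_disjL
      (D := cubeL (r 0) ((List.range (j + 1)).map fun e => (r e, decide (e < 0))))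
    · apply so1_mem_conjL (D := sg (decide (e < 0)) (var (r e)))
      · simp [sg, vars]
      · exact List.mem_map.2 ⟨(r e, decide (e < 0)),
          List.mem_map.2 ⟨e, List.mem_range.2 (by omega), rfl⟩, rfl⟩
    · exact List.mem_map.2 ⟨0, by simp, rfl⟩

theorem so1_psize_le {K : ℕ} : ∀ {L : List Fm}, (∀ A ∈ L, A.size ≤ K) →
    psize L ≤ L.length * K := by
  intro L
  induction L with
  | nil => intro _; simp [psize]
  | cons A L ih =>
    intro h
    have h1 := h A (by simp)
    have h2 := ih fun B hB => h B (by simp [hB])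
    rw [psize_cons, List.length_cons]
    nlinarith

theorem so1_cube_size (z : ℕ) (l : List (ℕ × Bool)) :
    (cubeL z l).size ≤ 3 * l.length + 3 := by
  rw [cubeL, conjL_size]
  have h1 : psize (l.map fun p => sg p.2 (var p.1)) ≤
      (l.map fun p => sg p.2 (var p.1)).length * 2 := by
    apply so1_psize_le
    intro A hA
    obtain ⟨p, hp, rfl⟩ := List.mem_map.1 hA
    exact sg_size p.2 (var p.1)
  simp only [List.length_map] at h1 ⊢
  omega

theorem so1_srt_size (r : ℕ → ℕ) (m : ℕ) :
    (srt r m).size ≤ (m + 1) * (3 * m + 3) + m + 5 := by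
  rw [srt, disjL_size]
  have h1 := so1_psize_le (K := 3 * m + 3) (L := (List.range (m + 1)).map fun t =>
    cubeL (r 0) ((List.range m).map fun e => (r e, decide (e < t)))) (by
      intro A hA
      obtain ⟨t, ht, rfl⟩ := List.mem_map.1 hA
      have := so1_cube_size (r 0) ((List.range m).map fun e => (r e, decide (e < t)))
      simpa using this)
  simp only [List.length_map, List.length_range] at h1 ⊢
  omega

theorem t_SO1 {F : List Rule} (hF : IsFrege F) (h2 : S_DE F) (h3 : S_EVC F) : S_SO1 F := by
  obtain ⟨c2, h2⟩ := h2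
  obtain ⟨c3, h3⟩ := h3
  obtain ⟨s1, hs1⟩ := gschemaL hF [imp (and (var 0) (var 1)) (var 2), imp (var 2) (var 3),
    imp (and (neg (var 0)) (var 1)) (var 4), imp (var 4) (var 3)]
    (imp (var 5) (imp (var 1) (var 3))) (by
      intro v h; simp [eval] at h ⊢; tauto)
  obtain ⟨s2, hs2⟩ := gschemaL hF [imp (imp (var 0) (var 0)) (imp (var 1) (var 2))]
    (imp (var 1) (var 2)) (by
      intro v h; simp [eval] at h ⊢; tauto)
  refine ⟨(2 + (3 + (14 + 7 * c3 + s1))) + ((7 * c2) + (7 + s2) + 1) + 1,
    fun r j B M hM hj hB hr hrB Γ hΓ => ?_⟩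
  have hSys := permSys F
  -- the bound `M ^ 7`
  have hM3 : 2 ^ 2 ≤ M ^ 2 := Nat.pow_le_pow_left hM 2
  have hM7 : 16 * M ^ 2 + 2 * M ≤ M ^ 7 := by
    have e1 : M ^ 7 = M ^ 4 * M ^ 2 * M := by ring
    have e2 : 2 ^ 4 ≤ M ^ 4 := Nat.pow_le_pow_left hM 4
    have e3 : 16 * M ^ 2 ≤ M ^ 4 * M ^ 2 := Nat.mul_le_mul_right _ (by omega)
    have e4 : M ^ 4 * M ^ 2 * 2 ≤ M ^ 4 * M ^ 2 * M := Nat.mul_le_mul_left _ hM
    rw [e1]
    nlinarith
  have hMM : M ≤ M ^ 2 := by nlinarith
  have hsrt : ∀ m ≤ j + 1, (srt r m).size + B.size + 1 ≤ M ^ 7 := by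
    intro m hm
    have e1 := so1_srt_size r m
    have e2 : (m + 1) * (3 * m + 3) ≤ (2 * M) * (6 * M) :=
      Nat.mul_le_mul (by omega) (by omega)
    have e3 : (2 * M) * (6 * M) = 12 * M ^ 2 := by ring
    have e4 : 2 * M ≤ M ^ 2 := by nlinarith
    omega
  have hcube : ∀ l : List (ℕ × Bool), l.length ≤ M + 1 → (cubeL (r 0) l).size ≤ M ^ 7 := by
    intro l hl
    have := so1_cube_size (r 0) l
    omega
  have hN : 2 ≤ M ^ 7 := by omega
  set N := M ^ 7 with hNdef
  let E : Fm := imp (var 0) (var 0)
  have hE : E.size ≤ N := by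
    have : E.size = 3 := rfl
    omega
  let l' : ℕ → List (ℕ × Bool) := fun t => (List.range j).map fun e => (r e, decide (e < t))
  have hl' : ∀ t, (l' t).length = j := fun t => by simp [l']
  -- one case of the disjunction
  have hcase : ∀ t ∈ List.range (j + 1), Gen (PermProof F) Γ
      [imp E (imp (cubeL (r 0) (l' t)) B)] (M ^ (3 + (14 + 7 * c3 + s1))) := by
    intro t ht
    have ht : t ≤ j := by have := List.mem_range.1 ht; omega
    let π : Bool → Equiv.Perm ℕ := fun u =>
      if u = true then Equiv.swap (r t) (r j) else Equiv.refl ℕ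
    have hπB : ∀ u, B.rename (π u) = B := by
      intro u
      apply rename_eq_self
      intro n hn
      have h1 : n ≠ r t := fun h => hrB t ht (h ▸ hn)
      have h2 : n ≠ r j := fun h => hrB j le_rfl (h ▸ hn)
      cases u
      · simp [π]
      · simp only [π, if_true]
        exact Equiv.swap_apply_of_ne_of_ne h1 h2
    have hπA : ∀ u x, x ∉ (imp (srt r (j + 1)) B).vars → π u x = x := by
      intro u x hx
      have h1 : x ≠ r t := by
        rintro rfl
        apply hx
        simp only [vars, Finset.mem_union]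
        exact Or.inl (so1_vars.2 ⟨t, ht, rfl⟩)
      have h2 : x ≠ r j := by
        rintro rfl
        apply hx
        simp only [vars, Finset.mem_union]
        exact Or.inl (so1_vars.2 ⟨j, le_rfl, rfl⟩)
      cases u
      · simp [π]
      · simp only [π, if_true]
        exact Equiv.swap_apply_of_ne_of_ne h1 h2
    let X : Bool → Fm := fun u => (srt r (j + 1)).rename (π u)
    have hX : ∀ u, (X u).size ≤ N := by
      intro u
      have e1 := hsrt (j + 1) le_rfl
      have e2 : (X u).size = (srt r (j + 1)).size := size_rename _ _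
      omega
    have g1 : ∀ u, Gen (PermProof F) Γ [imp (X u) B] N := by
      intro u
      have h1 := Gen.perm (F := F) hΓ (π u) (hπA u)
      have h2 : (imp (srt r (j + 1)) B).rename (π u) = imp (X u) (B.rename (π u)) := rfl
      rw [h2, hπB u] at h1
      refine h1.le ?_
      have e1 := hsrt (j + 1) le_rfl
      simp only [size]
      omega
    -- the assignment
    let v : Bool → ℕ → Bool := fun u x =>
      if x = r j then u else decide (∃ e, e < j ∧ e < t ∧ r e = x)
    have hvj : ∀ u, v u (r j) = u := fun u => by simp [v]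
    have hve : ∀ u, ∀ e < j, v u (r e) = decide (e < t) := by
      intro u e he
      have h1 : r e ≠ r j := fun h => by
        have := hr (Set.mem_Iic.2 he.le) (Set.mem_Iic.2 le_rfl) h
        omega
      simp only [v, h1, if_false]
      rw [decide_eq_decide]
      constructor
      · rintro ⟨e', h2, h3, h4⟩
        have := hr (Set.mem_Iic.2 h2.le) (Set.mem_Iic.2 he.le) h4
        omega
      · intro h
        exact ⟨e, he, h, rfl⟩
    have hvl : ∀ u, ∀ e ≤ j, (r e, v u (r e)) ∈ ((r j, u) :: l' t : List (ℕ × Bool)) := by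
      intro u e he
      rcases Nat.lt_or_eq_of_le he with he | rfl
      · rw [hve u e he]
        exact List.mem_cons_of_mem _ (List.mem_map.2 ⟨e, List.mem_range.2 he, rfl⟩)
      · rw [hvj]
        exact List.mem_cons_self
    have hπr : ∀ u, ∀ e ≤ j, ∃ e' ≤ j, π u (r e) = r e' := by
      intro u e he
      cases u
      · exact ⟨e, he, by simp [π]⟩
      · simp only [π, if_true]
        by_cases h1 : r e = r t
        · exact ⟨j, le_rfl, by rw [h1, Equiv.swap_apply_left]⟩
        · by_cases h2 : r e = r j
          · exact ⟨t, ht, by rw [h2, Equiv.swap_apply_right]⟩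
          · exact ⟨e, he, Equiv.swap_apply_of_ne_of_ne h1 h2⟩
    have hbev : ∀ u, bev (v u) (X u) = true := by
      intro u
      rw [show X u = (srt r (j + 1)).rename (π u) from rfl, so1_bev_rename]
      cases u
      · refine so1_bev_srt (t := t) (by omega) ?_
        intro e he
        simp only [π, Bool.false_eq_true, if_false, Equiv.refl_apply]
        rcases Nat.lt_or_eq_of_le (Nat.lt_succ_iff.1 he) with he | rfl
        · exact hve _ e he
        · rw [hvj]
          simp [ht]
      · refine so1_bev_srt (t := t + 1) (by omega) ?_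
        intro e he
        simp only [π, if_true]
        by_cases h1 : e = t
        · subst h1
          rw [Equiv.swap_apply_left, hvj]
          simp
        · have h1' : r e ≠ r t := fun h => h1
            (hr (Set.mem_Iic.2 (Nat.lt_succ_iff.1 he)) (Set.mem_Iic.2 ht) h)
          by_cases h2 : e = j
          · subst h2
            rw [Equiv.swap_apply_right, hve _ t (by omega)]
            simp
            omega
          · have h2' : r e ≠ r j := fun h => h2
              (hr (Set.mem_Iic.2 (Nat.lt_succ_iff.1 he)) (Set.mem_Iic.2 le_rfl) h)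
            rw [Equiv.swap_apply_of_ne_of_ne h1' h2', hve _ e (by omega), decide_eq_decide]
            omega
    have g2 : ∀ u, Gen (PermProof F) Γ
        [imp (cubeL (r 0) ((r j, u) :: l' t)) (X u)] (N ^ c3) := by
      intro u
      have h4 := h3 Set.univ (PermProof F) hSys (r 0) ((r j, u) :: l' t) (v u) (X u) N hN
        (hcube _ (by simp only [List.length_cons, hl']; omega)) (hX u) (ok_univ _) (ok_univ _)
        (by
          intro x hx
          rw [show X u = (srt r (j + 1)).rename (π u) from rfl, vars_rename,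
            Finset.mem_image] at hx
          obtain ⟨y, hy, rfl⟩ := hx
          obtain ⟨e, he, rfl⟩ := so1_vars.1 hy
          obtain ⟨e', he', h5⟩ := hπr u e he
          rw [h5]
          exact hvl u e' he') Γ
      rw [hbev u] at h4
      exact h4
    have g3 := ((g2 true).append (g1 true)).append ((g2 false).append (g1 false))
    have g4 := hs1 Set.univ (PermProof F) hSys
      [var (r j), cubeL (r 0) (l' t), X true, B, X false, E] N (by omega) (by
        intro Y hY
        simp only [List.mem_cons, List.not_mem_nil, or_false] at hY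
        rcases hY with rfl | rfl | rfl | rfl | rfl | rfl
        · simp only [size]; omega
        · exact hcube _ (by rw [hl']; omega)
        · exact hX true
        · have := hsrt 0 (by omega); omega
        · exact hX false
        · exact hE) (fun Y _ => ok_univ Y)
      (Γ ∪ {Y | Y ∈ [imp (cubeL (r 0) ((r j, true) :: l' t)) (X true)] ++ [imp (X true) B] ++
        ([imp (cubeL (r 0) ((r j, false) :: l' t)) (X false)] ++ [imp (X false) B])}) (by
        intro Y hY
        simp only [List.mem_cons, List.not_mem_nil, or_false] at hY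
        rcases hY with rfl | rfl | rfl | rfl <;> right <;>
          simp [subst, asg, cubeL, conjL, sg])
    have g5 := (g3.cut g4).le (m' := M ^ (3 + (14 + 7 * c3 + s1))) (by
      have e1 : N ≤ M ^ (14 + 7 * c3 + s1) := pow_mono hM (by omega)
      have e2 : N ^ c3 ≤ M ^ (14 + 7 * c3 + s1) := by
        rw [hNdef, ← pow_mul]
        exact pow_mono hM (by omega)
      have e3 : s1 * N ≤ M ^ (14 + 7 * c3 + s1) :=
        (mul_pow (le_pow_self hM s1) (le_refl (M ^ 7))).trans (pow_mono hM (by omega))
      have e4 : 2 ^ 3 ≤ M ^ 3 := Nat.pow_le_pow_left hM 3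
      rw [pow_add]
      nlinarith [Nat.zero_le (M ^ (14 + 7 * c3 + s1))])
    simpa [subst, asg] using g5
  have g6 := Gen.many (P := PermProof F) (Γ := Γ)
    (fun t => imp E (imp (cubeL (r 0) (l' t)) B)) _ (List.range (j + 1)) hcase
  rw [List.length_range] at g6
  have hdisj : srt r j = disjL (r 0) ((List.range (j + 1)).map fun t => cubeL (r 0) (l' t)) :=
    rfl
  have g7 := h2 Set.univ (PermProof F) hSys (r 0) E B
    ((List.range (j + 1)).map fun t => cubeL (r 0) (l' t)) N hN hE
    (by have := hsrt 0 (by omega); omega)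
    (by rw [← hdisj]; have := hsrt j (by omega); omega) (ok_univ _) (ok_univ _) (ok_univ _)
    (Γ ∪ {Y | Y ∈ (List.range (j + 1)).map fun t => imp E (imp (cubeL (r 0) (l' t)) B)}) (by
      intro D hD
      obtain ⟨t, ht, rfl⟩ := List.mem_map.1 hD
      exact Or.inr (List.mem_map.2 ⟨t, ht, rfl⟩))
  rw [← hdisj] at g7
  have g8 := hs2 Set.univ (PermProof F) hSys [var 0, srt r j, B] N (by omega) (by
      intro Y hY
      simp only [List.mem_cons, List.not_mem_nil, or_false] at hY
      rcases hY with rfl | rfl | rfl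
      · simp only [size]; omega
      · have := hsrt j (by omega); omega
      · have := hsrt 0 (by omega); omega) (fun Y _ => ok_univ Y)
    (Γ ∪ {Y | Y ∈ (List.range (j + 1)).map fun t => imp E (imp (cubeL (r 0) (l' t)) B)} ∪
      {Y | Y ∈ [imp E (imp (srt r j) B)]}) (by
      intro Y hY
      simp only [List.mem_singleton] at hY
      subst hY
      right
      simp [subst, asg, E])
  have g9 := g6.cut (g7.cut g8)
  have g10 := g9.le (m' := M ^ ((2 + (3 + (14 + 7 * c3 + s1))) + ((7 * c2) + (7 + s2) + 1) + 1))
    (add_pow hM (mul_pow (by nlinarith) le_rfl) (add_pow hM (by rw [hNdef, ← pow_mul])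
      (by rw [mul_comm]; exact mul_pow le_rfl (le_pow_self hM s2))))
  simpa [subst, asg] using g10

end Pool.Agent.H543R3.PP
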