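import Pool.Agent.H543R3.PP.Defs

/-!
# Project PP, task SOA: sorting in all gadgets
-/

set_option autoImplicit false

namespace Pool.Agent.H543R3.PP

open Pool.Agent.H555R2.PF Pool.Agent.H555R2.PF.Fm

theorem soa_srt_vars {r : ℕ → ℕ} {m x : ℕ} (hm : 1 ≤ m) (hx : x ∈ (srt r m).vars) :
    ∃ e, e < m ∧ x = r e := by
  unfold srt at hx
  rcases disjL_vars hx with h | ⟨D, hD, h⟩
  · exact ⟨0, hm, h⟩
  · obtain ⟨t, _, rfl⟩ := List.mem_map.1 hD
    unfold cubeL at h
    rcases conjL_vars h with h | ⟨D', hD', h⟩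
    · exact ⟨0, hm, h⟩
    · obtain ⟨p, hp, rfl⟩ := List.mem_map.1 hD'
      obtain ⟨e, he, rfl⟩ := List.mem_map.1 hp
      refine ⟨e, List.mem_range.1 he, ?_⟩
      unfold sg at h
      split_ifs at h <;> simpa [vars] using h

theorem soa_impL_vars {Ds : List Fm} {A : Fm} {x : ℕ} (hx : x ∈ (impL Ds A).vars) :
    (∃ D ∈ Ds, x ∈ D.vars) ∨ x ∈ A.vars := by
  induction Ds with
  | nil => exact Or.inr hx
  | cons D Ds ih =>
    have h : x ∈ D.vars ∨ x ∈ (impL Ds A).vars := Finset.mem_union.1 hx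
    rcases h with h | h
    · exact Or.inl ⟨D, by simp, h⟩
    · rcases ih h with ⟨D', hD', h'⟩ | h'
      · exact Or.inl ⟨D', by simp [hD'], h'⟩
      · exact Or.inr h'

theorem soa_impL_size (Ds : List Fm) (A : Fm) :
    (impL Ds A).size = psize Ds + Ds.length + A.size := by
  induction Ds with
  | nil => simp [impL, psize]
  | cons D Ds ih =>
    have h : (impL (D :: Ds) A).size = D.size + (impL Ds A).size + 1 := rfl
    rw [h, ih, psize_cons, List.length_cons]
    omega

theorem soa_psize_le {K : ℕ} (f : ℕ → Fm) (l : List ℕ) (h : ∀ i ∈ l, (f i).size ≤ K) :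
    psize (l.map f) ≤ l.length * K := by
  induction l with
  | nil => simp [psize]
  | cons i l ih =>
    rw [List.map_cons, psize_cons, List.length_cons]
    have h1 := h i (by simp)
    have h2 := ih fun j hj => h j (by simp [hj])
    nlinarith

theorem soa_loop {F : List Rule} {c : ℕ}
    (hc : ∀ (r : ℕ → ℕ) (m : ℕ) (B : Fm) (M : ℕ), 2 ≤ M →
      m ≤ M → B.size ≤ M → Set.InjOn r (Set.Iio m) → (∀ e < m, r e ∉ B.vars) →
      ∀ Γ : Set Fm, imp (srt r m) B ∈ Γ → Gen (PermProof F) Γ [B] (M ^ c))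
    (g1 : S_GV) (n b : ℕ) (B : Fm) (hB : ∀ x ∈ B.vars, x < 2 * n) (M : ℕ) (hM : 2 ≤ M)
    (hm : 2 * HH b ≤ M) : ∀ l : List ℕ, l.Nodup → (∀ i ∈ l, i < n) →
      (impL (l.map fun i => srt (rr n b i) (2 * HH b)) B).size ≤ M → ∀ Γ : Set Fm,
      impL (l.map fun i => srt (rr n b i) (2 * HH b)) B ∈ Γ →
      Gen (PermProof F) Γ [B] (l.length * M ^ c) := by
  have hH : 1 ≤ 2 * HH b := by
    have : 0 < HH b := Nat.pow_pos (by norm_num)
    omega
  intro l
  induction l with
  | nil =>
    intro _ _ _ Γ hΓ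
    have h : B ∈ Γ := hΓ
    exact (Gen.hyp h).le (Nat.zero_le _)
  | cons i l ih =>
    intro hnd hl hs Γ hΓ
    have hi : i < n := hl i (by simp)
    have hil : i ∉ l := (List.nodup_cons.1 hnd).1
    have hnd' : l.Nodup := (List.nodup_cons.1 hnd).2
    have hl' : ∀ j ∈ l, j < n := fun j hj => hl j (by simp [hj])
    have hs' : (impL (l.map fun i => srt (rr n b i) (2 * HH b)) B).size ≤ M := by
      refine le_trans ?_ hs
      have h : (impL ((i :: l).map fun i => srt (rr n b i) (2 * HH b)) B).size =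
        (srt (rr n b i) (2 * HH b)).size +
          (impL (l.map fun i => srt (rr n b i) (2 * HH b)) B).size + 1 := rfl
      omega
    have hΓ' : imp (srt (rr n b i) (2 * HH b))
        (impL (l.map fun i => srt (rr n b i) (2 * HH b)) B) ∈ Γ := hΓ
    have hinj : Set.InjOn (rr n b i) (Set.Iio (2 * HH b)) := by
      intro e he e' he' hee
      have he1 : e < 2 * HH b := he
      have he2 : e' < 2 * HH b := he'
      have h := g1.1 n b i i (e + 2) (e' + 2) hi hi (by unfold GG; omega) (by unfold GG; omega)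
        hee
      omega
    have hnot : ∀ e < 2 * HH b,
        rr n b i e ∉ (impL (l.map fun i => srt (rr n b i) (2 * HH b)) B).vars := by
      intro e he hmem
      rcases soa_impL_vars hmem with ⟨D, hD, h⟩ | h
      · obtain ⟨j, hj, rfl⟩ := List.mem_map.1 hD
        obtain ⟨e', he', h'⟩ := soa_srt_vars hH h
        have h2 := g1.1 n b i j (e + 2) (e' + 2) hi (hl' j hj) (by unfold GG; omega)
          (by unfold GG; omega) h'
        rw [h2.1] at hil
        exact hil hj
      · have h2 := hB _ h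
        have h3 : rr n b i e = 2 * n + i * (2 * HH b) + (e + 2 - 2) := by
          unfold rr gv
          rw [if_neg (by omega), if_neg (by omega)]
        rw [h3] at h2
        have h4 : 0 ≤ i * (2 * HH b) := Nat.zero_le _
        omega
    have hg1 := hc (rr n b i) (2 * HH b) (impL (l.map fun i => srt (rr n b i) (2 * HH b)) B) M hM
      hm hs' hinj hnot Γ hΓ'
    have hg2 := ih hnd' hl' hs'
      (Γ ∪ {X | X ∈ [impL (l.map fun i => srt (rr n b i) (2 * HH b)) B]})
      (Or.inr (by simp))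
    refine (hg1.cut hg2).le ?_
    rw [List.length_cons]
    nlinarith

theorem t_SOA {F : List Rule} (hF : IsFrege F) (h1 : S_SO F) (g1 : S_GV) (g6 : S_SIZ) :
    S_SOA F := by
  obtain ⟨c1, hc1⟩ := h1
  obtain ⟨c2, hc2⟩ := g6
  refine ⟨(c2 + 3) * c1 + 1, fun n b B M hM hn hb hBs hB Γ hΓ => ?_⟩
  have hM1 : 1 ≤ M := by omega
  obtain ⟨-, -, -, -, -, -, hsrt⟩ := hc2 n b M hM hn hb
  have hM' : 2 ≤ M ^ (c2 + 3) := by
    calc 2 ≤ M := hM
      _ = M ^ 1 := (pow_one M).symm
      _ ≤ M ^ (c2 + 3) := Nat.pow_le_pow_right hM1 (by omega)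
  have hm' : 2 * HH b ≤ M ^ (c2 + 3) := by
    have h2 : 2 * HH b = 2 * 2 * 2 ^ b := by
      unfold HH
      rw [pow_succ]
      ring
    have h3 : 2 * 2 * 2 ^ b ≤ M * M * M := Nat.mul_le_mul (Nat.mul_le_mul hM hM) hb
    have h4 : M * M * M = M ^ 3 := by ring
    rw [h2]
    refine le_trans h3 ?_
    rw [h4]
    exact Nat.pow_le_pow_right hM1 (by omega)
  have hsize : (impL ((List.range n).map fun i => srt (rr n b i) (2 * HH b)) B).size ≤
      M ^ (c2 + 3) := by
    rw [soa_impL_size, List.length_map, List.length_range]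
    have h2 := soa_psize_le (fun i => srt (rr n b i) (2 * HH b)) (List.range n)
      (fun i _ => hsrt (rr n b i) (2 * HH b) le_rfl)
    rw [List.length_range] at h2
    have h3 : n * M ^ c2 ≤ M * M ^ c2 := Nat.mul_le_mul_right _ hn
    have h4 : M * M ^ c2 = M ^ (c2 + 1) := by rw [pow_succ]; ring
    have h5 : M ^ (c2 + 1) ≤ M ^ (c2 + 2) := Nat.pow_le_pow_right hM1 (by omega)
    have h6 : M ^ 2 ≤ M ^ (c2 + 2) := Nat.pow_le_pow_right hM1 (by omega)
    have h7 : M ^ (c2 + 3) = M ^ (c2 + 2) * M := pow_succ _ _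
    have h8 : M ^ (c2 + 2) * 2 ≤ M ^ (c2 + 2) * M := Nat.mul_le_mul_left _ hM
    have h9 : n + B.size ≤ M ^ 2 := by
      rw [pow_two]
      nlinarith
    omega
  have key := soa_loop hc1 g1 n b B hB (M ^ (c2 + 3)) hM' hm' (List.range n) List.nodup_range
    (fun i hi => List.mem_range.1 hi) hsize Γ hΓ
  refine key.le ?_
  rw [List.length_range, ← pow_mul, pow_succ, mul_comm]
  exact Nat.mul_le_mul_left _ hn

end Pool.Agent.H543R3.PP
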