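import Pool.Agent.H543R3.PP.Defs

/-!
# Project PP, task SUB1: substitution from a flip
-/

set_option autoImplicit false

namespace Pool.Agent.H543R3.PP

open Pool.Agent.H555R2.PF Pool.Agent.H555R2.PF.Fm

theorem SUB1_size_le (σ : ℕ → Fm) (A : Fm) : A.size ≤ (A.subst σ).size := by
  induction A with
  | var n => exact size_pos _
  | neg A ih => simp only [subst, size]; omega
  | and A B iA iB => simp only [subst, size]; omega
  | or A B iA iB => simp only [subst, size]; omega
  | imp A B iA iB => simp only [subst, size]; omega

theorem SUB1_size_neg (σ : ℕ → Fm) (β : ℕ) (A : Fm) :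
    (A.subst (Function.update σ β (neg (σ β)))).size ≤ 2 * (A.subst σ).size := by
  induction A with
  | var n =>
    simp only [subst]
    by_cases h : n = β
    · subst h
      rw [Function.update_self]
      have := size_pos (σ n)
      simp only [size]
      omega
    · rw [Function.update_of_ne h]
      omega
  | neg A ih => simp only [subst, size]; omega
  | and A B iA iB => simp only [subst, size]; omega
  | or A B iA iB => simp only [subst, size]; omega
  | imp A B iA iB => simp only [subst, size]; omega

theorem SUB1_repl {F : List Rule} (hF : IsFrege F) (h1 : S_REPL F) : ∃ c : ℕ,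
    ∀ (S : Set ℕ) (P : List Fm → Prop), Sys F S P →
    ∀ (W X Y : Fm) (σ : ℕ → Fm) (β : ℕ) (M : ℕ), 2 ≤ M → X.size ≤ M → Y.size ≤ M →
    (W.subst (Function.update σ β X)).size ≤ M → (W.subst (Function.update σ β Y)).size ≤ M →
    Ok S X → Ok S Y → (∀ x ∈ W.vars, Ok S (σ x)) → ∀ Γ : Set Fm,
    Gen P Γ [imp (iff X Y) (iff (W.subst (Function.update σ β X))
      (W.subst (Function.update σ β Y)))] (M ^ c) := by
  obtain ⟨c1, hc1⟩ := h1
  obtain ⟨ca, hca⟩ := gschemaL hF [] (imp (iff (var 0) (var 1)) (iff (var 0) (var 1))) (by
    intro v _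
    simp only [eval]
    exact id)
  obtain ⟨cb, hcb⟩ := gschemaL hF [] (imp (iff (var 0) (var 1)) (iff (var 2) (var 2))) (by
    intro v _
    simp only [eval, iff]
    tauto)
  refine ⟨(1 + ((ca + cb) + 1)) + 5 * c1 + 1, ?_⟩
  intro S P hP W X Y σ β M hM hX hY hWX hWY okX okY okσ Γ
  have hx : ∀ x ∈ W.vars.toList, Gen P Γ [imp (iff X Y) (iff (Function.update σ β X x)
      (Function.update σ β Y x))] ((ca + cb) * M) := by
    intro x hx
    rw [Finset.mem_toList] at hx
    by_cases h : x = β
    · subst h
      rw [Function.update_self, Function.update_self]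
      have h2 := hca S P hP [X, Y] M (by omega) (by
        intro Z hZ
        simp only [List.mem_cons, List.not_mem_nil, or_false] at hZ
        rcases hZ with rfl | rfl
        · exact hX
        · exact hY) (by
        intro Z hZ
        simp only [List.mem_cons, List.not_mem_nil, or_false] at hZ
        rcases hZ with rfl | rfl
        · exact okX
        · exact okY) Γ (by simp)
      have h3 : (imp (iff (var 0) (var 1)) (iff (var 0) (var 1))).subst (asg [X, Y]) =
          imp (iff X Y) (iff X Y) := rfl
      rw [h3] at h2
      exact h2.le (Nat.mul_le_mul_right _ (by omega))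
    · rw [Function.update_of_ne h, Function.update_of_ne h]
      have hs : (σ x).size ≤ M := by
        have h4 := size_le_subst (σ := Function.update σ β X) hx
        rw [Function.update_of_ne h] at h4
        exact h4.trans hWX
      have h2 := hcb S P hP [X, Y, σ x] M (by omega) (by
        intro Z hZ
        simp only [List.mem_cons, List.not_mem_nil, or_false] at hZ
        rcases hZ with rfl | rfl | rfl
        · exact hX
        · exact hY
        · exact hs) (by
        intro Z hZ
        simp only [List.mem_cons, List.not_mem_nil, or_false] at hZ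
        rcases hZ with rfl | rfl | rfl
        · exact okX
        · exact okY
        · exact okσ x hx) Γ (by simp)
      have h3 : (imp (iff (var 0) (var 1)) (iff (var 2) (var 2))).subst (asg [X, Y, σ x]) =
          imp (iff X Y) (iff (σ x) (σ x)) := rfl
      rw [h3] at h2
      exact h2.le (Nat.mul_le_mul_right _ (by omega))
  have hmany := Gen.many (fun x => imp (iff X Y) (iff (Function.update σ β X x)
      (Function.update σ β Y x))) _ W.vars.toList hx
  have hM5 : M ≤ M ^ 5 := Nat.le_self_pow (by norm_num) _
  have hU : (iff X Y).size ≤ M ^ 5 := by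
    simp only [iff, size]
    have h2 : 32 * (M - 1) ≤ M ^ 5 := by
      obtain ⟨k, rfl⟩ := Nat.exists_eq_add_of_le hM
      have e : 2 + k - 1 = k + 1 := by omega
      rw [e]
      have : (2 + k) ^ 5 = k ^ 5 + 10 * k ^ 4 + 40 * k ^ 3 + 80 * k ^ 2 + 80 * k + 32 := by ring
      rw [this]
      have h3 : 0 ≤ k ^ 5 + 10 * k ^ 4 + 40 * k ^ 3 + 80 * k ^ 2 := Nat.zero_le _
      omega
    omega
  have hok : ∀ Z : Fm, Ok S Z → ∀ x ∈ W.vars, Ok S (Function.update σ β Z x) := by
    intro Z hZ x hx
    by_cases h : x = β
    · subst h
      rw [Function.update_self]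
      exact hZ
    · rw [Function.update_of_ne h]
      exact okσ x hx
  have okU : Ok S (iff X Y) := by
    intro n hn
    simp only [iff, vars, Finset.mem_union] at hn
    rcases hn with (hn | hn) | (hn | hn)
    exacts [okX n hn, okY n hn, okY n hn, okX n hn]
  have hrepl := hc1 S P hP (iff X Y) W (Function.update σ β X) (Function.update σ β Y) (M ^ 5)
    (hM.trans hM5) hU (hWX.trans hM5) (hWY.trans hM5) okU (hok X okX) (hok Y okY)
    (Γ ∪ {B | B ∈ W.vars.toList.map (fun x => imp (iff X Y) (iff (Function.update σ β X x)
      (Function.update σ β Y x)))}) (by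
      intro x hx
      right
      exact List.mem_map.2 ⟨x, Finset.mem_toList.2 hx, rfl⟩)
  refine (hmany.cut hrepl).le ?_
  refine add_pow hM (mul_pow ?_ (mul_pow ?_ ?_)) ?_
  · rw [Finset.length_toList, pow_one]
    exact (vars_card_le W).trans ((SUB1_size_le _ W).trans hWX)
  · exact le_pow_self hM _
  · rw [pow_one]
  · rw [← pow_mul]

theorem t_SUB1 {F : List Rule} (hF : IsFrege F) (h1 : S_REPL F) : S_SUB1 F := by
  obtain ⟨c1, hc1⟩ := SUB1_repl hF h1
  obtain ⟨c2, hc2⟩ := gschemaL hF [imp (var 0) (var 3), imp (var 0) (var 4),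
    imp (iff (var 1) (var 2)) (iff (var 5) (var 3)),
    imp (iff (var 1) (neg (var 2))) (iff (var 5) (var 4))] (imp (var 0) (var 5)) (by
    intro v h
    simp only [List.mem_cons, List.not_mem_nil, or_false, forall_eq_or_imp, forall_eq, eval,
      iff] at h ⊢
    tauto)
  refine ⟨(2 * c1 + 2 * c1 + 1) + (c2 + 2) + 1, ?_⟩
  intro S P hP E W X σ β M hM hE hX hs hW0 hWX okE okX oks okσ Γ hΓ1 hΓ2
  have hM2 : M ≤ M ^ 2 := Nat.le_self_pow (by norm_num) _
  have h2M : 2 * M ≤ M ^ 2 := by
    rw [pow_two]
    exact Nat.mul_le_mul_right _ hM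
  have okW : ∀ τ : ℕ → Fm, (∀ x ∈ W.vars, Ok S (τ x)) → Ok S (W.subst τ) := by
    intro τ
    clear hW0 hWX okσ hΓ1 hΓ2
    induction W with
    | var n => intro h; exact h n (by simp [vars])
    | neg A ih => intro h; exact ih h
    | and A B iA iB =>
      intro h n hn
      simp only [subst, vars, Finset.mem_union] at hn
      rcases hn with hn | hn
      · exact iA (fun x hx => h x (by simp [vars, hx])) n hn
      · exact iB (fun x hx => h x (by simp [vars, hx])) n hn
    | or A B iA iB =>
      intro h n hn
      simp only [subst, vars, Finset.mem_union] at hn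
      rcases hn with hn | hn
      · exact iA (fun x hx => h x (by simp [vars, hx])) n hn
      · exact iB (fun x hx => h x (by simp [vars, hx])) n hn
    | imp A B iA iB =>
      intro h n hn
      simp only [subst, vars, Finset.mem_union] at hn
      rcases hn with hn | hn
      · exact iA (fun x hx => h x (by simp [vars, hx])) n hn
      · exact iB (fun x hx => h x (by simp [vars, hx])) n hn
  have hok : ∀ Z : Fm, Ok S Z → ∀ x ∈ W.vars, Ok S (Function.update σ β Z x) := by
    intro Z hZ x hx
    by_cases h : x = β
    · subst h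
      rw [Function.update_self]
      exact hZ
    · rw [Function.update_of_ne h]
      exact okσ x hx
  have okn : Ok S (neg (σ β)) := oks
  have hWn : (W.subst (Function.update σ β (neg (σ β)))).size ≤ M ^ 2 :=
    (SUB1_size_neg σ β W).trans ((Nat.mul_le_mul_left 2 hW0).trans h2M)
  have hns : (neg (σ β)).size ≤ M ^ 2 := by
    simp only [size]
    omega
  have g1 := hc1 S P hP W X (σ β) σ β (M ^ 2) (hM.trans hM2) (hX.trans hM2) (hs.trans hM2)
    (hWX.trans hM2) (by rw [Function.update_eq_self]; exact hW0.trans hM2) okX oks okσ Γ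
  rw [Function.update_eq_self] at g1
  have g2 := hc1 S P hP W X (neg (σ β)) σ β (M ^ 2) (hM.trans hM2) (hX.trans hM2) hns
    (hWX.trans hM2) hWn okX okn okσ Γ
  have g3 := hc2 S P hP [E, X, σ β, W.subst σ, W.subst (Function.update σ β (neg (σ β))),
    W.subst (Function.update σ β X)] (M ^ 2) (by omega) (by
      intro Z hZ
      simp only [List.mem_cons, List.not_mem_nil, or_false] at hZ
      rcases hZ with rfl | rfl | rfl | rfl | rfl | rfl
      · exact hE.trans hM2
      · exact hX.trans hM2
      · exact hs.trans hM2
      · exact hW0.trans hM2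
      · exact hWn
      · exact hWX.trans hM2) (by
      intro Z hZ
      simp only [List.mem_cons, List.not_mem_nil, or_false] at hZ
      rcases hZ with rfl | rfl | rfl | rfl | rfl | rfl
      · exact okE
      · exact okX
      · exact oks
      · exact okW _ okσ
      · exact okW _ (hok _ okn)
      · exact okW _ (hok _ okX))
    (Γ ∪ {B | B ∈ [imp (iff X (σ β)) (iff (W.subst (Function.update σ β X)) (W.subst σ))] ++
      [imp (iff X (neg (σ β))) (iff (W.subst (Function.update σ β X))
        (W.subst (Function.update σ β (neg (σ β)))))]}) (by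
      intro A hA
      simp only [List.mem_cons, List.not_mem_nil, or_false] at hA
      rcases hA with rfl | rfl | rfl | rfl
      · exact Or.inl hΓ1
      · exact Or.inl hΓ2
      · exact Or.inr (List.mem_append_left _ (List.mem_singleton.2 rfl))
      · exact Or.inr (List.mem_append_right _ (List.mem_singleton.2 rfl)))
  have h3 : (imp (var 0) (var 5)).subst (asg [E, X, σ β, W.subst σ,
      W.subst (Function.update σ β (neg (σ β))), W.subst (Function.update σ β X)]) =
      imp E (W.subst (Function.update σ β X)) := rfl
  rw [h3] at g3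
  refine ((g1.append g2).cut g3).le ?_
  refine add_pow hM (add_pow hM ?_ ?_) (mul_pow (le_pow_self hM _) le_rfl)
  · rw [← pow_mul]
  · rw [← pow_mul]

end Pool.Agent.H543R3.PP
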