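import Pool.Agent.H543R3.PP.Defs

/-!
# Project PP: the last substitution
-/

set_option autoImplicit false

namespace Pool.Agent.H543R3.PP

open Pool.Agent.H555R2.PF Pool.Agent.H555R2.PF.Fm

namespace T2Fx

/-- choice of the literal -/
def pick (a b : Bool) (x : Fm) : Fm :=
  if a = true then (if b = true then imp x x else x)
  else (if b = true then neg x else neg (imp x x))

/-- the substitution -/
def rho (n l : ℕ) (f : ℕ → ℕ) (m : ℕ) : Fm :=
  pick ((f (m / l)).testBit (m % l)) ((f (n + m / l)).testBit (m % l)) (var (m / l))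

/-- the literals -/
def XX (n v : ℕ) : Fm := if v < n then var v else neg (var (v - n))

theorem pick_vars (a b : Bool) (i : ℕ) : (pick a b (var i)).vars = {i} := by
  cases a <;> cases b <;> simp [pick, vars]

theorem pick_size (a b : Bool) (i : ℕ) : (pick a b (var i)).size ≤ 4 := by
  cases a <;> cases b <;> simp [pick, size]

theorem bev_pick (w : ℕ → Bool) (a b : Bool) (i : ℕ) :
    bev w (pick a b (var i)) = if w i = true then a else b := by
  cases a <;> cases b <;> cases h : w i <;> simp [pick, bev, h]

theorem bev_subst (w : ℕ → Bool) (σ : ℕ → Fm) (A : Fm) :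
    bev w (A.subst σ) = bev (fun x => bev w (σ x)) A := by
  induction A with
  | var n => rfl
  | neg A ih => simp only [subst, bev, ih]
  | and A B iA iB => simp only [subst, bev, iA, iB]
  | or A B iA iB => simp only [subst, bev, iA, iB]
  | imp A B iA iB => simp only [subst, bev, iA, iB]

theorem bev_conjL (w : ℕ → Bool) (z : ℕ) (Ds : List Fm) :
    bev w (conjL z Ds) = true ↔ ∀ D ∈ Ds, bev w D = true := by
  induction Ds with
  | nil => simp [conjL, bev]
  | cons D Ds ih => simp [conjL, bev, ih]

theorem bev_sg (w : ℕ → Bool) (b : Bool) (A : Fm) : bev w (sg b A) = true ↔ bev w A = b := by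
  cases b <;> simp [sg, bev]

theorem vars_subst {σ : ℕ → Fm} {A : Fm} {x : ℕ} (h : x ∈ (A.subst σ).vars) :
    ∃ y ∈ A.vars, x ∈ (σ y).vars := by
  induction A with
  | var n => exact ⟨n, by simp [vars], h⟩
  | neg A ih => exact ih h
  | and A B iA iB =>
    simp only [subst, vars, Finset.mem_union] at h ⊢
    rcases h with h | h
    · obtain ⟨y, hy, hx⟩ := iA h; exact ⟨y, Or.inl hy, hx⟩
    · obtain ⟨y, hy, hx⟩ := iB h; exact ⟨y, Or.inr hy, hx⟩
  | or A B iA iB =>
    simp only [subst, vars, Finset.mem_union] at h ⊢
    rcases h with h | h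
    · obtain ⟨y, hy, hx⟩ := iA h; exact ⟨y, Or.inl hy, hx⟩
    · obtain ⟨y, hy, hx⟩ := iB h; exact ⟨y, Or.inr hy, hx⟩
  | imp A B iA iB =>
    simp only [subst, vars, Finset.mem_union] at h ⊢
    rcases h with h | h
    · obtain ⟨y, hy, hx⟩ := iA h; exact ⟨y, Or.inl hy, hx⟩
    · obtain ⟨y, hy, hx⟩ := iB h; exact ⟨y, Or.inr hy, hx⟩

theorem ceq_vars {l i v x : ℕ} (hl : 1 ≤ l) (h : x ∈ (ceq l i v).vars) : x / l = i := by
  unfold ceq cubeL at h
  rcases conjL_vars h with h | ⟨D, hD, h⟩
  · rw [h, Nat.mul_div_cancel _ (by omega)]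
  · obtain ⟨p, hp, rfl⟩ := List.mem_map.1 hD
    obtain ⟨j, hj, rfl⟩ := List.mem_map.1 hp
    have hj' := List.mem_range.1 hj
    have hx : x = i * l + j := by
      unfold sg at h
      split_ifs at h <;> simpa [vars] using h
    rw [hx, mul_comm, Nat.mul_add_div (by omega), Nat.div_eq_of_lt hj', add_zero]

theorem occ_vars {n l v x : ℕ} (hl : 1 ≤ l) (hn : 1 ≤ n) (h : x ∈ (occ n l v).vars) :
    x / l < n := by
  unfold occ at h
  rcases disjL_vars h with h | ⟨D, hD, h⟩
  · rw [h, Nat.zero_div]; omega
  · obtain ⟨i, hi, rfl⟩ := List.mem_map.1 hD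
    rw [ceq_vars hl h]
    exact List.mem_range.1 hi

theorem rho_vars (n l : ℕ) (f : ℕ → ℕ) (m : ℕ) : (rho n l f m).vars = {m / l} := pick_vars _ _ _

theorem rho_size (n l : ℕ) (f : ℕ → ℕ) (m : ℕ) : (rho n l f m).size ≤ 4 := pick_size _ _ _

theorem psize_map_le {ι : Type} (f : ι → Fm) (B : ℕ) (l : List ι) (h : ∀ i ∈ l, (f i).size ≤ B) :
    psize (l.map f) ≤ l.length * B := by
  induction l with
  | nil => simp [psize]
  | cons i l ih =>
    rw [List.map_cons, psize_cons, List.length_cons]
    have h1 := h i (by simp)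
    have h2 := ih fun j hj => h j (by simp [hj])
    nlinarith

theorem ceq_size (l i v : ℕ) : (ceq l i v).size ≤ 3 * l + 3 := by
  unfold ceq cubeL
  rw [conjL_size, List.map_map]
  have h := psize_map_le ((fun p : ℕ × Bool => sg p.2 (var p.1)) ∘
    (fun j => (i * l + j, v.testBit j))) 2 (List.range l) (by
      intro j _
      exact (sg_size _ _).trans (by simp [size]))
  rw [List.length_range] at h
  simp only [List.length_map, List.length_range]
  omega

theorem occ_size (n l v : ℕ) : (occ n l v).size ≤ n * (3 * l + 3) + n + 4 := by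
  unfold occ
  rw [disjL_size]
  have h := psize_map_le (fun i => ceq l i v) (3 * l + 3) (List.range n)
    (fun i _ => ceq_size l i v)
  rw [List.length_range] at h
  simp only [List.length_map, List.length_range]
  omega

theorem bev_G {n l : ℕ} {f : ℕ → ℕ} (h1 : ∀ x < 2 * n, f x < 2 ^ l)
    (h2 : Set.InjOn f (Set.Iio (2 * n))) {i v : ℕ} (hi : i < n) (hv : v < 2 * n)
    (w : ℕ → Bool) :
    bev w ((ceq l i (f v)).subst (rho n l f)) = true ↔ v = if w i = true then i else n + i := by
  have h3 : bev w ((ceq l i (f v)).subst (rho n l f)) = true ↔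
      ∀ j < l, (f (if w i = true then i else n + i)).testBit j = (f v).testBit j := by
    rw [bev_subst]
    unfold ceq cubeL
    rw [bev_conjL]
    constructor
    · intro h j hj
      have h4 := h (sg ((f v).testBit j) (var (i * l + j))) (List.mem_map.2
        ⟨(i * l + j, (f v).testBit j), List.mem_map.2 ⟨j, List.mem_range.2 hj, rfl⟩, rfl⟩)
      rw [bev_sg] at h4
      simp only [bev, rho, bev_pick] at h4
      rw [show (i * l + j) / l = i by
          rw [mul_comm, Nat.mul_add_div (by omega), Nat.div_eq_of_lt hj, add_zero],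
        show (i * l + j) % l = j by rw [mul_comm, Nat.mul_add_mod, Nat.mod_eq_of_lt hj]] at h4
      rw [← h4]
      split_ifs <;> rfl
    · intro h D hD
      obtain ⟨p, hp, rfl⟩ := List.mem_map.1 hD
      obtain ⟨j, hj, rfl⟩ := List.mem_map.1 hp
      have hj' := List.mem_range.1 hj
      rw [bev_sg]
      simp only [bev, rho, bev_pick]
      rw [show (i * l + j) / l = i by
          rw [mul_comm, Nat.mul_add_div (by omega), Nat.div_eq_of_lt hj', add_zero],
        show (i * l + j) % l = j by rw [mul_comm, Nat.mul_add_mod, Nat.mod_eq_of_lt hj']]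
      rw [← h j hj']
      split_ifs <;> rfl
  rw [h3]
  set u := (if w i = true then i else n + i) with hu
  have hu2 : u < 2 * n := by rw [hu]; split_ifs <;> omega
  constructor
  · intro h
    apply (h2 (show u ∈ Set.Iio (2 * n) from hu2) (show v ∈ Set.Iio (2 * n) from hv) _).symm
    apply Nat.eq_of_testBit_eq
    intro j
    rcases lt_or_ge j l with hj | hj
    · exact h j hj
    · rw [Nat.testBit_lt_two_pow ((h1 u hu2).trans_le (Nat.pow_le_pow_right (by norm_num) hj)),
        Nat.testBit_lt_two_pow ((h1 v hv).trans_le (Nat.pow_le_pow_right (by norm_num) hj))]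
  · intro h j _
    rw [h]

theorem impL_subst (Ds : List Fm) (A : Fm) (τ : ℕ → Fm) :
    (impL Ds A).subst τ = impL (Ds.map (Fm.subst τ)) (A.subst τ) := by
  induction Ds with
  | nil => rfl
  | cons D Ds ih =>
    change imp (D.subst τ) ((impL Ds A).subst τ) = imp (D.subst τ) (impL (Ds.map _) (A.subst τ))
    rw [ih]

theorem impL_size (Ds : List Fm) (A : Fm) : (impL Ds A).size = psize Ds + Ds.length + A.size := by
  induction Ds with
  | nil => simp [impL, psize]
  | cons D Ds ih =>
    change D.size + (impL Ds A).size + 1 = _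
    rw [ih, psize_cons, List.length_cons]
    omega

theorem impL_vars {Ds : List Fm} {A : Fm} {x : ℕ} (h : x ∈ (impL Ds A).vars) :
    x ∈ A.vars ∨ ∃ D ∈ Ds, x ∈ D.vars := by
  induction Ds with
  | nil => exact Or.inl h
  | cons D Ds ih =>
    change x ∈ D.vars ∪ (impL Ds A).vars at h
    rcases Finset.mem_union.1 h with h | h
    · exact Or.inr ⟨D, by simp, h⟩
    · rcases ih h with h | ⟨E, hE, h⟩
      · exact Or.inl h
      · exact Or.inr ⟨E, by simp [hE], h⟩

/-- elimination of a substituted disjunction -/
theorem disE {F : List Rule} (hF : IsFrege F) : ∃ c : ℕ, ∀ (S : Set ℕ) (P : List Fm → Prop),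
    Sys F S P → ∀ (ρ : ℕ → Fm) (X : Fm) (Ds : List Fm) (M : ℕ), 1 ≤ M → X.size ≤ M →
    ((disjL 0 Ds).subst ρ).size ≤ M → Ok S X → Ok S ((disjL 0 Ds).subst ρ) → ∀ Γ : Set Fm,
    (∀ D ∈ Ds, imp (D.subst ρ) X ∈ Γ) →
    Gen P Γ [imp ((disjL 0 Ds).subst ρ) X] (c * M * (Ds.length + 1)) := by
  obtain ⟨c₁, h₁⟩ := gschemaL hF [] (imp (neg (imp (var 0) (var 0))) (var 1)) (by
    intro v _; simp [eval])
  obtain ⟨c₂, h₂⟩ := gschemaL hF [imp (var 0) (var 2), imp (var 1) (var 2)]
    (imp (or (var 0) (var 1)) (var 2)) (by intro v h; simp [eval] at h ⊢; tauto)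
  refine ⟨c₁ + c₂, fun S P hP ρ X Ds M hM hX => ?_⟩
  induction Ds with
  | nil =>
    intro hs oX oD Γ _
    refine (h₁ S P hP [ρ 0, X] M hM ?_ ?_ Γ (by simp)).mono subset_rfl ?_
    · intro Y hY; simp at hY
      rcases hY with rfl | rfl
      · simp only [disjL, subst, size] at hs; omega
      · exact hX
    · intro Y hY; simp at hY
      rcases hY with rfl | rfl
      · intro x hx; exact oD x (by simp [disjL, subst, vars, hx])
      · exact oX
    · simp only [List.length_nil, zero_add, mul_one]
      exact Nat.mul_le_mul_right _ (by omega)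
  | cons D Ds ih =>
    intro hs oX oD Γ hΓ
    have hs' : (D.subst ρ).size ≤ M ∧ ((disjL 0 Ds).subst ρ).size ≤ M := by
      simp only [disjL, subst, size] at hs; omega
    have o1 : Ok S (D.subst ρ) := fun x hx => oD x (by simp [disjL, subst, vars, hx])
    have o2 : Ok S ((disjL 0 Ds).subst ρ) := fun x hx => oD x (by
      simp only [disjL, subst, vars, Finset.mem_union]; exact Or.inr hx)
    have h3 := ih hs'.2 oX o2 Γ (fun l' hl' => hΓ l' (by simp [hl']))
    have h5 := h₂ S P hP [D.subst ρ, (disjL 0 Ds).subst ρ, X] M hM (by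
      intro Y hY; simp at hY; rcases hY with rfl | rfl | rfl
      exacts [hs'.1, hs'.2, hX]) (by
      intro Y hY; simp at hY; rcases hY with rfl | rfl | rfl
      exacts [o1, o2, oX]) (Γ ∪ {B | B ∈ [imp ((disjL 0 Ds).subst ρ) X]}) (by
        intro A hA
        simp only [List.mem_cons, List.not_mem_nil, or_false] at hA
        rcases hA with rfl | rfl
        · left; exact hΓ D (by simp)
        · right; simp [subst, asg])
    refine (h3.cut h5).mono subset_rfl ?_
    simp only [List.length_cons]; nlinarith

/-- introduction of a substituted disjunction -/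
theorem disI {F : List Rule} (hF : IsFrege F) : ∃ c : ℕ, ∀ (S : Set ℕ) (P : List Fm → Prop),
    Sys F S P → ∀ (ρ : ℕ → Fm) (X : Fm) (Ds : List Fm) (M : ℕ), 1 ≤ M → X.size ≤ M →
    ((disjL 0 Ds).subst ρ).size ≤ M → Ok S X → Ok S ((disjL 0 Ds).subst ρ) → ∀ Γ : Set Fm,
    ∀ D ∈ Ds, imp X (D.subst ρ) ∈ Γ →
    Gen P Γ [imp X ((disjL 0 Ds).subst ρ)] (c * M * Ds.length) := by
  obtain ⟨c₁, h₁⟩ := gschemaL hF [imp (var 0) (var 1)] (imp (var 0) (or (var 1) (var 2))) (by
    intro v h; simp [eval] at h ⊢; tauto)
  obtain ⟨c₂, h₂⟩ := gschemaL hF [imp (var 0) (var 2)] (imp (var 0) (or (var 1) (var 2))) (by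
    intro v h; simp [eval] at h ⊢; tauto)
  refine ⟨c₁ + c₂, fun S P hP ρ X Ds M hM hX => ?_⟩
  induction Ds with
  | nil =>
    intro _ _ _ Γ D hD
    simp at hD
  | cons D Ds ih =>
    intro hs oX oD Γ C hC hΓ
    have hs' : (D.subst ρ).size ≤ M ∧ ((disjL 0 Ds).subst ρ).size ≤ M := by
      simp only [disjL, subst, size] at hs; omega
    have o1 : Ok S (D.subst ρ) := fun x hx => oD x (by simp [disjL, subst, vars, hx])
    have o2 : Ok S ((disjL 0 Ds).subst ρ) := fun x hx => oD x (by
      simp only [disjL, subst, vars, Finset.mem_union]; exact Or.inr hx)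
    rcases List.mem_cons.1 hC with rfl | hC
    · refine (h₁ S P hP [X, C.subst ρ, (disjL 0 Ds).subst ρ] M hM (by
        intro Y hY; simp at hY; rcases hY with rfl | rfl | rfl
        exacts [hX, hs'.1, hs'.2]) (by
        intro Y hY; simp at hY; rcases hY with rfl | rfl | rfl
        exacts [oX, o1, o2]) Γ (by
          intro A hA
          simp only [List.mem_cons, List.not_mem_nil, or_false] at hA
          subst hA
          exact hΓ)).mono subset_rfl ?_
      simp only [List.length_cons]
      calc c₁ * M ≤ (c₁ + c₂) * M := Nat.mul_le_mul_right _ (by omega)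
        _ ≤ (c₁ + c₂) * M * (Ds.length + 1) := Nat.le_mul_of_pos_right _ (Nat.succ_pos _)
    · have h3 := ih hs'.2 oX o2 Γ C hC hΓ
      have h5 := h₂ S P hP [X, D.subst ρ, (disjL 0 Ds).subst ρ] M hM (by
        intro Y hY; simp at hY; rcases hY with rfl | rfl | rfl
        exacts [hX, hs'.1, hs'.2]) (by
        intro Y hY; simp at hY; rcases hY with rfl | rfl | rfl
        exacts [oX, o1, o2]) (Γ ∪ {B | B ∈ [imp X ((disjL 0 Ds).subst ρ)]}) (by
          intro A hA
          simp only [List.mem_cons, List.not_mem_nil, or_false] at hA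
          subst hA
          right; simp [subst, asg])
      refine (h3.cut h5).mono subset_rfl ?_
      simp only [List.length_cons]; nlinarith

theorem tot (ct cE cI cS c3 cC cD c4 : ℕ) : ∃ K : ℕ, ∀ N n : ℕ, 2 ≤ N → n + n ≤ N →
    N + ((n + n) * (n * N ^ ct + N ^ ct + (cE * N * (n + 1) + cI * N * n + cS * N)) +
      (N ^ c3 + (cC * N + (n * (cD * N) + N ^ c4)))) ≤ N ^ K := by
  exact ⟨_, fun N n hN hn =>
    have h0 : n + n ≤ N ^ 1 := by simpa using hn
    have h1 : n ≤ N ^ 1 := by rw [pow_one]; omega
    have h1' : n + 1 ≤ N ^ (1 + 0 + 1) := add_pow hN h1 (show 1 ≤ N ^ 0 by simp)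
    have h2 : N ≤ N ^ 1 := by simp
    add_pow hN h2 (add_pow hN (mul_pow h0 (add_pow hN (add_pow hN (mul_pow h1 le_rfl) le_rfl)
      (add_pow hN (add_pow hN (mul_pow (mul_pow (le_pow_self hN cE) h2) h1')
        (mul_pow (mul_pow (le_pow_self hN cI) h2) h1)) (mul_pow (le_pow_self hN cS) h2))))
      (add_pow hN le_rfl (add_pow hN (mul_pow (le_pow_self hN cC) h2)
        (add_pow hN (mul_pow h1 (mul_pow (le_pow_self hN cD) h2)) le_rfl))))⟩

theorem bd1 : ∃ e : ℕ, ∀ M n l : ℕ, 2 ≤ M → n ≤ M → l ≤ M →
    (9 * n + M) * (4 * (n * (3 * l + 3) + n + 4)) + (4 * (4 * (n * (3 * l + 3) + n + 4)) +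
      (20 * n + M * 20 + 40)) ≤ M ^ e := by
  exact ⟨_, fun M n l hM hn hl =>
    have h1 : n ≤ M ^ 1 := by simpa using hn
    have h1l : l ≤ M ^ 1 := by simpa using hl
    have h2 : M ≤ M ^ 1 := by simp
    have h3 : 3 ≤ M ^ 3 := le_pow_self hM 3
    have h4 : 4 ≤ M ^ 4 := le_pow_self hM 4
    have h9 : 9 ≤ M ^ 9 := le_pow_self hM 9
    have h20 : 20 ≤ M ^ 20 := le_pow_self hM 20
    have h40 : 40 ≤ M ^ 40 := le_pow_self hM 40
    have e1 : 3 * l + 3 ≤ M ^ 8 := add_pow (a := 4) (b := 3) hM (mul_pow (a := 3) (b := 1) h3 h1l) h3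
    have e2 : n * (3 * l + 3) ≤ M ^ 9 := mul_pow (a := 1) (b := 8) h1 e1
    have e3 : n * (3 * l + 3) + n ≤ M ^ 11 := add_pow (a := 9) (b := 1) hM e2 h1
    have e4 : n * (3 * l + 3) + n + 4 ≤ M ^ 16 := add_pow (a := 11) (b := 4) hM e3 h4
    have hB : 4 * (n * (3 * l + 3) + n + 4) ≤ M ^ 20 := mul_pow (a := 4) (b := 16) h4 e4
    add_pow hM (mul_pow (add_pow hM (mul_pow h9 h1) h2) hB) (add_pow hM (mul_pow h4 hB)
      (add_pow hM (add_pow hM (mul_pow h20 h1) (mul_pow h2 h20)) h40))⟩

end T2Fx

open T2Fx in
theorem t_T2F {F : List Rule} (hF : IsFrege F) (h1 : S_TT F) (h2 : S_REPL F) (h3 : S_DIS F) :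
    S_T2F F := by
  obtain ⟨ct, Ht⟩ := h1
  obtain ⟨c3, H3⟩ := h2
  obtain ⟨c4, H4⟩ := h3
  obtain ⟨cE, HE⟩ := disE hF
  obtain ⟨cI, HI⟩ := disI hF
  obtain ⟨cS, HS⟩ := gschemaL hF [imp (var 0) (var 1), imp (var 1) (var 0)]
    (imp (var 2) (iff (var 0) (var 1))) (by intro v h; simp [eval, Fm.iff] at h ⊢; tauto)
  obtain ⟨cC, HC⟩ := gschemaL hF [imp (imp (var 0) (var 0)) (iff (var 1) (var 2)), var 1]
    (var 2) (by intro v h; simp [eval, Fm.iff] at h ⊢; tauto)
  obtain ⟨cD, HD⟩ := gschemaL hF [] (neg (iff (var 0) (neg (var 0)))) (by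
    intro v _; simp [eval, Fm.iff])
  obtain ⟨e, he⟩ := bd1
  obtain ⟨K, hK⟩ := tot ct cE cI cS c3 cC cD c4
  refine ⟨e * K, fun n l f A M hM hl hn hlM hf1 hf2 hA hAv Γ hΓ => ?_⟩
  have hn1 : 1 ≤ n := by
    obtain ⟨x, hx⟩ := Fm.vars_nonempty A
    have := hAv x hx
    omega
  have hlM' : l ≤ M := (Nat.lt_two_pow_self (n := l)).le.trans hlM
  have hN := he M n l hM hn hlM'
  rw [pow_mul]
  set N := M ^ e with hNdef
  set B := 4 * (n * (3 * l + 3) + n + 4) with hB
  have hpos : 0 < n * l := Nat.mul_pos (by omega) (by omega)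
  have hnl : n ≤ n * l := Nat.le_mul_of_pos_right n (by omega)
  have hsys := subSys F hpos
  set S : Set ℕ := {m | m < n * l} with hS
  set P := SubProof F (n * l) with hP
  set ρ := rho n l f with hρ
  set D : ℕ → Fm := fun v => (occ n l (f v)).subst ρ with hD
  have hDs : ∀ v, (D v).size ≤ B := by
    intro v
    have h6 := size_subst_le (σ := ρ) (M := 4) (by norm_num) (A := occ n l (f v))
      (fun x _ => rho_size n l f x)
    have h7 := occ_size n l (f v)
    calc (D v).size ≤ (occ n l (f v)).size * 4 := h6
      _ ≤ (n * (3 * l + 3) + n + 4) * 4 := Nat.mul_le_mul_right _ h7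
      _ = B := by rw [hB]; ring
  have hDok : ∀ v, Ok S (D v) := by
    intro v x hx
    obtain ⟨y, hy, hxy⟩ := vars_subst hx
    rw [hρ, rho_vars, Finset.mem_singleton] at hxy
    have := occ_vars hl hn1 hy
    show x < n * l
    omega
  have hXs : ∀ v, (XX n v).size ≤ 2 := by
    intro v; unfold XX; split_ifs <;> simp [size]
  have hXok : ∀ v < 2 * n, Ok S (XX n v) := by
    intro v hv x hx
    have : x < n := by
      unfold XX at hx
      split_ifs at hx with h
      · simp only [vars, Finset.mem_singleton] at hx; omega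
      · simp only [vars, Finset.mem_singleton] at hx; omega
    show x < n * l
    omega
  have hWsize : (dualRail n A).size ≤ 9 * n + M := by
    unfold dualRail
    rw [impL_size]
    have p2 := psize_map_le (fun i => neg (iff (var i) (var (n + i)))) 8 (List.range n)
      (fun i _ => le_rfl)
    rw [List.length_range] at p2
    simp only [List.length_map, List.length_range]
    omega
  have hWB : (9 * n + M) * B ≤ N := by omega
  have hB4 : 4 * B + 20 ≤ N := by omega
  have hnN : 20 * n + M * 20 + 40 ≤ N := by omega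
  have hN2 : 2 ≤ N := by omega
  have hMN : M ≤ N := by omega
  have hWDs : ((dualRail n A).subst D).size ≤ N := by
    have h6 := size_subst_le (σ := D) (M := B) (by omega) (A := dualRail n A)
      (fun x _ => hDs x)
    exact h6.trans ((Nat.mul_le_mul_right _ hWsize).trans hWB)
  have hWXs : ((dualRail n A).subst (XX n)).size ≤ N := by
    have h6 := size_subst_le (σ := XX n) (M := 2) (by omega) (A := dualRail n A)
      (fun x _ => hXs x)
    omega
  -- step 0
  have hsub : ((dualRail n A).subst (fun x => occ n l (f x))).subst ρ = (dualRail n A).subst D :=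
    Fm.subst_subst _ _ _
  have hWv : ∀ x ∈ (dualRail n A).vars, x < 2 * n := by
    intro x hx
    rcases impL_vars hx with h | ⟨E, hE, h⟩
    · have := hAv x h; omega
    · obtain ⟨i, hi, rfl⟩ := List.mem_map.1 hE
      have hi' := List.mem_range.1 hi
      simp only [Fm.iff, vars, Finset.mem_union, Finset.mem_singleton] at h
      omega
  have g0 : Gen P Γ [(dualRail n A).subst D] N := by
    have := Gen.subst (F := F) (K := n * l) hΓ ρ (by
      intro x hx
      rw [hsub] at hx
      obtain ⟨y, hy, hxy⟩ := vars_subst hx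
      exact hDok y x hxy)
    rw [hsub] at this
    exact this.le hWDs
  -- the equivalences
  set U : Fm := imp (var 0) (var 0) with hU
  have hUok : Ok S U := by
    intro x hx
    simp only [hU, vars, Finset.mem_union, Finset.mem_singleton, or_self] at hx
    subst hx
    exact hpos
  have hvN : ∀ v < 2 * n, Gen P (Γ ∪ {B | B ∈ [(dualRail n A).subst D]})
      [imp U (iff (D v) (XX n v))]
      (n * N ^ ct + N ^ ct + (cE * N * (n + 1) + cI * N * n + cS * N)) := by
    intro v hv
    set Γ' := Γ ∪ {B | B ∈ [(dualRail n A).subst D]} with hΓ'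
    set G : ℕ → Fm := fun i => (ceq l i (f v)).subst ρ with hG
    set i0 : ℕ := if v < n then v else v - n with hi0
    have hi0n : i0 < n := by rw [hi0]; split_ifs <;> omega
    have hXv : (XX n v).vars = {i0} := by
      unfold XX
      rw [hi0]
      split_ifs <;> simp [vars]
    have hGv : ∀ i, ∀ x ∈ (G i).vars, x = i := by
      intro i x hx
      obtain ⟨y, hy, hxy⟩ := vars_subst hx
      rw [hρ, rho_vars, Finset.mem_singleton] at hxy
      rw [hxy, ceq_vars hl hy]
    have hGs : ∀ i, (G i).size ≤ 4 * (3 * l + 3) := by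
      intro i
      have h6 := size_subst_le (σ := ρ) (M := 4) (by norm_num) (A := ceq l i (f v))
        (fun x _ => rho_size n l f x)
      have h7 := ceq_size l i (f v)
      calc (G i).size ≤ (ceq l i (f v)).size * 4 := h6
        _ ≤ (3 * l + 3) * 4 := Nat.mul_le_mul_right _ h7
        _ = _ := by ring
    have hGN : 4 * (3 * l + 3) ≤ B := by
      rw [hB]
      have : 3 * l + 3 ≤ n * (3 * l + 3) := Nat.le_mul_of_pos_left _ (by omega)
      omega
    have hbG : ∀ (i : ℕ), i < n → ∀ w : ℕ → Bool, (bev w (G i) = true ↔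
        v = if w i = true then i else n + i) := fun i hi w => bev_G hf1 hf2 hi hv w
    have hbX : ∀ w : ℕ → Bool, (bev w (XX n v) = true ↔
        v = if w i0 = true then i0 else n + i0) := by
      intro w
      unfold XX
      by_cases hvn : v < n
      · have e1 : i0 = v := by rw [hi0, if_pos hvn]
        rw [if_pos hvn, e1]
        simp only [bev]
        cases hw : w v <;> simp
        omega
      · have e1 : i0 = v - n := by rw [hi0, if_neg hvn]
        rw [if_neg hvn, e1]
        simp only [bev]
        cases hw : w (v - n) <;> simp <;> omega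
    have k1 : Gen P Γ' ((List.range n).map fun i => imp (G i) (XX n v)) (n * N ^ ct) := by
      have := Gen.many (P := P) (Γ := Γ') (fun i => imp (G i) (XX n v)) (N ^ ct) (List.range n)
        (fun i hi => by
          have hi' := List.mem_range.1 hi
          refine Ht S P hsys [i, i0] _ N hN2 ?_ ?_ ?_ ?_ ?_ Γ'
          · simp only [List.length_cons, List.length_nil]; omega
          · simp only [size]
            have := hGs i
            have := hXs v
            omega
          · intro x hx
            simp only [vars, Finset.mem_union, hXv, Finset.mem_singleton] at hx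
            rcases hx with hx | hx
            · rw [hGv i x hx]; simp
            · rw [hx]; simp
          · intro x hx
            simp only [List.mem_cons, List.not_mem_nil, or_false] at hx
            show x < n * l
            rcases hx with rfl | rfl <;> omega
          · intro w
            simp only [bev, Bool.or_eq_true, Bool.not_eq_true']
            by_cases hb : bev w (G i) = true
            · right
              have h8 := (hbG i hi' w).1 hb
              rw [hbX]
              have h9 : i0 = i := by
                rw [hi0]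
                split_ifs at h8 ⊢ <;> omega
              rw [h9]
              exact h8
            · left
              simpa using hb)
      rwa [List.length_range] at this
    have k2 : Gen P Γ' [imp (XX n v) (G i0)] (N ^ ct) := by
      refine Ht S P hsys [i0] _ N hN2 ?_ ?_ ?_ ?_ ?_ Γ'
      · simp only [List.length_cons, List.length_nil]; omega
      · simp only [size]
        have := hGs i0
        have := hXs v
        omega
      · intro x hx
        simp only [vars, Finset.mem_union, hXv, Finset.mem_singleton] at hx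
        rcases hx with hx | hx
        · rw [hx]; simp
        · rw [hGv i0 x hx]; simp
      · intro x hx
        simp only [List.mem_cons, List.not_mem_nil, or_false] at hx
        show x < n * l
        omega
      · intro w
        simp only [bev, Bool.or_eq_true, Bool.not_eq_true']
        by_cases hb : bev w (XX n v) = true
        · right
          rw [hbG i0 hi0n w]
          exact (hbX w).1 hb
        · left
          simpa using hb
    have k12 := k1.append k2
    have hDv : D v = (disjL 0 ((List.range n).map fun i => ceq l i (f v))).subst ρ := rfl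
    set Γ2 := Γ' ∪ {B | B ∈ (List.range n).map (fun i => imp (G i) (XX n v)) ++
      [imp (XX n v) (G i0)]} with hΓ2
    have k3 : Gen P Γ2 [imp (D v) (XX n v)] (cE * N * (n + 1)) := by
      have := HE S P hsys ρ (XX n v) ((List.range n).map fun i => ceq l i (f v)) N (by omega)
        (by have := hXs v; omega) (by rw [← hDv]; have := hDs v; omega) (hXok v hv)
        (by rw [← hDv]; exact hDok v) Γ2 (by
          intro E hE
          obtain ⟨i, hi, rfl⟩ := List.mem_map.1 hE
          exact Or.inr (List.mem_append_left _ (List.mem_map.2 ⟨i, hi, rfl⟩)))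
      rw [List.length_map, List.length_range] at this
      exact this
    have k4 : Gen P Γ2 [imp (XX n v) (D v)] (cI * N * n) := by
      have := HI S P hsys ρ (XX n v) ((List.range n).map fun i => ceq l i (f v)) N (by omega)
        (by have := hXs v; omega) (by rw [← hDv]; have := hDs v; omega) (hXok v hv)
        (by rw [← hDv]; exact hDok v) Γ2 (ceq l i0 (f v))
        (List.mem_map.2 ⟨i0, List.mem_range.2 hi0n, rfl⟩)
        (Or.inr (List.mem_append_right _ (by simp [hG])))
      rw [List.length_map, List.length_range] at this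
      exact this
    have k34 := k3.append k4
    have k5 : Gen P (Γ2 ∪ {B | B ∈ [imp (D v) (XX n v)] ++ [imp (XX n v) (D v)]})
        [imp U (iff (D v) (XX n v))] (cS * N) := by
      refine HS S P hsys [D v, XX n v, U] N (by omega) ?_ ?_ _ ?_
      · intro Y hY
        simp only [List.mem_cons, List.not_mem_nil, or_false] at hY
        rcases hY with rfl | rfl | rfl
        · have := hDs v; omega
        · have := hXs v; omega
        · simp only [hU, size]; omega
      · intro Y hY
        simp only [List.mem_cons, List.not_mem_nil, or_false] at hY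
        rcases hY with rfl | rfl | rfl
        exacts [hDok v, hXok v hv, hUok]
      · intro Y hY
        simp only [List.mem_cons, List.not_mem_nil, or_false] at hY
        rcases hY with rfl | rfl
        · exact Or.inr (by simp [subst, asg])
        · exact Or.inr (by simp [subst, asg])
    exact k12.cut (k34.cut k5)
  have g1 : Gen P (Γ ∪ {B | B ∈ [(dualRail n A).subst D]})
      ((List.range (n + n)).map fun v => imp U (iff (D v) (XX n v)))
      ((n + n) * (n * N ^ ct + N ^ ct + (cE * N * (n + 1) + cI * N * n + cS * N))) := by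
    have := Gen.many (P := P) (Γ := Γ ∪ {B | B ∈ [(dualRail n A).subst D]})
      (fun v => imp U (iff (D v) (XX n v)))
      (n * N ^ ct + N ^ ct + (cE * N * (n + 1) + cI * N * n + cS * N)) (List.range (n + n))
      (fun v hv => hvN v (by have := List.mem_range.1 hv; omega))
    rwa [List.length_range] at this
  set Γ1 := Γ ∪ {B | B ∈ [(dualRail n A).subst D]} with hΓ1
  set Γ2 := Γ1 ∪ {B | B ∈ (List.range (n + n)).map fun v => imp U (iff (D v) (XX n v))} with hΓ2
  have g2 : Gen P Γ2 [imp U (iff ((dualRail n A).subst D) ((dualRail n A).subst (XX n)))]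
      (N ^ c3) := by
    refine H3 S P hsys U (dualRail n A) D (XX n) N hN2 ?_ hWDs hWXs hUok
      (fun x _ => hDok x) (fun x hx => hXok x (hWv x hx)) Γ2 ?_
    · simp only [hU, size]; omega
    · intro x hx
      exact Or.inr (List.mem_map.2 ⟨x, List.mem_range.2 (by have := hWv x hx; omega), rfl⟩)
  set Γ3 := Γ2 ∪ {B | B ∈ [imp U (iff ((dualRail n A).subst D) ((dualRail n A).subst (XX n)))]}
    with hΓ3
  have hWDok : Ok S ((dualRail n A).subst D) := by
    intro x hx
    obtain ⟨y, hy, hxy⟩ := vars_subst hx
    exact hDok y x hxy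
  have hWXok : Ok S ((dualRail n A).subst (XX n)) := by
    intro x hx
    obtain ⟨y, hy, hxy⟩ := vars_subst hx
    exact hXok y (hWv y hy) x hxy
  have g3 : Gen P Γ3 [(dualRail n A).subst (XX n)] (cC * N) := by
    refine HC S P hsys [var 0, (dualRail n A).subst D, (dualRail n A).subst (XX n)] N (by omega)
      ?_ ?_ _ ?_
    · intro Y hY
      simp only [List.mem_cons, List.not_mem_nil, or_false] at hY
      rcases hY with rfl | rfl | rfl
      · simp only [size]; omega
      · exact hWDs
      · exact hWXs
    · intro Y hY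
      simp only [List.mem_cons, List.not_mem_nil, or_false] at hY
      rcases hY with rfl | rfl | rfl
      · intro x hx
        simp only [vars, Finset.mem_singleton] at hx
        subst hx
        exact hpos
      · exact hWDok
      · exact hWXok
    · intro Y hY
      simp only [List.mem_cons, List.not_mem_nil, or_false] at hY
      rcases hY with rfl | rfl
      · exact Or.inr (by simp [subst, asg, Fm.iff, hU])
      · exact Or.inl (Or.inl (Or.inr (by simp [subst, asg])))
  set Γ4 := Γ3 ∪ {B | B ∈ [(dualRail n A).subst (XX n)]} with hΓ4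
  have g4 : Gen P Γ4 ((List.range n).map fun i => neg (iff (var i) (neg (var i))))
      (n * (cD * N)) := by
    have := Gen.many (P := P) (Γ := Γ4) (fun i => neg (iff (var i) (neg (var i)))) (cD * N)
      (List.range n) (fun i hi => by
        refine HD S P hsys [var i] N (by omega) ?_ ?_ _ ?_
        · intro Y hY
          simp only [List.mem_cons, List.not_mem_nil, or_false] at hY
          subst hY
          simp only [size]; omega
        · intro Y hY
          simp only [List.mem_cons, List.not_mem_nil, or_false] at hY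
          subst hY
          intro x hx
          simp only [vars, Finset.mem_singleton] at hx
          have := List.mem_range.1 hi
          show x < n * l
          omega
        · intro Y hY
          simp at hY)
    rwa [List.length_range] at this
  have hAX : A.subst (XX n) = A := by
    rw [Fm.subst_congr (τ := var) (fun x hx => by unfold XX; rw [if_pos (hAv x hx)]),
      Fm.subst_var]
  have hWX : (dualRail n A).subst (XX n) =
      impL ((List.range n).map fun i => neg (iff (var i) (neg (var i)))) A := by
    unfold dualRail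
    rw [impL_subst, hAX, List.map_map]
    congr 1
    apply List.map_congr_left
    intro i hi
    have hi' := List.mem_range.1 hi
    have e1 : XX n i = var i := by unfold XX; rw [if_pos hi']
    have e2 : XX n (n + i) = neg (var i) := by
      unfold XX
      rw [if_neg (by omega), Nat.add_sub_cancel_left]
    simp only [Function.comp, subst, Fm.iff, e1, e2]
  have g5 : Gen P (Γ4 ∪ {B | B ∈ (List.range n).map fun i => neg (iff (var i) (neg (var i)))})
      [A] (N ^ c4) := by
    refine H4 S P hsys ((List.range n).map fun i => neg (iff (var i) (neg (var i)))) A N hN2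
      (by rw [← hWX]; exact hWXs) (by rw [← hWX]; exact hWXok) _ ?_ ?_
    · rw [← hWX]
      exact Or.inl (Or.inr (by simp))
    · intro E hE
      exact Or.inr hE
  have hfin := g0.cut (g1.cut (g2.cut (g3.cut (g4.cut g5))))
  refine hfin.le ?_
  exact hK N n hN2 (by omega)

end Pool.Agent.H543R3.PP
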