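import Pool.Agent.H543R3.PP.Defs

/-!
# Project PP, T2I (helper85): substitution Frege simulates Frege + permutation
-/

set_option autoImplicit false

namespace Pool.Agent.H543R3.PP

open Pool.Agent.H555R2.PF Pool.Agent.H555R2.PF.Fm

namespace T2I

theorem psize_le_mul {L : List Fm} {m : ℕ} (h : ∀ B ∈ L, B.size ≤ m) :
    psize L ≤ L.length * m := by
  induction L with
  | nil => simp [psize]
  | cons B L ih =>
    rw [psize_cons, List.length_cons]
    have h1 := h B (by simp)
    have h2 := ih fun C hC => h C (by simp [hC])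
    nlinarith

theorem ceq_size (l i v : ℕ) : (ceq l i v).size ≤ 3 * l + 3 := by
  unfold ceq cubeL
  rw [conjL_size]
  have h1 := psize_le_mul (L := ((List.range l).map fun j => (i * l + j, v.testBit j)).map
    fun p => sg p.2 (var p.1)) (m := 2) (by
      intro B hB
      obtain ⟨p, _, rfl⟩ := List.mem_map.1 hB
      exact sg_size _ _)
  simp only [List.length_map, List.length_range] at h1 ⊢
  omega

theorem occ_size {n l M : ℕ} (hM : 2 ≤ M) (hn : n ≤ M) (hl : 2 ^ l ≤ M) (v : ℕ) :
    (occ n l v).size ≤ M ^ 5 := by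
  unfold occ
  rw [disjL_size]
  have h1 := psize_le_mul (L := (List.range n).map fun i => ceq l i v) (m := 3 * l + 3) (by
      intro B hB
      obtain ⟨i, _, rfl⟩ := List.mem_map.1 hB
      exact ceq_size _ _ _)
  simp only [List.length_map, List.length_range] at h1 ⊢
  have h2 : l ≤ M := (Nat.lt_two_pow_self).le.trans hl
  have h3 : n * (3 * l + 3) ≤ M * (3 * M + 3) := Nat.mul_le_mul hn (by omega)
  have h4 : M ^ 5 = M * M * (M * M * M) := by ring
  have h5 : 2 * 2 * 2 ≤ M * M * M := Nat.mul_le_mul (Nat.mul_le_mul hM hM) hM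
  have h6 : M * M * 8 ≤ M ^ 5 := by
    rw [h4]; exact Nat.mul_le_mul_left _ (by omega)
  have h7 : 2 * M ≤ M * M := Nat.mul_le_mul_right _ hM
  nlinarith

theorem sg_vars (b : Bool) (A : Fm) : (sg b A).vars = A.vars := by
  cases b <;> simp [sg, vars]

theorem occ_vars {n l : ℕ} (hn : 1 ≤ n) (hl : 1 ≤ l) (v : ℕ) : ∀ x ∈ (occ n l v).vars,
    x < n * l := by
  intro x hx
  have h0 : 0 < n * l := Nat.mul_pos hn hl
  unfold occ at hx
  rcases disjL_vars hx with rfl | ⟨D, hD, hxD⟩
  · exact h0
  · obtain ⟨i, hi, rfl⟩ := List.mem_map.1 hD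
    rw [List.mem_range] at hi
    have h1 : (i + 1) * l ≤ n * l := Nat.mul_le_mul_right _ hi
    have h2 : (i + 1) * l = i * l + l := by ring
    unfold ceq cubeL at hxD
    rcases conjL_vars hxD with rfl | ⟨D, hD, hxD⟩
    · omega
    · obtain ⟨p, hp, rfl⟩ := List.mem_map.1 hD
      obtain ⟨j, hj, rfl⟩ := List.mem_map.1 hp
      rw [List.mem_range] at hj
      rw [sg_vars] at hxD
      simp only [vars, Finset.mem_singleton] at hxD
      omega

theorem subst_vars {σ : ℕ → Fm} {A : Fm} {y : ℕ} (h : y ∈ (A.subst σ).vars) :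
    ∃ x ∈ A.vars, y ∈ (σ x).vars := by
  induction A with
  | var n => exact ⟨n, by simp [vars], h⟩
  | neg A ih => exact ih h
  | and A B iA iB =>
    simp only [subst, vars, Finset.mem_union] at h
    rcases h with h | h
    · obtain ⟨x, h1, h2⟩ := iA h
      exact ⟨x, by simp [vars, h1], h2⟩
    · obtain ⟨x, h1, h2⟩ := iB h
      exact ⟨x, by simp [vars, h1], h2⟩
  | or A B iA iB =>
    simp only [subst, vars, Finset.mem_union] at h
    rcases h with h | h
    · obtain ⟨x, h1, h2⟩ := iA h
      exact ⟨x, by simp [vars, h1], h2⟩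
    · obtain ⟨x, h1, h2⟩ := iB h
      exact ⟨x, by simp [vars, h1], h2⟩
  | imp A B iA iB =>
    simp only [subst, vars, Finset.mem_union] at h
    rcases h with h | h
    · obtain ⟨x, h1, h2⟩ := iA h
      exact ⟨x, by simp [vars, h1], h2⟩
    · obtain ⟨x, h1, h2⟩ := iB h
      exact ⟨x, by simp [vars, h1], h2⟩

/-- one permutation step -/
theorem perm_step {F : List Rule} (hF : IsFrege F) (h1 : S_REPL F) (h2 : S_OCC F) :
    ∃ c : ℕ, ∀ (n l : ℕ) (A : Fm) (π : Equiv.Perm ℕ) (M : ℕ), 2 ≤ M → 1 ≤ n → 1 ≤ l → n ≤ M →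
      2 ^ l ≤ M → A.size ≤ M → (∀ x ∈ A.vars, x < 2 ^ l) → (∀ x, 2 ^ l ≤ x → π x = x) →
      ∀ Γ : Set Fm, A.subst (occ n l) ∈ Γ →
        Gen (SubProof F (n * l)) Γ [(A.rename π).subst (occ n l)] (M ^ c) := by
  obtain ⟨c1, hc1⟩ := h2
  obtain ⟨c2, hc2⟩ := h1
  obtain ⟨c3, hc3⟩ := gschemaL hF [var 0] (imp (var 1) (var 0)) (by
    intro v h
    simp [eval] at h ⊢
    tauto)
  obtain ⟨c4, hc4⟩ := gschemaL hF [imp (imp (var 2) (var 2)) (iff (var 0) (var 1)), var 0]
    (var 1) (by
    intro v h
    simp [eval, iff] at h ⊢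
    tauto)
  refine ⟨((c1 + 6) + (1 + (c1 + (c3 + (c1 + 8)) + 1)) + 1) +
    ((c1 + 8) * c2 + (c4 + (c1 + 8)) + 1) + 1, ?_⟩
  intro n l A π M hM hn hl hnM hlM hA hAv hπ Γ hΓ
  obtain ⟨ρ, hρ1, hρ2, hρ3⟩ := hc1 n l π M hM hn hl hnM hlM hπ
  have hnl : 0 < n * l := Nat.mul_pos hn hl
  have hM1 : ∀ k : ℕ, 1 ≤ M ^ k := fun k => Nat.one_le_pow _ _ (by omega)
  set σ : ℕ → Fm := fun x => (occ n l x).subst ρ with hσ
  set τ : ℕ → Fm := fun x => occ n l (π x) with hτ
  set U : Fm := imp (var 0) (var 0) with hU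
  have hsys : Sys F {m | m < n * l} (SubProof F (n * l)) := subSys F hnl
  have hσsz : ∀ x, (σ x).size ≤ M ^ (c1 + 5) := by
    intro x
    have e1 := Fm.size_subst_le (σ := ρ) (hM1 c1) (A := occ n l x) (fun y _ => hρ1 y)
    have e2 : (occ n l x).size * M ^ c1 ≤ M ^ 5 * M ^ c1 :=
      Nat.mul_le_mul_right _ (occ_size hM hnM hlM x)
    have e3 : M ^ (c1 + 5) = M ^ 5 * M ^ c1 := by rw [← pow_add]; congr 1; omega
    rw [e3]
    exact e1.trans e2
  have hτsz : ∀ x, (τ x).size ≤ M ^ 5 := fun x => occ_size hM hnM hlM _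
  have hσok : ∀ x, Ok {m | m < n * l} (σ x) := by
    intro x y hy
    obtain ⟨z, hz, hyz⟩ := subst_vars hy
    exact hρ2 z (occ_vars hn hl x z hz) y hyz
  have hτok : ∀ x, Ok {m | m < n * l} (τ x) := fun x y hy => occ_vars hn hl _ y hy
  have hAσ : (A.subst σ).size ≤ M ^ (c1 + 6) := by
    have e1 := Fm.size_subst_le (σ := σ) (hM1 (c1 + 5)) (A := A) (fun y _ => hσsz y)
    have e3 : M ^ (c1 + 6) = M * M ^ (c1 + 5) := by rw [← pow_succ']
    rw [e3]
    exact e1.trans (Nat.mul_le_mul_right _ hA)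
  have hAτ : (A.subst τ).size ≤ M ^ 6 := by
    have e1 := Fm.size_subst_le (σ := τ) (hM1 5) (A := A) (fun y _ => hτsz y)
    have e3 : M ^ 6 = M * M ^ 5 := by rw [← pow_succ']
    rw [e3]
    exact e1.trans (Nat.mul_le_mul_right _ hA)
  have hAσok : Ok {m | m < n * l} (A.subst σ) := by
    intro y hy
    obtain ⟨z, _, hyz⟩ := subst_vars hy
    exact hσok z y hyz
  have hAτok : Ok {m | m < n * l} (A.subst τ) := by
    intro y hy
    obtain ⟨z, _, hyz⟩ := subst_vars hy
    exact hτok z y hyz
  have hUok : Ok {m | m < n * l} U := by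
    intro y hy
    simp only [hU, vars, Finset.mem_union, Finset.mem_singleton, or_self] at hy
    subst hy
    exact hnl
  set M' := M ^ (c1 + 8) with hM'
  have hM'2 : M * M ≤ M' := by
    have : M * M = M ^ 2 := (sq M).symm
    rw [this]
    exact pow_mono hM (by omega)
  have hM'4 : 4 ≤ M' := (Nat.mul_le_mul hM hM).trans hM'2
  have hM'1 : 1 ≤ M' := by omega
  -- the substituted formula
  have hsub : (A.subst (occ n l)).subst ρ = A.subst σ := Fm.subst_subst _ _ _
  have e1 : Gen (SubProof F (n * l)) Γ [A.subst σ] (M ^ (c1 + 6)) := by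
    have := Gen.subst (F := F) (K := n * l) hΓ ρ (by rw [hsub]; exact hAσok)
    rw [hsub] at this
    exact this.le hAσ
  -- the equivalences
  have e2 : Gen (SubProof F (n * l)) Γ (A.vars.toList.map fun x => imp U (iff (σ x) (τ x)))
      (A.vars.toList.length * (M ^ c1 + c3 * M')) := by
    refine Gen.many (fun x => imp U (iff (σ x) (τ x))) _ _ fun x hx => ?_
    have hx' : x < 2 ^ l := hAv x (by simpa using hx)
    refine (hρ3 x hx' Γ).cut ?_
    have hiff : (iff (σ x) (τ x)).size ≤ M' := by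
      have a1 := hσsz x
      have a2 := (hτsz x).trans (pow_mono hM (by omega : 5 ≤ c1 + 5))
      have a3 : (iff (σ x) (τ x)).size = 2 * (σ x).size + 2 * (τ x).size + 3 := by
        simp only [iff, size]; ring
      have a4 : M' = M ^ (c1 + 5) * (M * M * M) := by rw [hM']; ring
      have a5 : 2 * 2 * 2 ≤ M * M * M := Nat.mul_le_mul (Nat.mul_le_mul hM hM) hM
      have a6 : M ^ (c1 + 5) * 8 ≤ M' := by
        rw [a4]; exact Nat.mul_le_mul_left _ (by omega)
      have a7 := hM1 (c1 + 5)
      omega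
    have := hc3 _ _ hsys [iff (σ x) (τ x), U] M' hM'1 (by
        intro X hX
        simp only [List.mem_cons, List.not_mem_nil, or_false] at hX
        rcases hX with rfl | rfl
        · exact hiff
        · simp only [hU, size]; omega) (by
        intro X hX
        simp only [List.mem_cons, List.not_mem_nil, or_false] at hX
        rcases hX with rfl | rfl
        · intro y hy
          simp only [iff, vars, Finset.mem_union] at hy
          rcases hy with (hy | hy) | (hy | hy)
          exacts [hσok x y hy, hτok x y hy, hτok x y hy, hσok x y hy]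
        · exact hUok)
      (Γ ∪ {B | B ∈ [iff ((occ n l x).subst ρ) (occ n l (π x))]}) (by
        intro B hB
        simp only [List.mem_cons, List.not_mem_nil, or_false] at hB
        subst hB
        right
        simp [subst, asg, hσ, hτ])
    simpa [subst, asg] using this
  -- replacement
  have e3 : ∀ Γ' : Set Fm, (∀ x ∈ A.vars, imp U (iff (σ x) (τ x)) ∈ Γ') →
      Gen (SubProof F (n * l)) Γ' [imp U (iff (A.subst σ) (A.subst τ))] (M' ^ c2) := by
    intro Γ' hΓ'
    refine hc2 _ _ hsys U A σ τ M' (by omega) ?_ ?_ ?_ hUok (fun x _ => hσok x)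
      (fun x _ => hτok x) Γ' hΓ'
    · simp only [hU, size]; omega
    · exact hAσ.trans (pow_mono hM (by omega))
    · exact hAτ.trans (pow_mono hM (by omega))
  have e4 : ∀ Γ' : Set Fm, A.subst σ ∈ Γ' → imp U (iff (A.subst σ) (A.subst τ)) ∈ Γ' →
      Gen (SubProof F (n * l)) Γ' [A.subst τ] (c4 * M') := by
    intro Γ' ha hb
    have := hc4 _ _ hsys [A.subst σ, A.subst τ, var 0] M' hM'1 (by
        intro X hX
        simp only [List.mem_cons, List.not_mem_nil, or_false] at hX
        rcases hX with rfl | rfl | rfl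
        · exact hAσ.trans (pow_mono hM (by omega))
        · exact hAτ.trans (pow_mono hM (by omega))
        · simp only [size]; omega) (by
        intro X hX
        simp only [List.mem_cons, List.not_mem_nil, or_false] at hX
        rcases hX with rfl | rfl | rfl
        · exact hAσok
        · exact hAτok
        · intro y hy
          simp only [vars, Finset.mem_singleton] at hy
          subst hy
          exact hnl) Γ' (by
        intro B hB
        simp only [List.mem_cons, List.not_mem_nil, or_false] at hB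
        rcases hB with rfl | rfl
        · simpa [subst, asg, iff, hU] using hb
        · simpa [subst, asg] using ha)
    simpa [subst, asg] using this
  have hgoal : (A.rename π).subst (occ n l) = A.subst τ := Fm.subst_subst _ _ _
  rw [hgoal]
  refine ((e1.append e2).cut ((e3 _ ?_).cut (e4 _ ?_ ?_))).le ?_
  · intro x hx
    right
    refine List.mem_append_right _ (List.mem_map.2 ⟨x, by simpa using hx, rfl⟩)
  · left
    right
    exact List.mem_append_left _ (by simp)
  · right
    simp
  · have hlen : A.vars.toList.length ≤ M ^ 1 := by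
      rw [pow_one, Finset.length_toList]
      exact (Fm.vars_card_le A).trans hA
    refine add_pow hM (add_pow hM le_rfl (mul_pow hlen (add_pow hM le_rfl
      (mul_pow (le_pow_self hM c3) le_rfl)))) (add_pow hM ?_ (mul_pow (le_pow_self hM c4) le_rfl))
    rw [hM', ← pow_mul]

end T2I

open T2I in
theorem t_T2I {F : List Rule} (hF : IsFrege F) (h1 : S_REPL F) (h2 : S_OCC F) : S_T2I F := by
  obtain ⟨c, hc⟩ := perm_step hF h1 h2
  refine ⟨c + 7, ?_⟩
  intro n l L M hM hn hl hnM hlM hL hLv hPL
  have hM1 : ∀ k : ℕ, 1 ≤ M ^ k := fun k => Nat.one_le_pow _ _ (by omega)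
  suffices h : ∃ L' : List Fm, SubProof F (n * l) L' ∧ (∀ W ∈ L, W.subst (occ n l) ∈ L') ∧
      psize L' ≤ L.length * M ^ (c + 6) by
    obtain ⟨L', a1, a2, a3⟩ := h
    refine ⟨L', a1, a2, a3.trans ?_⟩
    have : M ^ (c + 7) = M * M ^ (c + 6) := by rw [← pow_succ']
    rw [this]
    exact Nat.mul_le_mul_right _ ((length_le_psize L).trans hL)
  induction hPL with
  | nil => exact ⟨[], SubProof.nil, by simp, by simp [psize]⟩
  | @rule L B hP hB ih =>
    rw [psize_cons] at hL
    obtain ⟨L', a1, a2, a3⟩ := ih (by omega) fun C hC => hLv C (by simp [hC])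
    refine ⟨B.subst (occ n l) :: L', SubProof.rule a1 ?_ ?_, ?_, ?_⟩
    · obtain ⟨r, hr, σ, b1, b2⟩ := hB
      refine ⟨r, hr, fun x => (σ x).subst (occ n l), ?_, ?_⟩
      · rw [b1, Fm.subst_subst]
      · intro p hp
        rw [← Fm.subst_subst]
        exact a2 _ (b2 p hp)
    · intro y hy
      obtain ⟨x, _, hx⟩ := subst_vars hy
      exact occ_vars hn hl x y hx
    · intro W hW
      rcases List.mem_cons.1 hW with rfl | hW
      · simp
      · exact List.mem_cons_of_mem _ (a2 W hW)
    · rw [psize_cons, List.length_cons]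
      have b1 := Fm.size_subst_le (σ := occ n l) (hM1 5) (A := B)
        (fun y _ => occ_size hM hnM hlM y)
      have b2 : B.size * M ^ 5 ≤ M * M ^ 5 := Nat.mul_le_mul_right _ (by omega)
      have b3 : M * M ^ 5 = M ^ 6 := by rw [← pow_succ']
      have b4 : M ^ 6 ≤ M ^ (c + 6) := pow_mono hM (by omega)
      have b5 : (L.length + 1) * M ^ (c + 6) = L.length * M ^ (c + 6) + M ^ (c + 6) := by ring
      omega
  | @perm L B hP hB ih =>
    rw [psize_cons] at hL
    obtain ⟨L', a1, a2, a3⟩ := ih (by omega) fun C hC => hLv C (by simp [hC])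
    obtain ⟨A, hA, π, hπ, rfl⟩ := hB
    have hAv : ∀ x ∈ A.vars, x < 2 ^ l := fun x hx => hLv A (by simp [hA]) x hx
    have hAs : A.size ≤ M := (size_le_psize hA).trans (by omega)
    have hg := hc n l A π M hM hn hl hnM hlM hAs hAv (fun x hx => hπ x fun hxA => by
      have := hAv x hxA
      omega) {W | W ∈ L'} (a2 A hA)
    obtain ⟨D, b1, b2, b3⟩ := hg L' a1 (fun W hW => hW)
    refine ⟨D ++ L', b1, ?_, ?_⟩
    · intro W hW
      rcases List.mem_cons.1 hW with rfl | hW
      · exact b2 _ (by simp)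
      · exact List.mem_append_right _ (a2 W hW)
    · rw [psize_append, List.length_cons]
      have b4 : M ^ c ≤ M ^ (c + 6) := pow_mono hM (by omega)
      have b5 : (L.length + 1) * M ^ (c + 6) = L.length * M ^ (c + 6) + M ^ (c + 6) := by ring
      omega

end Pool.Agent.H543R3.PP
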