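import Pool.Agent.H543R3.PP.Defs

set_option autoImplicit false

/-! Project PP (helper543), task TT: truth tables (helper605). -/

namespace Pool.Agent.H543R3.PP

open Pool.Agent.H555R2.PF Pool.Agent.H555R2.PF.Fm

namespace TTaux

theorem cube_cons (z x : ℕ) (u : Bool) (l : List (ℕ × Bool)) :
    cubeL z ((x, u) :: l) = and (sg u (var x)) (cubeL z l) := rfl

theorem cube_size (z : ℕ) (l : List (ℕ × Bool)) : (cubeL z l).size ≤ 3 * l.length + 3 := by
  induction l with
  | nil => simp [cubeL, conjL, size]
  | cons p l ih =>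
    obtain ⟨x, u⟩ := p
    rw [cube_cons]
    have h := sg_size u (var x)
    simp only [size, List.length_cons] at h ⊢
    omega

theorem cube_ok {S : Set ℕ} (h0 : 0 ∈ S) {l : List (ℕ × Bool)} (h : ∀ p ∈ l, p.1 ∈ S) :
    Ok S (cubeL 0 l) := by
  induction l with
  | nil =>
    intro n hn
    simp only [cubeL, conjL, List.map_nil, vars, Finset.mem_union, Finset.mem_singleton] at hn
    have h1 : n = 0 := by tauto
    subst h1
    exact h0
  | cons p l ih =>
    obtain ⟨x, u⟩ := p
    rw [cube_cons]
    intro n hn
    simp only [vars, Finset.mem_union] at hn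
    rcases hn with hn | hn
    · have h1 : n = x := by cases u <;> simpa [sg, vars] using hn
      subst h1
      exact h (n, u) (by simp)
    · exact ih (fun q hq => h q (by simp [hq])) n hn

end TTaux

open TTaux in
theorem t_TT {F : List Rule} (hF : IsFrege F) (h1 : S_EVC F) : S_TT F := by
  obtain ⟨c0, hc0⟩ := h1
  obtain ⟨c1, hc1⟩ := gschemaL hF [imp (and (var 0) (var 1)) (var 2),
    imp (and (neg (var 0)) (var 1)) (var 2)] (imp (var 1) (var 2)) (by
      intro v h
      simp [eval] at h ⊢
      tauto)
  obtain ⟨c2, hc2⟩ := gschemaL hF [imp (imp (var 0) (var 0)) (var 1)] (var 1) (by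
      intro v h
      simp [eval] at h ⊢
      tauto)
  have key : ∀ (S : Set ℕ) (P : List Fm → Prop), Sys F S P → ∀ (φ : Fm) (B : ℕ), 2 ≤ B →
      φ.size ≤ B → Ok S φ → (∀ v : ℕ → Bool, bev v φ = true) → ∀ Γ : Set Fm,
      ∀ (xs : List ℕ) (l : List (ℕ × Bool)), (∀ x ∈ xs, x ∈ S) → (∀ p ∈ l, p.1 ∈ S) →
      (∀ x ∈ φ.vars, x ∈ xs ∨ ∃ u, (x, u) ∈ l) → 3 * (l.length + xs.length) + 3 ≤ B →
      Gen P Γ [imp (cubeL 0 l) φ] ((2 ^ (xs.length + 1) - 1) * (B ^ c0 + c1 * B)) := by
    intro S P hP φ B hB hφ hφS hv Γ xs
    induction xs with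
    | nil =>
      intro l _ hlS hl hlen
      classical
      have h2 := hc0 S P hP 0 l (fun x => if h : ∃ u, (x, u) ∈ l then h.choose else true) φ B hB
        ((cube_size 0 l).trans (by simp only [List.length_nil] at hlen; omega)) hφ
        (cube_ok hP.zero hlS) hφS (by
          intro x hx
          rcases hl x hx with h | h
          · simp at h
          · simp only [dif_pos h]
            exact h.choose_spec) Γ
      rw [hv] at h2
      have h3 : sg true φ = φ := by simp [sg]
      rw [h3] at h2
      refine h2.le ?_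
      simp
    | cons x xs ih =>
      intro l hxS hlS hl hlen
      have hstep : ∀ u : Bool, Gen P Γ [imp (cubeL 0 ((x, u) :: l)) φ]
          ((2 ^ (xs.length + 1) - 1) * (B ^ c0 + c1 * B)) := by
        intro u
        refine ih ((x, u) :: l) (fun y hy => hxS y (by simp [hy])) ?_ ?_ ?_
        · intro p hp
          rcases List.mem_cons.1 hp with rfl | hp
          · exact hxS _ (by simp)
          · exact hlS p hp
        · intro y hy
          rcases hl y hy with h | ⟨w, h⟩
          · rcases List.mem_cons.1 h with rfl | h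
            · exact Or.inr ⟨u, by simp⟩
            · exact Or.inl h
          · exact Or.inr ⟨w, by simp [h]⟩
        · simp only [List.length_cons] at hlen ⊢
          omega
      have h3 := (hstep true).append (hstep false)
      have h4 := hc1 S P hP [var x, cubeL 0 l, φ] B (by omega) (by
          intro X hX
          simp only [List.mem_cons, List.not_mem_nil, or_false] at hX
          rcases hX with rfl | rfl | rfl
          · simp only [size]; omega
          · exact (cube_size 0 l).trans (by simp only [List.length_cons] at hlen; omega)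
          · exact hφ) (by
          intro X hX
          simp only [List.mem_cons, List.not_mem_nil, or_false] at hX
          rcases hX with rfl | rfl | rfl
          · intro n hn
            simp only [vars, Finset.mem_singleton] at hn
            subst hn
            exact hxS n (by simp)
          · exact cube_ok hP.zero hlS
          · exact hφS)
        (Γ ∪ {C | C ∈ [imp (cubeL 0 ((x, true) :: l)) φ] ++ [imp (cubeL 0 ((x, false) :: l)) φ]})
        (by
          intro A hA
          simp only [List.mem_cons, List.not_mem_nil, or_false] at hA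
          right
          rcases hA with rfl | rfl
          · simp [subst, asg, cube_cons, sg]
          · simp [subst, asg, cube_cons, sg])
      refine (h3.cut h4).le ?_
      simp only [List.length_cons]
      have h5 : 1 ≤ 2 ^ (xs.length + 1) := Nat.one_le_two_pow
      obtain ⟨m, hm⟩ : ∃ m, 2 ^ (xs.length + 1) = m + 1 := ⟨2 ^ (xs.length + 1) - 1, by omega⟩
      have h6 : 2 ^ (xs.length + 1 + 1) - 1 = 2 * m + 1 := by
        rw [pow_succ, hm]
        omega
      rw [h6, hm, Nat.add_sub_cancel]
      have h7 : 0 ≤ B ^ c0 := Nat.zero_le _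
      nlinarith
  refine ⟨(1 + 1) + (4 * c0 + (c1 + 4) + 1) + (c2 + 4) + 1, ?_⟩
  intro S P hP xs φ M hM hxs hφ hφx hxS hv Γ
  have hlen : xs.length < 2 ^ xs.length := Nat.lt_two_pow_self
  have hM4 : 3 * M + 3 ≤ M ^ 4 := by
    have h8 : 2 ^ 3 ≤ M ^ 3 := Nat.pow_le_pow_left hM 3
    have h9 : M ^ 4 = M ^ 3 * M := pow_succ _ _
    nlinarith
  have hok : Ok S φ := fun n hn => hxS n (hφx n hn)
  have h3 := key S P hP φ (3 * M + 3) (by omega) (by omega) hok hv Γ xs [] hxS (by simp)
    (fun x hx => Or.inl (hφx x hx)) (by simp only [List.length_nil]; omega)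
  have h4 := hc2 S P hP [var 0, φ] M (by omega) (by
      intro X hX
      simp only [List.mem_cons, List.not_mem_nil, or_false] at hX
      rcases hX with rfl | rfl
      · simp only [size]; omega
      · exact hφ) (by
      intro X hX
      simp only [List.mem_cons, List.not_mem_nil, or_false] at hX
      rcases hX with rfl | rfl
      · intro n hn
        simp only [vars, Finset.mem_singleton] at hn
        subst hn
        exact hP.zero
      · exact hok)
    (Γ ∪ {C | C ∈ [imp (cubeL 0 []) φ]}) (by
      intro A hA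
      simp only [List.mem_cons, List.not_mem_nil, or_false] at hA
      subst hA
      right
      simp [subst, asg, cubeL, conjL])
  have h5 := h3.cut h4
  have h6 : Gen P Γ [φ] ((2 ^ (xs.length + 1) - 1) * ((3 * M + 3) ^ c0 + c1 * (3 * M + 3)) +
      c2 * M) := by
    simpa [subst, asg] using h5
  refine h6.le ?_
  have e1 : 2 ^ (xs.length + 1) - 1 ≤ M ^ (1 + 1) := by
    have : 2 ^ (xs.length + 1) = 2 ^ xs.length * 2 := pow_succ _ _
    have h10 : M ^ (1 + 1) = M * M := by ring
    rw [h10]
    have h11 : 2 ^ xs.length * 2 ≤ M * M := Nat.mul_le_mul hxs hM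
    omega
  have e2 : (3 * M + 3) ^ c0 ≤ M ^ (4 * c0) := by
    rw [pow_mul]
    exact Nat.pow_le_pow_left hM4 _
  have e3 : c1 * (3 * M + 3) ≤ M ^ (c1 + 4) := mul_pow (le_pow_self hM c1) hM4
  have e4 : (3 * M + 3) ^ c0 + c1 * (3 * M + 3) ≤ M ^ (4 * c0 + (c1 + 4) + 1) :=
    add_pow hM e2 e3
  have e5 := mul_pow e1 e4
  have e6 : c2 * M ≤ M ^ (c2 + 4) :=
    mul_pow (le_pow_self hM c2) (by
      calc M = M ^ 1 := (pow_one M).symm
        _ ≤ M ^ 4 := pow_mono hM (by omega))
  exact add_pow hM e5 e6

end Pool.Agent.H543R3.PP
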