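import Pool.Agent.H543R3.PP.Defs

/-!
# Project PP: the variables of the formulas of the gadgets
-/

set_option autoImplicit false

namespace Pool.Agent.H543R3.PP

open Pool.Agent.H555R2.PF Pool.Agent.H555R2.PF.Fm

theorem VAR_zconj (z : ℕ) (Ds : List Fm) : z ∈ (conjL z Ds).vars := by
  induction Ds with
  | nil => simp [conjL, vars]
  | cons D Ds ih => simp only [conjL, vars, Finset.mem_union]; exact Or.inr ih

theorem VAR_zdisj (z : ℕ) (Ds : List Fm) : z ∈ (disjL z Ds).vars := by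
  induction Ds with
  | nil => simp [disjL, vars]
  | cons D Ds ih => simp only [disjL, vars, Finset.mem_union]; exact Or.inr ih

theorem VAR_conj {z : ℕ} {Ds : List Fm} {n : ℕ} :
    n ∈ (conjL z Ds).vars ↔ n = z ∨ ∃ D ∈ Ds, n ∈ D.vars := by
  refine ⟨conjL_vars, ?_⟩
  rintro (rfl | ⟨D, hD, h⟩)
  · exact VAR_zconj _ _
  · induction Ds with
    | nil => simp at hD
    | cons C Cs ih =>
      simp only [conjL, vars, Finset.mem_union]
      rcases List.mem_cons.1 hD with rfl | hD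
      · exact Or.inl h
      · exact Or.inr (ih hD)

theorem VAR_disj {z : ℕ} {Ds : List Fm} {n : ℕ} :
    n ∈ (disjL z Ds).vars ↔ n = z ∨ ∃ D ∈ Ds, n ∈ D.vars := by
  refine ⟨disjL_vars, ?_⟩
  rintro (rfl | ⟨D, hD, h⟩)
  · exact VAR_zdisj _ _
  · induction Ds with
    | nil => simp at hD
    | cons C Cs ih =>
      simp only [disjL, vars, Finset.mem_union]
      rcases List.mem_cons.1 hD with rfl | hD
      · exact Or.inl h
      · exact Or.inr (ih hD)

theorem VAR_sg (t : Bool) (A : Fm) : (sg t A).vars = A.vars := by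
  cases t <;> simp [sg, vars]

theorem VAR_cube {z : ℕ} {l : List (ℕ × Bool)} {x : ℕ} :
    x ∈ (cubeL z l).vars ↔ x = z ∨ ∃ p ∈ l, x = p.1 := by
  rw [cubeL, VAR_conj]
  constructor
  · rintro (h | ⟨D, hD, h⟩)
    · exact Or.inl h
    · obtain ⟨p, hp, rfl⟩ := List.mem_map.1 hD
      rw [VAR_sg] at h
      simp only [vars, Finset.mem_singleton] at h
      exact Or.inr ⟨p, hp, h⟩
  · rintro (h | ⟨p, hp, h⟩)
    · exact Or.inl h
    · refine Or.inr ⟨sg p.2 (var p.1), List.mem_map.2 ⟨p, hp, rfl⟩, ?_⟩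
      rw [VAR_sg]
      simp only [vars, Finset.mem_singleton]
      exact h

theorem VAR_GG (b : ℕ) : 0 < GG b := by unfold GG; omega

theorem VAR_gv (n b i : ℕ) : gv n b i 0 = i := by simp [gv]

theorem VAR_eqf (n b i : ℕ) (s : St) (x : ℕ) :
    x ∈ (eqf n b i s).vars ↔ ∃ e < GG b, x = gv n b i e := by
  rw [eqf, VAR_cube]
  constructor
  · rintro (h | ⟨p, hp, h⟩)
    · exact ⟨0, VAR_GG b, by rw [VAR_gv, h]⟩
    · obtain ⟨e, he, rfl⟩ := List.mem_map.1 hp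
      exact ⟨e, List.mem_range.1 he, h⟩
  · rintro ⟨e, he, h⟩
    exact Or.inr ⟨(gv n b i e, Dv b s e), List.mem_map.2 ⟨e, List.mem_range.2 he, rfl⟩, h⟩

theorem VAR_sts (b : ℕ) : ((0, false, 0) : St) ∈ sts b := by
  rw [mem_sts]
  exact ⟨Nat.zero_le _, Nat.two_pow_pos b⟩

theorem VAR_valf (n b i x : ℕ) :
    x ∈ (valf n b i).vars ↔ ∃ e < GG b, x = gv n b i e := by
  rw [valf, VAR_disj]
  constructor
  · rintro (h | ⟨D, hD, h⟩)
    · exact ⟨0, VAR_GG b, by rw [VAR_gv, h]⟩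
    · obtain ⟨s, -, rfl⟩ := List.mem_map.1 hD
      exact (VAR_eqf n b i s x).1 h
  · intro h
    exact Or.inr ⟨eqf n b i (0, false, 0), List.mem_map.2 ⟨_, VAR_sts b, rfl⟩,
      (VAR_eqf n b i _ x).2 h⟩

theorem VAR_decf (n b β x : ℕ) (h : x ∈ (decf n b β).vars) :
    ∃ e < GG b, x = gv n b (β % n) e := by
  rw [decf, VAR_disj] at h
  rcases h with h | ⟨D, hD, h⟩
  · exact ⟨0, VAR_GG b, by rw [VAR_gv, h]⟩
  · obtain ⟨s, -, rfl⟩ := List.mem_map.1 hD
    exact (VAR_eqf n b (β % n) s x).1 h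

theorem VAR_EE (n b : ℕ) (hn : 1 ≤ n) (x : ℕ) :
    x ∈ (EE n b).vars ↔ ∃ i < n, ∃ e < GG b, x = gv n b i e := by
  rw [EE, VAR_conj]
  constructor
  · rintro (h | ⟨D, hD, h⟩)
    · exact ⟨0, hn, 0, VAR_GG b, by rw [VAR_gv, h]⟩
    · obtain ⟨i, hi, rfl⟩ := List.mem_map.1 hD
      exact ⟨i, List.mem_range.1 hi, (VAR_valf n b i x).1 h⟩
  · rintro ⟨i, hi, h⟩
    exact Or.inr ⟨valf n b i, List.mem_map.2 ⟨i, List.mem_range.2 hi, rfl⟩,
      (VAR_valf n b i x).2 h⟩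

theorem t_VAR : S_VAR := fun n b hn =>
  ⟨fun i s x => VAR_eqf n b i s x, fun i x => VAR_valf n b i x, fun β x h => VAR_decf n b β x h,
    fun x => VAR_EE n b hn x⟩

end Pool.Agent.H543R3.PP
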