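import Pool.Agent.H543R3.PP.Asm
import Pool.Agent.H543R3.PP.CM
import Pool.Agent.H543R3.PP.DE
import Pool.Agent.H543R3.PP.CI
import Pool.Agent.H543R3.PP.DI
import Pool.Agent.H543R3.PP.EV
import Pool.Agent.H543R3.PP.EVC
import Pool.Agent.H543R3.PP.REPL
import Pool.Agent.H543R3.PP.TT
import Pool.Agent.H543R3.PP.SUB1
import Pool.Agent.H543R3.PP.CUR
import Pool.Agent.H543R3.PP.DIS
import Pool.Agent.H543R3.PP.GV
import Pool.Agent.H543R3.PP.CNT
import Pool.Agent.H543R3.PP.INJ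
import Pool.Agent.H543R3.PP.PRM
import Pool.Agent.H543R3.PP.FLS
import Pool.Agent.H543R3.PP.VAR
import Pool.Agent.H543R3.PP.SIZ
import Pool.Agent.H543R3.PP.FL1
import Pool.Agent.H543R3.PP.FL
import Pool.Agent.H543R3.PP.IN1
import Pool.Agent.H543R3.PP.IN
import Pool.Agent.H543R3.PP.SO1
import Pool.Agent.H543R3.PP.SO
import Pool.Agent.H543R3.PP.SOA
import Pool.Agent.H543R3.PP.MA
import Pool.Agent.H543R3.PP.MB1
import Pool.Agent.H543R3.PP.MB2
import Pool.Agent.H543R3.PP.REN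
import Pool.Agent.H543R3.PP.OCC
import Pool.Agent.H543R3.PP.T2I
import Pool.Agent.H543R3.PP.T2F

/-!
# Project PP: linking
-/

set_option autoImplicit false

namespace Pool.Agent.H543R3.PP

open Pool.Agent.H555R2.PF Pool.Agent.H555R2.PF.Fm

theorem link (hBEV : S_GV → S_INJ → S_BEV)
    (hSIM : ∀ F : List Rule, IsFrege F → S_FL F → S_SUB1 F → S_SIZ → S_SIM F)
    {F : List Rule} (hF : IsFrege F) :
    (∃ c : ℕ, ∀ (n b k : ℕ) (A : Fm) (L : List Fm), (∀ x ∈ A.vars, x < n) →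
      k ≤ b * n → EFProof F A k (A :: L) →
      ∃ L', PermProof F (dualRail n A :: L') ∧
        psize (dualRail n A :: L') ≤ (psize (A :: L) + n + 2 ^ b) ^ c) ∧
    (∃ c : ℕ, ∀ (n b K : ℕ) (A : Fm) (L : List Fm), (∀ x ∈ A.vars, x < n) →
      2 * K ≤ (b + 1) * n → SubProof F K (A :: L) →
      ∃ L', PermProof F (dualRail n A :: L') ∧
        psize (dualRail n A :: L') ≤ (psize (A :: L) + n + 2 ^ b) ^ c) ∧
    (∃ c : ℕ, ∀ (n l : ℕ) (A : Fm) (L : List Fm), (∀ x ∈ A.vars, x < n) → 1 ≤ l →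
      PermProof F (dualRail n A :: L) → psize (dualRail n A :: L) ≤ 2 ^ l →
      ∃ L', SubProof F (n * l) (A :: L') ∧ psize (A :: L') ≤ 2 ^ (l * c)) ∧
    (SimDR F ↔ FewVars F) ∧ (SimEF F → FewVars F) := by
  have cm : S_CM F := t_CM hF
  have ci : S_CI F := t_CI hF
  have di : S_DI F := t_DI hF
  have de : S_DE F := t_DE hF
  have ev : S_EV F := t_EV hF
  have evc : S_EVC F := t_EVC hF cm ev
  have repl : S_REPL F := t_REPL hF
  have tt : S_TT F := t_TT hF evc
  have sub1 : S_SUB1 F := t_SUB1 hF repl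
  have cur : S_CUR F := t_CUR hF
  have dis : S_DIS F := t_DIS hF
  have gv := t_GV
  have cnt := t_CNT
  have inj := t_INJ cnt
  have prm := t_PRM gv cnt
  have bev := hBEV gv inj
  have fls := t_FLS
  have vr := t_VAR
  have siz := t_SIZ
  have fl1 : S_FL1 F := t_FL1 hF cm ci evc repl gv prm bev fls vr siz
  have fl : S_FL F := t_FL hF cm de fl1 siz
  have sim : S_SIM F := hSIM F hF fl sub1 siz
  have in1 : S_IN1 F := t_IN1 hF cm ci di de evc gv bev vr siz
  have inn : S_IN F := t_IN hF cm ci repl cur in1 siz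
  have so1 : S_SO1 F := t_SO1 hF de evc
  have so : S_SO F := t_SO hF so1
  have soa : S_SOA F := t_SOA hF so gv siz
  have ma : S_MA F := t_MA
  have mb1 : S_MB1 F := t_MB1 hF cm
  have mb2 : S_MB2 F := t_MB2 hF
  have ren : S_REN F := t_REN
  have occ : S_OCC F := t_OCC hF tt repl
  have t2i : S_T2I F := t_T2I hF repl occ
  have t2f : S_T2F F := t_T2F hF tt repl dis
  have p1 := part1 sim inn soa mb1 mb2
  have p2 := part2 sim inn soa ma
  have p3 := part3 ren t2i t2f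
  exact ⟨p1, p2, p3, ⟨part4 p3, part5 p2⟩, fun h => part4 p3 (part6 hF h)⟩

end Pool.Agent.H543R3.PP
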