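import Pool.Agent.H543R3.PP.Defs

/-!
# REN: renaming proofs with permutations
-/

set_option autoImplicit false

namespace Pool.Agent.H543R3.PP

open Pool.Agent.H555R2.PF Pool.Agent.H555R2.PF.Fm

private theorem REN_proof {F : List Rule} (f : Equiv.Perm ℕ) (L : List Fm) (h : PermProof F L) :
    PermProof F (L.map (Fm.rename f)) := by
  induction h with
  | nil => exact PermProof.nil
  | @rule L B hL hB ih =>
    obtain ⟨r, hr, σ, h1, h2⟩ := hB
    refine PermProof.rule ih ⟨r, hr, fun n => (σ n).rename f, ?_, ?_⟩
    · rw [h1]; exact subst_subst _ _ _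
    · intro p hp
      refine List.mem_map.2 ⟨_, h2 p hp, ?_⟩
      exact subst_subst _ _ _
  | @perm L B hL hB ih =>
    obtain ⟨A, hA, π, hπ, rfl⟩ := hB
    refine PermProof.perm ih ⟨A.rename f, List.mem_map.2 ⟨A, hA, rfl⟩,
      (f.symm.trans (π.trans f) : Equiv.Perm ℕ), ?_, ?_⟩
    · intro n hn
      rw [vars_rename, Finset.mem_image] at hn
      have h1 : f.symm n ∉ A.vars := by
        intro h2
        exact hn ⟨f.symm n, h2, f.apply_symm_apply n⟩
      change f (π (f.symm n)) = n
      rw [hπ _ h1, f.apply_symm_apply]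
    · unfold rename
      rw [subst_subst, subst_subst]
      congr 1
      funext n
      change var (f (π n)) = var (f (π (f.symm (f n))))
      rw [f.symm_apply_apply]

private theorem REN_perm (V : Finset ℕ) (N : ℕ) : V.card ≤ N →
    ∃ f : Equiv.Perm ℕ, ∀ x ∈ V, f x < N := by
  induction V using Finset.induction_on with
  | empty => intro _; exact ⟨1, fun x hx => absurd hx (Finset.notMem_empty x)⟩
  | insert a V ha ih =>
    intro hV
    rw [Finset.card_insert_of_notMem ha] at hV
    obtain ⟨f, hf⟩ := ih (by omega)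
    have h1 : ((Finset.range N) \ (V.image f)).Nonempty := by
      rw [← Finset.card_pos]
      have h2 := Finset.le_card_sdiff (V.image f) (Finset.range N)
      have h3 : (V.image f).card ≤ V.card := Finset.card_image_le
      rw [Finset.card_range] at h2
      omega
    obtain ⟨y, hy⟩ := h1
    rw [Finset.mem_sdiff, Finset.mem_range, Finset.mem_image] at hy
    refine ⟨f.trans (Equiv.swap (f a) y), ?_⟩
    intro x hx
    rw [Equiv.trans_apply]
    rcases Finset.mem_insert.mp hx with rfl | hx
    · rw [Equiv.swap_apply_left]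
      exact hy.1
    · have h2 : f x ≠ f a := fun h => ha (f.injective h ▸ hx)
      have h3 : f x ≠ y := fun h => hy.2 ⟨x, hx, h⟩
      rw [Equiv.swap_apply_of_ne_of_ne h2 h3]
      exact hf x hx

theorem t_REN {F : List Rule} : S_REN F := ⟨REN_proof, REN_perm⟩

end Pool.Agent.H543R3.PP
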