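import Pool.Agent.H543R3.PP.Defs

/-!
# Project PP: simulation of single substitutions
-/

set_option autoImplicit false

namespace Pool.Agent.H543R3.PP

open Pool.Agent.H555R2.PF Pool.Agent.H555R2.PF.Fm

theorem SIM_vars_subst {σ : ℕ → Fm} {x : ℕ} : ∀ {A : Fm}, x ∈ (A.subst σ).vars →
    ∃ y ∈ A.vars, x ∈ (σ y).vars := by
  intro A
  induction A with
  | var n => intro h; exact ⟨n, by simp [vars], h⟩
  | neg A ih => intro h; exact ih h
  | and A B iA iB =>
    intro h
    simp only [subst, vars, Finset.mem_union] at h
    rcases h with h | h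
    · obtain ⟨y, h1, h2⟩ := iA h; exact ⟨y, by simp [vars, h1], h2⟩
    · obtain ⟨y, h1, h2⟩ := iB h; exact ⟨y, by simp [vars, h1], h2⟩
  | or A B iA iB =>
    intro h
    simp only [subst, vars, Finset.mem_union] at h
    rcases h with h | h
    · obtain ⟨y, h1, h2⟩ := iA h; exact ⟨y, by simp [vars, h1], h2⟩
    · obtain ⟨y, h1, h2⟩ := iB h; exact ⟨y, by simp [vars, h1], h2⟩
  | imp A B iA iB =>
    intro h
    simp only [subst, vars, Finset.mem_union] at h
    rcases h with h | h
    · obtain ⟨y, h1, h2⟩ := iA h; exact ⟨y, by simp [vars, h1], h2⟩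
    · obtain ⟨y, h1, h2⟩ := iB h; exact ⟨y, by simp [vars, h1], h2⟩

theorem SIM_vars {F : List Rule} {N : ℕ} {L : List Fm} (h : SSub F N L) :
    ∀ B ∈ L, ∀ x ∈ B.vars, x < N := by
  induction h with
  | nil => intro B hB; simp at hB
  | rule _ _ hv ih =>
    intro B hB
    rcases List.mem_cons.1 hB with rfl | hB
    · exact hv
    · exact ih B hB
  | @ssub L A χ q _ hA hq hχ ih =>
    intro B hB x hx
    rcases List.mem_cons.1 hB with rfl | hB
    · obtain ⟨y, hy, hxy⟩ := SIM_vars_subst hx
      by_cases hyq : y = q
      · subst hyq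
        rw [Function.update_self] at hxy
        exact hχ x hxy
      · rw [Function.update_of_ne hyq] at hxy
        simp only [vars, Finset.mem_singleton] at hxy
        subst hxy
        exact ih A hA x hy
    · exact ih B hB x hx

theorem t_SIM {F : List Rule} (hF : IsFrege F) (h1 : S_FL F) (h2 : S_SUB1 F) (g6 : S_SIZ) :
    S_SIM F := by
  obtain ⟨c0, hc0⟩ := grules_ded hF
  obtain ⟨cF, hcF⟩ := h1
  obtain ⟨cS, hcS⟩ := h2
  obtain ⟨s, hs⟩ := g6
  refine ⟨1 + (c0 + (s + 2) + cF + (s + 2) * cS + 1), ?_⟩
  intro n b L M hM hn hnM hbM hL hP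
  obtain ⟨hEE, -, -, -, -, hdec, -⟩ := hs n b M hM hnM hbM
  generalize hc1 : c0 + (s + 2) + cF + (s + 2) * cS + 1 = c1
  have hM1 : 1 ≤ M := by omega
  have hone : ∀ k : ℕ, 1 ≤ M ^ k := fun k => Nat.one_le_pow _ _ (by omega)
  have hsub : ∀ A : Fm, A.size ≤ M → (A.subst (decf n b)).size ≤ M ^ (s + 2) := by
    intro A hA
    calc (A.subst (decf n b)).size ≤ A.size * M ^ s :=
          size_subst_le (hone s) fun x _ => hdec x
      _ ≤ M * M ^ s := Nat.mul_le_mul_right _ hA
      _ = M ^ (s + 1) := by rw [pow_succ]; ring
      _ ≤ M ^ (s + 2) := pow_mono hM (by omega)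
  have hsub1 : ∀ A : Fm, A.size ≤ M → (A.subst (decf n b)).size ≤ M ^ (s + 1) := by
    intro A hA
    calc (A.subst (decf n b)).size ≤ A.size * M ^ s :=
          size_subst_le (hone s) fun x _ => hdec x
      _ ≤ M * M ^ s := Nat.mul_le_mul_right _ hA
      _ = M ^ (s + 1) := by rw [pow_succ]; ring
  have hEE' : (EE n b).size ≤ M ^ (s + 2) := hEE.trans (pow_mono hM (by omega))
  suffices key : ∃ L' : List Fm, PermProof F L' ∧ (∀ W ∈ L, TR n b W ∈ L') ∧
      psize L' ≤ L.length * M ^ c1 by
    obtain ⟨L', k1, k2, k3⟩ := key
    refine ⟨L', k1, k2, k3.trans ?_⟩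
    calc L.length * M ^ c1 ≤ M * M ^ c1 :=
          Nat.mul_le_mul_right _ ((length_le_psize L).trans hL)
      _ = M ^ (1 + c1) := by ring
  induction hP with
  | nil => exact ⟨[], PermProof.nil, by simp, by simp [psize]⟩
  | @rule L B hP hB hv ih =>
    obtain ⟨L', k1, k2, k3⟩ := ih (by rw [psize_cons] at hL; omega)
    obtain ⟨r, hr, σ, hBσ, hpr⟩ := hB
    have hσsize : ∀ x ∈ r.rv, (σ x).size ≤ M := by
      intro x hx
      simp only [Rule.rv, Finset.mem_union, Finset.mem_biUnion, List.mem_toFinset] at hx
      rcases hx with hx | ⟨p, hp, hx⟩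
      · have e1 := size_le_subst (σ := σ) hx
        rw [← hBσ] at e1
        rw [psize_cons] at hL
        omega
      · have e1 := size_le_subst (σ := σ) hx
        have e2 := size_le_psize (hpr p hp)
        rw [psize_cons] at hL
        omega
    have hg := hc0 r hr Set.univ (PermProof F) (permSys F) (EE n b)
      (fun x => (σ x).subst (decf n b)) (M ^ (s + 2)) (hone _) hEE' (ok_univ _)
      (fun x hx => hsub _ (hσsize x hx)) (fun x _ => ok_univ _) {A | A ∈ L'} (by
        intro p hp
        have e3 := k2 _ (hpr p hp)
        unfold TR at e3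
        rw [subst_subst] at e3
        exact e3)
    obtain ⟨D, d1, d2, d3⟩ := hg L' k1 fun A hA => hA
    refine ⟨D ++ L', d1, ?_, ?_⟩
    · intro W hW
      rcases List.mem_cons.1 hW with rfl | hW
      · have e4 := d2 _ (List.mem_singleton.2 rfl)
        unfold TR
        rw [hBσ, subst_subst]
        exact e4
      · exact List.mem_append_right _ (k2 W hW)
    · rw [psize_append, List.length_cons, add_mul, one_mul]
      have e5 : c0 * M ^ (s + 2) ≤ M ^ c1 := by
        calc c0 * M ^ (s + 2) ≤ M ^ c0 * M ^ (s + 2) := Nat.mul_le_mul_right _ (le_pow_self hM c0)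
          _ = M ^ (c0 + (s + 2)) := (pow_add _ _ _).symm
          _ ≤ M ^ c1 := pow_mono hM (by rw [← hc1]; omega)
      omega
  | @ssub L A χ q hP hA hq hχ ih =>
    obtain ⟨L', k1, k2, k3⟩ := ih (by rw [psize_cons] at hL; omega)
    by_cases hqA : q ∈ A.vars
    · have hχs : χ.size ≤ M := by
        have e1 := size_le_subst (σ := Function.update var q χ) hqA
        rw [Function.update_self] at e1
        rw [psize_cons] at hL
        omega
      have hAs : A.size ≤ M := by
        have e2 := size_le_psize hA
        rw [psize_cons] at hL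
        omega
      have hFL := hcF n b q A M hM hn hnM hbM hAs hq (SIM_vars hP A hA) {A | A ∈ L'} (k2 A hA)
      obtain ⟨D, d1, d2, d3⟩ := hFL L' k1 fun A hA => hA
      have hM2 : 2 ≤ M ^ (s + 2) := by
        calc 2 ≤ M := hM
          _ = M ^ 1 := (pow_one M).symm
          _ ≤ M ^ (s + 2) := pow_mono hM (by omega)
      have hX1 : (χ.subst (decf n b)).size ≤ M ^ (s + 1) := hsub1 χ hχs
      have hUpd : (A.subst (Function.update (decf n b) q (χ.subst (decf n b)))).size ≤
          M ^ (s + 2) := by
        calc _ ≤ A.size * M ^ (s + 1) := size_subst_le (hone _) (by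
                intro x _
                by_cases hx : x = q
                · subst hx
                  rw [Function.update_self]
                  exact hX1
                · rw [Function.update_of_ne hx]
                  exact (hdec x).trans (pow_mono hM (by omega)))
          _ ≤ M * M ^ (s + 1) := Nat.mul_le_mul_right _ hAs
          _ = M ^ (s + 2) := by rw [show s + 2 = (s + 1) + 1 from rfl, pow_succ M (s + 1)]; ring
      have hSU := hcS Set.univ (PermProof F) (permSys F) (EE n b) A (χ.subst (decf n b))
        (decf n b) q (M ^ (s + 2)) hM2 hEE' (hsub χ hχs)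
        ((hdec q).trans (pow_mono hM (by omega))) (hsub A hAs) hUpd (ok_univ _) (ok_univ _)
        (ok_univ _) (fun _ _ => ok_univ _) {B | B ∈ D ++ L'}
        (List.mem_append_right _ (k2 A hA)) (d2 _ (List.mem_singleton.2 rfl))
      obtain ⟨D', d1', d2', d3'⟩ := hSU (D ++ L') d1 fun A hA => hA
      refine ⟨D' ++ (D ++ L'), d1', ?_, ?_⟩
      · intro W hW
        rcases List.mem_cons.1 hW with rfl | hW
        · have e4 := d2' _ (List.mem_singleton.2 rfl)
          unfold TR
          rw [subst_subst]
          have e5 : (fun x => (Function.update var q χ x).subst (decf n b)) =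
              Function.update (decf n b) q (χ.subst (decf n b)) := by
            funext x
            by_cases hx : x = q
            · subst hx
              rw [Function.update_self, Function.update_self]
            · rw [Function.update_of_ne hx, Function.update_of_ne hx]
              rfl
          rw [e5]
          exact e4
        · exact List.mem_append_right _ (List.mem_append_right _ (k2 W hW))
      · rw [psize_append, psize_append, List.length_cons, add_mul, one_mul]
        rw [← pow_mul] at d3'
        have e6 := add_pow hM d3 d3'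
        have e7 : M ^ (cF + (s + 2) * cS + 1) ≤ M ^ c1 := pow_mono hM (by rw [← hc1]; omega)
        omega
    · have hW : A.subst (Function.update var q χ) = A := by
        rw [subst_congr (τ := var), subst_var]
        intro x hx
        rw [Function.update_of_ne]
        rintro rfl
        exact hqA hx
      refine ⟨L', k1, ?_, ?_⟩
      · intro W hW'
        rcases List.mem_cons.1 hW' with rfl | hW'
        · rw [hW]
          exact k2 A hA
        · exact k2 W hW'
      · rw [List.length_cons, add_mul, one_mul]
        omega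

end Pool.Agent.H543R3.PP

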